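import Pool.Agent.H21.Defs

/-!
Numerical facts on the coefficients of `(1 - z^d)^u / (1 - z)^n` and their scaling limits.
-/

namespace Pool.Agent.H21

open Filter Topology

lemma sum_range_extend {M : Type*} [AddCommMonoid M] (N L : ℕ) (f : ℕ → M)
    (hN : ∀ k, N < k → f k = 0) (hL : ∀ k, L < k → f k = 0) :
    ∑ k ∈ Finset.range (N + 1), f k = ∑ k ∈ Finset.range (L + 1), f k := by
  have h1 : ∀ A : ℕ, (∀ k, A < k → f k = 0) →
      ∑ k ∈ Finset.range (A + 1), f k = ∑ k ∈ Finset.range (N + L + 1), f k ∨ N + L < A := by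
    intro A hA
    by_cases h : N + L < A
    · exact Or.inr h
    · left
      apply Finset.sum_subset
      · intro x hx
        rw [Finset.mem_range] at *
        omega
      · intro x _ hx
        rw [Finset.mem_range] at hx
        exact hA x (by omega)
  rcases h1 N hN with h | h
  · rcases h1 L hL with h' | h'
    · rw [h, h']
    · omega
  · omega

lemma fc_eq (n d u i : ℕ) (hd : 1 ≤ d) :
    serCoeff n d u i = ∑ k ∈ Finset.range (i + 1), (-1 : ℤ) ^ k * (u.choose k : ℤ) *
      (if d * k ≤ i then ((n - 1 + i - d * k).choose (n - 1) : ℤ) else 0) := by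
  unfold serCoeff
  apply sum_range_extend
  · intro k hk
    rw [Nat.choose_eq_zero_of_lt hk]
    simp
  · intro k hk
    rw [if_neg]
    · simp
    · intro h
      have : k ≤ d * k := Nat.le_mul_of_pos_left k hd
      omega

lemma hh_eq {F : Type*} [Field F] (d i : ℕ) (hd : 1 ≤ d) (c : F) :
    expCoeff d i c = ∑ k ∈ Finset.range (i + 1),
      if d * k ≤ i then (-c) ^ k / ((k.factorial : F) * ((i - d * k).factorial : F)) else 0 := by
  unfold expCoeff
  rw [← sum_range_extend (i / d) i]
  · refine Finset.sum_congr rfl fun k hk => ?_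
    rw [Finset.mem_range] at hk
    have h : d * k ≤ i := by
      calc d * k ≤ d * (i / d) := Nat.mul_le_mul_left d (by omega)
        _ ≤ i := Nat.mul_div_le i d
    rw [if_pos h]
  · intro k hk
    rw [if_neg]
    intro h
    have : k ≤ i / d := by
      rw [Nat.le_div_iff_mul_le hd, mul_comm]
      exact h
    omega
  · intro k hk
    rw [if_neg]
    intro h
    have : k ≤ d * k := Nat.le_mul_of_pos_left k hd
    omega

lemma fc_zero (n d i : ℕ) : serCoeff n d 0 i = ((n - 1 + i).choose (n - 1) : ℤ) := by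
  unfold serCoeff
  simp

lemma fc_succ (n d u i : ℕ) (hd : 1 ≤ d) :
    serCoeff n d (u + 1) i = serCoeff n d u i - (if d ≤ i then serCoeff n d u (i - d) else 0) := by
  rw [fc_eq n d (u + 1) i hd, fc_eq n d u i hd]
  rw [Finset.sum_range_succ', Finset.sum_range_succ' (n := i)]
  have h2 : (if d ≤ i then serCoeff n d u (i - d) else 0) = ∑ k ∈ Finset.range i,
      (-1 : ℤ) ^ k * (u.choose k : ℤ) *
      (if d * (k + 1) ≤ i then ((n - 1 + i - d * (k + 1)).choose (n - 1) : ℤ) else 0) := by
    by_cases h : d ≤ i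
    · rw [if_pos h, fc_eq n d u (i - d) hd]
      have h3 : ∑ k ∈ Finset.range i,
          (-1 : ℤ) ^ k * (u.choose k : ℤ) *
          (if d * (k + 1) ≤ i then ((n - 1 + i - d * (k + 1)).choose (n - 1) : ℤ) else 0) =
          ∑ k ∈ Finset.range ((i - 1) + 1),
          (-1 : ℤ) ^ k * (u.choose k : ℤ) *
          (if d * (k + 1) ≤ i then ((n - 1 + i - d * (k + 1)).choose (n - 1) : ℤ) else 0) := by
        rw [Nat.sub_add_cancel (by omega)]
      rw [h3]
      rw [← sum_range_extend (i - d) (i - 1)]
      · refine Finset.sum_congr rfl fun k hk => ?_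
        have h4 : d * (k + 1) = d * k + d := by ring
        by_cases h5 : d * k ≤ i - d
        · rw [if_pos h5, if_pos (by omega)]
          congr 3
          omega
        · rw [if_neg h5, if_neg (by omega)]
      · intro k hk
        rw [if_neg, mul_zero]
        have : k ≤ d * k := Nat.le_mul_of_pos_left k hd
        have h4 : d * (k + 1) = d * k + d := by ring
        omega
      · intro k hk
        rw [if_neg, mul_zero]
        have : k ≤ d * k := Nat.le_mul_of_pos_left k hd
        have h4 : d * (k + 1) = d * k + d := by ring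
        omega
    · rw [if_neg h]
      symm
      apply Finset.sum_eq_zero
      intro k _
      rw [if_neg, mul_zero]
      have h4 : d * (k + 1) = d * k + d := by ring
      omega
  rw [h2]
  have h5 : ∀ A B C E : ℤ, A = B - C → A + E = B + E - C := by intros; linarith
  simp only [Nat.choose_zero_right]
  apply h5
  rw [← Finset.sum_sub_distrib]
  refine Finset.sum_congr rfl fun k _ => ?_
  rw [Nat.choose_succ_succ, pow_succ]
  push_cast
  ring

lemma fc_nonneg_of_succ (n d u D : ℕ) (hd : 1 ≤ d) (h : ∀ m ≤ D, 0 ≤ serCoeff n d (u + 1) m) :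
    ∀ m ≤ D, 0 ≤ serCoeff n d u m := by
  intro m
  induction m using Nat.strong_induction_on with
  | _ m ih =>
    intro hm
    have h1 := fc_succ n d u m hd
    have h2 := h m hm
    by_cases h3 : d ≤ m
    · rw [if_pos h3] at h1
      have h4 := ih (m - d) (by omega) (by omega)
      linarith
    · rw [if_neg h3] at h1
      linarith

lemma fc_nonneg_of_le (n d D : ℕ) (hd : 1 ≤ d) (u u' : ℕ) (huu : u ≤ u')
    (h : ∀ m ≤ D, 0 ≤ serCoeff n d u' m) : ∀ m ≤ D, 0 ≤ serCoeff n d u m := by
  induction u', huu using Nat.le_induction with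
  | base => exact h
  | succ w _ ih => exact ih (fc_nonneg_of_succ n d w D hd h)

section Recursion

variable {F : Type*} [Field F] [CharZero F]

lemma hh_zero (d : ℕ) (c : F) : expCoeff d 0 c = 1 := by
  unfold expCoeff
  simp

lemma hh_succ (d i : ℕ) (hd : 1 ≤ d) (c : F) :
    ((i + 1 : ℕ) : F) * expCoeff d (i + 1) c =
      expCoeff d i c - c * (d : F) * (if d ≤ i + 1 then expCoeff d (i + 1 - d) c else 0) := by
  have hf : ∀ k : ℕ, (k.factorial : F) ≠ 0 := fun k => by exact_mod_cast k.factorial_ne_zero
  rw [hh_eq d (i + 1) hd, Finset.mul_sum]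
  have hterm : ∀ k ∈ Finset.range (i + 1 + 1),
      ((i + 1 : ℕ) : F) * (if d * k ≤ i + 1 then (-c) ^ k /
        ((k.factorial : F) * ((i + 1 - d * k).factorial : F)) else 0) =
      (if d * k ≤ i then (-c) ^ k / ((k.factorial : F) * ((i - d * k).factorial : F)) else 0) +
      (if d * k ≤ i + 1 then ((d * k : ℕ) : F) * ((-c) ^ k /
        ((k.factorial : F) * ((i + 1 - d * k).factorial : F))) else 0) := by
    intro k _
    by_cases h1 : d * k ≤ i
    · rw [if_pos h1, if_pos (by omega), if_pos (by omega)]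
      have h2 : i + 1 - d * k = (i - d * k) + 1 := by omega
      rw [h2, Nat.factorial_succ]
      have h3 : ((i + 1 : ℕ) : F) = ((i - d * k + 1 : ℕ) : F) + ((d * k : ℕ) : F) := by
        rw [← Nat.cast_add]
        congr 1
        omega
      rw [h3]
      have h4 := hf k
      have h5 := hf (i - d * k)
      have h6 : ((i - d * k + 1 : ℕ) : F) ≠ 0 := Nat.cast_ne_zero.mpr (Nat.succ_ne_zero _)
      push_cast at h6 ⊢
      field_simp
    · rw [if_neg h1, zero_add]
      by_cases h2 : d * k ≤ i + 1
      · rw [if_pos h2, if_pos h2]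
        congr 2
        omega
      · rw [if_neg h2, if_neg h2, mul_zero]
  rw [Finset.sum_congr rfl hterm, Finset.sum_add_distrib]
  have hA : ∑ k ∈ Finset.range (i + 1 + 1), (if d * k ≤ i then (-c) ^ k /
      ((k.factorial : F) * ((i - d * k).factorial : F)) else 0) = expCoeff d i c := by
    rw [hh_eq d i hd]
    apply sum_range_extend
    · intro k hk
      rw [if_neg]
      intro h
      have : k ≤ d * k := Nat.le_mul_of_pos_left k hd
      omega
    · intro k hk
      rw [if_neg]
      intro h
      have : k ≤ d * k := Nat.le_mul_of_pos_left k hd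
      omega
  have hB : ∑ k ∈ Finset.range (i + 1 + 1), (if d * k ≤ i + 1 then ((d * k : ℕ) : F) * ((-c) ^ k /
      ((k.factorial : F) * ((i + 1 - d * k).factorial : F))) else 0) =
      - (c * (d : F) * (if d ≤ i + 1 then expCoeff d (i + 1 - d) c else 0)) := by
    rw [Finset.sum_range_succ']
    have h0 : (if d * 0 ≤ i + 1 then ((d * 0 : ℕ) : F) * ((-c) ^ 0 /
      (((0 : ℕ).factorial : F) * ((i + 1 - d * 0).factorial : F))) else 0) = 0 := by
      simp
    rw [h0, add_zero]
    by_cases hdi : d ≤ i + 1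
    · rw [if_pos hdi, hh_eq d (i + 1 - d) hd]
      rw [sum_range_extend i (i + 1 - d)]
      · rw [Finset.mul_sum, ← Finset.sum_neg_distrib]
        refine Finset.sum_congr rfl fun k _ => ?_
        have h4 : d * (k + 1) = d * k + d := by ring
        by_cases h5 : d * k ≤ i + 1 - d
        · rw [if_pos h5, if_pos (by omega)]
          have h6 : i + 1 - d * (k + 1) = i + 1 - d - d * k := by omega
          rw [h6, Nat.factorial_succ, pow_succ]
          have h7 := hf k
          have h8 := hf (i + 1 - d - d * k)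
          have h9 : ((k + 1 : ℕ) : F) ≠ 0 := Nat.cast_ne_zero.mpr (Nat.succ_ne_zero _)
          push_cast at h9 ⊢
          field_simp
        · rw [if_neg h5, if_neg (by omega), mul_zero, neg_zero]
      · intro k hk
        rw [if_neg]
        have : k ≤ d * k := Nat.le_mul_of_pos_left k hd
        have h4 : d * (k + 1) = d * k + d := by ring
        omega
      · intro k hk
        rw [if_neg]
        have : k ≤ d * k := Nat.le_mul_of_pos_left k hd
        have h4 : d * (k + 1) = d * k + d := by ring
        omega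
    · rw [if_neg hdi, mul_zero, neg_zero]
      apply Finset.sum_eq_zero
      intro k _
      rw [if_neg]
      have h4 : d * (k + 1) = d * k + d := by ring
      omega
  rw [hA, hB]
  ring

/-- the normalized numbers `k! * expCoeff d k (v / d!)` -/
noncomputable def ee (F : Type*) [Field F] (d : ℕ) (v : F) (k : ℕ) : F :=
  (k.factorial : F) * expCoeff d k (v / (d.factorial : F))

lemma ee_zero (d : ℕ) (v : F) : ee F d v 0 = 1 := by
  unfold ee
  rw [hh_zero]
  simp

lemma ee_succ (d : ℕ) (hd : 1 ≤ d) (v : F) (k : ℕ) :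
    ee F d v (k + 1) = ee F d v k - (k.choose (d - 1) : F) * v * ee F d v (k + 1 - d) := by
  have hf : ∀ k : ℕ, (k.factorial : F) ≠ 0 := fun k => by exact_mod_cast k.factorial_ne_zero
  unfold ee
  have h1 := hh_succ d k hd (v / (d.factorial : F))
  have h2 : ((k + 1).factorial : F) = (k.factorial : F) * ((k + 1 : ℕ) : F) := by
    rw [Nat.factorial_succ]
    push_cast
    ring
  rw [h2, mul_assoc, h1, mul_sub]
  congr 1
  by_cases hdk : d ≤ k + 1
  · rw [if_pos hdk]
    have h3 : k.choose (d - 1) * (d - 1).factorial * (k + 1 - d).factorial = k.factorial := by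
      have h4 : k + 1 - d = k - (d - 1) := by omega
      rw [h4]
      exact Nat.choose_mul_factorial_mul_factorial (by omega)
    have h5 : (k.factorial : F) = (k.choose (d - 1) : F) * ((d - 1).factorial : F) *
        ((k + 1 - d).factorial : F) := by
      rw [← h3]
      push_cast
      ring
    have h6 : (d.factorial : F) = (d : F) * ((d - 1).factorial : F) := by
      obtain ⟨d', rfl⟩ : ∃ d', d = d' + 1 := ⟨d - 1, by omega⟩
      rw [Nat.factorial_succ]
      push_cast
      simp
    have h7 := hf (d - 1)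
    have h8 : (d : F) ≠ 0 := by
      have : d ≠ 0 := by omega
      exact_mod_cast this
    rw [h5, h6]
    field_simp
  · rw [if_neg hdk, Nat.choose_eq_zero_of_lt (by omega)]
    simp

end Recursion

section Limits

variable {ι : Type*} {F : Filter ι} {n u : ι → ℕ} {d : ℕ} {c : ℝ}

lemma tendsto_sub_div (hn : Tendsto n F atTop) (hd : 1 ≤ d)
    (hu : Tendsto (fun l => (u l : ℝ) / (n l : ℝ) ^ d) F (𝓝 c)) (k : ℕ) :
    Tendsto (fun l => ((u l - k : ℕ) : ℝ) / (n l : ℝ) ^ d) F (𝓝 c) := by
  have h0 : Tendsto (fun l => (k : ℝ) / (n l : ℝ) ^ d) F (𝓝 0) := by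
    apply Tendsto.div_atTop tendsto_const_nhds
    exact (tendsto_pow_atTop (by omega)).comp (tendsto_natCast_atTop_atTop.comp hn)
  have h1 : Tendsto (fun l => (u l : ℝ) / (n l : ℝ) ^ d - (k : ℝ) / (n l : ℝ) ^ d) F (𝓝 c) := by
    simpa using hu.sub h0
  refine tendsto_of_tendsto_of_tendsto_of_le_of_le h1 hu ?_ ?_
  · intro l
    simp only
    rw [← sub_div]
    apply div_le_div_of_nonneg_right _ (by positivity)
    have : u l ≤ (u l - k) + k := by omega
    have h2 : (u l : ℝ) ≤ ((u l - k : ℕ) : ℝ) + (k : ℝ) := by exact_mod_cast this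
    linarith
  · intro l
    simp only
    apply div_le_div_of_nonneg_right _ (by positivity)
    exact_mod_cast Nat.sub_le _ _

lemma tendsto_descFactorial (hn : Tendsto n F atTop) (hd : 1 ≤ d)
    (hu : Tendsto (fun l => (u l : ℝ) / (n l : ℝ) ^ d) F (𝓝 c)) (k : ℕ) :
    Tendsto (fun l => ((u l).descFactorial k : ℝ) / ((n l : ℝ) ^ d) ^ k) F (𝓝 (c ^ k)) := by
  induction k with
  | zero => simpa using tendsto_const_nhds
  | succ k ih =>
    have h1 := (tendsto_sub_div hn hd hu k).mul ih
    rw [← pow_succ'] at h1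
    refine h1.congr fun l => ?_
    rw [Nat.descFactorial_succ, pow_succ' ((n l : ℝ) ^ d) k]
    push_cast
    rw [div_mul_div_comm]

lemma tendsto_choose_u (hn : Tendsto n F atTop) (hd : 1 ≤ d)
    (hu : Tendsto (fun l => (u l : ℝ) / (n l : ℝ) ^ d) F (𝓝 c)) (k : ℕ) :
    Tendsto (fun l => ((u l).choose k : ℝ) / ((n l : ℝ) ^ d) ^ k) F
      (𝓝 (c ^ k / (k.factorial : ℝ))) := by
  have h1 := (tendsto_descFactorial hn hd hu k).div_const (k.factorial : ℝ)
  refine h1.congr fun l => ?_
  rw [Nat.descFactorial_eq_factorial_mul_choose]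
  push_cast
  have : (k.factorial : ℝ) ≠ 0 := by positivity
  field_simp

lemma tendsto_ascFactorial (hn : Tendsto n F atTop) (k : ℕ) :
    Tendsto (fun l => ((n l).ascFactorial k : ℝ) / (n l : ℝ) ^ k) F (𝓝 1) := by
  induction k with
  | zero => simpa using tendsto_const_nhds
  | succ k ih =>
    have h2 : Tendsto (fun l => (n l : ℝ)) F atTop := tendsto_natCast_atTop_atTop.comp hn
    have h3 : Tendsto (fun l => ((n l : ℝ) + k) / (n l : ℝ)) F (𝓝 1) := by
      have h4 : Tendsto (fun l => 1 + (k : ℝ) / (n l : ℝ)) F (𝓝 (1 + 0)) :=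
        tendsto_const_nhds.add (h2.const_div_atTop (k : ℝ))
      rw [add_zero] at h4
      refine h4.congr' ?_
      filter_upwards [h2.eventually_gt_atTop 0] with l hl
      rw [add_div, div_self hl.ne']
    have h1 := h3.mul ih
    rw [mul_one] at h1
    refine h1.congr fun l => ?_
    rw [Nat.ascFactorial_succ, pow_succ']
    push_cast
    rw [div_mul_div_comm]

lemma tendsto_choose_n (hn : Tendsto n F atTop) (k : ℕ) :
    Tendsto (fun l => ((n l - 1 + k).choose (n l - 1) : ℝ) / (n l : ℝ) ^ k) F
      (𝓝 (1 / (k.factorial : ℝ))) := by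
  have h1 := (tendsto_ascFactorial hn k).div_const (k.factorial : ℝ)
  refine h1.congr' ?_
  filter_upwards [hn.eventually_ge_atTop 1] with l hl
  have h2 : (n l - 1 + k).choose (n l - 1) = (n l + k - 1).choose k := by
    rw [show n l - 1 + k = n l + k - 1 by omega]
    rw [← Nat.choose_symm (show k ≤ n l + k - 1 by omega)]
    congr 1
    omega
  rw [h2, Nat.ascFactorial_eq_factorial_mul_choose']
  push_cast
  have : (k.factorial : ℝ) ≠ 0 := by positivity
  field_simp

lemma tendsto_fc (hn : Tendsto n F atTop) (hd : 1 ≤ d)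
    (hu : Tendsto (fun l => (u l : ℝ) / (n l : ℝ) ^ d) F (𝓝 c)) (i : ℕ) :
    Tendsto (fun l => (serCoeff (n l) d (u l) i : ℝ) / (n l : ℝ) ^ i) F (𝓝 (expCoeff d i c)) := by
  rw [hh_eq d i hd]
  have h1 : ∀ l, (serCoeff (n l) d (u l) i : ℝ) / (n l : ℝ) ^ i =
      ∑ k ∈ Finset.range (i + 1), ((-1 : ℝ) ^ k * ((u l).choose k : ℝ) *
      (if d * k ≤ i then ((n l - 1 + i - d * k).choose (n l - 1) : ℝ) else 0)) /
        (n l : ℝ) ^ i := by
    intro l
    rw [fc_eq (n l) d (u l) i hd, ← Finset.sum_div]
    congr 1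
    push_cast
    rfl
  simp only [h1]
  apply tendsto_finsetSum
  intro k _
  by_cases h : d * k ≤ i
  · simp only [if_pos h]
    have h2 := ((tendsto_choose_u hn hd hu k).mul (tendsto_choose_n hn (i - d * k))).const_mul
      ((-1 : ℝ) ^ k)
    have h3 : (-1 : ℝ) ^ k * (c ^ k / (k.factorial : ℝ) * (1 / ((i - d * k).factorial : ℝ))) =
        (-c) ^ k / ((k.factorial : ℝ) * ((i - d * k).factorial : ℝ)) := by
      rw [neg_pow c k]
      have : (k.factorial : ℝ) ≠ 0 := by positivity
      have : ((i - d * k).factorial : ℝ) ≠ 0 := by positivity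
      field_simp
    rw [h3] at h2
    refine h2.congr fun l => ?_
    have h4 : n l - 1 + i - d * k = n l - 1 + (i - d * k) := by omega
    have h5 : (n l : ℝ) ^ i = ((n l : ℝ) ^ d) ^ k * (n l : ℝ) ^ (i - d * k) := by
      rw [← pow_mul, ← pow_add]
      congr 1
      omega
    rw [h4, h5, div_mul_div_comm, ← mul_div_assoc, mul_assoc]
  · simp only [if_neg h, mul_zero, zero_div]
    exact tendsto_const_nhds

end Limits

end Pool.Agent.H21
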