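import Pool.Agent.H21.QR
import Pool.Agent.H21.Numeric

/-!
Inversion of the generating identity.
-/

set_option linter.unusedSectionVars false

namespace Pool.Agent.H21

open scoped Classical
open MvPolynomial

lemma sum_ser (n d : ℕ) (hd : 1 ≤ d) (E : ℕ) : ∀ u : ℕ,
    serCoeff n d 0 E = ∑ r ∈ Finset.range (E + 1), if r * d ≤ E then
      ((u + r - 1).choose r : ℤ) * serCoeff n d u (E - r * d) else 0 := by
  intro u
  induction u with
  | zero =>
    rw [Finset.sum_eq_single 0]
    · simp
    · intro r _ hr
      have : (0 + r - 1).choose r = 0 := Nat.choose_eq_zero_of_lt (by omega)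
      rw [this]
      simp
    · intro h
      exact absurd (Finset.mem_range.mpr (Nat.succ_pos E)) h
  | succ u ih =>
    rw [ih]
    set a : ℕ → ℤ := fun r => if r * d ≤ E then serCoeff n d u (E - r * d) else 0 with ha
    have h1 : ∀ r, (if r * d ≤ E then
        ((u + 1 + r - 1).choose r : ℤ) * serCoeff n d (u + 1) (E - r * d) else 0) =
        ((u + r).choose r : ℤ) * a r - ((u + r).choose r : ℤ) * a (r + 1) := by
      intro r
      have h2 : u + 1 + r - 1 = u + r := by omega
      have h3 : (r + 1) * d = r * d + d := by ring
      rw [h2]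
      simp only [ha]
      by_cases hr : r * d ≤ E
      · rw [if_pos hr, if_pos hr, fc_succ n d u _ hd]
        by_cases hr' : (r + 1) * d ≤ E
        · rw [if_pos hr', if_pos (by omega)]
          have h4 : E - r * d - d = E - (r + 1) * d := by omega
          rw [h4]
          ring
        · rw [if_neg hr', if_neg (by omega)]
          ring
      · rw [if_neg hr, if_neg hr, if_neg (by omega)]
        ring
    have h2 : ∀ r, (if r * d ≤ E then
        ((u + r - 1).choose r : ℤ) * serCoeff n d u (E - r * d) else 0) =
        ((u + r - 1).choose r : ℤ) * a r := by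
      intro r
      simp only [ha]
      split_ifs <;> simp
    rw [Finset.sum_congr rfl fun r _ => h1 r, Finset.sum_congr rfl fun r _ => h2 r,
      Finset.sum_sub_distrib, Finset.sum_range_succ', Finset.sum_range_succ',
      Finset.sum_range_succ (n := E) (f := fun r => ((u + r).choose r : ℤ) * a (r + 1))]
    have h3 : a (E + 1) = 0 := by
      simp only [ha]
      rw [if_neg]
      nlinarith
    rw [h3, mul_zero, add_zero]
    have h4 : ∀ r, ((u + (r + 1)).choose (r + 1) : ℤ) =
        ((u + r).choose r : ℤ) + ((u + (r + 1) - 1).choose (r + 1) : ℤ) := by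
      intro r
      have h5 : u + (r + 1) - 1 = u + r := by omega
      have h6 : u + (r + 1) = (u + r) + 1 := by omega
      rw [h5, h6, Nat.choose_succ_succ]
      push_cast
      ring
    have h5 : ∑ r ∈ Finset.range E, ((u + (r + 1)).choose (r + 1) : ℤ) * a (r + 1) =
        ∑ r ∈ Finset.range E, ((u + r).choose r : ℤ) * a (r + 1) +
        ∑ r ∈ Finset.range E, ((u + (r + 1) - 1).choose (r + 1) : ℤ) * a (r + 1) := by
      rw [← Finset.sum_add_distrib]
      refine Finset.sum_congr rfl fun r _ => ?_
      rw [h4]
      ring
    rw [h5]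
    simp
    ring

/-- The Hilbert function of an ideal with the quasi-regularity property. -/
theorem Hc_eq {K : Type} [Field K] {A : Type} [Fintype A] [Nonempty A] {ι : Type} [Fintype ι]
    {f : ι → MvPolynomial A K} {d : ℕ}
    (hf : ∀ l, (f l).IsHomogeneous d) (hd : 1 ≤ d) (D : ℕ)
    (hQR : ∀ r e, e + r * d ≤ D → ∀ F : MvPolynomial ι (MvPolynomial A K), F.IsHomogeneous r →
      (∀ m, (coeff m F).IsHomogeneous e) →
      eval f F ∈ (Ideal.span (Set.range f)) ^ (r + 1) →
      ∀ m, coeff m F ∈ Ideal.span (Set.range f)) :
    ∀ E ≤ D, Hc f E = serCoeff (Fintype.card A) d (Fintype.card ι) E := by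
  intro E
  induction E using Nat.strong_induction_on with
  | _ E ih =>
    intro hE
    have h1 := sum_Hc hf hd D hQR E hE
    have h2 := sum_ser (Fintype.card A) d hd E (Fintype.card ι)
    have hn : 0 < Fintype.card A := Fintype.card_pos
    have h3 : (Module.finrank K (homogeneousSubmodule A K E) : ℤ) =
        serCoeff (Fintype.card A) d 0 E := by
      rw [finrank_forms, fc_zero]
      have h4 : (Fintype.card A + E - 1) = Fintype.card A - 1 + E := by omega
      rw [h4]
      have h5 := Nat.choose_symm_add (a := Fintype.card A - 1) (b := E)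
      rw [h5]
    rw [h1, h2, Finset.sum_range_succ', Finset.sum_range_succ'] at h3
    have h6 : ∑ r ∈ Finset.range E, (if (r + 1) * d ≤ E then
        ((Fintype.card ι + (r + 1) - 1).choose (r + 1) : ℤ) * Hc f (E - (r + 1) * d) else 0) =
        ∑ r ∈ Finset.range E, (if (r + 1) * d ≤ E then
        ((Fintype.card ι + (r + 1) - 1).choose (r + 1) : ℤ) *
          serCoeff (Fintype.card A) d (Fintype.card ι) (E - (r + 1) * d) else 0) := by
      refine Finset.sum_congr rfl fun r _ => ?_
      split_ifs with h
      · have h7 : 0 < (r + 1) * d := by positivity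
        rw [ih (E - (r + 1) * d) (by omega) (by omega)]
      · rfl
    rw [h6] at h3
    simpa using h3

end Pool.Agent.H21
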