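import Pool.Agent.H21.Pol3
import Pool.Agent.H21.Invert

/-!
Existence of systems of forms with the expected Hilbert function.
-/

set_option linter.unusedSectionVars false

namespace Pool.Agent.H21

open scoped Classical
open MvPolynomial

/-- Positions whose label carries no generators do not matter. -/
lemma LEx_extend {K : Type} [Field K] {P : Type} [Fintype P] {A : Type} [Fintype A] [Nonempty A]
    {d : ℕ} (hd : 1 ≤ d) {lam : P → ℕ} {B : ℕ → Finset A} {C : Finset ℕ → Finset ℕ}
    {Q Q₀ : Finset P} {t : Sys K A}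
    (hC : ∀ q ∈ Q, q ∉ Q₀ → ∀ T, lam q ∈ T → C T = ∅)
    (hE : LEx d lam B C Q₀ t) : LEx d lam B C Q t := by
  have hne : ∀ l ∈ fam (CL d lam C), (Prod.fst l : Finset P).Nonempty := by
    intro l hl
    rw [mem_fam] at hl
    unfold CL at hl
    split_ifs at hl with h2
    · rw [← Finset.card_pos]
      omega
    · simp at hl
  refine Ex_of_inj (fun l _ => hb_mem _ (HL_mem lam t l)) hne ?_
  intro Q' hQ' hQ'ne
  by_cases hex : ∃ q ∈ Q', q ∉ Q₀
  · obtain ⟨q, hq, hqR⟩ := hex
    refine ⟨q, hq, ?_⟩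
    intro w _ _ l hl
    exfalso
    rw [mem_Sp, mem_fam] at hl
    obtain ⟨h3, h4, h5⟩ := hl
    unfold CL at h3
    split_ifs at h3 with h6
    · rw [hC q (hQ' hq) hqR _ (Finset.mem_image_of_mem lam h4)] at h3
      simp at h3
    · simp at h3
  · obtain ⟨q, hq⟩ := hQ'ne
    refine ⟨q, hq, Ex.inj (fun l _ => hb_mem _ (HL_mem lam t l)) hne hE ?_ hq⟩
    intro q' hq'
    by_contra h
    exact hex ⟨q', hq', h⟩

/-- The block of a variable. -/
def blkf (L m k : ℕ) (a : Fin (L + 1)) : ℕ := min (a.val / m) k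

lemma card_BB_blkf {L m k : ℕ} (hm : 0 < m) (hkm : k * m ≤ L + 1) {i : ℕ} (hi : i < k) :
    (BB (blkf L m k) i).card = m := by
  have h1 : BB (blkf L m k) i = Finset.univ.filter (fun a : Fin (L + 1) => a.val / m = i) := by
    ext a
    rw [mem_BB, Finset.mem_filter]
    unfold blkf
    simp only [Finset.mem_univ, true_and]
    constructor
    · intro h
      rcases min_choice (a.val / m) k with h2 | h2
      · rw [h2] at h; exact h
      · rw [h2] at h; omega
    · intro h
      rw [h]
      exact min_eq_left hi.le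
  rw [h1]
  have h2 : (Finset.univ.filter (fun a : Fin (L + 1) => a.val / m = i)).card =
      (Finset.range m).card := by
    symm
    have hlt : ∀ b < m, i * m + b < L + 1 := by
      intro b hb
      have : (i + 1) * m ≤ k * m := Nat.mul_le_mul_right m hi
      have h3 : (i + 1) * m = i * m + m := by ring
      omega
    refine Finset.card_bij (fun b hb => ⟨i * m + b, hlt b (Finset.mem_range.mp hb)⟩) ?_ ?_ ?_
    · intro b hb
      rw [Finset.mem_range] at hb
      rw [Finset.mem_filter]
      refine ⟨Finset.mem_univ _, ?_⟩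
      simp only
      rw [mul_comm, Nat.mul_add_div hm, Nat.div_eq_of_lt hb, add_zero]
    · intro b _ b' _ h
      have := congrArg Fin.val h
      simp only at this
      omega
    · intro a ha
      rw [Finset.mem_filter] at ha
      have h3 := Nat.div_add_mod a.val m
      rw [ha.2] at h3
      refine ⟨a.val % m, Finset.mem_range.mpr (Nat.mod_lt _ hm), ?_⟩
      apply Fin.ext
      simp only
      rw [mul_comm] at h3
      exact h3
  rw [h2, Finset.card_range]

theorem exact_exists (K : Type) [Field K] [CharZero K] [Infinite K] (d D : ℕ) (hd : 2 ≤ d)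
    (v₁ v : ℚ) (hv : 0 ≤ v) (hvv : v < v₁) (hpos : ∀ i ≤ D, 0 < ee ℚ d v₁ i) (k : ℕ) :
    ∃ N : ℕ, 0 < N ∧ ∀ m L : ℕ, N ∣ m → 0 < m → k * m ≤ L + 1 →
      ∀ u : ℕ, u ≤ k.choose d * ⌊v * (m : ℚ) ^ d⌋₊ →
      ∃ f : Fin u → MvPolynomial (Fin (L + 1)) K, (∀ l, (f l).IsHomogeneous d) ∧
        ∀ E ≤ D, Hc f E = serCoeff (L + 1) d u E := by
  -- the claims for all labellings
  let Q₀ : ∀ (e : Fin (D + 1)) (lam : Fin e.1 → Fin (k + 1)), Finset (Fin e.1) :=
    fun e lam => Finset.univ.filter (fun p => (lam p).1 < k)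
  have hclaim : ∀ x : (e : Fin (D + 1)) × (Fin e.1 → Fin (k + 1)),
      Claim K d (fun p => (x.2 p).1) (Q₀ x.1 x.2) v := by
    intro x
    refine claim_all (K := K) d hd v₁ (ee ℚ d v₁) (ee_zero d v₁) (ee_succ d (by omega) v₁) D hpos
      _ (Q₀ x.1 x.2) rfl ?_ _ _ rfl v hv hvv
    have h1 := Finset.card_le_univ (Q₀ x.1 x.2)
    rw [Fintype.card_fin] at h1
    have h2 := x.1.2
    omega
  choose Nf hNf hcl using hclaim
  refine ⟨∏ x, Nf x, Finset.prod_pos fun x _ => hNf x, ?_⟩
  intro m L hNm hm hkm u hu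
  set blk := blkf L m k with hblk
  -- the index set of the generators
  set Gfull : Finset (Finset ℕ × ℕ) :=
    (Finset.powersetCard d (Finset.range k)) ×ˢ (Finset.range ⌊v * (m : ℚ) ^ d⌋₊) with hGfull
  have hGfc : Gfull.card = k.choose d * ⌊v * (m : ℚ) ^ d⌋₊ := by
    rw [hGfull, Finset.card_product, Finset.card_powersetCard, Finset.card_range,
      Finset.card_range]
  obtain ⟨GI, hGIsub, hGIc⟩ := Finset.exists_subset_card_eq (s := Gfull) (n := u)
    (by rw [hGfc]; exact hu)
  have hGImem : ∀ x ∈ GI, x.1 ⊆ Finset.range k ∧ x.1.card = d ∧ x.2 < ⌊v * (m : ℚ) ^ d⌋₊ := by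
    intro x hx
    have := hGIsub hx
    rw [hGfull, Finset.mem_product, Finset.mem_powersetCard, Finset.mem_range] at this
    exact ⟨this.1.1, this.1.2, this.2⟩
  set C : Finset ℕ → Finset ℕ := fun T => (GI.filter (fun x => x.1 = T)).image Prod.snd with hC
  have hCmem : ∀ T l, l ∈ C T ↔ (T, l) ∈ GI := by
    intro T l
    rw [hC, Finset.mem_image]
    constructor
    · rintro ⟨⟨T', l'⟩, h1, h2⟩
      rw [Finset.mem_filter] at h1
      simp only at h1 h2
      rw [← h1.2, ← h2]
      exact h1.1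
    · intro h
      exact ⟨(T, l), Finset.mem_filter.mpr ⟨h, rfl⟩, rfl⟩
  have hGI : ∀ x, x ∈ GI ↔ x.1.card = d ∧ x.2 ∈ C x.1 := by
    rintro ⟨T, l⟩
    rw [hCmem]
    exact ⟨fun h => ⟨(hGImem _ h).2.1, h⟩, fun h => h.2⟩
  have hCc : ∀ T, ((C T).card : ℚ) ≤ v * (m : ℚ) ^ d := by
    intro T
    have h1 : C T ⊆ Finset.range ⌊v * (m : ℚ) ^ d⌋₊ := by
      intro l hl
      rw [hCmem] at hl
      exact Finset.mem_range.mpr (hGImem _ hl).2.2
    have h2 := Finset.card_le_card h1
    rw [Finset.card_range] at h2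
    have h3 : ((C T).card : ℚ) ≤ (⌊v * (m : ℚ) ^ d⌋₊ : ℚ) := by exact_mod_cast h2
    exact h3.trans (Nat.floor_le (by positivity))
  have hBc : ∀ i < k, (BB blk i).card = m := fun i hi => card_BB_blkf hm hkm hi
  -- choose the system
  let idx := (x : (e : Fin (D + 1)) × (Fin e.1 → Fin (k + 1))) × Finset (Fin x.1.1)
  let sp : idx → Spec (Fin (L + 1)) := fun s =>
    ⟨Fin s.1.1.1, inferInstance, fun p => (s.1.2 p).1, BB blk, C, s.2⟩
  obtain ⟨t, ht, hsat⟩ := spec_simul (K := K) (A := Fin (L + 1)) d (Finset.univ : Finset idx) sp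
    (by
      rintro ⟨x, Q'⟩ _
      have h1 := hcl x L (BB blk) (fun q hq => by
          rw [Finset.mem_filter] at hq
          rw [hBc _ hq.2]
          exact (Finset.dvd_prod_of_mem Nf (Finset.mem_univ x)).trans hNm) C
        (fun T hT hTd => by
          have h2 : ∏ i ∈ T, ((BB blk i).card : ℚ) = (m : ℚ) ^ d := by
            rw [← hTd, ← Finset.prod_const]
            refine Finset.prod_congr rfl fun i hi => ?_
            obtain ⟨q, hq, hqi⟩ := Finset.mem_image.mp (hT hi)
            rw [Finset.mem_filter] at hq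
            rw [hBc i (by rw [← hqi]; exact hq.2)]
          rw [h2]
          exact hCc T)
      obtain ⟨t, ht, hE⟩ := h1
      refine ⟨t, ht, ?_⟩
      have h3 : LEx d (fun p => (x.2 p).1) (BB blk) C Finset.univ t := by
        refine LEx_extend (by omega) ?_ hE
        intro q _ hq T hqT
        have h4 : k ≤ (x.2 q).1 := by
          by_contra h5
          push Not at h5
          exact hq (Finset.mem_filter.mpr ⟨Finset.mem_univ _, h5⟩)
        rw [Finset.eq_empty_iff_forall_notMem]
        intro l hl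
        rw [hCmem] at hl
        have h5 := (hGImem _ hl).1 hqT
        rw [Finset.mem_range] at h5
        omega
      exact h3 Q' (Finset.subset_univ _))
  have hLEx : ∀ e ≤ D, ∀ lam : Fin e → ℕ, (∀ p, lam p < k + 1) →
      LEx d lam (BB blk) C Finset.univ t := by
    intro e he lam hlam Q' _
    exact hsat ⟨⟨⟨e, by omega⟩, fun p => ⟨lam p, hlam p⟩⟩, Q'⟩ (Finset.mem_univ _)
  -- the forms
  let g : ↥GI → MvPolynomial (Fin (L + 1)) K := fun x => fpol blk t x.1.1 x.1.2
  have hg : ∀ l, (g l).IsHomogeneous d := by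
    intro l
    have h1 := fpol_homogeneous blk t l.1.1 l.1.2
    rw [(hGImem _ l.2).2.1] at h1
    exact h1
  have hspan : Ideal.span (Set.range g) = fI blk t GI := by
    unfold fI
    congr 1
    ext p
    constructor
    · rintro ⟨x, rfl⟩
      exact ⟨x.1, by exact_mod_cast x.2, rfl⟩
    · rintro ⟨x, hx, rfl⟩
      exact ⟨⟨x, by exact_mod_cast hx⟩, rfl⟩
  have hDS : ∀ e, e + d ≤ D → ∀ w : ↥GI → MvPolynomial (Fin (L + 1)) K,
      (∀ l, (w l).IsHomogeneous e) →
      (∀ a, ∑ l, w l * pderiv a (g l) ∈ Ideal.span (Set.range g)) →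
      ∀ l, w l ∈ Ideal.span (Set.range g) := by
    intro e he w hw hsum
    rw [hspan] at hsum ⊢
    let w' : Finset ℕ × ℕ → MvPolynomial (Fin (L + 1)) K := fun x =>
      if hx : x ∈ GI then w ⟨x, hx⟩ else 0
    have hw' : ∀ l : ↥GI, w' l.1 = w l := fun l => by
      simp only [w']
      rw [dif_pos l.2]
    have h1 := ds_main (K := K) (P := Fin (e + d)) (A := Fin (L + 1)) (blk := blk) ht
      (by omega) hGI (k := k + 1)
      (fun a => by
        rw [hblk]
        unfold blkf
        exact Nat.lt_succ_of_le (min_le_right _ _))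
      (fun x hx i hi => by
        have := (hGImem x hx).1 hi
        rw [Finset.mem_range] at this
        omega)
      (fun lam hlam => hLEx (e + d) he lam hlam) (by rw [Fintype.card_fin]) w'
      (fun x hx => by
        have := hw ⟨x, hx⟩
        rw [← hw' ⟨x, hx⟩] at this
        exact this)
      (fun a => by
        have := hsum a
        convert this using 1
        rw [← Finset.sum_coe_sort GI]
        refine Finset.sum_congr rfl fun l _ => ?_
        rw [hw' l])
    intro l
    rw [← hw' l]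
    exact h1 l.1 l.2
  have hQR := quasi_regular g d D (by omega) hg hDS
  have hH := Hc_eq hg (by omega) D hQR
  -- reindex
  have hcard : Fintype.card ↥GI = u := by rw [Fintype.card_coe, hGIc]
  let eq : Fin u ≃ ↥GI := (Fintype.equivFinOfCardEq hcard).symm
  refine ⟨g ∘ eq, fun l => hg _, ?_⟩
  intro E hE
  have h1 := hH E hE
  rw [Fintype.card_fin, hcard] at h1
  rw [← h1]
  unfold Hc Jr
  rw [Set.range_comp, eq.range_eq_univ, Set.image_univ]

end Pool.Agent.H21
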