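import Pool.Agent.H21.Super

/-!
The supercritical theorem.
-/

set_option linter.unusedSectionVars false

namespace Pool.Agent.H21

open scoped Classical
open MvPolynomial Filter Topology

lemma continuous_hh (d i : ℕ) : Continuous (fun c : ℝ => expCoeff d i c) := by
  unfold expCoeff
  fun_prop

lemma hh_cast (d i : ℕ) (c : ℚ) : ((expCoeff d i c : ℚ) : ℝ) = expCoeff d i (c : ℝ) := by
  unfold expCoeff
  push_cast
  rfl

lemma pos_of_hh_neg {d i : ℕ} {c : ℝ} (h : expCoeff d i c < 0) : 0 < c := by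
  by_contra hc
  push Not at hc
  have h1 : 0 ≤ expCoeff d i c := by
    unfold expCoeff
    apply Finset.sum_nonneg
    intro k _
    have : 0 ≤ -c := by linarith
    positivity
  linarith

/-- A rational point slightly to the left where some coefficient is still negative. -/
lemma exists_rat_left {d i : ℕ} {c : ℝ} (h : expCoeff d i c < 0) :
    ∃ c₁ ε : ℚ, 0 ≤ c₁ ∧ 0 < ε ∧ ((c₁ + ε : ℚ) : ℝ) ≤ c ∧ expCoeff d i c₁ < 0 := by
  have hc := pos_of_hh_neg h
  have h1 : ∀ᶠ x in 𝓝 c, expCoeff d i x < 0 :=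
    (continuous_hh d i).continuousAt.eventually_lt continuousAt_const h
  obtain ⟨δ, hδ, h2⟩ := Metric.eventually_nhds_iff.mp h1
  obtain ⟨c₁, h3, h4⟩ := exists_rat_btwn (show max (c - δ) 0 < c by
    rw [max_lt_iff]; constructor <;> linarith)
  obtain ⟨ε, h5, h6⟩ := exists_rat_btwn (show (0 : ℝ) < c - c₁ by linarith)
  rw [max_lt_iff] at h3
  refine ⟨c₁, ε, ?_, ?_, ?_, ?_⟩
  · have := h3.2.le
    exact_mod_cast this
  · exact_mod_cast h5
  · push_cast
    linarith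
  · have h7 : expCoeff d i (c₁ : ℝ) < 0 := by
      apply h2
      rw [Real.dist_eq, abs_lt]
      constructor <;> linarith [h3.1]
    rw [← hh_cast] at h7
    exact_mod_cast h7

theorem super_exists (d D : ℕ) (hd : 2 ≤ d) (c : ℝ) (h : ∃ i ≤ D, expCoeff d i c < 0) :
    ∃ n₀ : ℕ, ∀ n : ℕ, n₀ ≤ n → ∃ V : Submodule ℚ (MvPolynomial (Fin n) ℚ),
      V ≤ homogeneousSubmodule (Fin n) ℚ d ∧
      ((Module.finrank ℚ V : ℕ) : ℝ) ≤ c * (n : ℝ) ^ d ∧
      homogeneousSubmodule (Fin n) ℚ D ≤ prodSpan (D - d) V := by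
  obtain ⟨i, hi, hneg⟩ := h
  obtain ⟨c₁, ε, hc₁, hε, hcε, hneg₁⟩ := exists_rat_left hneg
  set v : ℚ := (d.factorial : ℚ) * c₁ with hvdef
  have hdf : (d.factorial : ℚ) ≠ 0 := by exact_mod_cast d.factorial_ne_zero
  have hv : 0 ≤ v := by positivity
  have hvd : v / (d.factorial : ℚ) = c₁ := by
    rw [hvdef]; field_simp
  have hex : ∃ i, ee ℚ d v i ≤ 0 := by
    refine ⟨i, ?_⟩
    unfold ee
    rw [hvd]
    have : (0 : ℚ) < (i.factorial : ℚ) := by positivity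
    nlinarith
  have hiD : Nat.find hex ≤ D := by
    refine (Nat.find_min' hex ?_).trans hi
    unfold ee
    rw [hvd]
    have : (0 : ℚ) < (i.factorial : ℚ) := by positivity
    nlinarith
  have hD₁ := Nat.find_spec hex
  have hmin : ∀ m < Nat.find hex, 0 < ee ℚ d v m := by
    intro m hm
    have := Nat.find_min hex hm
    push Not at this
    exact this
  set D₁ := Nat.find hex with hD₁def
  obtain ⟨D₂, hD₂⟩ : ∃ D₂, D₁ = D₂ + 1 := by
    refine ⟨D₁ - 1, ?_⟩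
    rcases Nat.eq_zero_or_pos D₁ with h0 | h0
    · rw [h0, ee_zero] at hD₁
      linarith
    · omega
  have hdD : d ≤ D₁ := by
    by_contra hlt
    push Not at hlt
    have h1 := ee_succ d (by omega) v D₂
    rw [Nat.choose_eq_zero_of_lt (by omega)] at h1
    have h2 := hmin D₂ (by omega)
    rw [hD₂, h1] at hD₁
    push_cast at hD₁
    linarith
  have hR : ∀ (k : ℕ) (X : Finset (Fin k)), X.card = D₁ → Reach ℚ (wA d v X) 0 := by
    intro k X hX
    exact reach_wA_super d (by omega) v hv (ee ℚ d v) (ee_zero d v) (ee_succ d (by omega) v)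
      D₂ X (by rw [hX, hD₂]) (fun i hi => hmin i (by omega)) (by rw [← hD₂]; exact hD₁)
  obtain ⟨n₀, hn₀⟩ := asym_exists (K := ℚ) d D₁ hd hdD v 0 hv le_rfl hR ε hε
  refine ⟨n₀, fun n hn => ?_⟩
  obtain ⟨V, hV1, hV2, hV3⟩ := hn₀ n hn
  refine ⟨V, hV1, ?_, ?_⟩
  · rw [hvd] at hV2
    have h1 : ((Module.finrank ℚ V : ℕ) : ℝ) ≤ ((c₁ + ε : ℚ) : ℝ) * (n : ℝ) ^ d := by
      exact_mod_cast hV2
    refine h1.trans ?_
    exact mul_le_mul_of_nonneg_right hcε (by positivity)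
  · apply prodSpan_full hdD hiD
    have h2 : prodSpan (D₁ - d) V ≤ homogeneousSubmodule (Fin n) ℚ D₁ := by
      have := prodSpan_le (e := D₁ - d) hV1
      rwa [Nat.sub_add_cancel hdD] at this
    have h3 : prodSpan (D₁ - d) V = homogeneousSubmodule (Fin n) ℚ D₁ := by
      apply Submodule.eq_of_le_of_finrank_le h2
      rw [zero_div, zero_mul, add_zero] at hV3
      exact_mod_cast hV3
    rw [h3]

/-- Some coefficient of the Fröberg series is negative in the supercritical range. -/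
theorem exists_fc_neg (d D : ℕ) (hd : 1 ≤ d) (c : ℝ) (h : ∃ i ≤ D, expCoeff d i c < 0) :
    ∃ n₀ : ℕ, ∀ n : ℕ, n₀ ≤ n → ∀ u : ℕ, c * (n : ℝ) ^ d ≤ (u : ℝ) →
      ∃ m ≤ D, serCoeff n d u m < 0 := by
  obtain ⟨i, hi, hneg⟩ := h
  have hc := pos_of_hh_neg hneg
  have hlim : Tendsto (fun n : ℕ => ((⌈c * (n : ℝ) ^ d⌉₊ : ℕ) : ℝ) / (n : ℝ) ^ d) atTop (𝓝 c) := by
    have h1 : Tendsto (fun n : ℕ => (n : ℝ) ^ d) atTop atTop :=
      (tendsto_pow_atTop (by omega)).comp tendsto_natCast_atTop_atTop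
    have h2 := (tendsto_nat_ceil_mul_div_atTop (R := ℝ) hc.le).comp h1
    exact h2
  have h3 := tendsto_fc (n := fun n : ℕ => n) tendsto_id hd hlim i
  have h4 : ∀ᶠ n : ℕ in atTop, (serCoeff n d ⌈c * (n : ℝ) ^ d⌉₊ i : ℝ) / (n : ℝ) ^ i < 0 :=
    h3.eventually_lt tendsto_const_nhds hneg
  obtain ⟨n₀, hn₀⟩ := eventually_atTop.mp h4
  refine ⟨n₀, fun n hn u hu => ?_⟩
  by_contra hcon
  push Not at hcon
  have h5 : ⌈c * (n : ℝ) ^ d⌉₊ ≤ u := Nat.ceil_le.mpr hu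
  have h6 := fc_nonneg_of_le n d D hd _ u h5 hcon i hi
  have h7 := hn₀ n hn
  have h8 : (0 : ℝ) ≤ (serCoeff n d ⌈c * (n : ℝ) ^ d⌉₊ i : ℝ) / (n : ℝ) ^ i := by
    have : (0 : ℝ) ≤ (serCoeff n d ⌈c * (n : ℝ) ^ d⌉₊ i : ℝ) := by exact_mod_cast h6
    positivity
  linarith

theorem super_main (d j : ℕ) (hd : 2 ≤ d) (c : ℝ) (h : ∃ i ≤ j + d, expCoeff d i c < 0) :
    ∃ n₀ : ℕ, ∀ n : ℕ, n₀ ≤ n → ∀ u : ℕ, c * (n : ℝ) ^ d ≤ (u : ℝ) →
      (∃ m ≤ j + d, serCoeff n d u m < 0) ∧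
      ∀ (K : Type) [Field K] [CharZero K],
        u ≤ Module.finrank K (homogeneousSubmodule (Fin n) K d) →
        ∃ V : Submodule K (MvPolynomial (Fin n) K), V ≤ homogeneousSubmodule (Fin n) K d ∧
          Module.finrank K V = u ∧ prodSpan j V = homogeneousSubmodule (Fin n) K (j + d) := by
  obtain ⟨n₁, h₁⟩ := super_exists d (j + d) hd c h
  obtain ⟨n₂, h₂⟩ := exists_fc_neg d (j + d) (by omega) c h
  refine ⟨max n₁ n₂, fun n hn u hu => ⟨h₂ n ((le_max_right _ _).trans hn) u hu, ?_⟩⟩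
  intro K _ _ huK
  obtain ⟨V₀, hV1, hV2, hV3⟩ := h₁ n ((le_max_left _ _).trans hn)
  have hfd : FiniteDimensional ℚ V₀ := Submodule.finiteDimensional_of_le hV1
  have h4 : Module.finrank K (bc (K := K) V₀) ≤ u := by
    refine (finrank_bc_le V₀).trans ?_
    have : ((Module.finrank ℚ V₀ : ℕ) : ℝ) ≤ (u : ℝ) := hV2.trans hu
    exact_mod_cast this
  obtain ⟨V, hVV, hVd, hVu⟩ := exists_extend (homogeneousSubmodule (Fin n) K d) u huK
    (bc (K := K) V₀) (bc_le_homogeneous hV1) h4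
  refine ⟨V, hVd, hVu, ?_⟩
  apply le_antisymm
  · exact prodSpan_le hVd
  · have h5 : j + d - d = j := by omega
    rw [h5] at hV3
    calc homogeneousSubmodule (Fin n) K (j + d) ≤
        bc (K := K) (homogeneousSubmodule (Fin n) ℚ (j + d)) := homogeneous_le_bc n (j + d)
      _ ≤ bc (K := K) (prodSpan j V₀) := bc_mono hV3
      _ ≤ prodSpan j (bc (K := K) V₀) := bc_prodSpan_le V₀
      _ ≤ prodSpan j V := prodSpan_mono hVV

end Pool.Agent.H21
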