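import Pool.Agent.H21.LowIneq
import Pool.Agent.H21.SubFinal

/-!
Leading monomials and the dimension of a product of a space of forms with all forms of degree `d`.
-/

set_option linter.unusedSectionVars false

namespace Pool.Agent.H21.Low

open Finset MvPolynomial
open scoped Classical

variable {K : Type} [Field K] {n : ℕ}

/-- the lexicographic order -/
noncomputable abbrev mo (n : ℕ) : MonomialOrder (Fin n) := MonomialOrder.lex

/-- the leading monomials of a space -/
def LM (W : Submodule K (MvPolynomial (Fin n) K)) : Set (Fin n →₀ ℕ) :=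
  {t | ∃ w ∈ W, w ≠ 0 ∧ (mo n).degree w = t}

lemma finrank_le_of_LM (W : Submodule K (MvPolynomial (Fin n) K)) (T : Finset (Fin n →₀ ℕ))
    (hT : ∀ t ∈ LM W, t ∈ T) : Module.finrank K W ≤ T.card := by
  let φ : W →ₗ[K] (T → K) :=
    { toFun := fun w t => coeff t.1 w.1
      map_add' := fun _ _ => by
        funext t
        simp
      map_smul' := fun _ _ => by
        funext t
        simp }
  have hφ : Function.Injective φ := by
    rw [← LinearMap.ker_eq_bot, LinearMap.ker_eq_bot']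
    intro w hw
    by_contra hne
    have hne' : w.1 ≠ 0 := fun h => hne (Subtype.ext h)
    have h1 : (mo n).degree w.1 ∈ T := hT _ ⟨w.1, w.2, hne', rfl⟩
    have h2 := congrFun hw ⟨_, h1⟩
    have h3 : (mo n).leadingCoeff w.1 ≠ 0 := MonomialOrder.leadingCoeff_ne_zero_iff.mpr hne'
    exact h3 h2
  have h1 := LinearMap.finrank_le_finrank_of_injective hφ
  rwa [Module.finrank_fintype_fun_eq_card, Fintype.card_coe] at h1

lemma card_le_finrank_of_LM (U : Submodule K (MvPolynomial (Fin n) K)) [FiniteDimensional K U]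
    (T : Finset (Fin n →₀ ℕ)) (hT : ∀ t ∈ T, t ∈ LM U) : T.card ≤ Module.finrank K U := by
  have h1 : ∀ t : T, ∃ w : U, w.1 ≠ 0 ∧ (mo n).degree w.1 = t.1 := by
    rintro ⟨t, ht⟩
    obtain ⟨w, hw, hw0, hwt⟩ := hT t ht
    exact ⟨⟨w, hw⟩, hw0, hwt⟩
  choose f hf0 hft using h1
  have h2 : LinearIndependent K f := by
    rw [Fintype.linearIndependent_iff]
    intro c hc
    by_contra hcon
    push Not at hcon
    obtain ⟨t₀, ht₀⟩ := hcon
    obtain ⟨t, ht, hmax⟩ := exists_max_image (univ.filter (fun t : T => c t ≠ 0))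
      (fun t => (mo n).toSyn t.1) ⟨t₀, mem_filter.mpr ⟨mem_univ _, ht₀⟩⟩
    have ht' := (mem_filter.mp ht).2
    have h3 : ∑ i, c i • (f i).1 = 0 := by
      have := congrArg Subtype.val hc
      simpa using this
    have h4 := congrArg (coeff t.1) h3
    rw [coeff_sum, coeff_zero] at h4
    rw [sum_eq_single t] at h4
    · rw [coeff_smul, smul_eq_mul] at h4
      have h5 : coeff t.1 (f t).1 ≠ 0 := by
        rw [← hft t]
        exact MonomialOrder.leadingCoeff_ne_zero_iff.mpr (hf0 t)
      rcases mul_eq_zero.mp h4 with h6 | h6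
      · exact ht' h6
      · exact h5 h6
    · intro i _ hi
      by_cases hci : c i = 0
      · rw [hci, zero_smul, coeff_zero]
      · have h5 := hmax i (mem_filter.mpr ⟨mem_univ _, hci⟩)
        have h6 : (mo n).toSyn i.1 ≠ (mo n).toSyn t.1 := by
          intro h7
          exact hi (Subtype.ext ((mo n).toSyn.injective h7))
        have h7 : (mo n).toSyn i.1 < (mo n).toSyn t.1 := lt_of_le_of_ne h5 h6
        rw [coeff_smul, MonomialOrder.coeff_eq_zero_of_lt (m := mo n), smul_zero]
        rw [hft i]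
        exact h7
    · intro h
      exact absurd (mem_univ _) h
  have h3 := h2.fintype_card_le_finrank
  rwa [Fintype.card_coe] at h3

/-- the monomials of degree `e` -/
noncomputable def TT (n e : ℕ) : Finset (Fin n →₀ ℕ) := finsuppAntidiag univ e

lemma mem_TT {e : ℕ} {t : Fin n →₀ ℕ} : t ∈ TT n e ↔ ∑ i, t i = e := by
  unfold TT
  rw [mem_finsuppAntidiag]
  constructor
  · intro h
    exact h.1
  · intro h
    exact ⟨h, subset_univ _⟩

lemma card_TT (e : ℕ) : (TT n e).card =
    Module.finrank K (homogeneousSubmodule (Fin n) K e) := by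
  rw [finrank_forms]
  unfold TT
  rw [card_finsuppAntidiag_nat_eq_choose, card_univ]

lemma LM_mem_TT {W : Submodule K (MvPolynomial (Fin n) K)} {e : ℕ}
    (hW : W ≤ homogeneousSubmodule (Fin n) K e) {t : Fin n →₀ ℕ} (ht : t ∈ LM W) :
    t ∈ TT n e := by
  obtain ⟨w, hw, hw0, rfl⟩ := ht
  have h1 := (mem_homogeneousSubmodule _ _).mp (hW hw)
  have h2 : coeff ((mo n).degree w) w ≠ 0 :=
    MonomialOrder.leadingCoeff_ne_zero_iff.mpr hw0
  rw [mem_TT, ← Finsupp.degree_eq_sum]
  by_contra h3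
  exact h2 (h1.coeff_eq_zero h3)

lemma LM_mul {W U : Submodule K (MvPolynomial (Fin n) K)} {d : ℕ}
    (hprod : ∀ w ∈ W, ∀ f ∈ homogeneousSubmodule (Fin n) K d, w * f ∈ U)
    {t c : Fin n →₀ ℕ} (ht : t ∈ LM W) (hc : c ∈ TT n d) : t + c ∈ LM U := by
  obtain ⟨w, hw, hw0, rfl⟩ := ht
  have hm0 : (monomial c (1 : K) : MvPolynomial (Fin n) K) ≠ 0 := by
    rw [Ne, monomial_eq_zero]
    exact one_ne_zero
  refine ⟨w * monomial c 1, hprod w hw _ ?_, mul_ne_zero hw0 hm0, ?_⟩
  · rw [mem_homogeneousSubmodule]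
    apply isHomogeneous_monomial
    rw [Finsupp.degree_eq_sum]
    exact mem_TT.mp hc
  · rw [MonomialOrder.degree_mul hw0 hm0, MonomialOrder.degree_monomial, if_neg one_ne_zero]

lemma PP_nat (j : ℕ) (hn : 1 ≤ n) : PP j (n : ℝ) = ((n + j - 1).choose j : ℝ) := by
  induction j with
  | zero => simp [PP]
  | succ j ih =>
    rw [PP_succ, ih]
    obtain ⟨k, rfl⟩ : ∃ k, n = k + 1 := ⟨n - 1, by omega⟩
    have h1 : k + 1 + j - 1 = k + j := by omega
    have h2 : k + 1 + (j + 1) - 1 = k + j + 1 := by omega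
    rw [h1, h2]
    have h3 := Nat.add_one_mul_choose_eq (k + j) j
    have h4 : (((k + j + 1 : ℕ)) : ℝ) * ((k + j).choose j : ℝ) =
        ((k + j + 1).choose (j + 1) : ℝ) * ((j + 1 : ℕ) : ℝ) := by exact_mod_cast h3
    have h5 : (j : ℝ) + 1 ≠ 0 := by positivity
    push_cast at h4 ⊢
    field_simp
    linarith

lemma arith_aux (β γ G a k N u : ℝ) (hβ : 0 < β) (hG : β * G = γ) (hG1 : β ≤ G) (hk : 0 ≤ k)
    (hka : k ≤ a) (haβ : a ≤ β) (hN : N ≤ (β - a) * (G - β + (β - a))) (hu : γ - N ≤ u) :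
    k * (γ + β * (β - k)) ≤ β * u := by
  have h1 : β * N ≤ β * ((β - a) * (G - β + (β - a))) := mul_le_mul_of_nonneg_left hN hβ.le
  have h2 : β * (γ - N) ≤ β * u := mul_le_mul_of_nonneg_left hu hβ.le
  have h3 : β * β ≤ γ := by
    rw [← hG]
    exact mul_le_mul_of_nonneg_left hG1 hβ.le
  have h4 : 0 ≤ (a - k) * (γ + β * (β - k - a)) := by
    apply mul_nonneg
    · linarith
    · have h5 : β * (k + a) ≤ β * (β + β) := mul_le_mul_of_nonneg_left (by linarith) hβ.le
      nlinarith
  have h5 : β * ((β - a) * (G - β + (β - a))) = (β - a) * (γ - β * a) := by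
    rw [← hG]
    ring
  rw [h5] at h1
  have h6 : k * (γ + β * (β - k)) + (a - k) * (γ + β * (β - k - a)) = a * (γ + β * (β - a)) := by
    ring
  have h7 : β * γ - (β - a) * (γ - β * a) = a * (γ + β * (β - a)) := by ring
  linarith

/-- The dimension bound. -/
theorem dim_products {j d : ℕ} (hn : 1 ≤ n) (hj : 1 ≤ j)
    (W : Submodule K (MvPolynomial (Fin n) K)) (hW : W ≤ homogeneousSubmodule (Fin n) K j)
    (U : Submodule K (MvPolynomial (Fin n) K)) (hU : U ≤ homogeneousSubmodule (Fin n) K (j + d))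
    (hprod : ∀ w ∈ W, ∀ f ∈ homogeneousSubmodule (Fin n) K d, w * f ∈ U)
    (hβ : (Module.finrank K (homogeneousSubmodule (Fin n) K j)) ^ 2 ≤
      Module.finrank K (homogeneousSubmodule (Fin n) K (j + d))) :
    Module.finrank K W * (Module.finrank K (homogeneousSubmodule (Fin n) K (j + d)) +
      Module.finrank K (homogeneousSubmodule (Fin n) K j) *
        (Module.finrank K (homogeneousSubmodule (Fin n) K j) - Module.finrank K W)) ≤
      Module.finrank K (homogeneousSubmodule (Fin n) K j) * Module.finrank K U := by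
  set β := Module.finrank K (homogeneousSubmodule (Fin n) K j) with hβd
  set γ := Module.finrank K (homogeneousSubmodule (Fin n) K (j + d)) with hγd
  set k := Module.finrank K W with hk
  have hfU : FiniteDimensional K U := Submodule.finiteDimensional_of_le hU
  have hnr : (1 : ℝ) ≤ (n : ℝ) := by exact_mod_cast hn
  have hPβ : PP j (n : ℝ) = (β : ℝ) := by
    rw [PP_nat j hn, hβd, finrank_forms, Fintype.card_fin]
  have hPγ : PP (j + d) (n : ℝ) = (γ : ℝ) := by
    rw [PP_nat (j + d) hn, hγd, finrank_forms, Fintype.card_fin]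
  have hβpos : (0 : ℝ) < (β : ℝ) := by
    rw [← hPβ]
    exact PP_pos j (by linarith)
  have hGG : (β : ℝ) * GG j d (n : ℝ) = (γ : ℝ) := by
    rw [← hPβ, PP_mul_GG, hPγ]
  have hβ' : (β : ℝ) ^ 2 ≤ (γ : ℝ) := by exact_mod_cast hβ
  have hPG : PP j (n : ℝ) ≤ GG j d (n : ℝ) := by
    rw [hPβ]
    have h1 : (β : ℝ) * β ≤ β * GG j d (n : ℝ) := by
      rw [hGG]
      nlinarith
    exact le_of_mul_le_mul_left h1 hβpos
  -- the sets of monomials
  set A := (TT n j).filter (fun t => t ∈ LM W) with hA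
  set R := (TT n j).filter (fun t => t ∉ LM W) with hR
  set N := (TT n (j + d)).filter (fun t => ∀ t' ∈ A, ¬ t' ≤ t) with hN
  set N' := (TT n (j + d)).filter (fun t => ¬ ∀ t' ∈ A, ¬ t' ≤ t) with hN'
  have hkA : k ≤ A.card := by
    apply finrank_le_of_LM W A
    intro t ht
    exact mem_filter.mpr ⟨LM_mem_TT hW ht, ht⟩
  have hAR : A.card + R.card = β := by
    rw [hA, hR, card_filter_add_card_filter_not, card_TT (K := K)]
  have hNN : N.card + N'.card = γ := by
    rw [hN, hN', card_filter_add_card_filter_not, card_TT (K := K)]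
  have hN'U : N'.card ≤ Module.finrank K U := by
    apply card_le_finrank_of_LM U N'
    intro t ht
    obtain ⟨h1, h2⟩ := mem_filter.mp ht
    push Not at h2
    obtain ⟨t', ht', hle⟩ := h2
    obtain ⟨h3, h4⟩ := mem_filter.mp ht'
    have h5 : t' + (t - t') = t := add_tsub_cancel_of_le hle
    rw [← h5]
    apply LM_mul hprod h4
    rw [mem_TT] at h1 h3 ⊢
    have h6 : ∑ i, t i = ∑ i, t' i + ∑ i, (t - t') i := by
      rw [← sum_add_distrib]
      refine sum_congr rfl fun i _ => ?_
      conv_lhs => rw [← h5]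
      rfl
    omega
  -- transfer to functions
  have hinj : Function.Injective (fun t : Fin n →₀ ℕ => (t : Fin n → ℕ)) :=
    DFunLike.coe_injective
  set R₁ : Finset (Fin n → ℕ) := R.image (fun t : Fin n →₀ ℕ => (t : Fin n → ℕ)) with hR₁
  set N₁ : Finset (Fin n → ℕ) := N.image (fun t : Fin n →₀ ℕ => (t : Fin n → ℕ)) with hN₁
  have hcR : R₁.card = R.card := card_image_of_injective _ hinj
  have hcN : N₁.card = N.card := card_image_of_injective _ hinj
  have hkey := key_bound j d hj (n : ℝ) hnr hPG R₁ ?_ ?_ N₁ ?_ ?_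
  · rw [hcR, hcN, hPβ] at hkey
    -- arithmetic
    have hρ : (R.card : ℝ) = (β : ℝ) - (A.card : ℝ) := by
      have : ((A.card + R.card : ℕ) : ℝ) = (β : ℝ) := by rw [hAR]
      push_cast at this
      linarith
    have hkβ : k ≤ β := hkA.trans (by omega)
    have hu : (γ : ℝ) - (N.card : ℝ) ≤ (Module.finrank K U : ℝ) := by
      have h1 : ((N.card + N'.card : ℕ) : ℝ) = (γ : ℝ) := by rw [hNN]
      have h2 : (N'.card : ℝ) ≤ (Module.finrank K U : ℝ) := by exact_mod_cast hN'U
      push_cast at h1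
      linarith
    have hkA' : (k : ℝ) ≤ (A.card : ℝ) := by exact_mod_cast hkA
    have hAβ : (A.card : ℝ) ≤ (β : ℝ) := by
      have : A.card ≤ β := by omega
      exact_mod_cast this
    have hmain := arith_aux (β : ℝ) (γ : ℝ) (GG j d (n : ℝ)) (A.card : ℝ) (k : ℝ) (N.card : ℝ)
      (Module.finrank K U : ℝ) hβpos hGG (by rw [← hPβ]; exact hPG) (Nat.cast_nonneg _) hkA' hAβ
      (by rw [hρ] at hkey; exact hkey) hu
    have h1 : ((k * (γ + β * (β - k)) : ℕ) : ℝ) ≤ ((β * Module.finrank K U : ℕ) : ℝ) := by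
      push_cast
      rw [Nat.cast_sub hkβ]
      exact hmain
    exact_mod_cast h1
  · intro m hm
    rw [hR₁, mem_image] at hm
    obtain ⟨t, ht, rfl⟩ := hm
    exact mem_TT.mp (mem_filter.mp ht).1
  · rw [hcR, hPβ]
    have : R.card ≤ β := by omega
    exact_mod_cast this
  · intro m hm
    rw [hN₁, mem_image] at hm
    obtain ⟨t, ht, rfl⟩ := hm
    exact mem_TT.mp (mem_filter.mp ht).1
  · intro m hm m' hle hs
    rw [hN₁, mem_image] at hm
    obtain ⟨t, ht, rfl⟩ := hm
    rw [hR₁, mem_image]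
    refine ⟨Finsupp.equivFunOnFinite.symm m', ?_, ?_⟩
    · rw [hR, mem_filter]
      have h1 : Finsupp.equivFunOnFinite.symm m' ∈ TT n j := by
        rw [mem_TT]
        exact hs
      refine ⟨h1, fun h2 => ?_⟩
      refine (mem_filter.mp ht).2 _ (mem_filter.mpr ⟨h1, h2⟩) ?_
      intro i
      exact hle i
    · rfl

end Pool.Agent.H21.Low
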