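import Pool.Agent.H21.Multi
import Pool.Agent.H21.Defs

/-!
From block systems to spaces of forms in a polynomial ring.
-/

set_option linter.unusedSectionVars false

namespace Pool.Agent.H21

open scoped Classical
open MvPolynomial

variable {K : Type*} [Field K]

/-- word products span the forms of degree `e` -/
lemma homogeneousSubmodule_le_span_words (n e : ℕ) :
    homogeneousSubmodule (Fin n) K e ≤
      Submodule.span K (Set.range fun q : Fin e → Fin n => ∏ j, (X (q j) : MvPolynomial (Fin n) K)) := by
  intro p hp
  rw [mem_homogeneousSubmodule] at hp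
  rw [p.as_sum]
  refine Submodule.sum_mem _ fun s hs => ?_
  have hdeg : s.degree = e := by
    have := hp (mem_support_iff.mp hs)
    rw [Finsupp.degree_eq_weight_one]
    exact this
  have hmon : monomial s (coeff s p) = coeff s p • (monomial s (1 : K)) := by
    rw [smul_monomial, smul_eq_mul, mul_one]
  rw [hmon]
  refine Submodule.smul_mem _ _ (Submodule.subset_span ?_)
  -- write the monomial as a word
  have hcard : (Finsupp.toMultiset s).toList.length = e := by
    rw [Multiset.length_toList, Finsupp.card_toMultiset]
    rw [← hdeg]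
    rfl
  refine ⟨fun j => (Finsupp.toMultiset s).toList.get (j.cast hcard.symm), ?_⟩
  have h1 : ∏ j : Fin e, (X ((Finsupp.toMultiset s).toList.get (j.cast hcard.symm)) :
      MvPolynomial (Fin n) K) = ((Finsupp.toMultiset s).toList.map
        (fun i => (X i : MvPolynomial (Fin n) K))).prod := by
    rw [← List.prod_ofFn]
    congr 1
    apply List.ext_get
    · simp [hcard]
    · intro i h1 h2
      simp
  simp only
  rw [h1, ← Multiset.prod_coe, ← Multiset.map_coe, Multiset.coe_toList]
  rw [Finsupp.toMultiset_map, Finsupp.prod_toMultiset, monomial_eq, C_1, one_mul,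
    Finsupp.prod_mapDomain_index]
  · intro b
    rw [pow_zero]
  · intro b n1 n2
    rw [pow_add]

/-- The product over a finite set of variables is a word product. -/
lemma prod_eq_word {n : ℕ} {ι : Type*} (A : Finset ι) (w : ι → Fin n) :
    ∃ q : Fin A.card → Fin n, ∏ j ∈ A, (X (w j) : MvPolynomial (Fin n) K) = ∏ l, X (q l) := by
  refine ⟨fun l => w (A.equivFin.symm l), ?_⟩
  rw [← Finset.prod_coe_sort A]
  exact (Equiv.prod_comp A.equivFin.symm (fun j : A => (X (w j) : MvPolynomial (Fin n) K))).symm

lemma prod_eq_word' {n : ℕ} {ι : Type*} (A : Finset ι) (w : ι → Fin n) (e : ℕ) (he : A.card = e) :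
    ∃ q : Fin e → Fin n, ∏ j ∈ A, (X (w j) : MvPolynomial (Fin n) K) = ∏ l, X (q l) := by
  subst he
  exact prod_eq_word A w

lemma prod_mem_homogeneous {n : ℕ} {ι : Type*} (A : Finset ι) (w : ι → Fin n) (e : ℕ)
    (he : A.card = e) :
    ∏ j ∈ A, (X (w j) : MvPolynomial (Fin n) K) ∈ homogeneousSubmodule (Fin n) K e := by
  rw [mem_homogeneousSubmodule, ← he]
  have h := IsHomogeneous.prod A (fun j => (X (w j) : MvPolynomial (Fin n) K)) (fun _ => 1)
    (fun j _ => isHomogeneous_X K (w j))
  simpa using h

section Blocks

variable {n : ℕ} (hn : 0 < n) {k : ℕ} (m : ℕ)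

/-- the variable number `a` of block `i` -/
def vr (i : Fin k) (a : ℕ) : Fin n := ⟨(i.1 * m + a) % n, Nat.mod_lt _ hn⟩

/-- the squarefree monomial attached to a point -/
noncomputable def mon (Y : Finset (Fin k)) (z : Fin k → ℕ) : MvPolynomial (Fin n) K :=
  ∏ i ∈ Y, X (vr hn m i (z i))

lemma mon_congr (Y : Finset (Fin k)) {z z' : Fin k → ℕ} (h : ∀ i ∈ Y, z i = z' i) :
    (mon hn m Y z : MvPolynomial (Fin n) K) = mon hn m Y z' :=
  Finset.prod_congr rfl fun i hi => by rw [h i hi]

lemma mon_mem (Y : Finset (Fin k)) (z : Fin k → ℕ) (e : ℕ) (he : Y.card = e) :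
    (mon hn m Y z : MvPolynomial (Fin n) K) ∈ homogeneousSubmodule (Fin n) K e :=
  prod_mem_homogeneous Y (fun i => vr hn m i (z i)) e he

/-- from functions on points to forms -/
noncomputable def PhiP (Y : Finset (Fin k)) :
    (↥(pts m Y) → K) →ₗ[K] MvPolynomial (Fin n) K where
  toFun f := ∑ z : ↥(pts m Y), f z • mon hn m Y z.1
  map_add' f g := by
    simp only [Pi.add_apply, add_smul, Finset.sum_add_distrib]
  map_smul' c f := by
    simp only [Pi.smul_apply, smul_eq_mul, mul_smul, Finset.smul_sum, RingHom.id_apply]

lemma PhiP_apply (Y : Finset (Fin k)) (f : (Fin k → ℕ) → K) :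
    PhiP hn m Y (resP m Y f) = ∑ z ∈ pts m Y, f z • mon hn m Y z := by
  rw [← Finset.sum_coe_sort (pts m Y) (fun z => f z • (mon hn m Y z : MvPolynomial (Fin n) K))]
  rfl

lemma PhiP_mem (Y : Finset (Fin k)) (f : ↥(pts m Y) → K) (e : ℕ) (he : Y.card = e) :
    PhiP hn m Y f ∈ homogeneousSubmodule (Fin n) K e := by
  refine Submodule.sum_mem _ fun z _ => Submodule.smul_mem _ _ (mon_mem hn m Y z.1 e he)

lemma PhiP_mul (T Y : Finset (Fin k)) (hTY : T ⊆ Y) (f g : (Fin k → ℕ) → K)
    (hf : f ∈ dep K (T : Set (Fin k))) (hg : g ∈ dep K ((T : Set (Fin k))ᶜ)) :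
    PhiP hn m Y (resP m Y (f * g)) =
      PhiP hn m T (resP m T f) * PhiP hn m (Y \ T) (resP m (Y \ T) g) := by
  rw [PhiP_apply, PhiP_apply, PhiP_apply, Finset.sum_mul_sum, ← Finset.sum_product']
  refine Finset.sum_nbij' (fun x => ((fun i => if i ∈ T then x i else 0),
    (fun i => if i ∈ Y \ T then x i else 0))) (fun p => p.1 + p.2) ?_ ?_ ?_ ?_ ?_
  · intro x hx
    have hx' := mem_pts.mp hx
    rw [Finset.mem_product]
    constructor
    · rw [mem_pts]
      refine ⟨fun i hi => ?_, fun i hi => ?_⟩
      · simp only [if_pos hi]; exact hx'.1 i (hTY hi)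
      · simp only [if_neg hi]
    · rw [mem_pts]
      refine ⟨fun i hi => ?_, fun i hi => ?_⟩
      · simp only [if_pos hi]; exact hx'.1 i (Finset.mem_sdiff.mp hi).1
      · simp only [if_neg hi]
  · rintro ⟨z, z'⟩ hp
    rw [Finset.mem_product] at hp
    have h1 := mem_pts.mp hp.1
    have h2 := mem_pts.mp hp.2
    rw [mem_pts]
    refine ⟨fun i hi => ?_, fun i hi => ?_⟩
    · by_cases hiT : i ∈ T
      · have h3 := h1.1 i hiT
        have h4 := h2.2 i (fun h => (Finset.mem_sdiff.mp h).2 hiT)
        simp only [Pi.add_apply] at *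
        omega
      · have h3 := h1.2 i hiT
        have h4 := h2.1 i (Finset.mem_sdiff.mpr ⟨hi, hiT⟩)
        simp only [Pi.add_apply] at *
        omega
    · have h3 := h1.2 i (fun h => hi (hTY h))
      have h4 := h2.2 i (fun h => hi (Finset.mem_sdiff.mp h).1)
      simp only [Pi.add_apply] at *
      omega
  · intro x hx
    have hx' := mem_pts.mp hx
    funext i
    simp only [Pi.add_apply]
    by_cases hiT : i ∈ T
    · have : i ∉ Y \ T := fun h => (Finset.mem_sdiff.mp h).2 hiT
      rw [if_pos hiT, if_neg this, add_zero]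
    · by_cases hiY : i ∈ Y
      · rw [if_neg hiT, if_pos (Finset.mem_sdiff.mpr ⟨hiY, hiT⟩), zero_add]
      · have : i ∉ Y \ T := fun h => hiY (Finset.mem_sdiff.mp h).1
        rw [if_neg hiT, if_neg this, hx'.2 i hiY]
  · rintro ⟨z, z'⟩ hp
    rw [Finset.mem_product] at hp
    have h1 : (∀ i ∈ T, z i < m) ∧ (∀ i ∉ T, z i = 0) := mem_pts.mp hp.1
    have h2 : (∀ i ∈ Y \ T, z' i < m) ∧ (∀ i ∉ Y \ T, z' i = 0) := mem_pts.mp hp.2
    apply Prod.ext
    · funext i
      simp only [Pi.add_apply]
      by_cases hiT : i ∈ T
      · have h3 := h2.2 i (fun h => (Finset.mem_sdiff.mp h).2 hiT)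
        rw [if_pos hiT, h3, add_zero]
      · have h3 := h1.2 i hiT
        rw [if_neg hiT, h3]
    · funext i
      simp only [Pi.add_apply]
      by_cases hi : i ∈ Y \ T
      · have h3 := h1.2 i (Finset.mem_sdiff.mp hi).2
        rw [if_pos hi, h3, zero_add]
      · have h3 := h2.2 i hi
        rw [if_neg hi, h3]
  · intro x hx
    have hx' := mem_pts.mp hx
    simp only [Pi.mul_apply]
    have hfx : f x = f (fun i => if i ∈ T then x i else 0) := by
      apply hf
      intro i hi
      rw [if_pos (Finset.mem_coe.mp hi)]
    have hgx : g x = g (fun i => if i ∈ Y \ T then x i else 0) := by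
      apply hg
      intro i hi
      have hiT : i ∉ T := fun h => hi (Finset.mem_coe.mpr h)
      by_cases hiY : i ∈ Y
      · rw [if_pos (Finset.mem_sdiff.mpr ⟨hiY, hiT⟩)]
      · rw [if_neg (fun h => hiY (Finset.mem_sdiff.mp h).1), hx'.2 i hiY]
    rw [← hfx, ← hgx, smul_mul_smul_comm]
    congr 1
    unfold mon
    rw [← Finset.prod_sdiff hTY, mul_comm]
    congr 1
    · refine Finset.prod_congr rfl fun i hi => ?_
      simp only [if_pos hi]
    · refine Finset.prod_congr rfl fun i hi => ?_
      simp only [if_pos hi]

end Blocks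

lemma mul_mem_prodSpan {n e : ℕ} {V : Submodule K (MvPolynomial (Fin n) K)}
    {f g : MvPolynomial (Fin n) K} (hf : f ∈ homogeneousSubmodule (Fin n) K e) (hg : g ∈ V) :
    f * g ∈ prodSpan e V :=
  Submodule.subset_span ⟨f, hf, g, hg, rfl⟩

lemma mul_mem_prodSpan' {n e : ℕ} {V : Submodule K (MvPolynomial (Fin n) K)}
    {f g : MvPolynomial (Fin n) K} (hf : f ∈ homogeneousSubmodule (Fin n) K e) (hg : g ∈ V) :
    g * f ∈ prodSpan e V := by
  rw [mul_comm]
  exact mul_mem_prodSpan hf hg

lemma prodSpan_mono {n e : ℕ} {V W : Submodule K (MvPolynomial (Fin n) K)} (h : V ≤ W) :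
    prodSpan e V ≤ prodSpan e W :=
  Submodule.span_mono (Set.image2_subset_left h)

lemma prodSpan_le {n e d : ℕ} {V : Submodule K (MvPolynomial (Fin n) K)}
    (h : V ≤ homogeneousSubmodule (Fin n) K d) :
    prodSpan e V ≤ homogeneousSubmodule (Fin n) K (e + d) := by
  unfold prodSpan
  rw [Submodule.span_le]
  rintro _ ⟨f, hf, g, hg, rfl⟩
  have h2 := h hg
  rw [SetLike.mem_coe, mem_homogeneousSubmodule] at *
  exact hf.mul h2

instance finite_homogeneous (n e : ℕ) :
    FiniteDimensional K (homogeneousSubmodule (Fin n) K e) := by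
  have h : FiniteDimensional K (Submodule.span K
      (Set.range fun q : Fin e → Fin n => ∏ j, (X (q j) : MvPolynomial (Fin n) K))) :=
    FiniteDimensional.span_of_finite K (Set.finite_range _)
  exact Submodule.finiteDimensional_of_le (homogeneousSubmodule_le_span_words n e)

lemma finrank_finset_sup_le {M : Type*} [AddCommGroup M] [Module K M] {ι : Type*}
    (s : Finset ι) (f : ι → Submodule K M) (hf : ∀ i ∈ s, FiniteDimensional K (f i)) :
    FiniteDimensional K (↥(s.sup f)) ∧ Module.finrank K (↥(s.sup f)) ≤ ∑ i ∈ s, Module.finrank K (f i) := by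
  induction s using Finset.induction_on with
  | empty =>
    rw [Finset.sup_empty]
    refine ⟨inferInstance, ?_⟩
    simp
  | insert i s hi ih =>
    obtain ⟨h1, h2⟩ := ih (fun j hj => hf j (Finset.mem_insert_of_mem hj))
    have h3 := hf i (Finset.mem_insert_self i s)
    rw [Finset.sup_insert, Finset.sum_insert hi]
    refine ⟨inferInstance, ?_⟩
    exact (Submodule.finrank_add_le_finrank_add_finrank (f i) (s.sup f)).trans
      (Nat.add_le_add_left h2 _)

theorem poly_main {n k m d D a r : ℕ} (hd : 2 ≤ d) (hdD : d ≤ D) (hm : 0 < m) (hn : 0 < n)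
    (hkm : k * m ≤ n)
    (t : Finset (Fin k) → ℕ → ((Fin k → ℕ) → K))
    (ht : ∀ (T : Finset (Fin k)) (l : ℕ), t T l ∈ dep K (T : Set (Fin k)))
    (hr : ∀ X : Finset (Fin k), X.card = D → m ^ D ≤ Module.finrank K (Submodule.span K (Set.range
      (fun s : GenIx K d a X => resP (K := K) m X (gen t s)))) + r) :
    ∃ V : Submodule K (MvPolynomial (Fin n) K), V ≤ homogeneousSubmodule (Fin n) K d ∧
      Module.finrank K V ≤ k.choose d * a + (n - k * m) * n ^ (d - 1) + k * m ^ 2 * n ^ (d - 2) ∧
      Module.finrank K (homogeneousSubmodule (Fin n) K D) ≤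
        Module.finrank K (prodSpan (D - d) V) + k.choose D * r := by
  -- the three families of generators
  let v1 : (↥(Finset.powersetCard d (Finset.univ : Finset (Fin k))) × Fin a) →
      MvPolynomial (Fin n) K := fun p => PhiP hn m p.1.1 (resP m p.1.1 (t p.1.1 p.2.1))
  let v2 : (Fin (n - k * m) × (Fin (d - 1) → Fin n)) → MvPolynomial (Fin n) K :=
    fun p => X ⟨(k * m + p.1.1) % n, Nat.mod_lt _ hn⟩ * ∏ j, X (p.2 j)
  let v3 : ((Fin k × Fin m × Fin m) × (Fin (d - 2) → Fin n)) → MvPolynomial (Fin n) K :=
    fun p => (X (vr hn m p.1.1 p.1.2.1.1) * X (vr hn m p.1.1 p.1.2.2.1)) * ∏ j, X (p.2 j)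
  let V1 := Submodule.span K (Set.range v1)
  let V2 := Submodule.span K (Set.range v2)
  let V3 := Submodule.span K (Set.range v3)
  have : FiniteDimensional K V1 := FiniteDimensional.span_of_finite K (Set.finite_range _)
  have : FiniteDimensional K V2 := FiniteDimensional.span_of_finite K (Set.finite_range _)
  have : FiniteDimensional K V3 := FiniteDimensional.span_of_finite K (Set.finite_range _)
  let V := V1 ⊔ V2 ⊔ V3
  have hV1 : V1 ≤ V := le_sup_left.trans le_sup_left
  have hV2 : V2 ≤ V := le_sup_right.trans le_sup_left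
  have hV3 : V3 ≤ V := le_sup_right
  have hXh : ∀ i : Fin n, (X i : MvPolynomial (Fin n) K).IsHomogeneous 1 :=
    fun i => isHomogeneous_X K i
  have hword : ∀ (e : ℕ) (q : Fin e → Fin n),
      (∏ j, (X (q j) : MvPolynomial (Fin n) K)).IsHomogeneous e := by
    intro e q
    have h := prod_mem_homogeneous (K := K) (Finset.univ : Finset (Fin e)) q e (by simp)
    rwa [mem_homogeneousSubmodule] at h
  have hVd : V ≤ homogeneousSubmodule (Fin n) K d := by
    refine sup_le (sup_le ?_ ?_) ?_
    · rw [Submodule.span_le]
      rintro _ ⟨p, rfl⟩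
      exact PhiP_mem hn m p.1.1 _ d (Finset.mem_powersetCard.mp p.1.2).2
    · rw [Submodule.span_le]
      rintro _ ⟨p, rfl⟩
      rw [SetLike.mem_coe, mem_homogeneousSubmodule]
      have h := (hXh ⟨(k * m + p.1.1) % n, Nat.mod_lt _ hn⟩).mul (hword (d - 1) p.2)
      have h2 : 1 + (d - 1) = d := by omega
      rwa [h2] at h
    · rw [Submodule.span_le]
      rintro _ ⟨p, rfl⟩
      rw [SetLike.mem_coe, mem_homogeneousSubmodule]
      have h := ((hXh (vr hn m p.1.1 p.1.2.1.1)).mul (hXh (vr hn m p.1.1 p.1.2.2.1))).mul
        (hword (d - 2) p.2)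
      have h2 : 1 + 1 + (d - 2) = d := by omega
      rwa [h2] at h
  refine ⟨V, hVd, ?_, ?_⟩
  · have h1 : Module.finrank K V1 ≤ k.choose d * a := by
      refine (finrank_range_le_card v1).trans ?_
      rw [Fintype.card_prod, Fintype.card_coe, Finset.card_powersetCard, Finset.card_univ,
        Fintype.card_fin, Fintype.card_fin]
    have h2 : Module.finrank K V2 ≤ (n - k * m) * n ^ (d - 1) := by
      refine (finrank_range_le_card v2).trans ?_
      simp
    have h3 : Module.finrank K V3 ≤ k * m ^ 2 * n ^ (d - 2) := by
      refine (finrank_range_le_card v3).trans ?_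
      simp only [Fintype.card_prod, Fintype.card_fin, Fintype.card_fun]
      rw [pow_two]
    have h4 := Submodule.finrank_add_le_finrank_add_finrank V1 V2
    have h5 := Submodule.finrank_add_le_finrank_add_finrank (V1 ⊔ V2) V3
    have h6 : V = (V1 ⊔ V2) ⊔ V3 := rfl
    rw [h6]
    omega
  · -- complements
    have hcompl : ∀ X : Finset (Fin k), ∃ W : Submodule K (↥(pts m X) → K),
        IsCompl (Submodule.span K (Set.range
          (fun s : GenIx K d a X => resP (K := K) m X (gen t s)))) W :=
      fun X => Submodule.exists_isCompl _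
    choose W hW using hcompl
    let Q := (Finset.powersetCard D (Finset.univ : Finset (Fin k))).sup
      (fun X => (W X).map (PhiP hn m X))
    have hQ := finrank_finset_sup_le (Finset.powersetCard D (Finset.univ : Finset (Fin k)))
      (fun X => (W X).map (PhiP (K := K) hn m X)) (fun X _ => inferInstance)
    have hQfd : FiniteDimensional K Q := hQ.1
    have hQle : Module.finrank K Q ≤ k.choose D * r := by
      refine hQ.2.trans ?_
      have h1 : ∀ X ∈ Finset.powersetCard D (Finset.univ : Finset (Fin k)),
          Module.finrank K (↥((W X).map (PhiP (K := K) hn m X))) ≤ r := by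
        intro X hX
        have hXD : X.card = D := (Finset.mem_powersetCard.mp hX).2
        refine (Submodule.finrank_map_le (PhiP (K := K) hn m X) (W X)).trans ?_
        have h2 := Submodule.finrank_add_eq_of_isCompl (hW X)
        rw [Module.finrank_fintype_fun_eq_card, Fintype.card_coe, card_pts, hXD] at h2
        have h3 := hr X hXD
        omega
      refine (Finset.sum_le_card_nsmul _ _ _ h1).trans ?_
      rw [Finset.card_powersetCard, Finset.card_univ, Fintype.card_fin, smul_eq_mul]
    -- the main inclusion
    have hJfd : FiniteDimensional K (prodSpan (D - d) V) :=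
      Submodule.finiteDimensional_of_le (prodSpan_le hVd)
    have hmain : homogeneousSubmodule (Fin n) K D ≤ prodSpan (D - d) V ⊔ Q := by
      refine (homogeneousSubmodule_le_span_words n D).trans ?_
      rw [Submodule.span_le]
      rintro _ ⟨q, rfl⟩
      rw [SetLike.mem_coe]
      simp only
      by_cases hc1 : ∃ j0, k * m ≤ (q j0).1
      · obtain ⟨j0, hj0⟩ := hc1
        apply Submodule.mem_sup_left
        -- choose d - 1 further positions
        have hcard : d - 1 ≤ ((Finset.univ : Finset (Fin D)).erase j0).card := by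
          rw [Finset.card_erase_of_mem (Finset.mem_univ _), Finset.card_univ, Fintype.card_fin]
          omega
        obtain ⟨A, hA1, hA2⟩ := Finset.exists_subset_card_eq hcard
        have hsplit : ∏ j, (X (q j) : MvPolynomial (Fin n) K) =
            (X (q j0) * ∏ j ∈ A, X (q j)) *
              ∏ j ∈ ((Finset.univ : Finset (Fin D)).erase j0) \ A, X (q j) := by
          rw [← Finset.mul_prod_erase Finset.univ _ (Finset.mem_univ j0), mul_assoc]
          congr 1
          rw [mul_comm, Finset.prod_sdiff hA1]
        rw [hsplit]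
        apply mul_mem_prodSpan'
        · apply prod_mem_homogeneous
          rw [Finset.card_sdiff_of_subset hA1, hA2, Finset.card_erase_of_mem (Finset.mem_univ _),
            Finset.card_univ, Fintype.card_fin]
          omega
        · apply hV2
          apply Submodule.subset_span
          obtain ⟨q', hq'⟩ := prod_eq_word' (K := K) A q (d - 1) hA2
          have hlt := (q j0).2
          refine ⟨(⟨(q j0).1 - k * m, by omega⟩, q'), ?_⟩
          simp only [v2]
          rw [hq']
          congr 2
          apply Fin.ext
          simp only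
          rw [Nat.add_sub_cancel' hj0, Nat.mod_eq_of_lt hlt]
      · push Not at hc1
        have hblk : ∀ j, (q j).1 / m < k := fun j => Nat.div_lt_of_lt_mul (by
          rw [mul_comm]; exact hc1 j)
        have hvr : ∀ j, q j = vr hn m (⟨(q j).1 / m, hblk j⟩ : Fin k) ((q j).1 % m) := by
          intro j
          apply Fin.ext
          simp only [vr]
          rw [mul_comm, Nat.div_add_mod, Nat.mod_eq_of_lt (q j).2]
        by_cases hc2 : ∃ j1 j2, j1 ≠ j2 ∧ (q j1).1 / m = (q j2).1 / m
        · obtain ⟨j1, j2, hj12, hq12⟩ := hc2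
          apply Submodule.mem_sup_left
          have hj2' : j2 ∈ (Finset.univ : Finset (Fin D)).erase j1 :=
            Finset.mem_erase.mpr ⟨hj12.symm, Finset.mem_univ _⟩
          have hcard : d - 2 ≤ (((Finset.univ : Finset (Fin D)).erase j1).erase j2).card := by
            rw [Finset.card_erase_of_mem hj2', Finset.card_erase_of_mem (Finset.mem_univ _),
              Finset.card_univ, Fintype.card_fin]
            omega
          obtain ⟨A, hA1, hA2⟩ := Finset.exists_subset_card_eq hcard
          have hsplit : ∏ j, (X (q j) : MvPolynomial (Fin n) K) =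
              ((X (q j1) * X (q j2)) * ∏ j ∈ A, X (q j)) *
                ∏ j ∈ (((Finset.univ : Finset (Fin D)).erase j1).erase j2) \ A, X (q j) := by
            rw [← Finset.mul_prod_erase Finset.univ _ (Finset.mem_univ j1),
              ← Finset.mul_prod_erase (Finset.univ.erase j1) _ hj2', mul_assoc, mul_assoc]
            congr 2
            rw [mul_comm, Finset.prod_sdiff hA1]
          rw [hsplit]
          apply mul_mem_prodSpan'
          · apply prod_mem_homogeneous
            rw [Finset.card_sdiff_of_subset hA1, hA2, Finset.card_erase_of_mem hj2',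
              Finset.card_erase_of_mem (Finset.mem_univ _), Finset.card_univ, Fintype.card_fin]
            omega
          · apply hV3
            apply Submodule.subset_span
            obtain ⟨q', hq'⟩ := prod_eq_word' (K := K) A q (d - 2) hA2
            refine ⟨((⟨(q j1).1 / m, hblk j1⟩, ⟨(q j1).1 % m, Nat.mod_lt _ hm⟩,
              ⟨(q j2).1 % m, Nat.mod_lt _ hm⟩), q'), ?_⟩
            simp only [v3]
            rw [hq']
            congr 2
            · rw [← hvr j1]
            · have h5 : (⟨(q j1).1 / m, hblk j1⟩ : Fin k) = ⟨(q j2).1 / m, hblk j2⟩ :=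
                Fin.ext hq12
              rw [h5, ← hvr j2]
        · push Not at hc2
          -- transversal words
          let bl : Fin D → Fin k := fun j => ⟨(q j).1 / m, hblk j⟩
          have hbl : Function.Injective bl := by
            intro j1 j2 h
            by_contra hne
            exact hc2 j1 j2 hne (congrArg Fin.val h)
          let Y : Finset (Fin k) := Finset.univ.map ⟨bl, hbl⟩
          have hYD : Y.card = D := by simp [Y]
          let z : Fin k → ℕ := fun i => if h : ∃ j, bl j = i then (q h.choose).1 % m else 0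
          have hz : ∀ j, z (bl j) = (q j).1 % m := by
            intro j
            have hex : ∃ j', bl j' = bl j := ⟨j, rfl⟩
            have h2 : hex.choose = j := hbl hex.choose_spec
            simp only [z]
            rw [dif_pos hex, h2]
          have hzp : z ∈ pts m Y := by
            rw [mem_pts]
            refine ⟨fun i hi => ?_, fun i hi => ?_⟩
            · obtain ⟨j, _, hj⟩ := Finset.mem_map.mp hi
              have hj' : bl j = i := hj
              rw [← hj', hz j]
              exact Nat.mod_lt _ hm
            · have hnex : ¬ ∃ j, bl j = i := by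
                rintro ⟨j, hj⟩
                exact hi (Finset.mem_map.mpr ⟨j, Finset.mem_univ _, hj⟩)
              simp only [z]
              rw [dif_neg hnex]
          have hmon : ∏ j, (X (q j) : MvPolynomial (Fin n) K) = mon hn m Y z := by
            unfold mon
            simp only [Y]
            rw [Finset.prod_map]
            refine Finset.prod_congr rfl fun j _ => ?_
            have h1 : ((⟨bl, hbl⟩ : Fin D ↪ Fin k) j) = bl j := rfl
            rw [h1, hz j]
            congr 1
            exact hvr j
          have hPhi : (mon hn m Y z : MvPolynomial (Fin n) K) =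
              PhiP hn m Y (Pi.single ⟨z, hzp⟩ (1 : K)) := by
            simp only [PhiP, LinearMap.coe_mk, AddHom.coe_mk]
            rw [Finset.sum_eq_single ⟨z, hzp⟩]
            · simp
            · intro b _ hb
              rw [Pi.single_eq_of_ne hb, zero_smul]
            · intro h
              exact absurd (Finset.mem_univ _) h
          rw [hmon, hPhi]
          have htop : (Pi.single ⟨z, hzp⟩ (1 : K) : ↥(pts m Y) → K) ∈
              Submodule.span K (Set.range
                (fun s : GenIx K d a Y => resP (K := K) m Y (gen t s))) ⊔ W Y := by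
            rw [(hW Y).sup_eq_top]
            exact Submodule.mem_top
          obtain ⟨f, hf, w, hw, hfw⟩ := Submodule.mem_sup.mp htop
          rw [← hfw, map_add]
          apply Submodule.add_mem
          · apply Submodule.mem_sup_left
            refine Submodule.span_induction ?_ ?_ ?_ ?_ hf
            · rintro _ ⟨⟨⟨T, l, g⟩, hTY, hTd, hl, hg⟩, rfl⟩
              simp only [gen]
              rw [PhiP_mul hn m T Y hTY _ _ (ht T l) hg]
              apply mul_mem_prodSpan'
              · apply PhiP_mem
                have hTd' : T.card = d := hTd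
                have hTY' : T ⊆ Y := hTY
                rw [Finset.card_sdiff_of_subset hTY', hYD, hTd']
              · apply hV1
                apply Submodule.subset_span
                exact ⟨(⟨T, Finset.mem_powersetCard.mpr ⟨Finset.subset_univ _, hTd⟩⟩, ⟨l, hl⟩), rfl⟩
            · rw [map_zero]
              exact Submodule.zero_mem _
            · intro f g _ _ hf hg
              rw [map_add]
              exact Submodule.add_mem _ hf hg
            · intro c f _ hf
              rw [map_smul]
              exact Submodule.smul_mem _ c hf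
          · apply Submodule.mem_sup_right
            have hYm : Y ∈ Finset.powersetCard D (Finset.univ : Finset (Fin k)) :=
              Finset.mem_powersetCard.mpr ⟨Finset.subset_univ _, hYD⟩
            have h6 : (W Y).map (PhiP (K := K) hn m Y) ≤ Q :=
              Finset.le_sup (f := fun X => (W X).map (PhiP (K := K) hn m X)) hYm
            exact h6 (Submodule.mem_map_of_mem hw)
    have h1 := Submodule.finrank_mono hmain
    have h2 := Submodule.finrank_add_le_finrank_add_finrank (prodSpan (D - d) V) Q
    omega

end Pool.Agent.H21
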