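import Pool.Agent.H21.LowFinal

/-!
The asymptotic theorem with exceptional windows only for the thresholds `t_D`, `D ≥ 2 d`.
-/

set_option linter.unusedSectionVars false

namespace Pool.Agent.H21

open scoped Classical
open MvPolynomial Filter Topology

/-- For large `n` the condition of the theorem on low degrees holds with `J = d - 1`. -/
lemma exists_cond (d : ℕ) (hd : 1 ≤ d) : ∃ n₀ : ℕ, ∀ n : ℕ, n₀ ≤ n →
    1 ≤ n ∧ (dimS n (d - 1)) ^ 2 ≤ dimS n (d - 1 + d) := by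
  refine ⟨(2 * d) ^ d * 2 ^ (d - 1) + d, fun n hn => ?_⟩
  have hdn : d ≤ n := le_trans (Nat.le_add_left _ _) hn
  have hn1 : 1 ≤ n := hd.trans hdn
  refine ⟨hn1, ?_⟩
  have hnr : (1 : ℝ) ≤ (n : ℝ) := by exact_mod_cast hn1
  have hdr : (d : ℝ) ≤ (n : ℝ) := by exact_mod_cast hdn
  have hd1 : (1 : ℝ) ≤ (d : ℝ) := by exact_mod_cast hd
  -- upper bound for dim S_{d-1}
  have h1 : Low.PP (d - 1) (n : ℝ) ≤ (2 * (n : ℝ)) ^ (d - 1) := by
    unfold Low.PP
    calc ∏ i ∈ Finset.range (d - 1), ((n : ℝ) + i) / ((i : ℝ) + 1) ≤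
        ∏ i ∈ Finset.range (d - 1), (2 * (n : ℝ)) := by
          apply Finset.prod_le_prod
          · intro i _
            positivity
          · intro i hi
            rw [Finset.mem_range] at hi
            rw [div_le_iff₀ (by positivity)]
            have h2 : (i : ℝ) ≤ (n : ℝ) := by exact_mod_cast (by omega : i ≤ n)
            have h3 : (0 : ℝ) ≤ (i : ℝ) := Nat.cast_nonneg i
            nlinarith
      _ = _ := by rw [Finset.prod_const, Finset.card_range]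
  -- lower bound for the ratio
  have h2 : ((n : ℝ) / (2 * d)) ^ d ≤ Low.GG (d - 1) d (n : ℝ) := by
    unfold Low.GG
    calc ((n : ℝ) / (2 * d)) ^ d = ∏ i ∈ Finset.range d, ((n : ℝ) / (2 * d)) := by
          rw [Finset.prod_const, Finset.card_range]
      _ ≤ _ := by
          apply Finset.prod_le_prod
          · intro i _
            positivity
          · intro i hi
            rw [Finset.mem_range] at hi
            have h3 : ((d - 1 + i : ℕ) : ℝ) + 1 ≤ 2 * d := by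
              have h4 : ((d - 1 + i + 1 : ℕ) : ℝ) ≤ ((2 * d : ℕ) : ℝ) := by
                exact_mod_cast (by omega : d - 1 + i + 1 ≤ 2 * d)
              push_cast at h4 ⊢
              exact h4
            rw [div_le_div_iff₀ (by positivity) (by positivity)]
            have h4 : (0 : ℝ) ≤ ((d - 1 + i : ℕ) : ℝ) := Nat.cast_nonneg _
            nlinarith
  -- comparison
  have h3 : (2 * (n : ℝ)) ^ (d - 1) ≤ ((n : ℝ) / (2 * d)) ^ d := by
    have h4 : ((2 * d) ^ d * 2 ^ (d - 1) : ℝ) ≤ (n : ℝ) := by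
      have h5 : (2 * d) ^ d * 2 ^ (d - 1) ≤ n := le_trans (Nat.le_add_right _ _) hn
      exact_mod_cast h5
    rw [div_pow, le_div_iff₀ (by positivity), mul_pow]
    obtain ⟨k, hk⟩ : ∃ k, d = k + 1 := ⟨d - 1, by omega⟩
    have h5 : (n : ℝ) ^ d = (n : ℝ) * (n : ℝ) ^ (d - 1) := by
      rw [hk, Nat.add_sub_cancel, pow_succ, mul_comm]
    rw [h5]
    calc (2 : ℝ) ^ (d - 1) * (n : ℝ) ^ (d - 1) * (2 * (d : ℝ)) ^ d =
        ((2 * (d : ℝ)) ^ d * 2 ^ (d - 1)) * (n : ℝ) ^ (d - 1) := by ring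
      _ ≤ (n : ℝ) * (n : ℝ) ^ (d - 1) := mul_le_mul_of_nonneg_right h4 (by positivity)
  have h4 : Low.PP (d - 1) (n : ℝ) ≤ Low.GG (d - 1) d (n : ℝ) := h1.trans (h3.trans h2)
  have h5 : ((dimS n (d - 1) : ℕ) : ℝ) ^ 2 ≤ ((dimS n (d - 1 + d) : ℕ) : ℝ) := by
    rw [dimS_PP hn1, dimS_PP hn1, ← Low.PP_mul_GG, pow_two]
    exact mul_le_mul_of_nonneg_left h4 (Low.PP_pos _ (by linarith)).le
  exact_mod_cast h5

/-- Fröberg's formula in all degrees below `2 d`, for all large `n` and all `u`. -/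
theorem low_degrees_eventually (d : ℕ) (hd : 1 ≤ d) : ∃ n₀ : ℕ, ∀ n : ℕ, n₀ ≤ n → ∀ u j : ℕ,
    j < d → ∀ (K : Type) [Field K] [CharZero K],
      u ≤ Module.finrank K (homogeneousSubmodule (Fin n) K d) → FrobergAt K n d u j := by
  obtain ⟨n₀, h₀⟩ := exists_cond d hd
  refine ⟨n₀, fun n hn u j hj K _ _ huK => ?_⟩
  obtain ⟨hn1, h1⟩ := h₀ n hn
  exact froberg_low hn1 hj (cond_mono hn1 (by omega) h1) huK

/-- All degrees at once, for `u ≥ a n^d` away from finitely many thresholds `t_D` with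
`2 d ≤ D`. -/
theorem all_degrees_aux2 (d Dm : ℕ) (hd : 2 ≤ d) (hDm : 2 * d ≤ Dm) (a ε : ℝ)
    (ha : asymThreshold d Dm < a) (hε : 0 < ε) :
    ∃ n₀ : ℕ, ∀ n : ℕ, n₀ ≤ n → ∀ u : ℕ, a * (n : ℝ) ^ d ≤ (u : ℝ) →
      (∀ D, 2 * d ≤ D → D ≤ Dm →
        ε * (n : ℝ) ^ d ≤ |(u : ℝ) - asymThreshold d D * (n : ℝ) ^ d|) →
      FrobergAll n d u := by
  choose f hf using fun j : ℕ => one_degree d j hd ε hε
  obtain ⟨nl, hl⟩ := low_degrees_eventually d (by omega)
  have hg : ∀ D : ℕ, ∃ n₀ : ℕ, d ≤ D → ∀ n : ℕ, n₀ ≤ n → ∀ u : ℕ,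
      (asymThreshold d D + ε) * (n : ℝ) ^ d ≤ (u : ℝ) →
      ∀ (K : Type) [Field K] [CharZero K],
        u ≤ Module.finrank K (homogeneousSubmodule (Fin n) K d) →
        ∀ j : ℕ, D ≤ j + d → FrobergAt K n d u j := by
    intro D
    by_cases hD : d ≤ D
    · obtain ⟨n₀, h₀⟩ := super_all d D hd hD (asymThreshold d D + ε)
        (neg_of_thr_lt d D hd hD _ (by linarith))
      exact ⟨n₀, fun _ => h₀⟩
    · exact ⟨0, fun h => absurd h hD⟩
  choose g hg using hg
  refine ⟨1 + nl + (∑ j ∈ Finset.range (Dm + 1), f j) + ∑ D ∈ Finset.range (Dm + 1), g D,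
    fun n hn u hu hwin K _ _ huK j => ?_⟩
  have hfn : ∀ j ≤ Dm, f j ≤ n := by
    intro j hj
    have := Finset.single_le_sum (f := f) (fun i _ => Nat.zero_le _)
      (Finset.mem_range.mpr (by omega : j < Dm + 1))
    omega
  have hgn : ∀ j ≤ Dm, g j ≤ n := by
    intro j hj
    have := Finset.single_le_sum (f := g) (fun i _ => Nat.zero_le _)
      (Finset.mem_range.mpr (by omega : j < Dm + 1))
    omega
  have hnd : (0 : ℝ) < (n : ℝ) ^ d := by
    have : (0 : ℝ) < (n : ℝ) := by exact_mod_cast (by omega : 0 < n)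
    positivity
  by_cases hjd : j < d
  · exact hl n (by omega) u j hjd K huK
  push Not at hjd
  have hex : ∃ D, 2 * d ≤ D ∧ asymThreshold d D * (n : ℝ) ^ d < (u : ℝ) :=
    ⟨Dm, hDm, lt_of_lt_of_le (mul_lt_mul_of_pos_right ha hnd) hu⟩
  have hD₀ := Nat.find_spec hex
  have hDle : Nat.find hex ≤ Dm :=
    Nat.find_min' hex ⟨hDm, lt_of_lt_of_le (mul_lt_mul_of_pos_right ha hnd) hu⟩
  set D₀ := Nat.find hex with hD₀def
  by_cases hj : D₀ ≤ j + d
  · have h1 := hwin D₀ hD₀.1 hDle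
    have h2 : |(u : ℝ) - asymThreshold d D₀ * (n : ℝ) ^ d| =
        (u : ℝ) - asymThreshold d D₀ * (n : ℝ) ^ d := abs_of_pos (by linarith [hD₀.2])
    rw [h2] at h1
    exact hg D₀ (by omega) n (hgn D₀ hDle) u (by linarith) K huK j hj
  · push Not at hj
    exact hf j n (hfn j (by omega)) u (hwin (j + d) (by omega) (by omega)) K huK

end Pool.Agent.H21
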