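import Pool.Agent.H21.Poly

/-!
Asymptotic existence of good spaces of forms, from reachability.
-/

set_option linter.unusedSectionVars false

namespace Pool.Agent.H21

open scoped Classical
open MvPolynomial

variable {K : Type*} [Field K] [Infinite K]

theorem asym_exists (d D : ℕ) (hd : 2 ≤ d) (hdD : d ≤ D) (v q : ℚ) (hv : 0 ≤ v) (hq : 0 ≤ q)
    (hR : ∀ (k : ℕ) (X : Finset (Fin k)), X.card = D → Reach K (wA d v X) q)
    (ε : ℚ) (hε : 0 < ε) :
    ∃ n₀ : ℕ, ∀ n : ℕ, n₀ ≤ n → ∃ V : Submodule K (MvPolynomial (Fin n) K),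
      V ≤ homogeneousSubmodule (Fin n) K d ∧
      ((Module.finrank K V : ℕ) : ℚ) ≤ (v / (d.factorial : ℚ) + ε) * (n : ℚ) ^ d ∧
      ((Module.finrank K (homogeneousSubmodule (Fin n) K D) : ℕ) : ℚ) ≤
        ((Module.finrank K (prodSpan (D - d) V) : ℕ) : ℚ) +
          q / (D.factorial : ℚ) * (n : ℚ) ^ D := by
  obtain ⟨k, hk⟩ := exists_nat_ge (2 / ε)
  have hk2 : 2 ≤ ε * (k : ℚ) := by
    rw [div_le_iff₀ hε] at hk
    linarith
  have hkpos : 0 < k := by
    rcases Nat.eq_zero_or_pos k with h | h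
    · subst h
      simp at hk2
      linarith
    · exact h
  obtain ⟨N, hN, hsys⟩ := exists_system (K := K) k d D v q hv (hR k)
  obtain ⟨M, hM⟩ := exists_nat_ge (2 * (k * N : ℕ) / ε : ℚ)
  have hkN : 0 < k * N := Nat.mul_pos hkpos hN
  refine ⟨max (k * N) M, fun n hn => ?_⟩
  have hn1 : k * N ≤ n := (le_max_left _ _).trans hn
  have hn2 : M ≤ n := (le_max_right _ _).trans hn
  have hn0 : 0 < n := lt_of_lt_of_le hkN hn1
  set m := N * (n / (k * N)) with hmdef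
  have hm : 0 < m := Nat.mul_pos hN (Nat.div_pos hn1 hkN)
  have hkm' : k * m = k * N * (n / (k * N)) := by rw [hmdef, mul_assoc]
  have hkm : k * m ≤ n := by
    rw [hkm']; exact Nat.mul_div_le n (k * N)
  have hrem : n - k * m ≤ k * N := by
    have h1 := Nat.div_add_mod n (k * N)
    have h2 := Nat.mod_lt n hkN
    rw [← hkm'] at h1
    omega
  obtain ⟨a, t, ht, ha, hX⟩ := hsys m (Dvd.intro _ rfl)
  clear_value m
  have hmQ : (0 : ℚ) < (m : ℚ) := by exact_mod_cast hm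
  have hqm : 0 ≤ q * (m : ℚ) ^ D := mul_nonneg hq (by positivity)
  have hr : ∀ X : Finset (Fin k), X.card = D → m ^ D ≤ Module.finrank K (Submodule.span K
      (Set.range (fun s : GenIx K d a X => resP (K := K) m X (gen t s)))) + ⌊q * (m : ℚ) ^ D⌋₊ := by
    intro X hXD
    have hDk : D ≤ k := by
      rw [← hXD]
      have := Finset.card_le_univ X
      rwa [Fintype.card_fin] at this
    have h1 := hX X hXD
    have h2 := finrank_slice (K := K) m d a X t ht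
    rw [hXD] at h2
    set J := Module.finrank K (Submodule.span K
      (Set.range (fun s : GenIx K d a X => resP (K := K) m X (gen t s)))) with hJ
    have h3 : (1 - q) * (m : ℚ) ^ k ≤ (m : ℚ) ^ (k - D) * (J : ℚ) := by
      refine h1.trans ?_
      exact_mod_cast h2
    have h4 : (m : ℚ) ^ k = (m : ℚ) ^ (k - D) * (m : ℚ) ^ D := by
      rw [← pow_add, Nat.sub_add_cancel hDk]
    have h5 : (0 : ℚ) < (m : ℚ) ^ (k - D) := by positivity
    have h6 : (1 - q) * (m : ℚ) ^ D ≤ (J : ℚ) := by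
      have h7 : (m : ℚ) ^ (k - D) * ((1 - q) * (m : ℚ) ^ D) ≤ (m : ℚ) ^ (k - D) * (J : ℚ) := by
        calc (m : ℚ) ^ (k - D) * ((1 - q) * (m : ℚ) ^ D) = (1 - q) * (m : ℚ) ^ k := by
              rw [h4]; ring
          _ ≤ _ := h3
      exact le_of_mul_le_mul_left h7 h5
    have h8 : m ^ D - J ≤ ⌊q * (m : ℚ) ^ D⌋₊ := by
      apply Nat.le_floor
      by_cases h9 : J ≤ m ^ D
      · rw [Nat.cast_sub h9]
        push_cast
        linarith
      · rw [Nat.sub_eq_zero_of_le (by omega)]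
        simpa using hqm
    omega
  obtain ⟨V, hV1, hV2, hV3⟩ := poly_main (K := K) hd hdD hm hn0 hkm t ht hr
  have hnQ : (0 : ℚ) < (n : ℚ) := by exact_mod_cast hn0
  have hkmQ : (k : ℚ) * (m : ℚ) ≤ (n : ℚ) := by exact_mod_cast hkm
  refine ⟨V, hV1, ?_, ?_⟩
  · have h1 : ((Module.finrank K V : ℕ) : ℚ) ≤ ((k.choose d : ℕ) : ℚ) * (a : ℚ) +
        ((n - k * m : ℕ) : ℚ) * (n : ℚ) ^ (d - 1) + (k : ℚ) * (m : ℚ) ^ 2 * (n : ℚ) ^ (d - 2) := by
      exact_mod_cast hV2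
    have h2 : ((k.choose d : ℕ) : ℚ) * (a : ℚ) ≤ v / (d.factorial : ℚ) * (n : ℚ) ^ d := by
      have h3 : ((k.choose d : ℕ) : ℚ) ≤ (k : ℚ) ^ d / (d.factorial : ℚ) :=
        Nat.choose_le_pow_div d k
      calc ((k.choose d : ℕ) : ℚ) * (a : ℚ) ≤ ((k : ℚ) ^ d / (d.factorial : ℚ)) *
            (v * (m : ℚ) ^ d) := by
            apply mul_le_mul h3 ha (Nat.cast_nonneg _)
            positivity
        _ = v / (d.factorial : ℚ) * ((k : ℚ) * (m : ℚ)) ^ d := by
            rw [mul_pow]; ring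
        _ ≤ v / (d.factorial : ℚ) * (n : ℚ) ^ d := by
            apply mul_le_mul_of_nonneg_left _ (by positivity)
            exact pow_le_pow_left₀ (by positivity) hkmQ d
    have h4 : ((n - k * m : ℕ) : ℚ) * (n : ℚ) ^ (d - 1) ≤ (ε / 2) * (n : ℚ) ^ d := by
      have h5 : ((n - k * m : ℕ) : ℚ) ≤ (ε / 2) * (n : ℚ) := by
        have h6 : ((n - k * m : ℕ) : ℚ) ≤ ((k * N : ℕ) : ℚ) := by exact_mod_cast hrem
        have h7 : (M : ℚ) ≤ (n : ℚ) := by exact_mod_cast hn2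
        have h8 : 2 * ((k * N : ℕ) : ℚ) / ε ≤ (n : ℚ) := hM.trans h7
        rw [div_le_iff₀ hε] at h8
        linarith
      have h9 : (n : ℚ) ^ d = (n : ℚ) * (n : ℚ) ^ (d - 1) := by
        rw [← pow_succ']
        congr 1
        omega
      rw [h9, ← mul_assoc]
      exact mul_le_mul_of_nonneg_right h5 (by positivity)
    have h10 : (k : ℚ) * (m : ℚ) ^ 2 * (n : ℚ) ^ (d - 2) ≤ (ε / 2) * (n : ℚ) ^ d := by
      have h11 : (k : ℚ) * (m : ℚ) ^ 2 ≤ (ε / 2) * (n : ℚ) ^ 2 := by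
        have h12 : (0 : ℚ) ≤ (k : ℚ) * (m : ℚ) ^ 2 := by positivity
        have h13 : ((k : ℚ) * (m : ℚ)) ^ 2 ≤ (n : ℚ) ^ 2 :=
          pow_le_pow_left₀ (by positivity) hkmQ 2
        have h14 : (ε / 2) * ((k : ℚ) * (m : ℚ)) ^ 2 ≤ (ε / 2) * (n : ℚ) ^ 2 :=
          mul_le_mul_of_nonneg_left h13 (by positivity)
        nlinarith
      have h15 : (n : ℚ) ^ d = (n : ℚ) ^ 2 * (n : ℚ) ^ (d - 2) := by
        rw [← pow_add]
        congr 1
        omega
      rw [h15, ← mul_assoc]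
      exact mul_le_mul_of_nonneg_right h11 (by positivity)
    linarith
  · have h1 : ((Module.finrank K (homogeneousSubmodule (Fin n) K D) : ℕ) : ℚ) ≤
        ((Module.finrank K (prodSpan (D - d) V) : ℕ) : ℚ) +
          ((k.choose D : ℕ) : ℚ) * ((⌊q * (m : ℚ) ^ D⌋₊ : ℕ) : ℚ) := by
      exact_mod_cast hV3
    have h2 : ((k.choose D : ℕ) : ℚ) * ((⌊q * (m : ℚ) ^ D⌋₊ : ℕ) : ℚ) ≤
        q / (D.factorial : ℚ) * (n : ℚ) ^ D := by
      have h3 : ((k.choose D : ℕ) : ℚ) ≤ (k : ℚ) ^ D / (D.factorial : ℚ) :=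
        Nat.choose_le_pow_div D k
      calc ((k.choose D : ℕ) : ℚ) * ((⌊q * (m : ℚ) ^ D⌋₊ : ℕ) : ℚ) ≤
            ((k : ℚ) ^ D / (D.factorial : ℚ)) * (q * (m : ℚ) ^ D) := by
            apply mul_le_mul h3 (Nat.floor_le hqm) (Nat.cast_nonneg _)
            positivity
        _ = q / (D.factorial : ℚ) * ((k : ℚ) * (m : ℚ)) ^ D := by
            rw [mul_pow]; ring
        _ ≤ q / (D.factorial : ℚ) * (n : ℚ) ^ D := by
            apply mul_le_mul_of_nonneg_left _ (by positivity)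
            exact pow_le_pow_left₀ (by positivity) hkmQ D
    linarith

end Pool.Agent.H21
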