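import Pool.Agent.H21.Label

/-!
Exactness of labelled systems with distinct labels.
-/

set_option linter.unusedSectionVars false

namespace Pool.Agent.H21

open scoped Classical

/-- The sum over partitions for uniform weights. -/
lemma EE_uniform {P : Type} [Fintype P] (d : ℕ) (hd : 2 ≤ d) (v : ℚ) (e : ℕ → ℚ) (he0 : e 0 = 1)
    (hrec : ∀ k, e (k + 1) = e k - (k.choose (d - 1) : ℚ) * v * e (k + 1 - d))
    (b : P → ℕ) (W : Finset P → ℤ) (Q : Finset P)
    (h1 : ∀ q ∈ Q, W {q} = b q)
    (hdT : ∀ T ⊆ Q, T.card = d → (W T : ℚ) = - (v * ∏ q ∈ T, (b q : ℚ)))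
    (h0 : ∀ T ⊆ Q, T.Nonempty → T.card ≠ 1 → T.card ≠ d → W T = 0) :
    ∀ (n : ℕ) (Q' : Finset P), Q'.card = n → Q' ⊆ Q →
      (EE W Q' : ℚ) = e n * ∏ q ∈ Q', (b q : ℚ) := by
  intro n
  induction n using Nat.strong_induction_on with
  | _ n ih =>
    intro Q' hn hQ'
    rcases Nat.eq_zero_or_pos n with hn0 | hn0
    · subst hn0
      rw [Finset.card_eq_zero] at hn
      rw [hn, EE_empty, he0]
      simp
    · obtain ⟨k, rfl⟩ : ∃ k, n = k + 1 := ⟨n - 1, by omega⟩
      obtain ⟨p, hp⟩ : Q'.Nonempty := by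
        rw [← Finset.card_pos]
        omega
      rw [EE_rec' W Q' p hp]
      push_cast
      have hterm : ∀ T ∈ sub Q' p, (W T : ℚ) * (EE W (Q' \ T) : ℚ) =
          (if T = {p} then e k * ∏ q ∈ Q', (b q : ℚ) else 0) +
          (if T.card = d then - (v * e (k + 1 - d) * ∏ q ∈ Q', (b q : ℚ)) else 0) := by
        intro T hT
        rw [mem_sub] at hT
        have hcard : (Q' \ T).card = k + 1 - T.card := by
          rw [Finset.card_sdiff_of_subset hT.1, hn]
        have hTpos : 0 < T.card := Finset.card_pos.mpr ⟨p, hT.2⟩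
        have hEE := ih (k + 1 - T.card) (by omega) (Q' \ T) hcard (Finset.sdiff_subset.trans hQ')
        have hprod : (∏ q ∈ Q', (b q : ℚ)) = (∏ q ∈ T, (b q : ℚ)) * ∏ q ∈ Q' \ T, (b q : ℚ) := by
          rw [mul_comm]
          exact (Finset.prod_sdiff hT.1).symm
        by_cases hTp : T = {p}
        · rw [if_pos hTp, if_neg (by rw [hTp, Finset.card_singleton]; omega), add_zero]
          rw [hEE, hprod, hTp, Finset.card_singleton, h1 p (hQ' hp), Finset.prod_singleton]
          simp only [Nat.add_sub_cancel, Int.cast_natCast]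
          ring
        · rw [if_neg hTp, zero_add]
          by_cases hTd : T.card = d
          · rw [if_pos hTd, hEE, hTd, hdT T (hT.1.trans hQ') hTd, hprod]
            ring
          · rw [if_neg hTd, h0 T (hT.1.trans hQ') ⟨p, hT.2⟩ ?_ hTd]
            · simp
            · intro hc
              obtain ⟨q, hq⟩ := Finset.card_eq_one.mp hc
              rw [hq] at hT hTp
              exact hTp (by rw [Finset.mem_singleton.mp hT.2])
      rw [Finset.sum_congr rfl hterm, Finset.sum_add_distrib, Finset.sum_ite_eq',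
        if_pos (mem_sub.mpr ⟨Finset.singleton_subset_iff.mpr hp, Finset.mem_singleton_self p⟩),
        ← Finset.sum_filter, Finset.sum_const]
      have hcount : ((sub Q' p).filter (fun T => T.card = d)).card = k.choose (d - 1) := by
        have h2 := card_filter_mem_powersetCard d (by omega) Q' p hp
        rw [hn] at h2
        simp only [Nat.add_sub_cancel] at h2
        rw [← h2]
        congr 1
        ext T
        rw [Finset.mem_filter, mem_sub, Finset.mem_filter, Finset.mem_powersetCard]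
        tauto
      rw [hcount, hrec k, nsmul_eq_mul]
      ring

/-- Enumerate a small set by a larger one. -/
lemma exists_enum {α β : Type*} [Zero α] (s : Finset α) (t : Finset β) (h : s.card ≤ t.card) :
    ∃ c : β → α, (∀ a ∈ s, ∃ b ∈ t, c b = a) ∧ ∀ b, c b ∈ s ∨ c b = 0 := by
  have h1 : Fintype.card ↥s ≤ Fintype.card ↥t := by
    rw [Fintype.card_coe, Fintype.card_coe]
    exact h
  obtain ⟨f⟩ := Function.Embedding.nonempty_of_card_le h1
  refine ⟨fun b => if hb : ∃ a : ↥s, (f a).1 = b then hb.choose.1 else 0, ?_, ?_⟩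
  · intro a ha
    refine ⟨(f ⟨a, ha⟩).1, (f ⟨a, ha⟩).2, ?_⟩
    have hex : ∃ a' : ↥s, (f a').1 = (f ⟨a, ha⟩).1 := ⟨⟨a, ha⟩, rfl⟩
    simp only
    rw [dif_pos hex]
    have h2 := hex.choose_spec
    have h3 : f hex.choose = f ⟨a, ha⟩ := Subtype.ext h2
    rw [f.injective h3]
  · intro b
    simp only
    split_ifs with hb
    · exact Or.inl hb.choose.2
    · exact Or.inr rfl

/-- The claim about labelled systems. -/
def Claim (K : Type) [Field K] (d : ℕ) {P : Type} [Fintype P] (lam : P → ℕ) (Q : Finset P)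
    (v : ℚ) : Prop :=
  ∃ N : ℕ, 0 < N ∧ ∀ (L : ℕ) (B : ℕ → Finset (Fin (L + 1))), (∀ q ∈ Q, N ∣ (B (lam q)).card) →
    ∀ C : Finset ℕ → Finset ℕ,
      (∀ T ⊆ Q.image lam, T.card = d → ((C T).card : ℚ) ≤ v * ∏ i ∈ T, ((B i).card : ℚ)) →
      ∃ t ∈ adm K (Fin (L + 1)), LEx d lam B C Q t

lemma base_one (K : Type) [Field K] [Infinite K] (d : ℕ) (hd : 2 ≤ d) (v : ℚ) (hv : 0 ≤ v)
    (e : ℕ → ℚ) (he0 : e 0 = 1)
    (hrec : ∀ k, e (k + 1) = e k - (k.choose (d - 1) : ℚ) * v * e (k + 1 - d))
    {P : Type} [Fintype P] (lam : P → ℕ) (Q : Finset P) (hinj : Set.InjOn lam Q)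
    (hpos : ∀ i < Q.card, 0 < e i) (hpos' : 0 ≤ e Q.card) :
    ∃ N : ℕ, 0 < N ∧ ∀ (L : ℕ) (B : ℕ → Finset (Fin (L + 1))),
      (∀ q ∈ Q, N ∣ (B (lam q)).card) → ∀ C : Finset ℕ → Finset ℕ,
      (∀ T ⊆ Q.image lam, T.card = d → ((C T).card : ℚ) = v * ∏ i ∈ T, ((B i).card : ℚ)) →
      ∃ t ∈ adm K (Fin (L + 1)), Good d lam B C Q t := by
  have hR := reach_wA (K := K) (I := ↥Q) d (by omega) v hv e he0 hrec Q.card Finset.univ
    (by rw [Finset.card_univ, Fintype.card_coe]) hpos hpos'
  obtain ⟨N, hN, hR⟩ := hR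
  refine ⟨N, hN, fun L B hB C hC => ?_⟩
  set Bq : ↥Q → Finset ℕ := fun q => (B (lam q.1)).map Fin.valEmbedding with hBq
  have hBqc : ∀ q, (Bq q).card = (B (lam q.1)).card := fun q => Finset.card_map _
  obtain ⟨G, hG1, hG2, hG3⟩ := hR Bq (fun q => by rw [hBqc]; exact hB q.1 q.2)
  -- positions of a set of labels
  set TH : Finset ℕ → Finset ↥Q := fun T => Finset.univ.filter (fun q => lam q.1 ∈ T) with hTH
  -- the enumeration
  have henum : ∀ T : Finset ℕ, ∃ c : ℕ → ((↥Q → ℕ) → K),
      (((T ⊆ Q.image lam ∧ T.card = d) → ∀ a ∈ G (TH T), ∃ b ∈ C T, c b = a)) ∧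
      ∀ b, c b ∈ G (TH T) ∨ c b = 0 := by
    intro T
    by_cases hT : T ⊆ Q.image lam ∧ T.card = d
    · have h1 : (G (TH T)).card ≤ (C T).card := by
        have h2 := hG2 (TH T)
        have h3 : wA d v Finset.univ (TH T) ≤ v := by
          unfold wA
          split_ifs
          · exact le_rfl
          · exact hv
        have h4 : ∏ q ∈ TH T, ((Bq q).card : ℚ) = ∏ i ∈ T, ((B i).card : ℚ) := by
          refine Finset.prod_bij (fun q _ => lam q.1) ?_ ?_ ?_ ?_
          · intro q hq
            exact (Finset.mem_filter.mp hq).2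
          · intro q _ q' _ hqq
            exact Subtype.ext (hinj q.2 q'.2 hqq)
          · intro i hi
            obtain ⟨q, hq, hqi⟩ := Finset.mem_image.mp (hT.1 hi)
            exact ⟨⟨q, hq⟩, Finset.mem_filter.mpr ⟨Finset.mem_univ _, by rw [hqi]; exact hi⟩, hqi⟩
          · intro q _
            rw [hBqc]
        have h5 : ((G (TH T)).card : ℚ) ≤ ((C T).card : ℚ) := by
          rw [hC T hT.1 hT.2, ← h4]
          exact h2.trans (mul_le_mul_of_nonneg_right h3
            (Finset.prod_nonneg fun _ _ => Nat.cast_nonneg _))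
        exact_mod_cast h5
      obtain ⟨c, hc1, hc2⟩ := exists_enum (G (TH T)) (C T) h1
      exact ⟨c, fun _ => hc1, hc2⟩
    · exact ⟨fun _ => 0, fun h => absurd h hT, fun _ => Or.inr rfl⟩
  choose c hc1 hc2 using henum
  set t : Sys K (Fin (L + 1)) := fun T l z =>
    c T l (fun q => if lam q.1 ∈ T then (z (lam q.1)).val else 0) with ht
  refine ⟨t, ?_, ?_⟩
  · intro T l x y hxy
    simp only [ht]
    congr 1
    funext q
    split_ifs with hq
    · rw [hxy _ hq]
    · rfl
  -- weights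
  have hEE : (EE (wt (fun p => B (lam p)) Prod.fst (fam (CL d lam C))) Q : ℚ) =
      e Q.card * ∏ q ∈ Q, ((B (lam q)).card : ℚ) := by
    refine EE_uniform d hd v e he0 hrec (fun p => (B (lam p)).card) _ Q ?_ ?_ ?_ _ Q rfl
      (Finset.Subset.refl _)
    · intro q _
      unfold wt
      rw [card_fam_filter]
      unfold CL
      rw [if_pos (Finset.card_singleton q), if_neg (by rw [Finset.card_singleton]; omega),
        Finset.prod_singleton]
      simp
    · intro T hT hTd
      unfold wt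
      rw [card_fam_filter]
      unfold CL
      have hinjT : Set.InjOn lam T := hinj.mono (by exact_mod_cast hT)
      rw [if_neg (by omega), if_pos ⟨hTd, hinjT⟩]
      push_cast
      rw [hC _ (Finset.image_subset_image hT) (by rw [Finset.card_image_of_injOn hinjT, hTd]),
        Finset.prod_image hinjT]
      ring
    · intro T hT _ hT1 hTd
      unfold wt
      rw [card_fam_filter]
      unfold CL
      rw [if_neg hT1, if_neg (fun h => hTd h.1)]
      simp
  -- the comparison map
  let Ψ : (↥(Fintype.piFinset Bq) → K) →ₗ[K] ((P → Fin (L + 1)) → K) :=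
    { toFun := fun ψ x => if h : ∀ q ∈ Q, x q ∈ B (lam q) then
        ψ ⟨fun q => (x q.1).val, Fintype.mem_piFinset.mpr fun q =>
          Finset.mem_map.mpr ⟨x q.1, h q.1 q.2, rfl⟩⟩ else 0
      map_add' := by
        intro f g
        funext x
        simp only [Pi.add_apply]
        split_ifs <;> simp
      map_smul' := by
        intro a f
        funext x
        simp only [Pi.smul_apply, RingHom.id_apply]
        split_ifs <;> simp }
  have hΨapp : ∀ ψ x, Ψ ψ x = if h : ∀ q ∈ Q, x q ∈ B (lam q) then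
        ψ ⟨fun q => (x q.1).val, Fintype.mem_piFinset.mpr fun q =>
          Finset.mem_map.mpr ⟨x q.1, h q.1 q.2, rfl⟩⟩ else 0 := fun _ _ => rfl
  have hΨinj : Function.Injective Ψ := by
    rw [← LinearMap.ker_eq_bot, LinearMap.ker_eq_bot']
    intro ψ hψ
    funext y
    have hy := Fintype.mem_piFinset.mp y.2
    have hy' : ∀ q : ↥Q, ∃ z ∈ B (lam q.1), z.val = y.1 q := by
      intro q
      obtain ⟨z, hz, hzq⟩ := Finset.mem_map.mp (hy q)
      exact ⟨z, hz, hzq⟩
    choose z hz hzq using hy'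
    have h1 := congrFun hψ (fun p => if hp : p ∈ Q then z ⟨p, hp⟩ else 0)
    rw [hΨapp, dif_pos (fun q hq => by rw [dif_pos hq]; exact hz ⟨q, hq⟩)] at h1
    refine Eq.trans ?_ h1
    congr 1
    apply Subtype.ext
    funext q
    simp only
    rw [dif_pos q.2, hzq]
  -- the image of the old ideal lies in the new one
  have hincl : ((Submodule.span K (prods G)).map (res K Bq)).map Ψ ≤
      JJ (fun p => B (lam p)) Prod.fst (hb Prod.fst (HL lam t) (fun p => B (lam p)))
        (fam (CL d lam C)) Q := by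
    rw [← Submodule.map_comp, Submodule.map_span, Submodule.span_le]
    rintro _ ⟨_, ⟨T', f, hf, g, hg, rfl⟩, rfl⟩
    have hT'd : T'.card = d := by
      by_contra hne
      have h2 := hG2 T'
      unfold wA at h2
      rw [if_neg (fun h => hne h.1), zero_mul] at h2
      have h3 : (G T').card = 0 := by
        have : (0 : ℚ) ≤ ((G T').card : ℚ) := Nat.cast_nonneg _
        exact_mod_cast le_antisymm h2 this
      rw [Finset.card_eq_zero] at h3
      rw [h3] at hf
      simp at hf
    -- the positions and labels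
    set Tt : Finset P := T'.map (Function.Embedding.subtype _) with hTt
    have hTtQ : Tt ⊆ Q := by
      intro p hp
      obtain ⟨q, _, rfl⟩ := Finset.mem_map.mp hp
      exact q.2
    have hTtinj : Set.InjOn lam Tt := hinj.mono (by exact_mod_cast hTtQ)
    have hTtd : Tt.card = d := by rw [hTt, Finset.card_map, hT'd]
    have hmemTt : ∀ q : ↥Q, q.1 ∈ Tt ↔ q ∈ T' := by
      intro q
      rw [hTt, Finset.mem_map]
      constructor
      · rintro ⟨q', hq', h4⟩
        have : q' = q := Subtype.ext h4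
        rwa [← this]
      · intro h4
        exact ⟨q, h4, rfl⟩
    have hTHT : TH (Tt.image lam) = T' := by
      ext q
      rw [hTH, Finset.mem_filter, Finset.mem_image]
      constructor
      · rintro ⟨_, p, hp, hpq⟩
        have : p = q.1 := hinj (hTtQ hp) q.2 hpq
        rw [this] at hp
        exact (hmemTt q).mp hp
      · intro hq
        exact ⟨Finset.mem_univ _, q.1, (hmemTt q).mpr hq, rfl⟩
    have hlab : Tt.image lam ⊆ Q.image lam ∧ (Tt.image lam).card = d :=
      ⟨Finset.image_subset_image hTtQ, by rw [Finset.card_image_of_injOn hTtinj, hTtd]⟩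
    obtain ⟨l, hl, hcl⟩ := hc1 (Tt.image lam) hlab f (by rw [hTHT]; exact hf)
    have hmem : (Tt, l) ∈ fam (CL d lam C) := by
      rw [mem_fam]
      unfold CL
      rw [if_pos ⟨hTtd, hTtinj⟩]
      exact hl
    -- the cofactor
    let g' : (P → Fin (L + 1)) → K := fun x =>
      if ∀ p ∈ Q \ Tt, x p ∈ B (lam p) then g (fun q => if q ∈ T' then 0 else (x q.1).val) else 0
    have hg' : g' ∈ MM K (fun p => B (lam p)) (Q \ Tt) := by
      refine ⟨fun x y hxy => ?_, fun x hx => ?_⟩
      · simp only [g']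
        have h5 : (∀ p ∈ Q \ Tt, x p ∈ B (lam p)) ↔ (∀ p ∈ Q \ Tt, y p ∈ B (lam p)) := by
          constructor
          · intro h p hp; rw [← hxy p hp]; exact h p hp
          · intro h p hp; rw [hxy p hp]; exact h p hp
        have h6 : (fun q : ↥Q => if q ∈ T' then 0 else (x q.1).val) =
            (fun q : ↥Q => if q ∈ T' then 0 else (y q.1).val) := by
          funext q
          split_ifs with hq
          · rfl
          · rw [hxy q.1 (Finset.mem_sdiff.mpr ⟨q.2, fun h => hq ((hmemTt q).mp h)⟩)]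
        simp only [h5, h6]
      · simp only [g']
        rw [if_neg]
        intro h
        obtain ⟨p, hp, hxp⟩ := hx
        exact hxp (h p hp)
    have heq : (Ψ ∘ₗ res K Bq) (f * g) =
        hb Prod.fst (HL lam t) (fun p => B (lam p)) (Tt, l) * g' := by
      funext x
      rw [LinearMap.comp_apply, hΨapp]
      simp only [res_apply, hb, bx, HL, Pi.mul_apply, g', ht]
      by_cases hx : ∀ q ∈ Q, x q ∈ B (lam q)
      · rw [dif_pos hx, if_pos (fun p hp => hx p (hTtQ hp)),
          if_pos (fun p hp => hx p (Finset.mem_sdiff.mp hp).1), one_mul]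
        congr 1
        · rw [hcl]
          apply hG1 T' f hf
          intro q hq
          have hq' : q ∈ T' := by exact_mod_cast hq
          have hqT : q.1 ∈ Tt := (hmemTt q).mpr hq'
          rw [if_pos (Finset.mem_image_of_mem lam hqT), liftx_apply hTtinj x hqT]
        · apply hg
          intro q hq
          have hq' : q ∉ T' := by simpa using hq
          rw [if_neg hq']
      · rw [dif_neg hx]
        by_cases hx1 : ∀ p ∈ Tt, x p ∈ B (lam p)
        · rw [if_neg (c := ∀ p ∈ Q \ Tt, x p ∈ B (lam p)), mul_zero]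
          intro hx2
          apply hx
          intro q hq
          by_cases hqT : q ∈ Tt
          · exact hx1 q hqT
          · exact hx2 q (Finset.mem_sdiff.mpr ⟨hq, hqT⟩)
        · rw [if_neg hx1, zero_mul, zero_mul]
    rw [heq]
    exact mem_JJ hmem hTtQ hg'
  have hrk : rk Bq G ≤ Module.finrank K
      (JJ (fun p => B (lam p)) Prod.fst (hb Prod.fst (HL lam t) (fun p => B (lam p)))
        (fam (CL d lam C)) Q) := by
    unfold rk
    rw [(Submodule.equivMapOfInjective Ψ hΨinj _).finrank_eq]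
    exact Submodule.finrank_mono hincl
  -- conclusion
  unfold Good DD
  have h7 : ∏ q : ↥Q, ((Bq q).card : ℚ) = ∏ q ∈ Q, ((B (lam q)).card : ℚ) := by
    rw [← Finset.prod_coe_sort Q (fun q => ((B (lam q)).card : ℚ))]
    exact Finset.prod_congr rfl fun q _ => by rw [hBqc]
  rw [h7] at hG3
  have h8 : (rk Bq G : ℚ) ≤ (Module.finrank K
      (JJ (fun p => B (lam p)) Prod.fst (hb Prod.fst (HL lam t) (fun p => B (lam p)))
        (fam (CL d lam C)) Q) : ℚ) := by exact_mod_cast hrk
  have h9 : (((∏ q ∈ Q, ((B (lam q)).card : ℤ)) - (Module.finrank K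
      (JJ (fun p => B (lam p)) Prod.fst (hb Prod.fst (HL lam t) (fun p => B (lam p)))
        (fam (CL d lam C)) Q) : ℤ) : ℤ) : ℚ) ≤
      (EE (wt (fun p => B (lam p)) Prod.fst (fam (CL d lam C))) Q : ℚ) := by
    rw [hEE]
    push_cast
    linarith
  exact_mod_cast h9

/-- Integrality of `v * ∏ |B i|`. -/
lemma exists_nat_eq_mul_prod (v : ℚ) (hv : 0 ≤ v) {ι : Type*} (T : Finset ι) (hT : T.Nonempty)
    (b : ι → ℕ) (N : ℕ) (hN : v.den ∣ N) (hb : ∀ i ∈ T, N ∣ b i) :
    ∃ m : ℕ, (m : ℚ) = v * ∏ i ∈ T, (b i : ℚ) := by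
  obtain ⟨i, hi⟩ := hT
  obtain ⟨k, hk⟩ := hN.trans (hb i hi)
  refine ⟨v.num.toNat * (k * ∏ j ∈ T.erase i, b j), ?_⟩
  rw [← Finset.mul_prod_erase T _ hi]
  push_cast
  rw [hk]
  have h1 : ((v.num.toNat : ℕ) : ℚ) = v * v.den := by
    have h2 : ((v.num.toNat : ℕ) : ℤ) = v.num := Int.toNat_of_nonneg (Rat.num_nonneg.mpr hv)
    have h3 : ((v.num.toNat : ℕ) : ℚ) = (v.num : ℚ) := by exact_mod_cast h2
    rw [h3]
    exact (Rat.mul_den_eq_num v).symm
  rw [h1]
  push_cast
  ring

theorem base_claim (K : Type) [Field K] [Infinite K] (d : ℕ) (hd : 2 ≤ d) (v : ℚ) (hv : 0 ≤ v)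
    (e : ℕ → ℚ) (he0 : e 0 = 1)
    (hrec : ∀ k, e (k + 1) = e k - (k.choose (d - 1) : ℚ) * v * e (k + 1 - d))
    {P : Type} [Fintype P] (lam : P → ℕ) (Q : Finset P) (hinj : Set.InjOn lam Q)
    (hpos : ∀ i ≤ Q.card, 0 < e i) : Claim K d lam Q v := by
  have h1 : ∀ Q' : Finset P, ∃ N : ℕ, 0 < N ∧ (Q' ⊆ Q →
      ∀ (L : ℕ) (B : ℕ → Finset (Fin (L + 1))),
      (∀ q ∈ Q', N ∣ (B (lam q)).card) → ∀ C : Finset ℕ → Finset ℕ,
      (∀ T ⊆ Q'.image lam, T.card = d → ((C T).card : ℚ) = v * ∏ i ∈ T, ((B i).card : ℚ)) →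
      ∃ t ∈ adm K (Fin (L + 1)), Good d lam B C Q' t) := by
    intro Q'
    by_cases hQ' : Q' ⊆ Q
    · have hc := Finset.card_le_card hQ'
      obtain ⟨N, hN, h⟩ := base_one K d hd v hv e he0 hrec lam Q'
        (hinj.mono (by exact_mod_cast hQ')) (fun i hi => hpos i (by omega)) (hpos _ hc).le
      exact ⟨N, hN, fun _ => h⟩
    · exact ⟨1, one_pos, fun h => absurd h hQ'⟩
  choose Nf hNf hgood using h1
  refine ⟨v.den * ∏ Q' ∈ Q.powerset, Nf Q', Nat.mul_pos v.den_pos
    (Finset.prod_pos fun Q' _ => hNf Q'), ?_⟩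
  intro L B hB C hC
  -- enlarge the index sets
  have h2 : ∀ T : Finset ℕ, ∃ C' : Finset ℕ, (T ⊆ Q.image lam → T.card = d →
      (C T ⊆ C' ∧ (C'.card : ℚ) = v * ∏ i ∈ T, ((B i).card : ℚ))) := by
    intro T
    by_cases hT : T ⊆ Q.image lam ∧ T.card = d
    · obtain ⟨m, hm⟩ := exists_nat_eq_mul_prod v hv T
        (by rw [← Finset.card_pos]; omega) (fun i => (B i).card) _
        (Dvd.intro _ rfl) (fun i hi => by
          obtain ⟨q, hq, hqi⟩ := Finset.mem_image.mp (hT.1 hi)
          rw [← hqi]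
          exact hB q hq)
      have h3 : (C T).card ≤ m := by
        have := hC T hT.1 hT.2
        rw [← hm] at this
        exact_mod_cast this
      obtain ⟨C', hC'1, hC'2⟩ := Infinite.exists_superset_card_eq (C T) m h3
      exact ⟨C', fun _ _ => ⟨hC'1, by rw [hC'2, hm]⟩⟩
    · exact ⟨∅, fun h h' => absurd ⟨h, h'⟩ hT⟩
  choose C' hC' using h2
  obtain ⟨t, ht, hsat⟩ := spec_simul (K := K) d Q.powerset
    (fun Q' => (⟨P, inferInstance, lam, B, C', Q'⟩ : Spec (Fin (L + 1)))) (by
      intro Q' hQ'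
      rw [Finset.mem_powerset] at hQ'
      refine hgood Q' hQ' L B ?_ C' ?_
      · intro q hq
        refine Dvd.dvd.trans ?_ (hB q (hQ' hq))
        exact Dvd.dvd.mul_left (Finset.dvd_prod_of_mem Nf (Finset.mem_powerset.mpr hQ')) _
      · intro T hT hTd
        exact (hC' T (hT.trans (Finset.image_subset_image hQ')) hTd).2)
  refine ⟨t, ht, ?_⟩
  have h4 : LEx d lam B C' Q t := fun Q' hQ' => hsat Q' (Finset.mem_powerset.mpr hQ')
  exact h4.sub (by omega) fun T hT hTd => (hC' T hT hTd).1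

/-- The claim is monotone in the density. -/
lemma Claim.mono {K : Type} [Field K] {d : ℕ} {P : Type} [Fintype P] {lam : P → ℕ}
    {Q : Finset P} {v v' : ℚ} (h : Claim K d lam Q v) (hv : v' ≤ v) : Claim K d lam Q v' := by
  obtain ⟨N, hN, h⟩ := h
  refine ⟨N, hN, fun L B hB C hC => h L B hB C fun T hT hTd => (hC T hT hTd).trans ?_⟩
  exact mul_le_mul_of_nonneg_right hv (Finset.prod_nonneg fun _ _ => Nat.cast_nonneg _)

end Pool.Agent.H21
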