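import Pool.Agent.H21.State

/-!
Exactness of labelled systems for all labellings.
-/

set_option linter.unusedSectionVars false

namespace Pool.Agent.H21

open scoped Classical

variable {K : Type} [Field K] [Infinite K] {P : Type} [Fintype P]

lemma lex_simul {A : Type} [Fintype A] [Nonempty A] (d : ℕ) {ι : Type} (S : Finset ι)
    (lamF : ι → P → ℕ) (BF : ι → ℕ → Finset A) (CF : ι → Finset ℕ → Finset ℕ) (Q : Finset P)
    (h : ∀ s ∈ S, ∃ t ∈ adm K A, LEx d (lamF s) (BF s) (CF s) Q t) :
    ∃ t ∈ adm K A, ∀ s ∈ S, LEx d (lamF s) (BF s) (CF s) Q t := by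
  obtain ⟨t, ht, h'⟩ := spec_simul (K := K) d (S ×ˢ Q.powerset)
    (fun s => (⟨P, inferInstance, lamF s.1, BF s.1, CF s.1, s.2⟩ : Spec A)) (by
      rintro ⟨s, Q'⟩ hs
      rw [Finset.mem_product, Finset.mem_powerset] at hs
      obtain ⟨t, ht, hE⟩ := h s hs.1
      exact ⟨t, ht, hE Q' hs.2⟩)
  exact ⟨t, ht, fun s hs Q' hQ' =>
    h' (s, Q') (Finset.mem_product.mpr ⟨hs, Finset.mem_powerset.mpr hQ'⟩)⟩

/-- The inductive step: a repeated label is split. -/
theorem claim_step (d : ℕ) (hd : 2 ≤ d) (lam : P → ℕ) (Q R : Finset P) (i z : ℕ)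
    (hR : R = Q.filter (fun q => lam q = i)) (hz : z ∉ Q.image lam) (p p' : P) (hp : p ∈ R)
    (hp' : p' ∈ R) (hpp' : p' ≠ p) (v v' : ℚ) (hv' : 0 ≤ v') (hvv' : v ≤ v') (M : ℕ) (hM : 2 ≤ M)
    (hvM : v * M ≤ (M - 1) * v')
    (hbase : Claim K d lam (Q \ R) v')
    (hmix : ∀ Zs ⊆ R, Zs.Nonempty → Zs ≠ R → Claim K d (lamZ lam z Zs) Q v') :
    Claim K d lam Q v := by
  have hpQ : p ∈ Q ∧ lam p = i := by
    rw [hR] at hp
    exact Finset.mem_filter.mp hp
  have hRmem : ∀ q, q ∈ R ↔ q ∈ Q ∧ lam q = i := fun q => by rw [hR, Finset.mem_filter]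
  have hiz : i ≠ z := fun h => hz (Finset.mem_image.mpr ⟨p, hpQ.1, hpQ.2.trans h⟩)
  obtain ⟨Nb, hNb, hbase⟩ := hbase
  have h1 : ∀ Zs : Finset P, ∃ N : ℕ, 0 < N ∧ (Zs ⊆ R → Zs.Nonempty → Zs ≠ R →
      ∀ (L : ℕ) (B : ℕ → Finset (Fin (L + 1))), (∀ q ∈ Q, N ∣ (B (lamZ lam z Zs q)).card) →
      ∀ C : Finset ℕ → Finset ℕ,
      (∀ T ⊆ Q.image (lamZ lam z Zs), T.card = d →
        ((C T).card : ℚ) ≤ v' * ∏ i ∈ T, ((B i).card : ℚ)) →
      ∃ t ∈ adm K (Fin (L + 1)), LEx d (lamZ lam z Zs) B C Q t) := by
    intro Zs
    by_cases hc : Zs ⊆ R ∧ Zs.Nonempty ∧ Zs ≠ R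
    · obtain ⟨N, hN, h⟩ := hmix Zs hc.1 hc.2.1 hc.2.2
      exact ⟨N, hN, fun _ _ _ => h⟩
    · exact ⟨1, one_pos, fun h1 h2 h3 => absurd ⟨h1, h2, h3⟩ hc⟩
  choose Nf hNf hmix using h1
  set N₀ := v'.den * Nb * ∏ Zs ∈ R.powerset, Nf Zs with hN₀
  have hN₀pos : 0 < N₀ := Nat.mul_pos (Nat.mul_pos v'.den_pos hNb)
    (Finset.prod_pos fun _ _ => hNf _)
  have hden : v'.den ∣ N₀ := Dvd.dvd.mul_right (Dvd.intro _ rfl) _
  have hNbd : Nb ∣ N₀ := Dvd.dvd.mul_right (Dvd.intro_left _ rfl) _
  have hNfd : ∀ Zs ⊆ R, Nf Zs ∣ N₀ := fun Zs hZs =>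
    Dvd.dvd.mul_left (Finset.dvd_prod_of_mem Nf (Finset.mem_powerset.mpr hZs)) _
  refine ⟨N₀ * M, Nat.mul_pos hN₀pos (by omega), ?_⟩
  intro L B hB C hC
  -- the size of a part
  obtain ⟨k, hk⟩ : N₀ * M ∣ (B i).card := by
    have := hB p hpQ.1
    rwa [hpQ.2] at this
  set x₀ := N₀ * k with hx₀
  have hBi : (B i).card = M * x₀ := by
    rw [hk, hx₀]
    ring
  have hN₀x : N₀ ∣ x₀ := Dvd.intro _ rfl
  have hN₀B : ∀ q ∈ Q, N₀ ∣ (B (lam q)).card := fun q hq =>
    (Dvd.intro _ rfl : N₀ ∣ N₀ * M).trans (hB q hq)
  set b : ℕ → ℕ := fun j => if j = i then x₀ else (B j).card with hb_def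
  have hbi : b i = x₀ := by rw [hb_def]; simp
  have hbj : ∀ j, j ≠ i → b j = (B j).card := fun j hj => by rw [hb_def]; simp [hj]
  -- the number of new functions
  have h2 : ∀ T : Finset ℕ, ∃ m : ℕ, T ⊆ Q.image lam → T.card = d →
      (m : ℚ) = v' * ∏ j ∈ T, (b j : ℚ) := by
    intro T
    by_cases hT : T ⊆ Q.image lam ∧ T.card = d
    · obtain ⟨m, hm⟩ := exists_nat_eq_mul_prod v' hv' T
        (by rw [← Finset.card_pos]; omega) b N₀ hden (fun j hj => by
          by_cases hji : j = i
          · rw [hji, hbi]
            exact hN₀x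
          · rw [hbj j hji]
            obtain ⟨q, hq, hqj⟩ := Finset.mem_image.mp (hT.1 hj)
            rw [← hqj]
            exact hN₀B q hq)
      exact ⟨m, fun _ _ => hm⟩
    · exact ⟨0, fun h h' => absurd ⟨h, h'⟩ hT⟩
  choose bT hbT using h2
  -- products over T with the box of i changed
  have hprod : ∀ (T : Finset ℕ), i ∈ T → ∏ j ∈ T, (b j : ℚ) =
      (x₀ : ℚ) * ∏ j ∈ T.erase i, ((B j).card : ℚ) := by
    intro T hi
    rw [← Finset.mul_prod_erase T _ hi, hbi]
    congr 1
    exact Finset.prod_congr rfl fun j hj => by rw [hbj j (Finset.mem_erase.mp hj).1]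
  have hprod' : ∀ (T : Finset ℕ), i ∉ T → ∏ j ∈ T, (b j : ℚ) = ∏ j ∈ T, ((B j).card : ℚ) := by
    intro T hi
    exact Finset.prod_congr rfl fun j hj => by rw [hbj j (fun h => hi (h ▸ hj))]
  -- the inner induction
  have inner : ∀ (s : ℕ) (X : Finset (Fin (L + 1))), X.card = (s + 1) * x₀ →
      ∀ C' : Finset ℕ → Finset ℕ,
      (∀ T ⊆ Q.image lam, T.card = d → i ∈ T → (C' T).card ≤ s * bT T) →
      (∀ T ⊆ Q.image lam, T.card = d → i ∉ T → (C' T).card ≤ bT T) →
      ∃ t ∈ adm K (Fin (L + 1)), LEx d lam (Function.update B i X) C' Q t := by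
    intro s
    induction s with
    | zero =>
      intro X hX C' hC1 hC2
      obtain ⟨t, ht, hE⟩ := hbase L (Function.update B i X)
        (fun q hq => by
          rw [Finset.mem_sdiff, hRmem] at hq
          have hqi : lam q ≠ i := fun h => hq.2 ⟨hq.1, h⟩
          rw [Function.update_of_ne hqi]
          exact hNbd.trans (hN₀B q hq.1)) C'
        (fun T hT hTd => by
          have hTQ : T ⊆ Q.image lam := hT.trans (Finset.image_subset_image Finset.sdiff_subset)
          have hiT : i ∉ T := by
            intro h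
            obtain ⟨q, hq, hqi⟩ := Finset.mem_image.mp (hT h)
            rw [Finset.mem_sdiff, hRmem] at hq
            exact hq.2 ⟨hq.1, hqi⟩
          have h3 := hC2 T hTQ hTd hiT
          have h4 := hbT T hTQ hTd
          rw [hprod' T hiT] at h4
          have h5 : ∏ j ∈ T, (((Function.update B i X) j).card : ℚ) =
              ∏ j ∈ T, ((B j).card : ℚ) :=
            Finset.prod_congr rfl fun j hj => by
              rw [Function.update_of_ne (fun h : j = i => hiT (h ▸ hj))]
          rw [h5, ← h4]
          exact_mod_cast h3)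
      refine ⟨t, ht, ?_⟩
      have hne : ∀ l ∈ fam (CL d lam C'), (Prod.fst l : Finset P).Nonempty := by
        intro l hl
        rw [mem_fam] at hl
        unfold CL at hl
        split_ifs at hl with h2
        · rw [← Finset.card_pos]
          omega
        · simp at hl
      refine Ex_of_inj (fun l _ => hb_mem _ (HL_mem lam t l)) hne ?_
      intro Q' hQ' hQ'ne
      by_cases hex : ∃ q ∈ Q', q ∈ R
      · obtain ⟨q, hq, hqR⟩ := hex
        refine ⟨q, hq, ?_⟩
        intro w _ _ l hl
        exfalso
        rw [mem_Sp, mem_fam] at hl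
        obtain ⟨h3, h4, h5⟩ := hl
        unfold CL at h3
        split_ifs at h3 with h6
        · have h7 : i ∈ l.1.image lam := Finset.mem_image.mpr ⟨q, h4, ((hRmem q).mp hqR).2⟩
          have h8 := hC1 (l.1.image lam) (Finset.image_subset_image (h5.trans hQ'))
            (by rw [Finset.card_image_of_injOn h6.2, h6.1]) h7
          rw [zero_mul, Nat.le_zero, Finset.card_eq_zero] at h8
          rw [h8] at h3
          simp at h3
        · simp at h3
      · obtain ⟨q, hq⟩ := hQ'ne
        refine ⟨q, hq, Ex.inj (fun l _ => hb_mem _ (HL_mem lam t l)) hne hE ?_ hq⟩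
        intro q' hq'
        exact Finset.mem_sdiff.mpr ⟨hQ' hq', fun h => hex ⟨q', hq', h⟩⟩
    | succ s ih =>
      intro X' hX' C' hC1 hC2
      -- split the box
      obtain ⟨X, hXX', hX⟩ := Finset.exists_subset_card_eq (s := X') (n := (s + 1) * x₀)
        (by rw [hX']; exact Nat.mul_le_mul_right _ (by omega))
      set Z := X' \ X with hZ
      have hZc : Z.card = x₀ := by
        rw [hZ, Finset.card_sdiff_of_subset hXX', hX', hX]
        have : (s + 1 + 1) * x₀ = (s + 1) * x₀ + x₀ := by ring
        omega
      have hXZ : Disjoint X Z := Finset.disjoint_sdiff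
      have hXZ' : X' = X ∪ Z := (Finset.union_sdiff_of_subset hXX').symm
      -- split the index sets
      have hold : ∀ T : Finset ℕ, ∃ O ⊆ C' T, (i ∉ T → O = C' T) ∧
          (i ∈ T → T ⊆ Q.image lam → T.card = d → O.card ≤ s * bT T ∧
            (C' T \ O).card ≤ bT T) := by
        intro T
        by_cases hi : i ∈ T
        · obtain ⟨O, hO, hOc⟩ := Finset.exists_subset_card_eq (s := C' T)
            (n := min (C' T).card (s * bT T)) (min_le_left _ _)
          refine ⟨O, hO, fun h => absurd hi h, fun _ hT hTd => ?_⟩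
          have h3 := hC1 T hT hTd hi
          have h4 : (s + 1) * bT T = s * bT T + bT T := by ring
          rw [Finset.card_sdiff_of_subset hO, hOc]
          constructor
          · exact min_le_right _ _
          · omega
        · exact ⟨C' T, Finset.Subset.refl _, fun _ => rfl, fun h => absurd h hi⟩
      choose Old hOldsub hOldn hOldc using hold
      set New : Finset ℕ → Finset ℕ := fun T => C' T \ Old T with hNew
      have hlab : ∀ Zs ⊆ R, ∀ q ∈ Q, N₀ ∣ (Bm i z X Z (Function.update B i X')
          (lamZ lam z Zs q)).card := by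
        intro Zs hZs q hq
        unfold Bm lamZ
        by_cases hqZ : q ∈ Zs
        · rw [if_pos hqZ, Function.update_self, hZc]
          exact hN₀x
        · rw [if_neg hqZ]
          have hqz : lam q ≠ z := fun h => hz (Finset.mem_image.mpr ⟨q, hq, h⟩)
          rw [Function.update_of_ne hqz]
          by_cases hqi : lam q = i
          · rw [hqi, Function.update_self, hX]
            exact Dvd.dvd.mul_left hN₀x _
          · rw [Function.update_of_ne hqi, Function.update_of_ne hqi]
            exact hN₀B q hq
      -- labels occurring after relabelling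
      have hTlab : ∀ Zs ⊆ R, ∀ T ⊆ Q.image (lamZ lam z Zs), T.erase z ⊆ Q.image lam := by
        intro Zs _ T hT j hj
        rw [Finset.mem_erase] at hj
        obtain ⟨q, hq, hqj⟩ := Finset.mem_image.mp (hT hj.2)
        unfold lamZ at hqj
        by_cases hqZ : q ∈ Zs
        · rw [if_pos hqZ] at hqj
          exact absurd hqj.symm hj.1
        · rw [if_neg hqZ] at hqj
          exact Finset.mem_image.mpr ⟨q, hq, hqj⟩
      have hiQ : i ∈ Q.image lam := Finset.mem_image.mpr ⟨p, hpQ.1, hpQ.2⟩
      -- the bound for the split index sets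
      have hbound : ∀ W : Finset ℕ → Finset ℕ, (∀ T ⊆ Q.image lam, T.card = d → i ∈ T →
            (W T).card ≤ (s + 1) * bT T) →
          (∀ T ⊆ Q.image lam, T.card = d → i ∉ T → (W T).card ≤ bT T) →
          ∀ Zs ⊆ R, ∀ T ⊆ Q.image (lamZ lam z Zs), T.card = d →
          ((Cm i z New W T).card : ℚ) ≤
            v' * ∏ j ∈ T, ((Bm i z X Z (Function.update B i X') j).card : ℚ) := by
        intro W hW1 hW2 Zs hZs T hT hTd
        have hBmz : Bm i z X Z (Function.update B i X') z = Z := by
          unfold Bm
          rw [Function.update_self]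
        have hBmi : Bm i z X Z (Function.update B i X') i = X := by
          unfold Bm
          rw [Function.update_of_ne hiz, Function.update_self]
        have hBmj : ∀ j, j ≠ i → j ≠ z → Bm i z X Z (Function.update B i X') j = B j := by
          intro j hji hjz
          unfold Bm
          rw [Function.update_of_ne hjz, Function.update_of_ne hji, Function.update_of_ne hji]
        unfold Cm
        by_cases hzT : z ∈ T
        · rw [if_pos hzT]
          by_cases hiT : i ∈ T
          · rw [if_pos hiT]
            simp only [Finset.card_empty, Nat.cast_zero]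
            exact mul_nonneg hv' (Finset.prod_nonneg fun _ _ => Nat.cast_nonneg _)
          · rw [if_neg hiT]
            have hiT' : i ∉ T.erase z := fun h => hiT (Finset.mem_of_mem_erase h)
            have hT1 : insert i (T.erase z) ⊆ Q.image lam :=
              Finset.insert_subset hiQ (hTlab Zs hZs T hT)
            have hT1d : (insert i (T.erase z)).card = d := by
              rw [Finset.card_insert_of_notMem hiT', Finset.card_erase_of_mem hzT, hTd]
              omega
            have h3 := (hOldc _ (Finset.mem_insert_self i (T.erase z)) hT1 hT1d).2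
            have h4 := hbT _ hT1 hT1d
            rw [hprod _ (Finset.mem_insert_self _ _), Finset.erase_insert hiT'] at h4
            have h5 : ∏ j ∈ T, ((Bm i z X Z (Function.update B i X') j).card : ℚ) =
                (x₀ : ℚ) * ∏ j ∈ T.erase z, ((B j).card : ℚ) := by
              rw [← Finset.mul_prod_erase T _ hzT, hBmz, hZc]
              congr 1
              refine Finset.prod_congr rfl fun j hj => ?_
              rw [hBmj j (fun h => hiT' (h ▸ hj)) (Finset.mem_erase.mp hj).1]
            rw [h5, ← h4]
            exact_mod_cast h3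
        · rw [if_neg hzT]
          have hTQ : T ⊆ Q.image lam := by
            have := hTlab Zs hZs T hT
            rwa [Finset.erase_eq_of_notMem hzT] at this
          by_cases hiT : i ∈ T
          · have h3 := hW1 T hTQ hTd hiT
            have h4 := hbT T hTQ hTd
            rw [hprod T hiT] at h4
            have h5 : ∏ j ∈ T, ((Bm i z X Z (Function.update B i X') j).card : ℚ) =
                (((s + 1) * x₀ : ℕ) : ℚ) * ∏ j ∈ T.erase i, ((B j).card : ℚ) := by
              rw [← Finset.mul_prod_erase T _ hiT, hBmi, hX]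
              congr 1
              refine Finset.prod_congr rfl fun j hj => ?_
              rw [hBmj j (Finset.mem_erase.mp hj).1
                (fun h => hzT (h ▸ Finset.mem_of_mem_erase hj))]
            have h6 : ((W T).card : ℚ) ≤ (s + 1) * (bT T : ℚ) := by exact_mod_cast h3
            rw [h5]
            refine h6.trans (le_of_eq ?_)
            rw [h4]
            push_cast
            ring
          · have h3 := hW2 T hTQ hTd hiT
            have h4 := hbT T hTQ hTd
            rw [hprod' T hiT] at h4
            have h5 : ∏ j ∈ T, ((Bm i z X Z (Function.update B i X') j).card : ℚ) =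
                ∏ j ∈ T, ((B j).card : ℚ) := by
              refine Finset.prod_congr rfl fun j hj => ?_
              rw [hBmj j (fun h => hiT (h ▸ hj)) (fun h => hzT (h ▸ hj))]
            rw [h5, ← h4]
            exact_mod_cast h3
      -- the conditions on t
      obtain ⟨t, ht, hall⟩ := lex_simul (K := K) (P := P) (A := Fin (L + 1)) d
        (insert none (insert (some none) ((R.powerset.filter
          (fun Zs => Zs.Nonempty ∧ Zs ≠ R)).image (fun Zs => some (some Zs)))))
        (fun s : Option (Option (Finset P)) => match s with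
          | none => lam
          | some none => lamZ lam z (R.erase p)
          | some (some Zs) => lamZ lam z Zs)
        (fun s : Option (Option (Finset P)) => match s with
          | none => Function.update B i X
          | some _ => Bm i z X Z (Function.update B i X'))
        (fun s : Option (Option (Finset P)) => match s with
          | none => Old
          | some none => Cm i z New C'
          | some (some _) => Cm i z New Old) Q (by
          intro s' hs'
          rw [Finset.mem_insert, Finset.mem_insert, Finset.mem_image] at hs'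
          rcases hs' with rfl | rfl | ⟨Zs, hZs, rfl⟩
          · exact ih X hX Old (fun T hT hTd hi => (hOldc T hi hT hTd).1)
              (fun T hT hTd hi => by rw [hOldn T hi]; exact hC2 T hT hTd hi)
          · have hsub : R.erase p ⊆ R := Finset.erase_subset _ _
            exact hmix (R.erase p) hsub
              ⟨p', Finset.mem_erase.mpr ⟨hpp', hp'⟩⟩
              (fun h => (Finset.notMem_erase p R) (h.symm ▸ hp)) L _
              (fun q hq => (hNfd _ hsub).trans (hlab _ hsub q hq)) _
              (hbound C' (fun T hT hTd hi => hC1 T hT hTd hi)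
                (fun T hT hTd hi => hC2 T hT hTd hi) _ hsub)
          · rw [Finset.mem_filter, Finset.mem_powerset] at hZs
            exact hmix Zs hZs.1 hZs.2.1 hZs.2.2 L _
              (fun q hq => (hNfd _ hZs.1).trans (hlab _ hZs.1 q hq)) _
              (hbound Old (fun T hT hTd hi => by
                  have := (hOldc T hi hT hTd).1
                  have h4 : (s + 1) * bT T = s * bT T + bT T := by ring
                  omega)
                (fun T hT hTd hi => by rw [hOldn T hi]; exact hC2 T hT hTd hi) _ hZs.1))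
      refine ⟨Fsys i z X Z New t, Fsys_adm ht, ?_⟩
      refine state_ex (R := R) (Old := Old) (by omega) ht hR hz hiz hXZ
        (by rw [Function.update_self, hXZ']; ext a; simp only [Finset.mem_union])
        ?_ ?_ ?_ p hp ?_ ?_ ?_
      · intro T
        exact Finset.union_sdiff_of_subset (hOldsub T)
      · intro T
        exact Finset.disjoint_sdiff
      · intro T hi
        simp only [hNew, hOldn T hi, Finset.sdiff_self]
      · have h3 := hall none (Finset.mem_insert_self _ _)
        rw [Function.update_idem]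
        exact h3
      · intro Zs hZs hZs1 hZs2
        exact hall (some (some Zs)) (Finset.mem_insert_of_mem (Finset.mem_insert_of_mem
          (Finset.mem_image.mpr ⟨Zs, Finset.mem_filter.mpr
            ⟨Finset.mem_powerset.mpr hZs, hZs1, hZs2⟩, rfl⟩)))
      · exact hall (some none) (Finset.mem_insert_of_mem (Finset.mem_insert_self _ _))
  -- conclusion
  have hfin := inner (M - 1) (B i) (by rw [hBi]; congr 1; omega) C
    (by
      intro T hT hTd hi
      have h3 := hC T hT hTd
      have h4 := hbT T hT hTd
      rw [hprod T hi] at h4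
      rw [← Finset.mul_prod_erase T _ hi, hBi] at h3
      have h5 : ((C T).card : ℚ) ≤ (((M - 1 : ℕ) * bT T : ℕ) : ℚ) := by
        push_cast
        rw [h4, Nat.cast_sub (by omega : 1 ≤ M)]
        push_cast at h3 ⊢
        have h6 : 0 ≤ (x₀ : ℚ) * ∏ j ∈ T.erase i, ((B j).card : ℚ) :=
          mul_nonneg (Nat.cast_nonneg _) (Finset.prod_nonneg fun _ _ => Nat.cast_nonneg _)
        calc ((C T).card : ℚ) ≤ v * ((M : ℚ) * (x₀ : ℚ) * ∏ j ∈ T.erase i, ((B j).card : ℚ)) := h3
          _ = (v * M) * ((x₀ : ℚ) * ∏ j ∈ T.erase i, ((B j).card : ℚ)) := by ring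
          _ ≤ ((M - 1) * v') * ((x₀ : ℚ) * ∏ j ∈ T.erase i, ((B j).card : ℚ)) :=
            mul_le_mul_of_nonneg_right hvM h6
          _ = _ := by ring
      exact_mod_cast h5)
    (by
      intro T hT hTd hi
      have h3 := hC T hT hTd
      have h4 := hbT T hT hTd
      rw [hprod' T hi] at h4
      have h5 : ((C T).card : ℚ) ≤ (bT T : ℚ) := by
        rw [h4]
        exact h3.trans (mul_le_mul_of_nonneg_right hvv'
          (Finset.prod_nonneg fun _ _ => Nat.cast_nonneg _))
      exact_mod_cast h5)
  rw [Function.update_eq_self] at hfin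
  exact hfin

/-- Splitting a repeated label increases the number of labels. -/
lemma card_image_lamZ (lam : P → ℕ) (Q R Zs : Finset P) (i z : ℕ)
    (hR : R = Q.filter (fun q => lam q = i)) (hz : z ∉ Q.image lam) (hZs : Zs ⊆ R)
    (hne : Zs.Nonempty) (hneR : Zs ≠ R) :
    (Q.image lam).card < (Q.image (lamZ lam z Zs)).card := by
  have hRmem : ∀ q, q ∈ R ↔ q ∈ Q ∧ lam q = i := fun q => by rw [hR, Finset.mem_filter]
  have h1 : insert z (Q.image lam) ⊆ Q.image (lamZ lam z Zs) := by
    intro j hj
    rw [Finset.mem_insert] at hj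
    rcases hj with rfl | hj
    · obtain ⟨q, hq⟩ := hne
      refine Finset.mem_image.mpr ⟨q, ((hRmem q).mp (hZs hq)).1, ?_⟩
      unfold lamZ
      rw [if_pos hq]
    · obtain ⟨q, hq, hqj⟩ := Finset.mem_image.mp hj
      by_cases hji : j = i
      · obtain ⟨q', hq'R, hq'Z⟩ : ∃ q' ∈ R, q' ∉ Zs := by
          by_contra hcon
          push Not at hcon
          exact hneR (Finset.Subset.antisymm hZs hcon)
        have := (hRmem q').mp hq'R
        refine Finset.mem_image.mpr ⟨q', this.1, ?_⟩
        unfold lamZ
        rw [if_neg hq'Z, this.2, hji]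
      · refine Finset.mem_image.mpr ⟨q, hq, ?_⟩
        unfold lamZ
        rw [if_neg, hqj]
        intro h
        exact hji (by rw [← hqj]; exact ((hRmem q).mp (hZs h)).2)
  have h2 := Finset.card_le_card h1
  rw [Finset.card_insert_of_notMem hz] at h2
  omega

/-- Exactness for all labellings. -/
theorem claim_all (d : ℕ) (hd : 2 ≤ d) (v₁ : ℚ) (e : ℕ → ℚ) (he0 : e 0 = 1)
    (hrec : ∀ k, e (k + 1) = e k - (k.choose (d - 1) : ℚ) * v₁ * e (k + 1 - d)) (D : ℕ)
    (hpos : ∀ i ≤ D, 0 < e i) :
    ∀ (n : ℕ) (Q : Finset P), Q.card = n → n ≤ D → ∀ (m : ℕ) (lam : P → ℕ),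
      Q.card - (Q.image lam).card = m → ∀ v : ℚ, 0 ≤ v → v < v₁ → Claim K d lam Q v := by
  intro n
  induction n using Nat.strong_induction_on with
  | _ n ihn =>
    intro Q hQ hn m
    induction m using Nat.strong_induction_on with
    | _ m ihm =>
      intro lam hm v hv hvv
      by_cases hinj : Set.InjOn lam Q
      · exact (base_claim K d hd v₁ (hv.trans hvv.le) e he0 hrec lam Q hinj
          (fun i hi => hpos i (by omega))).mono hvv.le
      · have h1 : ∃ p ∈ Q, ∃ p' ∈ Q, lam p' = lam p ∧ p' ≠ p := by
          by_contra hcon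
          push Not at hcon
          exact hinj fun p hp q hq hpq => hcon q hq p hp hpq
        obtain ⟨p, hp, p', hp', hpp', hne⟩ := h1
        obtain ⟨z, hz⟩ := Infinite.exists_notMem_finset (Q.image lam)
        set R := Q.filter (fun q => lam q = lam p) with hR
        have hpR : p ∈ R := Finset.mem_filter.mpr ⟨hp, rfl⟩
        have hp'R : p' ∈ R := Finset.mem_filter.mpr ⟨hp', hpp'⟩
        set v' := (v + v₁) / 2 with hv'
        have hvv' : v < v' := by rw [hv']; linarith
        have hv'v₁ : v' < v₁ := by rw [hv']; linarith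
        obtain ⟨M₀, hM₀⟩ := exists_nat_ge (v' / (v' - v))
        set M := max 2 M₀ with hM
        have hMM : (M₀ : ℚ) ≤ (M : ℚ) := by
          exact_mod_cast le_max_right 2 M₀
        have hvM : v * M ≤ (M - 1) * v' := by
          have h2 : 0 < v' - v := by linarith
          rw [div_le_iff₀ h2] at hM₀
          nlinarith
        refine claim_step d hd lam Q R (lam p) z hR hz p p' hpR hp'R hne v v' (by linarith)
          hvv'.le M (le_max_left _ _) hvM ?_ ?_
        · have hlt : (Q \ R).card < n := by
            rw [← hQ]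
            exact card_sdiff_lt (Finset.filter_subset _ _) hpR
          exact ihn _ hlt (Q \ R) rfl (by omega) _ lam rfl v' (by linarith) hv'v₁
        · intro Zs hZs hZ1 hZ2
          have h3 := card_image_lamZ lam Q R Zs (lam p) z hR hz hZs hZ1 hZ2
          have h4 : (Q.image (lamZ lam z Zs)).card ≤ Q.card := Finset.card_image_le
          exact ihm _ (by omega) (lamZ lam z Zs) rfl v' (by linarith) hv'v₁

end Pool.Agent.H21
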