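import Pool.Agent.H21.Fam

/-!
Exactness of multilinear families.
-/

set_option linter.unusedSectionVars false

namespace Pool.Agent.H21

open scoped Classical

variable {K : Type*} [Field K] {P : Type*} [Fintype P] {A : Type*} [Fintype A] [Nonempty A]

section Family

variable {Λ : Type*} (B : P → Finset A) (supp : Λ → Finset P) (h : Λ → ((P → A) → K))
  (S : Finset Λ)

/-- The codimension of the multilinear ideal. -/
noncomputable def DD (Q : Finset P) : ℤ :=
  (∏ q ∈ Q, ((B q).card : ℤ)) - (Module.finrank K (JJ B supp h S Q) : ℤ)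

/-- The weight of a part. -/
noncomputable def wt (T : Finset P) : ℤ :=
  (if T.card = 1 then ∏ q ∈ T, ((B q).card : ℤ) else 0) -
    ((S.filter (fun l => supp l = T)).card : ℤ)

/-- Exactness on all subsets of `Q`. -/
def Ex (Q : Finset P) : Prop := ∀ Q' ⊆ Q, DD B supp h S Q' ≤ EE (wt B supp S) Q'

variable {B supp h S}

lemma sum_wt {Q : Finset P} {p : P} (hp : p ∈ Q) (F : Finset P → ℤ) :
    ∑ T ∈ sub Q p, wt B supp S T * F T =
      ((B p).card : ℤ) * F {p} - ∑ l ∈ Sp supp S Q p, F (supp l) := by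
  have h1 : ∑ T ∈ sub Q p, (if T.card = 1 then ∏ q ∈ T, ((B q).card : ℤ) else 0) * F T =
      ((B p).card : ℤ) * F {p} := by
    rw [Finset.sum_eq_single {p}]
    · rw [if_pos (Finset.card_singleton p), Finset.prod_singleton]
    · intro T hT hne
      rw [mem_sub] at hT
      rw [if_neg, zero_mul]
      intro hc
      obtain ⟨q, hq⟩ := Finset.card_eq_one.mp hc
      rw [hq] at hT hne
      have := Finset.mem_singleton.mp hT.2
      rw [this] at hne
      exact hne rfl
    · intro h'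
      exact absurd (mem_sub.mpr ⟨Finset.singleton_subset_iff.mpr hp,
        Finset.mem_singleton_self p⟩) h'
  have h2 : ∑ l ∈ Sp supp S Q p, F (supp l) =
      ∑ T ∈ sub Q p, ((S.filter (fun l => supp l = T)).card : ℤ) * F T := by
    rw [← Finset.sum_fiberwise_of_maps_to (s := Sp supp S Q p) (t := sub Q p) (g := supp)
      (fun l hl => by
        have := mem_Sp.mp hl
        exact mem_sub.mpr ⟨this.2.2, this.2.1⟩)]
    refine Finset.sum_congr rfl fun T hT => ?_
    rw [mem_sub] at hT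
    have h3 : (Sp supp S Q p).filter (fun l => supp l = T) = S.filter (fun l => supp l = T) := by
      ext l
      rw [Finset.mem_filter, mem_Sp, Finset.mem_filter]
      constructor
      · rintro ⟨⟨h4, _, _⟩, h5⟩
        exact ⟨h4, h5⟩
      · rintro ⟨h4, h5⟩
        exact ⟨⟨h4, h5 ▸ hT.2, h5 ▸ hT.1⟩, h5⟩
    rw [h3]
    have h4 : ∑ l ∈ S.filter (fun l => supp l = T), F (supp l) =
        ∑ l ∈ S.filter (fun l => supp l = T), F T :=
      Finset.sum_congr rfl fun l hl => by rw [(Finset.mem_filter.mp hl).2]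
    rw [h4, Finset.sum_const, nsmul_eq_mul]
  rw [h2, ← h1, ← Finset.sum_sub_distrib]
  refine Finset.sum_congr rfl fun T _ => ?_
  unfold wt
  ring

lemma DD_iff (hh : ∀ l ∈ S, h l ∈ MM K B (supp l)) {Q : Finset P} {p : P} (hp : p ∈ Q) :
    ∑ T ∈ sub Q p, wt B supp S T * DD B supp h S (Q \ T) ≤ DD B supp h S Q ∧
    (Inj B supp h S Q p ↔
      DD B supp h S Q ≤ ∑ T ∈ sub Q p, wt B supp S T * DD B supp h S (Q \ T)) := by
  obtain ⟨h1, h2⟩ := finrank_JJ_le hh Q p hp
  rw [sum_wt hp (fun T => DD B supp h S (Q \ T))]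
  have h3 : ∑ l ∈ Sp supp S Q p, DD B supp h S (Q \ supp l) =
      (∑ l ∈ Sp supp S Q p, ∏ q ∈ Q \ supp l, ((B q).card : ℤ)) -
      ∑ l ∈ Sp supp S Q p, (Module.finrank K (JJ B supp h S (Q \ supp l)) : ℤ) := by
    rw [← Finset.sum_sub_distrib]
    rfl
  rw [h3]
  have h4 : (∏ q ∈ Q, ((B q).card : ℤ)) = ((B p).card : ℤ) * ∏ q ∈ Q.erase p, ((B q).card : ℤ) :=
    (Finset.mul_prod_erase Q _ hp).symm
  have h5 : Q \ {p} = Q.erase p := Finset.sdiff_singleton_eq_erase p Q
  unfold DD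
  rw [h4, h5]
  have h1' : (Module.finrank K (JJ B supp h S Q) : ℤ) +
        ∑ l ∈ Sp supp S Q p, (Module.finrank K (JJ B supp h S (Q \ supp l)) : ℤ) ≤
      ((B p).card : ℤ) * (Module.finrank K (JJ B supp h S (Q.erase p)) : ℤ) +
        ∑ l ∈ Sp supp S Q p, ∏ q ∈ Q \ supp l, ((B q).card : ℤ) := by
    exact_mod_cast h1
  constructor
  · rw [mul_sub]
    linarith
  · rw [h2]
    have h6 : ((B p).card * Module.finrank K (JJ B supp h S (Q.erase p)) +
        ∑ l ∈ Sp supp S Q p, ∏ q ∈ Q \ supp l, (B q).card ≤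
      Module.finrank K (JJ B supp h S Q) +
        ∑ l ∈ Sp supp S Q p, Module.finrank K (JJ B supp h S (Q \ supp l))) ↔
      (((B p).card : ℤ) * (Module.finrank K (JJ B supp h S (Q.erase p)) : ℤ) +
        ∑ l ∈ Sp supp S Q p, ∏ q ∈ Q \ supp l, ((B q).card : ℤ) ≤
      (Module.finrank K (JJ B supp h S Q) : ℤ) +
        ∑ l ∈ Sp supp S Q p, (Module.finrank K (JJ B supp h S (Q \ supp l)) : ℤ)) := by
      constructor
      · intro h7; exact_mod_cast h7
      · intro h7; exact_mod_cast h7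
    rw [h6, mul_sub]
    constructor
    · intro h7; linarith
    · intro h7; linarith

lemma DD_nonneg (hh : ∀ l ∈ S, h l ∈ MM K B (supp l)) (Q : Finset P) :
    0 ≤ DD B supp h S Q := by
  unfold DD
  have h1 := Submodule.finrank_mono (JJ_le_MM hh Q)
  rw [finrank_MM] at h1
  have h2 : (Module.finrank K (JJ B supp h S Q) : ℤ) ≤ ∏ q ∈ Q, ((B q).card : ℤ) := by
    exact_mod_cast h1
  linarith

lemma JJ_empty (hne : ∀ l ∈ S, (supp l).Nonempty) : JJ B supp h S ∅ = ⊥ := by
  unfold JJ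
  rw [Submodule.span_eq_bot]
  rintro _ ⟨l, hl, hQ, _⟩
  exact absurd (Finset.subset_empty.mp hQ) (hne l hl).ne_empty

lemma DD_empty (hne : ∀ l ∈ S, (supp l).Nonempty) : DD B supp h S ∅ = 1 := by
  unfold DD
  rw [JJ_empty hne]
  simp

lemma Ex.mono {Q Q' : Finset P} (hE : Ex B supp h S Q) (hQ : Q' ⊆ Q) : Ex B supp h S Q' :=
  fun Q'' h' => hE Q'' (h'.trans hQ)

/-- Exactness means equality. -/
lemma Ex.eq (hh : ∀ l ∈ S, h l ∈ MM K B (supp l)) (hne : ∀ l ∈ S, (supp l).Nonempty)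
    {Q : Finset P} (hE : Ex B supp h S Q) :
    ∀ (n : ℕ) (Q' : Finset P), Q'.card = n → Q' ⊆ Q →
      DD B supp h S Q' = EE (wt B supp S) Q' := by
  intro n
  induction n using Nat.strong_induction_on with
  | _ n ih =>
    intro Q' hn hQ'
    by_cases hem : Q'.Nonempty
    · obtain ⟨p, hp⟩ := hem
      refine le_antisymm (hE Q' hQ') ?_
      rw [EE_rec' _ Q' p hp]
      refine le_trans (le_of_eq ?_) (DD_iff hh hp).1
      refine Finset.sum_congr rfl fun T hT => ?_
      rw [mem_sub] at hT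
      rw [ih _ (by rw [← hn]; exact card_sdiff_lt hT.1 hT.2) _ rfl
        (Finset.sdiff_subset.trans hQ')]
    · rw [Finset.not_nonempty_iff_eq_empty] at hem
      rw [hem, DD_empty hne, EE_empty]

lemma Ex.eq' (hh : ∀ l ∈ S, h l ∈ MM K B (supp l)) (hne : ∀ l ∈ S, (supp l).Nonempty)
    {Q : Finset P} (hE : Ex B supp h S Q) {Q' : Finset P} (hQ' : Q' ⊆ Q) :
    DD B supp h S Q' = EE (wt B supp S) Q' := hE.eq hh hne _ Q' rfl hQ'

lemma Ex.inj (hh : ∀ l ∈ S, h l ∈ MM K B (supp l)) (hne : ∀ l ∈ S, (supp l).Nonempty)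
    {Q : Finset P} (hE : Ex B supp h S Q) {Q' : Finset P} (hQ' : Q' ⊆ Q) {p : P} (hp : p ∈ Q') :
    Inj B supp h S Q' p := by
  rw [(DD_iff hh hp).2, hE.eq' hh hne hQ', EE_rec' _ Q' p hp]
  refine le_of_eq (Finset.sum_congr rfl fun T hT => ?_)
  rw [hE.eq' hh hne (Finset.sdiff_subset.trans hQ')]

/-- One step of the converse. -/
lemma DD_le_of_inj (hh : ∀ l ∈ S, h l ∈ MM K B (supp l))
    {Q : Finset P} {p : P} (hp : p ∈ Q) (hI : Inj B supp h S Q p)
    (hsm : ∀ T ∈ sub Q p, DD B supp h S (Q \ T) = EE (wt B supp S) (Q \ T)) :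
    DD B supp h S Q ≤ EE (wt B supp S) Q := by
  rw [EE_rec' _ Q p hp]
  refine le_trans ((DD_iff hh hp).2.mp hI) (le_of_eq ?_)
  refine Finset.sum_congr rfl fun T hT => ?_
  rw [hsm T hT]

/-- Removing one generator. -/
lemma DD_erase_le (hh : ∀ l ∈ S, h l ∈ MM K B (supp l)) (l₀ : Λ) (hl₀ : l₀ ∈ S)
    (Q : Finset P) (hQ : supp l₀ ⊆ Q) :
    DD B supp h (S.erase l₀) Q ≤ DD B supp h S Q + DD B supp h (S.erase l₀) (Q \ supp l₀) := by
  -- multiplication by `h l₀`
  let μ : ((P → A) → K) →ₗ[K] ((P → A) → K) := LinearMap.mulLeft K (h l₀)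
  set J' := JJ B supp h (S.erase l₀) (Q \ supp l₀) with hJ'
  set M := MM K B (Q \ supp l₀) with hM
  have hJM : J' ≤ M := JJ_le_MM (fun l hl => hh l (Finset.mem_of_mem_erase hl)) _
  have h1 : JJ B supp h S Q = JJ B supp h (S.erase l₀) Q ⊔ M.map μ := by
    apply le_antisymm
    · conv_lhs => unfold JJ
      rw [Submodule.span_le]
      rintro _ ⟨l, hl, hlQ, g, hg, rfl⟩
      by_cases hll : l = l₀
      · subst hll
        exact Submodule.mem_sup_right ⟨g, hg, rfl⟩
      · exact Submodule.mem_sup_left (mem_JJ (Finset.mem_erase.mpr ⟨hll, hl⟩) hlQ hg)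
    · refine sup_le (JJ_mono (Finset.erase_subset _ _) Q) ?_
      rintro _ ⟨g, hg, rfl⟩
      exact mem_JJ hl₀ hQ hg
  have h2 : J'.map μ ≤ JJ B supp h (S.erase l₀) Q := by
    rintro _ ⟨φ, hφ, rfl⟩
    change h l₀ * φ ∈ _
    rw [mul_comm]
    apply JJ_mul Finset.sdiff_subset hφ
    rw [Finset.sdiff_sdiff_eq_self hQ]
    exact hh l₀ hl₀
  -- finrank of the sup
  set J0 := JJ B supp h (S.erase l₀) Q with hJ0
  have h3 : Module.finrank K (JJ B supp h S Q) + Module.finrank K J' ≤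
      Module.finrank K J0 + Module.finrank K M := by
    -- map M → (quotient by J0), with kernel containing J'
    have h4 := finrank_inf_ker_add_map J0.mkQ (JJ B supp h S Q)
    rw [Submodule.ker_mkQ, inf_eq_right.mpr (h1 ▸ le_sup_left), h1, Submodule.map_sup,
      Submodule.mkQ_map_self, bot_sup_eq, ← Submodule.map_comp, ← h1] at h4
    have h5 := finrank_inf_ker_add_map (J0.mkQ ∘ₗ μ) M
    have h6 : J' ≤ M ⊓ LinearMap.ker (J0.mkQ ∘ₗ μ) := by
      refine le_inf hJM ?_
      intro φ hφ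
      rw [LinearMap.mem_ker, LinearMap.comp_apply, Submodule.mkQ_apply,
        Submodule.Quotient.mk_eq_zero]
      exact h2 ⟨φ, hφ, rfl⟩
    have h7 := Submodule.finrank_mono h6
    omega
  have h8 : Module.finrank K M = ∏ q ∈ Q \ supp l₀, (B q).card := finrank_MM _
  have h9 : (Module.finrank K (JJ B supp h S Q) : ℤ) + (Module.finrank K J' : ℤ) ≤
      (Module.finrank K J0 : ℤ) + ∏ q ∈ Q \ supp l₀, ((B q).card : ℤ) := by
    rw [h8] at h3
    exact_mod_cast h3
  unfold DD
  linarith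

lemma wt_erase (l₀ : Λ) (hl₀ : l₀ ∈ S) :
    wt B supp S (supp l₀) = wt B supp (S.erase l₀) (supp l₀) - 1 ∧
    ∀ T, T ≠ supp l₀ → wt B supp S T = wt B supp (S.erase l₀) T := by
  constructor
  · unfold wt
    have h1 : (S.erase l₀).filter (fun l => supp l = supp l₀) =
        (S.filter (fun l => supp l = supp l₀)).erase l₀ := by
      ext l
      simp only [Finset.mem_filter, Finset.mem_erase]
      tauto
    have h2 : l₀ ∈ S.filter (fun l => supp l = supp l₀) := Finset.mem_filter.mpr ⟨hl₀, rfl⟩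
    rw [h1, Finset.card_erase_of_mem h2]
    have h3 : 1 ≤ (S.filter (fun l => supp l = supp l₀)).card := Finset.card_pos.mpr ⟨l₀, h2⟩
    rw [Nat.cast_sub h3]
    push_cast
    ring
  · intro T hT
    unfold wt
    have h1 : (S.erase l₀).filter (fun l => supp l = T) = S.filter (fun l => supp l = T) := by
      ext l
      simp only [Finset.mem_filter, Finset.mem_erase]
      constructor
      · rintro ⟨⟨_, h2⟩, h3⟩
        exact ⟨h2, h3⟩
      · rintro ⟨h2, h3⟩
        exact ⟨⟨fun h4 => hT (h4 ▸ h3.symm), h2⟩, h3⟩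
    rw [h1]

lemma Ex.erase (hh : ∀ l ∈ S, h l ∈ MM K B (supp l)) (hne : ∀ l ∈ S, (supp l).Nonempty)
    {Q : Finset P} (hE : Ex B supp h S Q) (l₀ : Λ) (hl₀ : l₀ ∈ S) :
    Ex B supp h (S.erase l₀) Q := by
  obtain ⟨hw1, hw2⟩ := wt_erase (B := B) (supp := supp) l₀ hl₀
  have key : ∀ (n : ℕ) (Q' : Finset P), Q'.card = n → Q' ⊆ Q →
      DD B supp h (S.erase l₀) Q' ≤ EE (wt B supp (S.erase l₀)) Q' := by
    intro n
    induction n using Nat.strong_induction_on with
    | _ n ih =>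
      intro Q' hn hQ'
      by_cases hT : supp l₀ ⊆ Q'
      · have h1 := DD_erase_le hh l₀ hl₀ Q' hT
        have h2 := hE Q' hQ'
        rw [EE_sub_one Q' (supp l₀) (hne l₀ hl₀) hT hw1 hw2] at h2
        obtain ⟨p, hp⟩ := hne l₀ hl₀
        have h3 := ih _ (by rw [← hn]; exact card_sdiff_lt hT hp) (Q' \ supp l₀) rfl
          (Finset.sdiff_subset.trans hQ')
        linarith
      · have h1 : JJ B supp h (S.erase l₀) Q' = JJ B supp h S Q' := by
          apply le_antisymm (JJ_mono (Finset.erase_subset _ _) Q')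
          apply Submodule.span_mono
          rintro _ ⟨l, hl, hlQ, g, hg, rfl⟩
          exact ⟨l, Finset.mem_erase.mpr ⟨fun h4 => hT (h4 ▸ hlQ), hl⟩, hlQ, g, hg, rfl⟩
        have h2 : EE (wt B supp S) Q' = EE (wt B supp (S.erase l₀)) Q' :=
          EE_congr' Q' fun T hTQ => hw2 T fun h4 => hT (h4 ▸ hTQ)
        unfold DD
        rw [h1, ← h2]
        exact hE Q' hQ'
  exact fun Q' hQ' => key _ Q' rfl hQ'

/-- A subfamily of an exact family is exact. -/
lemma Ex.sub (hh : ∀ l ∈ S, h l ∈ MM K B (supp l)) (hne : ∀ l ∈ S, (supp l).Nonempty)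
    {Q : Finset P} (hE : Ex B supp h S Q) {S' : Finset Λ} (hS : S' ⊆ S) :
    Ex B supp h S' Q := by
  have key : ∀ (n : ℕ) (S : Finset Λ), (S \ S').card = n → S' ⊆ S →
      (∀ l ∈ S, h l ∈ MM K B (supp l)) → (∀ l ∈ S, (supp l).Nonempty) → Ex B supp h S Q →
      Ex B supp h S' Q := by
    intro n
    induction n with
    | zero =>
      intro S hn hS hh hne hE
      have : S \ S' = ∅ := Finset.card_eq_zero.mp hn
      have h2 : S' = S := Finset.Subset.antisymm hS (Finset.sdiff_eq_empty_iff_subset.mp this)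
      rw [h2]
      exact hE
    | succ n ih =>
      intro S hn hS hh hne hE
      obtain ⟨l₀, hl₀⟩ : (S \ S').Nonempty := by
        rw [← Finset.card_pos, hn]
        omega
      rw [Finset.mem_sdiff] at hl₀
      refine ih (S.erase l₀) ?_ ?_ (fun l hl => hh l (Finset.mem_of_mem_erase hl))
        (fun l hl => hne l (Finset.mem_of_mem_erase hl)) (hE.erase hh hne l₀ hl₀.1)
      · have h1 : S.erase l₀ \ S' = (S \ S').erase l₀ := by
          ext l
          simp only [Finset.mem_sdiff, Finset.mem_erase]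
          tauto
        rw [h1, Finset.card_erase_of_mem (Finset.mem_sdiff.mpr hl₀), hn]
        rfl
      · intro l hl
        exact Finset.mem_erase.mpr ⟨fun h4 => hl₀.2 (h4 ▸ hl), hS hl⟩
  exact key _ S rfl hS hh hne hE

end Family

end Pool.Agent.H21
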