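import Pool.Agent.H21.Match

/-!
Families of functions on `P → A`, each depending on few coordinates and supported in a box, and
the multilinear ideals they generate.
-/

set_option linter.unusedSectionVars false

namespace Pool.Agent.H21

open scoped Classical

/-- Rank-nullity for the restriction of a linear map to a subspace. -/
lemma finrank_inf_ker_add_map {K V W : Type*} [Field K] [AddCommGroup V] [Module K V]
    [AddCommGroup W] [Module K W] (f : V →ₗ[K] W) (J : Submodule K V) [FiniteDimensional K J] :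
    Module.finrank K (↥(J ⊓ LinearMap.ker f)) + Module.finrank K (↥(J.map f)) =
      Module.finrank K J := by
  have h1 := LinearMap.finrank_range_add_finrank_ker (f.domRestrict J)
  rw [LinearMap.range_domRestrict, LinearMap.ker_domRestrict] at h1
  have h2 := (Submodule.equivMapOfInjective J.subtype (Submodule.injective_subtype J)
    (Submodule.comap J.subtype (LinearMap.ker f))).finrank_eq
  rw [Submodule.map_comap_subtype] at h2
  rw [← h2]
  omega

variable {K : Type*} [Field K] {P : Type*} [Fintype P] {A : Type*} [Fintype A]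

variable (K) in
/-- Functions that depend only on the coordinates in `Q` and vanish off the box. -/
def MM (B : P → Finset A) (Q : Finset P) : Submodule K ((P → A) → K) where
  carrier := {φ | (∀ x y, (∀ p ∈ Q, x p = y p) → φ x = φ y) ∧
    ∀ x, (∃ p ∈ Q, x p ∉ B p) → φ x = 0}
  add_mem' := by
    intro f g hf hg
    refine ⟨fun x y h => ?_, fun x h => ?_⟩
    · simp only [Pi.add_apply]
      rw [hf.1 x y h, hg.1 x y h]
    · simp only [Pi.add_apply]
      rw [hf.2 x h, hg.2 x h, add_zero]
  zero_mem' := ⟨fun _ _ _ => rfl, fun _ _ => rfl⟩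
  smul_mem' := by
    intro c f hf
    refine ⟨fun x y h => ?_, fun x h => ?_⟩
    · simp only [Pi.smul_apply]
      rw [hf.1 x y h]
    · simp only [Pi.smul_apply]
      rw [hf.2 x h, smul_zero]

variable {B : P → Finset A}

lemma mem_MM {Q : Finset P} {φ : (P → A) → K} :
    φ ∈ MM K B Q ↔ (∀ x y, (∀ p ∈ Q, x p = y p) → φ x = φ y) ∧
    ∀ x, (∃ p ∈ Q, x p ∉ B p) → φ x = 0 := Iff.rfl

lemma MM_congr {B' : P → Finset A} {Q : Finset P} (h : ∀ p ∈ Q, B p = B' p) :
    MM K B Q = MM K B' Q := by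
  ext φ
  rw [mem_MM, mem_MM]
  apply and_congr_right
  intro _
  apply forall_congr'
  intro x
  have : (∃ p ∈ Q, x p ∉ B p) ↔ (∃ p ∈ Q, x p ∉ B' p) := by
    constructor
    · rintro ⟨p, hp, hx⟩; exact ⟨p, hp, by rwa [← h p hp]⟩
    · rintro ⟨p, hp, hx⟩; exact ⟨p, hp, by rwa [h p hp]⟩
  rw [this]

lemma MM_mul {Q Q' Q'' : Finset P} {f g : (P → A) → K} (hf : f ∈ MM K B Q)
    (hg : g ∈ MM K B Q') (h : Q ∪ Q' = Q'') : f * g ∈ MM K B Q'' := by
  subst h
  refine ⟨fun x y hxy => ?_, fun x hx => ?_⟩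
  · simp only [Pi.mul_apply]
    rw [hf.1 x y fun p hp => hxy p (Finset.mem_union_left _ hp),
      hg.1 x y fun p hp => hxy p (Finset.mem_union_right _ hp)]
  · simp only [Pi.mul_apply]
    obtain ⟨p, hp, hxp⟩ := hx
    rcases Finset.mem_union.mp hp with h | h
    · rw [hf.2 x ⟨p, h, hxp⟩, zero_mul]
    · rw [hg.2 x ⟨p, h, hxp⟩, mul_zero]

lemma finrank_MM [Nonempty A] (Q : Finset P) :
    Module.finrank K (MM K B Q) = ∏ q ∈ Q, (B q).card := by
  let x₀ : A := Classical.arbitrary A
  let ex : (∀ q : ↥Q, ↥(B q.1)) → P → A := fun y p => if h : p ∈ Q then (y ⟨p, h⟩).1 else x₀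
  have e : MM K B Q ≃ₗ[K] ((∀ q : ↥Q, ↥(B q.1)) → K) :=
    { toFun := fun φ y => φ.1 (ex y)
      map_add' := fun _ _ => rfl
      map_smul' := fun _ _ => rfl
      invFun := fun ψ => ⟨fun x => if h : ∀ q ∈ Q, x q ∈ B q then
          ψ (fun q => ⟨x q.1, h q.1 q.2⟩) else 0, by
        refine ⟨fun x y hxy => ?_, fun x hx => ?_⟩
        · simp only
          by_cases h : ∀ q ∈ Q, x q ∈ B q
          · have h' : ∀ q ∈ Q, y q ∈ B q := fun q hq => by rw [← hxy q hq]; exact h q hq
            rw [dif_pos h, dif_pos h']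
            congr 1
            funext q
            apply Subtype.ext
            exact hxy q.1 q.2
          · have h' : ¬ ∀ q ∈ Q, y q ∈ B q := fun h' => h fun q hq => by
              rw [hxy q hq]; exact h' q hq
            rw [dif_neg h, dif_neg h']
        · simp only
          rw [dif_neg]
          intro h
          obtain ⟨p, hp, hxp⟩ := hx
          exact hxp (h p hp)⟩
      left_inv := by
        intro φ
        apply Subtype.ext
        funext x
        simp only
        by_cases h : ∀ q ∈ Q, x q ∈ B q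
        · rw [dif_pos h]
          apply φ.2.1
          intro p hp
          simp only [ex, dif_pos hp]
        · rw [dif_neg h]
          push Not at h
          exact (φ.2.2 x h).symm
      right_inv := by
        intro ψ
        funext y
        have h : ∀ q ∈ Q, ex y q ∈ B q := by
          intro q hq
          simp only [ex, dif_pos hq]
          exact (y ⟨q, hq⟩).2
        simp only
        rw [dif_pos h]
        congr 1
        funext q
        apply Subtype.ext
        simp only [ex, dif_pos q.2] }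
  rw [e.finrank_eq, Module.finrank_fintype_fun_eq_card, Fintype.card_pi]
  simp only [Fintype.card_coe]
  exact Finset.prod_coe_sort Q (fun q => (B q).card)

variable (K) in
/-- The slice `x p = b`. -/
noncomputable def sl (p : P) (b : A) : ((P → A) → K) →ₗ[K] ((P → A) → K) where
  toFun φ := fun x => φ (Function.update x p b)
  map_add' _ _ := rfl
  map_smul' _ _ := rfl

lemma sl_apply (p : P) (b : A) (φ : (P → A) → K) (x : P → A) :
    sl K p b φ x = φ (Function.update x p b) := rfl

lemma sl_mul (p : P) (b : A) (φ ψ : (P → A) → K) :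
    sl K p b (φ * ψ) = sl K p b φ * sl K p b ψ := rfl

lemma sl_mem {p : P} {b : A} {Q : Finset P} {φ : (P → A) → K} (h : φ ∈ MM K B Q) :
    sl K p b φ ∈ MM K B (Q.erase p) := by
  refine ⟨fun x y hxy => ?_, fun x hx => ?_⟩
  · rw [sl_apply, sl_apply]
    apply h.1
    intro q hq
    by_cases hqp : q = p
    · subst hqp
      simp
    · rw [Function.update_of_ne hqp, Function.update_of_ne hqp]
      exact hxy q (Finset.mem_erase.mpr ⟨hqp, hq⟩)
  · rw [sl_apply]
    apply h.2
    obtain ⟨q, hq, hxq⟩ := hx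
    rw [Finset.mem_erase] at hq
    exact ⟨q, hq.2, by rwa [Function.update_of_ne hq.1]⟩

lemma sl_eq {p : P} {b : A} {Q : Finset P} {φ : (P → A) → K} (h : φ ∈ MM K B Q)
    (hp : p ∉ Q) : sl K p b φ = φ := by
  funext x
  rw [sl_apply]
  apply h.1
  intro q hq
  have : q ≠ p := fun h' => hp (h' ▸ hq)
  rw [Function.update_of_ne this]

variable (K) in
/-- The indicator of `x p = b`. -/
noncomputable def ch (p : P) (b : A) : (P → A) → K := fun x => if x p = b then 1 else 0

lemma ch_mem {p : P} {b : A} (hb : b ∈ B p) : ch K p b ∈ MM K B {p} := by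
  refine ⟨fun x y hxy => ?_, fun x hx => ?_⟩
  · simp only [ch]
    rw [hxy p (Finset.mem_singleton_self p)]
  · obtain ⟨q, hq, hxq⟩ := hx
    rw [Finset.mem_singleton] at hq
    subst hq
    simp only [ch]
    rw [if_neg]
    rintro rfl
    exact hxq hb

lemma sum_ch_sl {p : P} {Q : Finset P} (hp : p ∈ Q) {φ : (P → A) → K} (hφ : φ ∈ MM K B Q) :
    ∑ b : ↥(B p), ch K p b.1 * sl K p b.1 φ = φ := by
  funext x
  rw [Finset.sum_apply]
  by_cases hx : x p ∈ B p
  · rw [Finset.sum_eq_single ⟨x p, hx⟩]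
    · simp [ch, sl_apply]
    · intro b _ hb
      simp only [Pi.mul_apply, ch]
      rw [if_neg (fun h => hb (Subtype.ext h.symm)), zero_mul]
    · intro h
      exact absurd (Finset.mem_univ _) h
  · rw [hφ.2 x ⟨p, hp, hx⟩]
    apply Finset.sum_eq_zero
    intro b _
    simp only [Pi.mul_apply, ch]
    rw [if_neg (fun h => hx (by rw [h]; exact b.2)), zero_mul]

section Family

variable {Λ : Type*} (B) (supp : Λ → Finset P) (h : Λ → ((P → A) → K)) (S : Finset Λ)

/-- The multilinear ideal in the set of coordinates `Q`. -/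
def JJ (Q : Finset P) : Submodule K ((P → A) → K) :=
  Submodule.span K {φ | ∃ l ∈ S, supp l ⊆ Q ∧ ∃ g ∈ MM K B (Q \ supp l), φ = h l * g}

/-- The gens containing `p`, inside `Q`. -/
noncomputable def Sp (Q : Finset P) (p : P) : Finset Λ :=
  S.filter (fun l => p ∈ supp l ∧ supp l ⊆ Q)

/-- The gens avoiding `p`. -/
noncomputable def Sn (p : P) : Finset Λ := S.filter (fun l => p ∉ supp l)

variable {B supp h S}

lemma mem_Sp {Q : Finset P} {p : P} {l : Λ} :
    l ∈ Sp supp S Q p ↔ l ∈ S ∧ p ∈ supp l ∧ supp l ⊆ Q := by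
  unfold Sp
  rw [Finset.mem_filter]

lemma mem_Sn {p : P} {l : Λ} : l ∈ Sn supp S p ↔ l ∈ S ∧ p ∉ supp l := by
  unfold Sn
  rw [Finset.mem_filter]

lemma mem_JJ {Q : Finset P} {l : Λ} (hl : l ∈ S) (hQ : supp l ⊆ Q) {g : (P → A) → K}
    (hg : g ∈ MM K B (Q \ supp l)) : h l * g ∈ JJ B supp h S Q :=
  Submodule.subset_span ⟨l, hl, hQ, g, hg, rfl⟩

lemma JJ_mono {S' : Finset Λ} (hS : S ⊆ S') (Q : Finset P) :
    JJ B supp h S Q ≤ JJ B supp h S' Q := by
  apply Submodule.span_mono
  rintro _ ⟨l, hl, hQ, g, hg, rfl⟩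
  exact ⟨l, hS hl, hQ, g, hg, rfl⟩

lemma JJ_le_MM (hh : ∀ l ∈ S, h l ∈ MM K B (supp l)) (Q : Finset P) :
    JJ B supp h S Q ≤ MM K B Q := by
  unfold JJ
  rw [Submodule.span_le]
  rintro _ ⟨l, hl, hQ, g, hg, rfl⟩
  exact MM_mul (hh l hl) hg (Finset.union_sdiff_of_subset hQ)

lemma JJ_mul {Q Q' : Finset P} (hQ : Q ⊆ Q') {φ ψ : (P → A) → K}
    (hφ : φ ∈ JJ B supp h S Q) (hψ : ψ ∈ MM K B (Q' \ Q)) : φ * ψ ∈ JJ B supp h S Q' := by
  unfold JJ at hφ
  refine Submodule.span_induction ?_ ?_ ?_ ?_ hφ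
  · rintro _ ⟨l, hl, hlQ, g, hg, rfl⟩
    rw [mul_assoc]
    apply mem_JJ hl (hlQ.trans hQ)
    apply MM_mul hg hψ
    ext q
    simp only [Finset.mem_union, Finset.mem_sdiff]
    constructor
    · rintro (⟨h1, h2⟩ | ⟨h1, h2⟩)
      · exact ⟨hQ h1, h2⟩
      · exact ⟨h1, fun h' => h2 (hlQ h')⟩
    · rintro ⟨h1, h2⟩
      by_cases h3 : q ∈ Q
      · exact Or.inl ⟨h3, h2⟩
      · exact Or.inr ⟨h1, h3⟩
  · rw [zero_mul]; exact Submodule.zero_mem _
  · intro x y _ _ hx hy
    rw [add_mul]; exact Submodule.add_mem _ hx hy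
  · intro c x _ hx
    rw [smul_mul_assoc]; exact Submodule.smul_mem _ c hx

/-- Slices of the ideal generated by gens avoiding `p`. -/
lemma sl_JJ (hh : ∀ l ∈ S, h l ∈ MM K B (supp l)) {Q : Finset P} {p : P} (b : A)
    {φ : (P → A) → K} (hφ : φ ∈ JJ B supp h (Sn supp S p) Q) :
    sl K p b φ ∈ JJ B supp h S (Q.erase p) := by
  unfold JJ at hφ
  refine Submodule.span_induction ?_ ?_ ?_ ?_ hφ
  · rintro _ ⟨l, hl, hlQ, g, hg, rfl⟩
    rw [mem_Sn] at hl
    rw [sl_mul, sl_eq (hh l hl.1) hl.2]
    apply mem_JJ hl.1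
    · intro q hq
      refine Finset.mem_erase.mpr ⟨fun h' => hl.2 (h' ▸ hq), hlQ hq⟩
    · have h1 := sl_mem (b := b) (p := p) hg
      have h2 : (Q \ supp l).erase p = Q.erase p \ supp l := by
        ext q
        simp only [Finset.mem_erase, Finset.mem_sdiff]
        tauto
      rwa [h2] at h1
  · rw [map_zero]; exact Submodule.zero_mem _
  · intro x y _ _ hx hy
    rw [map_add]; exact Submodule.add_mem _ hx hy
  · intro c x _ hx
    rw [map_smul]; exact Submodule.smul_mem _ c hx

lemma JJ_erase_le {Q : Finset P} {p : P} (hp : p ∉ Q) :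
    JJ B supp h S Q ≤ JJ B supp h (Sn supp S p) Q := by
  apply Submodule.span_mono
  rintro _ ⟨l, hl, hQ, g, hg, rfl⟩
  exact ⟨l, mem_Sn.mpr ⟨hl, fun h' => hp (hQ h')⟩, hQ, g, hg, rfl⟩

/-- Elements whose slices lie in the ideal. -/
lemma mem_JJ_Sn_of_slices {Q : Finset P} {p : P} (hp : p ∈ Q) {φ : (P → A) → K}
    (hφ : φ ∈ MM K B Q) (hs : ∀ b ∈ B p, sl K p b φ ∈ JJ B supp h S (Q.erase p)) :
    φ ∈ JJ B supp h (Sn supp S p) Q := by
  rw [← sum_ch_sl hp hφ]
  refine Submodule.sum_mem _ fun b _ => ?_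
  rw [mul_comm]
  apply JJ_mul (Finset.erase_subset p Q) (JJ_erase_le (Finset.notMem_erase p Q) (hs b.1 b.2))
  have h1 : Q \ Q.erase p = {p} := by
    ext q
    simp only [Finset.mem_sdiff, Finset.mem_erase, Finset.mem_singleton]
    constructor
    · rintro ⟨h1, h2⟩
      by_contra h3
      exact h2 ⟨h3, h1⟩
    · rintro rfl
      exact ⟨hp, fun h' => h'.1 rfl⟩
  rw [h1]
  exact ch_mem b.2

lemma finrank_JJ_Sn (hh : ∀ l ∈ S, h l ∈ MM K B (supp l)) (Q : Finset P) (p : P) (hp : p ∈ Q) :
    Module.finrank K (JJ B supp h (Sn supp S p) Q) =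
      (B p).card * Module.finrank K (JJ B supp h S (Q.erase p)) := by
  have h1 : Q \ Q.erase p = {p} := by
    ext q
    simp only [Finset.mem_sdiff, Finset.mem_erase, Finset.mem_singleton]
    constructor
    · rintro ⟨h1, h2⟩
      by_contra h3
      exact h2 ⟨h3, h1⟩
    · rintro rfl
      exact ⟨hp, fun h' => h'.1 rfl⟩
  have e : JJ B supp h (Sn supp S p) Q ≃ₗ[K] (↥(B p) → JJ B supp h S (Q.erase p)) :=
    { toFun := fun φ b => ⟨sl K p b.1 φ.1, sl_JJ hh b.1 φ.2⟩
      map_add' := fun _ _ => rfl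
      map_smul' := fun _ _ => rfl
      invFun := fun ψ => ⟨∑ b : ↥(B p), (ψ b).1 * ch K p b.1, by
        refine Submodule.sum_mem _ fun b _ => ?_
        apply JJ_mul (Finset.erase_subset p Q)
          (JJ_erase_le (Finset.notMem_erase p Q) (ψ b).2)
        rw [h1]
        exact ch_mem b.2⟩
      left_inv := by
        intro φ
        apply Subtype.ext
        simp only
        have h2 : φ.1 ∈ MM K B Q :=
          JJ_le_MM (fun l hl => hh l (mem_Sn.mp hl).1) Q φ.2
        conv_rhs => rw [← sum_ch_sl hp h2]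
        refine Finset.sum_congr rfl fun b _ => mul_comm _ _
      right_inv := by
        intro ψ
        funext b
        apply Subtype.ext
        simp only
        rw [map_sum, Finset.sum_eq_single b]
        · rw [sl_mul, sl_eq (JJ_le_MM hh _ (ψ b).2) (Finset.notMem_erase p Q)]
          funext x
          simp [sl_apply, ch]
        · intro b' _ hb'
          rw [sl_mul]
          funext x
          simp only [Pi.mul_apply, sl_apply, ch, Function.update_self, Pi.zero_apply]
          rw [if_neg (fun h' => hb' (Subtype.ext h'.symm)), mul_zero]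
        · intro h'
          exact absurd (Finset.mem_univ _) h' }
  rw [e.finrank_eq, Module.finrank_pi_fintype]
  simp

variable (B supp h S) in
/-- The sum map from tuples of coefficients. -/
noncomputable def sg (Q : Finset P) (p : P) :
    (∀ l : ↥(Sp supp S Q p), ↥(MM K B (Q \ supp l.1))) →ₗ[K] ((P → A) → K) where
  toFun w := ∑ l, h l.1 * (w l).1
  map_add' w w' := by
    rw [← Finset.sum_add_distrib]
    refine Finset.sum_congr rfl fun l _ => ?_
    rw [Pi.add_apply, Submodule.coe_add, mul_add]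
  map_smul' c w := by
    rw [RingHom.id_apply, Finset.smul_sum]
    refine Finset.sum_congr rfl fun l _ => ?_
    rw [Pi.smul_apply, Submodule.coe_smul, mul_smul_comm]

lemma JJ_eq_sup (Q : Finset P) (p : P) :
    JJ B supp h S Q = JJ B supp h (Sn supp S p) Q ⊔ LinearMap.range (sg B supp h S Q p) := by
  apply le_antisymm
  · conv_lhs => unfold JJ
    rw [Submodule.span_le]
    rintro _ ⟨l, hl, hlQ, g, hg, rfl⟩
    by_cases hp : p ∈ supp l
    · apply Submodule.mem_sup_right
      refine ⟨Pi.single ⟨l, mem_Sp.mpr ⟨hl, hp, hlQ⟩⟩ ⟨g, hg⟩, ?_⟩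
      simp only [sg, LinearMap.coe_mk, AddHom.coe_mk]
      rw [Finset.sum_eq_single ⟨l, mem_Sp.mpr ⟨hl, hp, hlQ⟩⟩]
      · rw [Pi.single_eq_same]
      · intro l' _ hl'
        rw [Pi.single_eq_of_ne hl', Submodule.coe_zero, mul_zero]
      · intro h'
        exact absurd (Finset.mem_univ _) h'
    · apply Submodule.mem_sup_left
      exact mem_JJ (mem_Sn.mpr ⟨hl, hp⟩) hlQ hg
  · refine sup_le (JJ_mono (Finset.filter_subset _ _) Q) ?_
    rintro _ ⟨w, rfl⟩
    refine Submodule.sum_mem _ fun l _ => ?_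
    have hl := mem_Sp.mp l.2
    exact mem_JJ hl.1 hl.2.2 (w l).2

variable (B supp h S) in
/-- Injectivity of the sum map modulo lower ideals. -/
def Inj (Q : Finset P) (p : P) : Prop :=
  ∀ w : Λ → ((P → A) → K), (∀ l ∈ Sp supp S Q p, w l ∈ MM K B (Q \ supp l)) →
    ∑ l ∈ Sp supp S Q p, h l * w l ∈ JJ B supp h (Sn supp S p) Q →
      ∀ l ∈ Sp supp S Q p, w l ∈ JJ B supp h S (Q \ supp l)

/-- The basic rank estimate, with its equality case. -/
theorem finrank_JJ_le [Nonempty A] (hh : ∀ l ∈ S, h l ∈ MM K B (supp l)) (Q : Finset P)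
    (p : P) (hp : p ∈ Q) :
    Module.finrank K (JJ B supp h S Q) +
        ∑ l ∈ Sp supp S Q p, Module.finrank K (JJ B supp h S (Q \ supp l)) ≤
      (B p).card * Module.finrank K (JJ B supp h S (Q.erase p)) +
        ∑ l ∈ Sp supp S Q p, ∏ q ∈ Q \ supp l, (B q).card ∧
    (Inj B supp h S Q p ↔
      (B p).card * Module.finrank K (JJ B supp h S (Q.erase p)) +
        ∑ l ∈ Sp supp S Q p, ∏ q ∈ Q \ supp l, (B q).card ≤
      Module.finrank K (JJ B supp h S Q) +
        ∑ l ∈ Sp supp S Q p, Module.finrank K (JJ B supp h S (Q \ supp l))) := by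
  rw [← Finset.sum_coe_sort (Sp supp S Q p)
      (fun l => Module.finrank K (JJ B supp h S (Q \ supp l))),
    ← Finset.sum_coe_sort (Sp supp S Q p) (fun l => ∏ q ∈ Q \ supp l, (B q).card)]
  set J0 := JJ B supp h (Sn supp S p) Q with hJ0
  set ρ := J0.mkQ ∘ₗ sg B supp h S Q p with hρ
  -- rank-nullity for ρ
  have h1 := LinearMap.finrank_range_add_finrank_ker ρ
  have h2 : Module.finrank K (∀ l : ↥(Sp supp S Q p), ↥(MM K B (Q \ supp l.1))) =
      ∑ l : ↥(Sp supp S Q p), ∏ q ∈ Q \ supp l.1, (B q).card := by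
    rw [Module.finrank_pi_fintype]
    exact Finset.sum_congr rfl fun l _ => finrank_MM _
  -- the image of JJ
  have h3 : LinearMap.range ρ = (JJ B supp h S Q).map J0.mkQ := by
    rw [hρ, LinearMap.range_comp, JJ_eq_sup Q p, Submodule.map_sup]
    rw [← hJ0, Submodule.mkQ_map_self, bot_sup_eq]
  have h4 : Module.finrank K J0 + Module.finrank K (LinearMap.range ρ) =
      Module.finrank K (JJ B supp h S Q) := by
    rw [h3]
    have hle : J0 ≤ JJ B supp h S Q := JJ_mono (Finset.filter_subset _ _) Q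
    have h5 := finrank_inf_ker_add_map J0.mkQ (JJ B supp h S Q)
    rwa [Submodule.ker_mkQ, inf_eq_right.mpr hle] at h5
  have h6 : Module.finrank K J0 =
      (B p).card * Module.finrank K (JJ B supp h S (Q.erase p)) :=
    finrank_JJ_Sn hh Q p hp
  -- the obvious part of the kernel
  let ι : (∀ l : ↥(Sp supp S Q p), ↥(JJ B supp h S (Q \ supp l.1))) →ₗ[K]
      (∀ l : ↥(Sp supp S Q p), ↥(MM K B (Q \ supp l.1))) :=
    { toFun := fun w l => ⟨(w l).1, JJ_le_MM hh _ (w l).2⟩
      map_add' := fun _ _ => rfl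
      map_smul' := fun _ _ => rfl }
  have hι : Function.Injective ι := by
    intro w w' hww
    funext l
    apply Subtype.ext
    have h8 := congrArg Subtype.val (congrFun hww l)
    exact h8
  have h7 : LinearMap.range ι ≤ LinearMap.ker ρ := by
    rintro _ ⟨w, rfl⟩
    rw [LinearMap.mem_ker, hρ, LinearMap.comp_apply, Submodule.mkQ_apply,
      Submodule.Quotient.mk_eq_zero]
    refine Submodule.sum_mem _ fun l _ => ?_
    have hl := mem_Sp.mp l.2
    have h8 : (w l).1 * h l.1 ∈ JJ B supp h (Sn supp S p) Q := by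
      have h9 : (w l).1 ∈ JJ B supp h (Sn supp S p) (Q \ supp l.1) :=
        JJ_erase_le (fun h' => (Finset.mem_sdiff.mp h').2 hl.2.1) (w l).2
      apply JJ_mul Finset.sdiff_subset h9
      rw [Finset.sdiff_sdiff_eq_self hl.2.2]
      exact hh l.1 hl.1
    rw [mul_comm]
    exact h8
  have h12 : Module.finrank K (LinearMap.range ι) =
      ∑ l : ↥(Sp supp S Q p), Module.finrank K (JJ B supp h S (Q \ supp l.1)) := by
    rw [LinearMap.finrank_range_of_inj hι, Module.finrank_pi_fintype]
  have h13 := Submodule.finrank_mono h7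
  constructor
  · omega
  · constructor
    · intro hInj
      have h14 : LinearMap.ker ρ ≤ LinearMap.range ι := by
        intro w hw
        rw [LinearMap.mem_ker, hρ, LinearMap.comp_apply, Submodule.mkQ_apply,
          Submodule.Quotient.mk_eq_zero] at hw
        have h15 := hInj (fun l => if hl : l ∈ Sp supp S Q p then (w ⟨l, hl⟩).1 else 0)
          (fun l hl => by simp only [dif_pos hl]; exact (w ⟨l, hl⟩).2)
          (by
            rw [← Finset.sum_coe_sort]
            convert hw using 1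
            simp only [sg, LinearMap.coe_mk, AddHom.coe_mk]
            refine Finset.sum_congr rfl fun l _ => ?_
            rw [dif_pos l.2])
        refine ⟨fun l => ⟨(w l).1, ?_⟩, rfl⟩
        have h16 := h15 l.1 l.2
        rwa [dif_pos l.2] at h16
      have h15 := Submodule.finrank_mono h14
      omega
    · intro hle w hwm hw l hl
      have h16 : LinearMap.range ι = LinearMap.ker ρ :=
        Submodule.eq_of_le_of_finrank_le h7 (by omega)
      have h17 : (fun l : ↥(Sp supp S Q p) => (⟨w l.1, hwm l.1 l.2⟩ :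
          ↥(MM K B (Q \ supp l.1)))) ∈ LinearMap.ker ρ := by
        rw [LinearMap.mem_ker, hρ, LinearMap.comp_apply, Submodule.mkQ_apply,
          Submodule.Quotient.mk_eq_zero]
        rw [← Finset.sum_coe_sort] at hw
        exact hw
      rw [← h16] at h17
      obtain ⟨w', hw'⟩ := h17
      have h18 := congrArg Subtype.val (congrFun hw' ⟨l, hl⟩)
      have h19 : w l = (w' ⟨l, hl⟩).1 := h18.symm
      rw [h19]
      exact (w' ⟨l, hl⟩).2

end Family

end Pool.Agent.H21
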