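import Pool.Agent.H21.Threshold

/-!
Fröberg's formula away from the thresholds, in all degrees, and the density statement.
-/

set_option linter.unusedSectionVars false

namespace Pool.Agent.H21

open scoped Classical
open MvPolynomial Filter Topology

/-- Fröberg's formula for `u` forms of degree `d` in `n` variables: in every degree and over every
field of characteristic `0` over which there are `u` independent forms of degree `d`. -/
def FrobergAll (n d u : ℕ) : Prop :=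
  ∀ (K : Type) [Field K] [CharZero K],
    u ≤ Module.finrank K (homogeneousSubmodule (Fin n) K d) → ∀ j : ℕ, FrobergAt K n d u j

/-- One negative coefficient settles all larger degrees. -/
theorem super_all (d D : ℕ) (hd : 2 ≤ d) (hdD : d ≤ D) (c : ℝ)
    (h : ∃ i ≤ D, expCoeff d i c < 0) :
    ∃ n₀ : ℕ, ∀ n : ℕ, n₀ ≤ n → ∀ u : ℕ, c * (n : ℝ) ^ d ≤ (u : ℝ) →
      ∀ (K : Type) [Field K] [CharZero K],
        u ≤ Module.finrank K (homogeneousSubmodule (Fin n) K d) →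
        ∀ j : ℕ, D ≤ j + d → FrobergAt K n d u j := by
  have h' : ∃ i ≤ (D - d) + d, expCoeff d i c < 0 := by
    rw [Nat.sub_add_cancel hdD]
    exact h
  obtain ⟨n₀, h₀⟩ := super_main d (D - d) hd c h'
  refine ⟨n₀, fun n hn u hu K _ _ huK j hj => ?_⟩
  obtain ⟨⟨m, hm, hneg⟩, hex⟩ := h₀ n hn u hu
  rw [Nat.sub_add_cancel hdD] at hm
  have hc0 : truncCoeff n d u (j + d) = 0 := by
    unfold truncCoeff
    rw [if_neg]
    intro h
    have := h m (hm.trans hj)
    omega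
  refine ⟨?_, ?_⟩
  · intro V hV _
    rw [hc0, sub_zero]
    have h1 := prodSpan_le (e := j) hV
    exact_mod_cast Submodule.finrank_mono h1
  · obtain ⟨V, hV1, hV2, hV3⟩ := hex K huK
    refine ⟨V, hV1, hV2, ?_⟩
    rw [hc0, sub_zero]
    have h2 : homogeneousSubmodule (Fin n) K D ≤ prodSpan (D - d) V := by
      rw [hV3, Nat.sub_add_cancel hdD]
    have h3 := prodSpan_full hdD hj h2
    rw [Nat.add_sub_cancel] at h3
    have h4 : prodSpan j V = homogeneousSubmodule (Fin n) K (j + d) :=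
      le_antisymm (prodSpan_le hV1) h3
    rw [h4]

/-- The formula in one degree, for all `u` away from the threshold. -/
theorem one_degree (d j : ℕ) (hd : 2 ≤ d) (ε : ℝ) (hε : 0 < ε) :
    ∃ n₀ : ℕ, ∀ n : ℕ, n₀ ≤ n → ∀ u : ℕ,
      ε * (n : ℝ) ^ d ≤ |(u : ℝ) - asymThreshold d (j + d) * (n : ℝ) ^ d| →
      ∀ (K : Type) [Field K] [CharZero K],
        u ≤ Module.finrank K (homogeneousSubmodule (Fin n) K d) → FrobergAt K n d u j := by
  set t := asymThreshold d (j + d) with ht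
  obtain ⟨n₁, h₁⟩ := super_all d (j + d) hd (by omega) (t + ε)
    (neg_of_thr_lt d (j + d) hd (by omega) _ (by linarith))
  -- the subcritical side
  obtain ⟨n₂, h₂⟩ : ∃ n₂ : ℕ, ∀ n : ℕ, n₂ ≤ n → ∀ u : ℕ, (u : ℝ) ≤ (t - ε) * (n : ℝ) ^ d →
      ∀ (K : Type) [Field K] [CharZero K], FrobergAt K n d u j := by
    by_cases hte : 0 ≤ t - ε
    · exact sub_main d j hd (t - ε) hte
        (pos_of_lt_thr d (j + d) (by omega) _ hte (by linarith))
    · push Not at hte
      refine ⟨1, fun n hn u hu => ?_⟩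
      exfalso
      have h1 : (0 : ℝ) < (n : ℝ) ^ d := by
        have : (0 : ℝ) < (n : ℝ) := by exact_mod_cast hn
        positivity
      have h2 : (0 : ℝ) ≤ (u : ℝ) := Nat.cast_nonneg u
      nlinarith
  refine ⟨max n₁ n₂, fun n hn u hu K _ _ huK => ?_⟩
  rcases le_abs.mp hu with h | h
  · exact h₁ n ((le_max_left _ _).trans hn) u (by linarith) K huK j le_rfl
  · exact h₂ n ((le_max_right _ _).trans hn) u (by linarith) K

/-- All degrees at once, for `u ≥ a n^d` away from finitely many thresholds. -/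
theorem all_degrees_aux (d Dm : ℕ) (hd : 2 ≤ d) (hDm : d ≤ Dm) (a ε : ℝ)
    (ha : asymThreshold d Dm < a) (hε : 0 < ε) :
    ∃ n₀ : ℕ, ∀ n : ℕ, n₀ ≤ n → ∀ u : ℕ, a * (n : ℝ) ^ d ≤ (u : ℝ) →
      (∀ D, d ≤ D → D ≤ Dm →
        ε * (n : ℝ) ^ d ≤ |(u : ℝ) - asymThreshold d D * (n : ℝ) ^ d|) →
      FrobergAll n d u := by
  choose f hf using fun j : ℕ => one_degree d j hd ε hε
  have hg : ∀ D : ℕ, ∃ n₀ : ℕ, d ≤ D → ∀ n : ℕ, n₀ ≤ n → ∀ u : ℕ,
      (asymThreshold d D + ε) * (n : ℝ) ^ d ≤ (u : ℝ) →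
      ∀ (K : Type) [Field K] [CharZero K],
        u ≤ Module.finrank K (homogeneousSubmodule (Fin n) K d) →
        ∀ j : ℕ, D ≤ j + d → FrobergAt K n d u j := by
    intro D
    by_cases hD : d ≤ D
    · obtain ⟨n₀, h₀⟩ := super_all d D hd hD (asymThreshold d D + ε)
        (neg_of_thr_lt d D hd hD _ (by linarith))
      exact ⟨n₀, fun _ => h₀⟩
    · exact ⟨0, fun h => absurd h hD⟩
  choose g hg using hg
  refine ⟨1 + (∑ j ∈ Finset.range (Dm + 1), f j) + ∑ D ∈ Finset.range (Dm + 1), g D,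
    fun n hn u hu hwin K _ _ huK j => ?_⟩
  have hfn : ∀ j ≤ Dm, f j ≤ n := by
    intro j hj
    have := Finset.single_le_sum (f := f) (fun i _ => Nat.zero_le _)
      (Finset.mem_range.mpr (by omega : j < Dm + 1))
    omega
  have hgn : ∀ j ≤ Dm, g j ≤ n := by
    intro j hj
    have := Finset.single_le_sum (f := g) (fun i _ => Nat.zero_le _)
      (Finset.mem_range.mpr (by omega : j < Dm + 1))
    omega
  have hnd : (0 : ℝ) < (n : ℝ) ^ d := by
    have : (0 : ℝ) < (n : ℝ) := by exact_mod_cast (by omega : 0 < n)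
    positivity
  have hex : ∃ D, d ≤ D ∧ asymThreshold d D * (n : ℝ) ^ d < (u : ℝ) :=
    ⟨Dm, hDm, lt_of_lt_of_le (mul_lt_mul_of_pos_right ha hnd) hu⟩
  have hD₀ := Nat.find_spec hex
  have hDle : Nat.find hex ≤ Dm :=
    Nat.find_min' hex ⟨hDm, lt_of_lt_of_le (mul_lt_mul_of_pos_right ha hnd) hu⟩
  set D₀ := Nat.find hex with hD₀def
  by_cases hj : D₀ ≤ j + d
  · have h1 := hwin D₀ hD₀.1 hDle
    have h2 : |(u : ℝ) - asymThreshold d D₀ * (n : ℝ) ^ d| =
        (u : ℝ) - asymThreshold d D₀ * (n : ℝ) ^ d := abs_of_pos (by linarith [hD₀.2])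
    rw [h2] at h1
    exact hg D₀ hD₀.1 n (hgn D₀ hDle) u (by linarith) K huK j hj
  · push Not at hj
    exact hf j n (hfn j (by omega)) u (hwin (j + d) (by omega) (by omega)) K huK

theorem all_degrees (d : ℕ) (hd : 2 ≤ d) (a ε : ℝ) (ha : 0 < a) (hε : 0 < ε) :
    ∃ n₀ : ℕ, ∀ n : ℕ, n₀ ≤ n → ∀ u : ℕ, a * (n : ℝ) ^ d ≤ (u : ℝ) →
      (∀ D, d ≤ D → ε * (n : ℝ) ^ d ≤ |(u : ℝ) - asymThreshold d D * (n : ℝ) ^ d|) →
      FrobergAll n d u := by
  obtain ⟨Dm, hDm, hlt⟩ := thr_small d hd a ha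
  obtain ⟨n₀, h₀⟩ := all_degrees_aux d Dm hd hDm a ε hlt hε
  exact ⟨n₀, fun n hn u hu hwin => h₀ n hn u hu fun D hD _ => hwin D hD⟩

lemma card_window (s : Finset ℕ) (t w : ℝ) (hw : 0 ≤ w) (hs : ∀ u ∈ s, |(u : ℝ) - t| < w) :
    (s.card : ℝ) ≤ 2 * w + 1 := by
  rcases s.eq_empty_or_nonempty with h | ⟨u₀, hu₀⟩
  · rw [h]
    simp only [Finset.card_empty, Nat.cast_zero]
    linarith
  · have h0 : 0 ≤ t + w := by
      have h1 := (abs_lt.mp (hs u₀ hu₀)).2
      have h2 : (0 : ℝ) ≤ (u₀ : ℝ) := Nat.cast_nonneg _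
      linarith
    have hsub : s ⊆ Finset.Icc ⌈t - w⌉₊ ⌊t + w⌋₊ := by
      intro u hu
      have h1 := abs_lt.mp (hs u hu)
      rw [Finset.mem_Icc]
      constructor
      · apply Nat.ceil_le.mpr
        linarith [h1.1]
      · apply Nat.le_floor
        linarith [h1.2]
    have h1 := Finset.card_le_card hsub
    rw [Nat.card_Icc] at h1
    have h2 : (s.card : ℝ) ≤ ((⌊t + w⌋₊ + 1 - ⌈t - w⌉₊ : ℕ) : ℝ) := by exact_mod_cast h1
    refine h2.trans ?_
    rcases le_total ⌈t - w⌉₊ (⌊t + w⌋₊ + 1) with h3 | h3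
    · rw [Nat.cast_sub h3]
      push_cast
      have h4 := Nat.floor_le h0
      have h5 := Nat.le_ceil (t - w)
      linarith
    · rw [Nat.sub_eq_zero_of_le h3]
      simp only [Nat.cast_zero]
      linarith

lemma pow_le_choose (n d : ℕ) (hn : 1 ≤ n) :
    (n : ℝ) ^ d / (d.factorial : ℝ) ≤ ((n - 1 + d).choose (n - 1) : ℝ) := by
  have h1 : (n - 1 + d).choose (n - 1) = (n - 1 + d).choose d := by
    rw [Nat.choose_symm_add]
  rw [h1, Nat.choose_eq_descFactorial_div_factorial]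
  rw [div_le_iff₀ (by positivity)]
  have h2 : (((n - 1 + d).descFactorial d / d.factorial : ℕ) : ℝ) * (d.factorial : ℝ) =
      ((n - 1 + d).descFactorial d : ℝ) := by
    have := Nat.div_mul_cancel (Nat.factorial_dvd_descFactorial (n - 1 + d) d)
    exact_mod_cast this
  rw [h2]
  have h3 : n ^ d ≤ (n - 1 + d).descFactorial d := by
    have := Nat.pow_sub_le_descFactorial (n - 1 + d) d
    have h4 : n - 1 + d + 1 - d = n := by omega
    rwa [h4] at this
  exact_mod_cast h3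

/-- The conjecture holds for asymptotically all `u`. -/
theorem density (d : ℕ) (hd : 2 ≤ d) (η : ℝ) (hη : 0 < η) :
    ∃ n₀ : ℕ, ∀ n : ℕ, n₀ ≤ n →
      (((Finset.Icc 1 ((n - 1 + d).choose (n - 1))).filter
        (fun u => ¬ FrobergAll n d u)).card : ℝ) ≤ η * ((n - 1 + d).choose (n - 1) : ℝ) := by
  set F : ℝ := (d.factorial : ℝ) with hF
  have hFpos : 0 < F := by positivity
  set a : ℝ := η / (4 * F) with ha
  have hapos : 0 < a := by positivity
  obtain ⟨Dm, hDm, hlt⟩ := thr_small d hd a hapos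
  set M : ℝ := (Dm : ℝ) + 1 with hM
  have hMpos : 0 < M := by positivity
  set ε : ℝ := η / (8 * F * M) with hε
  have hεpos : 0 < ε := by positivity
  obtain ⟨n₁, h₁⟩ := all_degrees_aux d Dm hd hDm a ε hlt hεpos
  obtain ⟨n₂, h₂⟩ := exists_nat_gt (4 * F * (M + 1) / η)
  refine ⟨max n₁ (n₂ + 1), fun n hn => ?_⟩
  have hn1 : n₁ ≤ n := (le_max_left _ _).trans hn
  have hn2 : n₂ + 1 ≤ n := (le_max_right _ _).trans hn
  have hn0 : 1 ≤ n := by omega
  have hnr : (1 : ℝ) ≤ (n : ℝ) := by exact_mod_cast hn0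
  have hndpos : (0 : ℝ) < (n : ℝ) ^ d := by positivity
  have hnn : (n : ℝ) ≤ (n : ℝ) ^ d := by
    calc (n : ℝ) = (n : ℝ) ^ 1 := (pow_one _).symm
      _ ≤ (n : ℝ) ^ d := pow_le_pow_right₀ hnr (by omega)
  set bad := (Finset.Icc 1 ((n - 1 + d).choose (n - 1))).filter
        (fun u => ¬ FrobergAll n d u) with hbad
  set A : Finset ℕ := bad.filter (fun u : ℕ => |(u : ℝ) - 0| < a * (n : ℝ) ^ d) with hA
  set B : ℕ → Finset ℕ := fun D =>
    bad.filter (fun u : ℕ => |(u : ℝ) - asymThreshold d D * (n : ℝ) ^ d| < ε * (n : ℝ) ^ d) with hB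
  have hcover : bad ⊆ A ∪ (Finset.range (Dm + 1)).biUnion B := by
    intro u hu
    rw [Finset.mem_union, Finset.mem_biUnion]
    by_contra hcon
    push Not at hcon
    have hnot : ¬ FrobergAll n d u := (Finset.mem_filter.mp hu).2
    apply hnot
    apply h₁ n hn1 u
    · by_contra hlt'
      push Not at hlt'
      apply hcon.1
      rw [hA, Finset.mem_filter]
      refine ⟨hu, ?_⟩
      rw [sub_zero, abs_of_nonneg (Nat.cast_nonneg u)]
      exact hlt'
    · intro D _ hD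
      by_contra hlt'
      push Not at hlt'
      apply hcon.2 D (Finset.mem_range.mpr (by omega))
      rw [hB]
      simp only [Finset.mem_filter]
      exact ⟨hu, hlt'⟩
  have hcA : (A.card : ℝ) ≤ a * (n : ℝ) ^ d + 1 := by
    have hsub : A ⊆ Finset.Icc 1 ⌊a * (n : ℝ) ^ d⌋₊ := by
      intro u hu
      rw [hA, Finset.mem_filter] at hu
      obtain ⟨hu1, hu2⟩ := hu
      rw [hbad, Finset.mem_filter, Finset.mem_Icc] at hu1
      rw [sub_zero, abs_of_nonneg (Nat.cast_nonneg u)] at hu2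
      rw [Finset.mem_Icc]
      exact ⟨hu1.1.1, Nat.le_floor hu2.le⟩
    have h3 := Finset.card_le_card hsub
    rw [Nat.card_Icc, Nat.add_sub_cancel] at h3
    have h4 : (A.card : ℝ) ≤ ((⌊a * (n : ℝ) ^ d⌋₊ : ℕ) : ℝ) := by exact_mod_cast h3
    have h5 := Nat.floor_le (show (0 : ℝ) ≤ a * (n : ℝ) ^ d by positivity)
    linarith
  have hcB : ∀ D, ((B D).card : ℝ) ≤ 2 * (ε * (n : ℝ) ^ d) + 1 := by
    intro D
    apply card_window (B D) (asymThreshold d D * (n : ℝ) ^ d) (ε * (n : ℝ) ^ d) (by positivity)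
    intro u hu
    rw [hB] at hu
    exact (Finset.mem_filter.mp hu).2
  have h3 : (bad.card : ℝ) ≤ (A.card : ℝ) + ∑ D ∈ Finset.range (Dm + 1), ((B D).card : ℝ) := by
    have h4 := Finset.card_le_card hcover
    have h5 := Finset.card_union_le A ((Finset.range (Dm + 1)).biUnion B)
    have h6 := Finset.card_biUnion_le (s := Finset.range (Dm + 1)) (t := B)
    have h7 : bad.card ≤ A.card + ∑ D ∈ Finset.range (Dm + 1), (B D).card := by omega
    exact_mod_cast h7
  have h4 : ∑ D ∈ Finset.range (Dm + 1), ((B D).card : ℝ) ≤ M * (2 * (ε * (n : ℝ) ^ d) + 1) := by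
    calc ∑ D ∈ Finset.range (Dm + 1), ((B D).card : ℝ) ≤
        ∑ D ∈ Finset.range (Dm + 1), (2 * (ε * (n : ℝ) ^ d) + 1) :=
          Finset.sum_le_sum fun D _ => hcB D
      _ = M * (2 * (ε * (n : ℝ) ^ d) + 1) := by
          rw [Finset.sum_const, Finset.card_range, nsmul_eq_mul, hM]
          push_cast
          ring
  have h5 : M * (2 * (ε * (n : ℝ) ^ d)) = η / (4 * F) * (n : ℝ) ^ d := by
    rw [hε]
    field_simp
    ring
  have h6 : M + 1 ≤ η / (4 * F) * (n : ℝ) ^ d := by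
    rw [div_lt_iff₀ hη] at h₂
    have h7 : (n₂ : ℝ) ≤ (n : ℝ) := by exact_mod_cast (by omega : n₂ ≤ n)
    have h8 : 4 * F * (M + 1) ≤ η * (n : ℝ) ^ d := by
      have h9 : (n₂ : ℝ) * η ≤ (n : ℝ) ^ d * η :=
        mul_le_mul_of_nonneg_right (h7.trans hnn) hη.le
      linarith
    rw [div_mul_eq_mul_div, le_div_iff₀ (by positivity)]
    linarith
  have h7 := pow_le_choose n d hn0
  have h8 : η * ((n : ℝ) ^ d / F) ≤ η * ((n - 1 + d).choose (n - 1) : ℝ) :=
    mul_le_mul_of_nonneg_left h7 hη.le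
  have h9 : η * ((n : ℝ) ^ d / F) = 4 * (η / (4 * F) * (n : ℝ) ^ d) := by
    field_simp
  have h10 : 0 < η / (4 * F) * (n : ℝ) ^ d := by positivity
  rw [ha] at hcA
  rw [mul_add, h5, mul_one] at h4
  linarith

end Pool.Agent.H21
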