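import Mathlib

/-!
Generic position along a line: linear independence and rank conditions persist
for all but finitely many parameters.
-/

namespace Pool.Agent.H21

open Polynomial

variable {K : Type*} [Field K] {W : Type*} [AddCommGroup W] [Module K W]

/-- If the vectors `x i` are linearly independent then `x i + c • y i` are linearly independent
for all but finitely many scalars `c`. -/
lemma finite_not_linearIndependent_add_smul {n : ℕ} (x y : Fin n → W)
    (hx : LinearIndependent K x) :
    {c : K | ¬ LinearIndependent K (fun i => x i + c • y i)}.Finite := by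
  classical
  have hφ : ∃ φ : Fin n → (W →ₗ[K] K), ∀ i j, φ i (x j) = if i = j then 1 else 0 := by
    have h1 : ∀ i : Fin n, ∃ g : W →ₗ[K] K,
        g ∘ₗ (Submodule.span K (Set.range x)).subtype = (Finsupp.lapply i) ∘ₗ hx.repr := by
      intro i
      exact LinearMap.exists_extend _
    choose g hg using h1
    refine ⟨g, fun i j => ?_⟩
    have h2 := congrArg (fun f => f ⟨x j, Submodule.subset_span (Set.mem_range_self j)⟩) (hg i)
    simp only [LinearMap.comp_apply, Submodule.subtype_apply] at h2
    rw [h2, hx.repr_eq_single j _ rfl]
    rw [Finsupp.lapply_apply, Finsupp.single_apply]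
    by_cases hij : i = j
    · rw [if_pos hij, if_pos hij.symm]
    · rw [if_neg hij, if_neg (fun h => hij h.symm)]
  obtain ⟨φ, hφ⟩ := hφ
  let M : Matrix (Fin n) (Fin n) K[X] :=
    Matrix.of fun i j => C (φ i (x j)) + X * C (φ i (y j))
  have heval : ∀ c : K, M.det.eval c = (Matrix.of fun i j => φ i (x j + c • y j)).det := by
    intro c
    have : M.det.eval c = (Polynomial.evalRingHom c) M.det := rfl
    rw [this, RingHom.map_det]
    congr 1
    ext i j
    rw [RingHom.mapMatrix_apply, Matrix.map_apply, Matrix.of_apply]
    change eval c (C (φ i (x j)) + X * C (φ i (y j))) = _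
    rw [eval_add, eval_C, eval_mul, eval_X, eval_C, map_add, map_smul, smul_eq_mul]
  have hne : M.det ≠ 0 := by
    intro h
    have h0 := heval 0
    rw [h] at h0
    have h1 : (Matrix.of fun i j => φ i (x j + (0 : K) • y j)) = (1 : Matrix (Fin n) (Fin n) K) := by
      ext i j
      simp [hφ, Matrix.one_apply]
    rw [h1, Matrix.det_one] at h0
    simp at h0
  refine Set.Finite.subset (M.det.roots.toFinset.finite_toSet) ?_
  intro c hc
  simp only [Finset.mem_coe, Multiset.mem_toFinset, mem_roots hne, IsRoot.def]
  by_contra hcne
  apply hc
  rw [heval] at hcne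
  rw [Fintype.linearIndependent_iff]
  intro a ha i
  have hmul : (Matrix.of fun i j => φ i (x j + c • y j)).mulVec a = 0 := by
    ext i
    have h3 := congrArg (φ i) ha
    simp only [map_sum, map_smul, map_zero, smul_eq_mul] at h3
    simp only [Matrix.mulVec, dotProduct, Matrix.of_apply, Pi.zero_apply]
    rw [← h3]
    exact Finset.sum_congr rfl fun j _ => mul_comm _ _
  have := Matrix.eq_zero_of_mulVec_eq_zero hcne hmul
  exact congrFun this i

/-- If the span of the vectors `x s` has rank at least `r`, then so has the span of
`x s + c • y s`, for all but finitely many scalars `c`. -/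
lemma finite_rank_lt_add_smul [FiniteDimensional K W] {σ : Type*} (x y : σ → W) (r : ℕ)
    (hr : r ≤ Module.finrank K (Submodule.span K (Set.range x))) :
    {c : K | Module.finrank K (Submodule.span K (Set.range fun s => x s + c • y s)) < r}.Finite := by
  classical
  -- choose independent vectors among the `x s`
  obtain ⟨b, hbsub, hbspan, hbli⟩ := exists_linearIndependent K (Set.range x)
  have hfin : b.Finite := hbli.setFinite
  have : Fintype b := hfin.fintype
  have hcard : Module.finrank K (Submodule.span K (Set.range x)) = Fintype.card b := by
    rw [← hbspan]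
    have h := finrank_span_eq_card hbli
    rw [Subtype.range_coe] at h
    exact h
  have hrb : r ≤ Fintype.card b := by rw [← hcard]; exact hr
  -- an injection Fin r → b
  let e : Fin r ↪ b := (Fin.castLEEmb hrb).trans (Fintype.equivFin b).symm.toEmbedding
  have hs : ∀ i : Fin r, ∃ s : σ, x s = (e i : W) := fun i => hbsub (e i).2
  choose s hs using hs
  have hli : LinearIndependent K (fun i : Fin r => x (s i)) := by
    have h1 : (fun i : Fin r => x (s i)) = (Subtype.val : b → W) ∘ e := by
      ext i; simp [hs]
    rw [h1]
    exact hbli.comp e e.injective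
  refine Set.Finite.subset
    (finite_not_linearIndependent_add_smul (fun i => x (s i)) (fun i => y (s i)) hli) ?_
  intro c hc hli'
  have h2 : r ≤ Module.finrank K (Submodule.span K (Set.range fun s => x s + c • y s)) := by
    have h3 := finrank_span_eq_card hli'
    rw [Fintype.card_fin] at h3
    rw [← h3]
    apply Submodule.finrank_mono
    apply Submodule.span_mono
    rintro _ ⟨i, rfl⟩
    exact ⟨s i, rfl⟩
  exact absurd hc (not_lt.mpr h2)

/-- Simultaneous genericity. `P` is a parameter space, `adm` a set of admissible parameters closed
under affine combinations, `v p t s` vectors depending affinely on the parameter `t`. If for each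
`p` in a finite set some admissible parameter gives rank at least `r p`, then some admissible
parameter does so for all `p` at once. -/
lemma exists_simultaneous [Infinite K] {P : Type*} [AddCommGroup P] [Module K P]
    (adm : Set P) (hadm : ∀ t ∈ adm, ∀ t' ∈ adm, ∀ c : K, t + c • (t' - t) ∈ adm)
    (hne : adm.Nonempty)
    {ι : Type*} (S : Finset ι) (Wf : ι → Type*) [∀ p, AddCommGroup (Wf p)] [∀ p, Module K (Wf p)]
    [∀ p, FiniteDimensional K (Wf p)]
    (σ : ι → Type*) (v : ∀ p, P → σ p → Wf p)
    (haff : ∀ p t t' (c : K) s, v p (t + c • (t' - t)) s = v p t s + c • (v p t' s - v p t s))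
    (r : ι → ℕ)
    (hgood : ∀ p ∈ S, ∃ t ∈ adm, r p ≤ Module.finrank K (Submodule.span K (Set.range (v p t)))) :
    ∃ t ∈ adm, ∀ p ∈ S, r p ≤ Module.finrank K (Submodule.span K (Set.range (v p t))) := by
  classical
  induction S using Finset.induction_on with
  | empty =>
    obtain ⟨t, ht⟩ := hne
    exact ⟨t, ht, by simp⟩
  | insert p S hp ih =>
    obtain ⟨t, ht, htS⟩ := ih (fun q hq => hgood q (Finset.mem_insert_of_mem hq))
    obtain ⟨t', ht', htp⟩ := hgood p (Finset.mem_insert_self _ _)
    -- bad parameters for q ∈ S
    have hfS : ∀ q ∈ S, {c : K | Module.finrank K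
        (Submodule.span K (Set.range (v q (t + c • (t' - t))))) < r q}.Finite := by
      intro q hq
      have h1 := finite_rank_lt_add_smul (K := K) (v q t) (fun s => v q t' s - v q t s) (r q)
        (htS q hq)
      refine h1.subset ?_
      intro c hc
      have h2 : v q (t + c • (t' - t)) = fun s => v q t s + c • (v q t' s - v q t s) := by
        ext s; exact haff q t t' c s
      change Module.finrank K
        (Submodule.span K (Set.range (v q (t + c • (t' - t))))) < r q at hc
      rw [h2] at hc
      exact hc
    have hfp : {c : K | Module.finrank K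
        (Submodule.span K (Set.range (v p (t + c • (t' - t))))) < r p}.Finite := by
      have h1 := finite_rank_lt_add_smul (K := K) (v p t') (fun s => v p t s - v p t' s) (r p) htp
      -- c ↦ 1 - c
      have h3 := h1.preimage (f := fun c : K => 1 - c) (by
        intro a _ b _ hab
        simpa using hab)
      refine h3.subset ?_
      intro c hc
      have h2 : v p (t + c • (t' - t)) = fun s => v p t' s + (1 - c) • (v p t s - v p t' s) := by
        ext s
        rw [haff p t t' c s]
        module
      change Module.finrank K
        (Submodule.span K (Set.range (v p (t + c • (t' - t))))) < r p at hc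
      rw [h2] at hc
      exact hc
    have hfin : (⋃ q ∈ S, {c : K | Module.finrank K
        (Submodule.span K (Set.range (v q (t + c • (t' - t))))) < r q}).Finite :=
      Set.Finite.biUnion S.finite_toSet hfS
    obtain ⟨c, hc⟩ := (hfin.union hfp).exists_notMem
    refine ⟨t + c • (t' - t), hadm t ht t' ht' c, ?_⟩
    intro q hq
    rw [Finset.mem_insert] at hq
    rcases hq with rfl | hq
    · by_contra hlt
      exact hc (Or.inr (not_le.mp hlt))
    · by_contra hlt
      exact hc (Or.inl (Set.mem_biUnion (Finset.mem_coe.mpr hq) (not_le.mp hlt)))

end Pool.Agent.H21
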