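import Pool.Agent.H21.Split

/-!
Uniform weights: `Reach` for the complete `d`-uniform system, by iterated splitting.
-/

set_option linter.unusedSectionVars false

namespace Pool.Agent.H21

open scoped Classical

variable {K : Type*} [Field K] [Infinite K] {I : Type*} [Fintype I] [DecidableEq I]

/-- Uniform weight `v` on the `d`-subsets of `Y`. -/
noncomputable def wA (d : ℕ) (v : ℚ) (Y : Finset I) : Finset I → ℚ :=
  fun T' => if T'.card = d ∧ T' ⊆ Y then v else 0

/-- Uniform weight `v` on the `d`-subsets of `Y \ L`, and weight `s` on `T`. -/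
noncomputable def wB (d : ℕ) (v : ℚ) (s : ℚ) (Y L T : Finset I) : Finset I → ℚ :=
  fun T' => (if T'.card = d ∧ T' ⊆ Y \ L then v else 0) + (if T' = T then s else 0)

lemma card_filter_mem_powersetCard (d : ℕ) (hd : 1 ≤ d) (Z : Finset I) (y : I) (hy : y ∈ Z) :
    ((Z.powersetCard d).filter (fun T => y ∈ T)).card = (Z.card - 1).choose (d - 1) := by
  obtain ⟨d', rfl⟩ : ∃ d', d = d' + 1 := ⟨d - 1, by omega⟩
  have h1 : (Z.powersetCard (d' + 1)).filter (fun T => y ∈ T)
      = ((Z.erase y).powersetCard d').image (insert y) := by
    ext T
    simp only [Finset.mem_filter, Finset.mem_powersetCard, Finset.mem_image]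
    constructor
    · rintro ⟨⟨h1, h2⟩, h3⟩
      refine ⟨T.erase y, ⟨Finset.erase_subset_erase _ h1, ?_⟩, Finset.insert_erase h3⟩
      rw [Finset.card_erase_of_mem h3, h2]; rfl
    · rintro ⟨T', ⟨h1, h2⟩, rfl⟩
      refine ⟨⟨?_, ?_⟩, Finset.mem_insert_self _ _⟩
      · exact Finset.insert_subset hy (h1.trans (Finset.erase_subset _ _))
      · rw [Finset.card_insert_of_notMem, h2]
        intro h
        exact (Finset.mem_erase.mp (h1 h)).1 rfl
  rw [h1, Finset.card_image_of_injOn, Finset.card_powersetCard, Finset.card_erase_of_mem hy]
  · rfl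
  · intro A hA B hB hAB
    have hA' : y ∉ A := fun h => (Finset.mem_erase.mp ((Finset.mem_powersetCard.mp hA).1 h)).1 rfl
    have hB' : y ∉ B := fun h => (Finset.mem_erase.mp ((Finset.mem_powersetCard.mp hB).1 h)).1 rfl
    have := congrArg (fun C => C.erase y) hAB
    simpa [Finset.erase_insert hA', Finset.erase_insert hB'] using this

theorem reach_wB (d : ℕ) (hd : 1 ≤ d) (v : ℚ) (hv : 0 ≤ v) (e : ℕ → ℚ)
    (hrec : ∀ k, e (k + 1) = e k - (k.choose (d - 1) : ℚ) * v * e (k + 1 - d)) :
    ∀ (n m : ℕ) (Y L T : Finset I), Y.card = n → (T \ L).card = m → L ⊆ T → T ⊆ Y →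
      L.Nonempty → T.card = d → (∀ i < n, 0 < e i) →
      Reach K (wB d v (e (Y \ L).card / e (Y \ T).card) Y L T) 0 := by
  intro n
  induction n using Nat.strong_induction_on with
  | _ n ihn =>
  intro m
  induction m with
  | zero =>
    intro Y L T hY hm hLT hTY hL hT hpos
    have hTL : T = L := by
      have : T \ L = ∅ := Finset.card_eq_zero.mp hm
      exact Finset.Subset.antisymm (Finset.sdiff_eq_empty_iff_subset.mp this) hLT
    subst hTL
    have hlt : (Y \ T).card < n := by
      rw [← hY]
      exact Finset.card_lt_card (Finset.sdiff_ssubset hTY hL)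
    have hne : e (Y \ T).card ≠ 0 := (hpos _ hlt).ne'
    refine reach_full _ (fun T' => ?_) T ?_
    · unfold wB
      rw [div_self hne]
      split_ifs <;> linarith
    · unfold wB
      rw [div_self hne]
      simp only [if_true]
      split_ifs <;> linarith
  | succ m ihm =>
    intro Y L T hY hm hLT hTY hL hT hpos
    obtain ⟨y, hy⟩ : (T \ L).Nonempty := by
      rw [← Finset.card_pos, hm]; omega
    have hyT : y ∈ T := (Finset.mem_sdiff.mp hy).1
    have hyL : y ∉ L := (Finset.mem_sdiff.mp hy).2
    have hyZ : y ∈ Y \ L := Finset.mem_sdiff.mpr ⟨hTY hyT, hyL⟩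
    obtain ⟨k, hk⟩ : ∃ k, (Y \ L).card = k + 1 := by
      have : 0 < (Y \ L).card := Finset.card_pos.mpr ⟨y, hyZ⟩
      exact ⟨(Y \ L).card - 1, by omega⟩
    have hlt : (Y \ L).card < n := by
      rw [← hY]
      exact Finset.card_lt_card (Finset.sdiff_ssubset (hLT.trans hTY) hL)
    have hltT : (Y \ T).card < n := by
      rw [← hY]
      exact Finset.card_lt_card (Finset.sdiff_ssubset hTY ⟨y, hyT⟩)
    have hek : 0 < e k := hpos k (by omega)
    have hek1 : 0 < e (k + 1) := hpos (k + 1) (by omega)
    have hekd : 0 < e (k + 1 - d) := hpos _ (by omega)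
    have heT : 0 < e (Y \ T).card := hpos _ hltT
    set S2 : Finset (Finset I) := ((Y \ L).powersetCard d).filter (fun T => y ∈ T) with hS2
    have hS2mem : ∀ T'', T'' ∈ S2 ↔ (T'' ⊆ Y \ L ∧ T''.card = d) ∧ y ∈ T'' := by
      intro T''
      rw [hS2, Finset.mem_filter, Finset.mem_powersetCard]
    have hTS2 : T ∉ S2 := by
      intro h
      obtain ⟨l, hl⟩ := hL
      have := ((hS2mem T).mp h).1.1 (hLT hl)
      exact (Finset.mem_sdiff.mp this).2 hl
    have hcardS2 : S2.card = k.choose (d - 1) := by
      rw [hS2, card_filter_mem_powersetCard d hd _ y hyZ, hk]; rfl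
    let lam : Finset I → ℚ := fun T' => if T' = T then e (k + 1) / e k
      else v * e (k + 1 - d) / e k
    let w' : Finset I → Finset I → ℚ := fun T' =>
      if T' = T then wB d v (e (Y \ insert y L).card / e (Y \ T).card) Y (insert y L) T
      else wB d v (e ((Y \ L) \ {y}).card / e ((Y \ L) \ T').card) (Y \ L) {y} T'
    have hcard1 : (Y \ insert y L).card = k := by
      have : Y \ insert y L = (Y \ L).erase y := by
        ext z; simp only [Finset.mem_sdiff, Finset.mem_insert, Finset.mem_erase]; tauto
      rw [this, Finset.card_erase_of_mem hyZ, hk]; rfl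
    have hcard2 : ((Y \ L) \ {y}).card = k := by
      rw [Finset.sdiff_singleton_eq_erase, Finset.card_erase_of_mem hyZ, hk]; rfl
    have hR := Reach.split (K := K) (insert T S2) y w' (fun _ => 0) lam
      (by
        intro p _
        simp only [lam]
        split_ifs
        · positivity
        · positivity)
      (by
        rw [Finset.sum_insert hTS2]
        have h1 : ∑ p ∈ S2, lam p = ∑ p ∈ S2, v * e (k + 1 - d) / e k := by
          refine Finset.sum_congr rfl fun p hp => ?_
          simp only [lam]
          rw [if_neg]
          intro h; exact hTS2 (h ▸ hp)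
        rw [h1, Finset.sum_const, hcardS2]
        simp only [lam, if_true, nsmul_eq_mul]
        rw [hrec k]
        field_simp
        ring)
      (by
        intro p hp
        rcases Finset.mem_insert.mp hp with h | h
        · subst h
          simp only [w', if_true]
          refine ihm Y (insert y L) p hY ?_ ?_ hTY ⟨y, Finset.mem_insert_self _ _⟩ hT hpos
          · have : p \ insert y L = (p \ L).erase y := by
              ext z; simp only [Finset.mem_sdiff, Finset.mem_insert, Finset.mem_erase]; tauto
            rw [this, Finset.card_erase_of_mem hy, hm]; rfl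
          · exact Finset.insert_subset hyT hLT
        · have hpT : p ≠ T := fun h' => hTS2 (h' ▸ h)
          simp only [w', if_neg hpT]
          have hp' := (hS2mem p).mp h
          refine ihn (Y \ L).card hlt (p \ {y}).card (Y \ L) {y} p rfl rfl ?_ hp'.1.1
            ⟨y, Finset.mem_singleton_self y⟩ hp'.1.2 (fun i hi => hpos i (hi.trans hlt))
          exact Finset.singleton_subset_iff.mpr hp'.2)
      (wB d v (e (Y \ L).card / e (Y \ T).card) Y L T)
      (by
        intro T'
        unfold wB
        have : 0 ≤ e (Y \ L).card / e (Y \ T).card := by rw [hk]; positivity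
        split_ifs <;> linarith)
      (by
        intro T' hyT' p hp
        have hT'T : T' ≠ T := fun h => hyT' (h ▸ hyT)
        rcases Finset.mem_insert.mp hp with h | h
        · subst h
          simp only [w', if_true, wB, if_neg hT'T, add_zero]
          by_cases hc : T'.card = d ∧ T' ⊆ Y \ insert y L
          · have hc' : T'.card = d ∧ T' ⊆ Y \ L := ⟨hc.1, hc.2.trans
              (Finset.sdiff_subset_sdiff (Finset.Subset.refl _) (Finset.subset_insert _ _))⟩
            rw [if_pos hc, if_pos hc']
          · rw [if_neg hc]
            split_ifs <;> linarith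
        · have hpT : p ≠ T := fun h' => hTS2 (h' ▸ h)
          have hp' := (hS2mem p).mp h
          have hT'p : T' ≠ p := fun h => hyT' (h ▸ hp'.2)
          simp only [w', if_neg hpT, wB, if_neg hT'T, if_neg hT'p, add_zero]
          by_cases hc : T'.card = d ∧ T' ⊆ (Y \ L) \ {y}
          · have hc' : T'.card = d ∧ T' ⊆ Y \ L := ⟨hc.1, hc.2.trans Finset.sdiff_subset⟩
            rw [if_pos hc, if_pos hc']
          · rw [if_neg hc]
            split_ifs <;> linarith)
      (by
        intro T' hyT'
        -- only the part `T'` itself contributes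
        have hterm : ∀ p ∈ insert T S2, lam p * w' p T' =
            if p = T' then (if T' = T then e (Y \ L).card / e (Y \ T).card else v) else 0 := by
          intro p hp
          rcases Finset.mem_insert.mp hp with h | h
          · subst h
            simp only [w', lam, if_true, wB]
            rw [if_neg (fun h => ?_), zero_add, hcard1, hk]
            · by_cases h : T' = p
              · subst h
                simp only [if_true]
                field_simp
              · rw [if_neg h, if_neg (fun h' => h h'.symm), mul_zero]
            · have := h.2 hyT'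
              simp at this
          · have hpT : p ≠ T := fun h' => hTS2 (h' ▸ h)
            have hp' := (hS2mem p).mp h
            simp only [w', lam, if_neg hpT, wB]
            rw [if_neg (fun h => ?_), zero_add, hcard2]
            · by_cases h : T' = p
              · subst h
                simp only [if_true, if_neg hpT]
                have hc3 : ((Y \ L) \ T').card = k + 1 - d := by
                  rw [Finset.card_sdiff_of_subset hp'.1.1, hk, hp'.1.2]
                rw [hc3]
                field_simp
              · rw [if_neg h, if_neg (fun h' => h h'.symm), mul_zero]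
            · have := h.2 hyT'
              simp at this
        rw [Finset.sum_congr rfl hterm, Finset.sum_ite_eq']
        by_cases hT' : T' ∈ insert T S2
        · rw [if_pos hT']
          unfold wB
          rcases Finset.mem_insert.mp hT' with h | h
          · subst h
            simp only [if_true]
            split_ifs <;> linarith
          · have hpT : T' ≠ T := fun h' => hTS2 (h' ▸ h)
            have hp' := (hS2mem T').mp h
            rw [if_neg hpT, if_neg hpT, if_pos ⟨hp'.1.2, hp'.1.1⟩, add_zero]
        · rw [if_neg hT']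
          unfold wB
          have : 0 ≤ e (Y \ L).card / e (Y \ T).card := by rw [hk]; positivity
          split_ifs <;> linarith)
    simpa using hR


/-- Splitting one vertex `x` of a complete uniform system into a part on which `x` is free and
parts on which `x` lies in a single edge. -/
theorem reach_wA_step (d : ℕ) (hd : 1 ≤ d) (v : ℚ) (hv : 0 ≤ v) (e : ℕ → ℚ)
    (hrec : ∀ k, e (k + 1) = e k - (k.choose (d - 1) : ℚ) * v * e (k + 1 - d))
    (k : ℕ) (Y : Finset I) (hY : Y.card = k + 1) (x : I) (hx : x ∈ Y)
    (hpos : ∀ i < k + 1, 0 < e i) (q0 lam0 lam1 : ℚ) (h0 : 0 ≤ lam0) (h1 : 0 ≤ lam1)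
    (hR0 : Reach K (wA d v (Y.erase x)) q0)
    (hsum : lam0 + (k.choose (d - 1) : ℚ) * lam1 = 1)
    (hle : lam1 * (e k / e (k + 1 - d)) ≤ v) :
    Reach K (wA d v Y) (lam0 * q0) := by
  have hek : 0 < e k := hpos k (by omega)
  have hekd : 0 < e (k + 1 - d) := hpos _ (by omega)
  set S2 : Finset (Finset I) := (Y.powersetCard d).filter (fun T => x ∈ T) with hS2
  have hS2mem : ∀ T'', T'' ∈ S2 ↔ (T'' ⊆ Y ∧ T''.card = d) ∧ x ∈ T'' := by
    intro T''
    rw [hS2, Finset.mem_filter, Finset.mem_powersetCard]
  have hES2 : (∅ : Finset I) ∉ S2 := by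
    intro h
    have := ((hS2mem ∅).mp h).2
    simp at this
  have hcardS2 : S2.card = k.choose (d - 1) := by
    rw [hS2, card_filter_mem_powersetCard d hd _ x hx, hY]; rfl
  have hcard2 : (Y \ {x}).card = k := by
    rw [Finset.sdiff_singleton_eq_erase, Finset.card_erase_of_mem hx, hY]; rfl
  let lam : Finset I → ℚ := fun T' => if T' = ∅ then lam0 else lam1
  let q' : Finset I → ℚ := fun T' => if T' = ∅ then q0 else 0
  let w' : Finset I → Finset I → ℚ := fun T' =>
    if T' = ∅ then wA d v (Y.erase x)
    else wB d v (e (Y \ {x}).card / e (Y \ T').card) Y {x} T'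
  have hR := Reach.split (K := K) (insert ∅ S2) x w' q' lam
    (by
      intro p _
      simp only [lam]
      split_ifs <;> assumption)
    (by
      rw [Finset.sum_insert hES2]
      have h1 : ∑ p ∈ S2, lam p = ∑ p ∈ S2, lam1 := by
        refine Finset.sum_congr rfl fun p hp => ?_
        simp only [lam]
        rw [if_neg]
        intro h; exact hES2 (h ▸ hp)
      rw [h1, Finset.sum_const, hcardS2]
      simp only [lam, if_true, nsmul_eq_mul]
      exact hsum)
    (by
      intro p hp
      rcases Finset.mem_insert.mp hp with h | h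
      · subst h
        simp only [w', q', if_true]
        exact hR0
      · have hpE : p ≠ ∅ := fun h' => hES2 (h' ▸ h)
        simp only [w', q', if_neg hpE]
        have hp' := (hS2mem p).mp h
        exact reach_wB d hd v hv e hrec (k + 1) (p \ {x}).card Y {x} p hY rfl
          (Finset.singleton_subset_iff.mpr hp'.2) hp'.1.1 ⟨x, Finset.mem_singleton_self x⟩
          hp'.1.2 hpos)
    (wA d v Y)
    (by
      intro T'
      unfold wA
      split_ifs <;> linarith)
    (by
      intro T' hxT' p hp
      rcases Finset.mem_insert.mp hp with h | h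
      · subst h
        simp only [w', if_true, wA]
        by_cases hc : T'.card = d ∧ T' ⊆ Y.erase x
        · have hc' : T'.card = d ∧ T' ⊆ Y := ⟨hc.1, hc.2.trans (Finset.erase_subset _ _)⟩
          rw [if_pos hc, if_pos hc']
        · rw [if_neg hc]
          split_ifs <;> linarith
      · have hpE : p ≠ ∅ := fun h' => hES2 (h' ▸ h)
        have hp' := (hS2mem p).mp h
        have hT'p : T' ≠ p := fun h => hxT' (h ▸ hp'.2)
        simp only [w', if_neg hpE, wB, if_neg hT'p, add_zero, wA]
        by_cases hc : T'.card = d ∧ T' ⊆ Y \ {x}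
        · have hc' : T'.card = d ∧ T' ⊆ Y := ⟨hc.1, hc.2.trans Finset.sdiff_subset⟩
          rw [if_pos hc, if_pos hc']
        · rw [if_neg hc]
          split_ifs <;> linarith)
    (by
      intro T' hxT'
      have hterm : ∀ p ∈ insert ∅ S2, lam p * w' p T' =
          if p = T' then lam1 * (e k / e (k + 1 - d)) else 0 := by
        intro p hp
        rcases Finset.mem_insert.mp hp with h | h
        · subst h
          simp only [w', lam, if_true, wA]
          have hne : (∅ : Finset I) ≠ T' := by
            intro h'
            rw [← h'] at hxT'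
            simp at hxT'
          rw [if_neg (fun h => ?_), if_neg hne, mul_zero]
          have := h.2 hxT'
          simp at this
        · have hpE : p ≠ ∅ := fun h' => hES2 (h' ▸ h)
          have hp' := (hS2mem p).mp h
          simp only [w', lam, if_neg hpE, wB]
          rw [if_neg (fun h => ?_), zero_add, hcard2]
          · by_cases h : T' = p
            · subst h
              simp only [if_true]
              have hc3 : (Y \ T').card = k + 1 - d := by
                rw [Finset.card_sdiff_of_subset hp'.1.1, hY, hp'.1.2]
              rw [hc3]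
            · rw [if_neg h, if_neg (fun h' => h h'.symm), mul_zero]
          · have := h.2 hxT'
            simp at this
      rw [Finset.sum_congr rfl hterm, Finset.sum_ite_eq']
      by_cases hT' : T' ∈ insert ∅ S2
      · rw [if_pos hT']
        have hTE : T' ≠ ∅ := by
          intro h'
          rw [h'] at hxT'
          simp at hxT'
        rcases Finset.mem_insert.mp hT' with h | h
        · exact absurd h hTE
        · have hp' := (hS2mem T').mp h
          unfold wA
          rw [if_pos ⟨hp'.1.2, hp'.1.1⟩]
          exact hle
      · rw [if_neg hT']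
        unfold wA
        split_ifs <;> linarith)
  refine hR.mono (fun _ => le_refl _) ?_
  rw [Finset.sum_insert hES2]
  have h1 : ∑ p ∈ S2, lam p * q' p = 0 := by
    refine Finset.sum_eq_zero fun p hp => ?_
    have hpE : p ≠ ∅ := fun h' => hES2 (h' ▸ hp)
    simp only [q', if_neg hpE, mul_zero]
  rw [h1]
  simp [lam, q']

/-- The complete uniform system with weight `v` reaches codimension `e |Y|`, as long as the
numbers `e i`, `i < |Y|`, are positive. -/
theorem reach_wA (d : ℕ) (hd : 1 ≤ d) (v : ℚ) (hv : 0 ≤ v) (e : ℕ → ℚ) (he0 : e 0 = 1)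
    (hrec : ∀ k, e (k + 1) = e k - (k.choose (d - 1) : ℚ) * v * e (k + 1 - d)) :
    ∀ (k : ℕ) (Y : Finset I), Y.card = k → (∀ i < k, 0 < e i) → 0 ≤ e k →
      Reach K (wA d v Y) (e k) := by
  intro k
  induction k with
  | zero =>
    intro Y _ _ _
    rw [he0]
    refine reach_zero.mono (fun T => ?_) le_rfl
    unfold wA
    split_ifs
    · exact hv
    · exact le_rfl
  | succ k ih =>
    intro Y hY hpos hek1
    obtain ⟨x, hx⟩ : Y.Nonempty := by
      rw [← Finset.card_pos, hY]; omega
    have hek : 0 < e k := hpos k (by omega)
    have hekd : 0 < e (k + 1 - d) := hpos _ (by omega)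
    have h := reach_wA_step (K := K) d hd v hv e hrec k Y hY x hx hpos (e k) (e (k + 1) / e k)
      (v * e (k + 1 - d) / e k) (by positivity) (by positivity)
      (ih (Y.erase x) (by rw [Finset.card_erase_of_mem hx, hY]; rfl)
        (fun i hi => hpos i (by omega)) hek.le)
      (by rw [hrec k]; field_simp; ring) (by apply le_of_eq; field_simp)
    have h2 : e (k + 1) / e k * e k = e (k + 1) := by field_simp
    rw [h2] at h
    exact h

/-- The supercritical case: the complete uniform system reaches codimension `0` as soon as
`e |Y| ≤ 0`. -/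
theorem reach_wA_super (d : ℕ) (hd : 1 ≤ d) (v : ℚ) (hv : 0 ≤ v) (e : ℕ → ℚ) (he0 : e 0 = 1)
    (hrec : ∀ k, e (k + 1) = e k - (k.choose (d - 1) : ℚ) * v * e (k + 1 - d))
    (k : ℕ) (Y : Finset I) (hY : Y.card = k + 1) (hpos : ∀ i < k + 1, 0 < e i)
    (hek1 : e (k + 1) ≤ 0) :
    Reach K (wA d v Y) 0 := by
  obtain ⟨x, hx⟩ : Y.Nonempty := by
    rw [← Finset.card_pos, hY]; omega
  have hek : 0 < e k := hpos k (by omega)
  have hekd : 0 < e (k + 1 - d) := hpos _ (by omega)
  have h3 : e k ≤ (k.choose (d - 1) : ℚ) * v * e (k + 1 - d) := by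
    have := hrec k
    linarith
  have hC : 0 < (k.choose (d - 1) : ℚ) := by
    rcases Nat.eq_zero_or_pos (k.choose (d - 1)) with h0 | h0
    · rw [h0] at h3; simp at h3; linarith
    · exact_mod_cast h0
  have h := reach_wA_step (K := K) d hd v hv e hrec k Y hY x hx hpos (e k) 0
      (1 / (k.choose (d - 1) : ℚ)) le_rfl (by positivity)
      (reach_wA d hd v hv e he0 hrec k (Y.erase x)
        (by rw [Finset.card_erase_of_mem hx, hY]; rfl)
        (fun i hi => hpos i (by omega)) hek.le)
      (by field_simp; ring)
      (by
        rw [div_mul_div_comm, one_mul, div_le_iff₀ (by positivity)]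
        linarith)
  rw [zero_mul] at h
  exact h

end Pool.Agent.H21
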