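import Pool.Agent.H21.Merge
import Pool.Agent.H21.Uniform

/-!
Labelled systems: the same function is used at all position sets with the same set of labels.
-/

set_option linter.unusedSectionVars false

namespace Pool.Agent.H21

open scoped Classical

variable {K : Type} [Field K] {P : Type} [Fintype P] {A : Type} [Fintype A] [Nonempty A]

/-- The point of `ℕ → A` with the coordinates of `x` at the labels of `T`. -/
noncomputable def liftx (lam : P → ℕ) (T : Finset P) (x : P → A) : ℕ → A :=
  fun i => if h : ∃ q ∈ T, lam q = i then x h.choose else Classical.arbitrary A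

lemma liftx_apply {lam : P → ℕ} {T : Finset P} (hinj : Set.InjOn lam T) (x : P → A) {q : P}
    (hq : q ∈ T) : liftx lam T x (lam q) = x q := by
  unfold liftx
  have h : ∃ q' ∈ T, lam q' = lam q := ⟨q, hq, rfl⟩
  rw [dif_pos h]
  congr 1
  exact hinj h.choose_spec.1 hq h.choose_spec.2

lemma liftx_congr {lam : P → ℕ} {T : Finset P} {x y : P → A} (h : ∀ q ∈ T, x q = y q) :
    liftx lam T x = liftx lam T y := by
  funext i
  unfold liftx
  by_cases hi : ∃ q ∈ T, lam q = i
  · rw [dif_pos hi, dif_pos hi]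
    exact h _ hi.choose_spec.1
  · rw [dif_neg hi, dif_neg hi]

/-- Systems of functions of labelled variables. -/
abbrev Sys (K A : Type) : Type := Finset ℕ → ℕ → ((ℕ → A) → K)

/-- `t T l` depends only on the labels in `T`. -/
def adm (K A : Type) : Set (Sys K A) :=
  {t | ∀ T l, ∀ x y : ℕ → A, (∀ i ∈ T, x i = y i) → t T l x = t T l y}

/-- The functions of a labelled system. -/
noncomputable def HL (lam : P → ℕ) (t : Sys K A) (l : Finset P × ℕ) : (P → A) → K :=
  fun x => t (l.1.image lam) l.2 (liftx lam l.1 x)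

lemma HL_mem (lam : P → ℕ) (t : Sys K A) (l : Finset P × ℕ) :
    HL lam t l ∈ Dp (A := A) K l.1 := by
  intro x y hxy
  unfold HL
  rw [liftx_congr hxy]

/-- The family with index sets `C T`. -/
noncomputable def fam (C : Finset P → Finset ℕ) : Finset (Finset P × ℕ) :=
  (Finset.univ ×ˢ (Finset.univ.biUnion C)).filter (fun a => a.2 ∈ C a.1)

lemma mem_fam {C : Finset P → Finset ℕ} {l : Finset P × ℕ} : l ∈ fam C ↔ l.2 ∈ C l.1 := by
  unfold fam
  rw [Finset.mem_filter, Finset.mem_product, Finset.mem_biUnion]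
  constructor
  · rintro ⟨_, h⟩; exact h
  · intro h
    exact ⟨⟨Finset.mem_univ _, l.1, Finset.mem_univ _, h⟩, h⟩

lemma card_fam_filter (C : Finset P → Finset ℕ) (T : Finset P) :
    ((fam C).filter (fun l => Prod.fst l = T)).card = (C T).card := by
  have h1 : (fam C).filter (fun l => Prod.fst l = T) = (C T).image (fun l => (T, l)) := by
    ext ⟨T', l⟩
    rw [Finset.mem_filter, mem_fam, Finset.mem_image]
    constructor
    · rintro ⟨h1, h2⟩
      simp only at h1 h2
      subst h2
      exact ⟨l, h1, rfl⟩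
    · rintro ⟨l', h1, h2⟩
      rw [Prod.mk.injEq] at h2
      obtain ⟨h3, h4⟩ := h2
      subst h3 h4
      exact ⟨h1, rfl⟩
  rw [h1, Finset.card_image_of_injective]
  intro a b hab
  exact (Prod.mk.inj hab).2

/-- The index sets of a labelled system. -/
noncomputable def CL (d : ℕ) (lam : P → ℕ) (C : Finset ℕ → Finset ℕ) (T : Finset P) : Finset ℕ :=
  if T.card = d ∧ Set.InjOn lam T then C (T.image lam) else ∅

/-- A labelled system is good at `Q` if the codimension is at most the expected one. -/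
def Good (d : ℕ) (lam : P → ℕ) (B : ℕ → Finset A) (C : Finset ℕ → Finset ℕ) (Q : Finset P)
    (t : Sys K A) : Prop :=
  DD (fun p => B (lam p)) Prod.fst (hb Prod.fst (HL lam t) (fun p => B (lam p)))
      (fam (CL d lam C)) Q ≤
    EE (wt (fun p => B (lam p)) Prod.fst (fam (CL d lam C))) Q

/-- Specifications of rank conditions. -/
structure Spec (A : Type) where
  /-- positions -/
  P : Type
  /-- finitely many -/
  fin : Fintype P
  /-- labels -/
  lam : P → ℕ
  /-- boxes -/
  B : ℕ → Finset A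
  /-- index sets -/
  C : Finset ℕ → Finset ℕ
  /-- the positions used -/
  Q : Finset P

/-- A specification is satisfied. -/
def Spec.Sat (d : ℕ) (s : Spec A) (t : Sys K A) : Prop :=
  letI := s.fin
  Good d s.lam s.B s.C s.Q t

/-- Simultaneous genericity. -/
lemma spec_simul [Infinite K] (d : ℕ) {ι : Type} (S : Finset ι) (sp : ι → Spec A)
    (hgood : ∀ s ∈ S, ∃ t ∈ adm K A, (sp s).Sat d t) :
    ∃ t ∈ adm K A, ∀ s ∈ S, (sp s).Sat d t := by
  letI hfin : ∀ s, Fintype (sp s).P := fun s => (sp s).fin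
  let BP : ∀ s, (sp s).P → Finset A := fun s p => (sp s).B ((sp s).lam p)
  let FS : ∀ s, Finset (Finset (sp s).P × ℕ) := fun s => fam (CL d (sp s).lam (sp s).C)
  let σ : ι → Type := fun s =>
    {x : (Finset (sp s).P × ℕ) × (((sp s).P → A) → K) //
      x.1 ∈ FS s ∧ x.1.1 ⊆ (sp s).Q ∧ x.2 ∈ MM K (BP s) ((sp s).Q \ x.1.1)}
  let v : ∀ s, Sys K A → σ s → (((sp s).P → A) → K) := fun s t x =>
    hb Prod.fst (HL (sp s).lam t) (BP s) x.1.1 * x.1.2
  let r : ι → ℕ := fun s =>
    ((∏ q ∈ (sp s).Q, ((BP s q).card : ℤ)) - EE (wt (BP s) Prod.fst (FS s)) (sp s).Q).toNat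
  have hspan : ∀ s t, Submodule.span K (Set.range (v s t)) =
      JJ (BP s) Prod.fst (hb Prod.fst (HL (sp s).lam t) (BP s)) (FS s) (sp s).Q := by
    intro s t
    unfold JJ
    congr 1
    ext φ
    constructor
    · rintro ⟨x, rfl⟩
      exact ⟨x.1.1, x.2.1, x.2.2.1, x.1.2, x.2.2.2, rfl⟩
    · rintro ⟨l, hl, hQ, g, hg, rfl⟩
      exact ⟨⟨(l, g), hl, hQ, hg⟩, rfl⟩
  have hiff : ∀ s t, (sp s).Sat d t ↔
      r s ≤ Module.finrank K (Submodule.span K (Set.range (v s t))) := by
    intro s t
    rw [hspan]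
    unfold Spec.Sat Good DD
    simp only [r]
    rw [Int.toNat_le]
    constructor
    · intro h
      linarith
    · intro h
      linarith
  have key := exists_simultaneous (K := K) (adm K A)
    (by
      intro t ht t' ht' c T l x y hxy
      simp only [Pi.add_apply, Pi.smul_apply, Pi.sub_apply]
      rw [ht T l x y hxy, ht' T l x y hxy])
    ⟨fun _ _ _ => 0, fun _ _ _ _ _ => rfl⟩ S (fun s => (((sp s).P → A) → K)) σ v
    (by
      intro s t t' c x
      funext y
      simp only [v, hb, HL, Pi.mul_apply, Pi.add_apply, Pi.smul_apply, Pi.sub_apply, smul_eq_mul]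
      ring)
    r
    (by
      intro s hs
      obtain ⟨t, ht, hst⟩ := hgood s hs
      exact ⟨t, ht, (hiff s t).mp hst⟩)
  obtain ⟨t, ht, h⟩ := key
  exact ⟨t, ht, fun s hs => (hiff s t).mpr (h s hs)⟩

/-- Exactness of a labelled system. -/
def LEx (d : ℕ) (lam : P → ℕ) (B : ℕ → Finset A) (C : Finset ℕ → Finset ℕ) (Q : Finset P)
    (t : Sys K A) : Prop :=
  Ex (fun p => B (lam p)) Prod.fst (hb Prod.fst (HL lam t) (fun p => B (lam p)))
      (fam (CL d lam C)) Q

lemma LEx_iff {d : ℕ} {lam : P → ℕ} {B : ℕ → Finset A} {C : Finset ℕ → Finset ℕ} {Q : Finset P}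
    {t : Sys K A} : LEx d lam B C Q t ↔ ∀ Q' ⊆ Q, Good d lam B C Q' t := Iff.rfl

/-- A labelled system stays exact for smaller index sets. -/
lemma LEx.sub {d : ℕ} (hd : 1 ≤ d) {lam : P → ℕ} {B : ℕ → Finset A} {C C' : Finset ℕ → Finset ℕ}
    {Q : Finset P} {t : Sys K A} (h : LEx d lam B C Q t)
    (hC : ∀ T ⊆ Q.image lam, T.card = d → C' T ⊆ C T) : LEx d lam B C' Q t := by
  -- replace C' by its intersection with C
  have h1 : LEx d lam B (fun T => C' T ∩ C T) Q t := by
    refine Ex.sub (fun l _ => hb_mem _ (HL_mem lam t l)) ?_ h ?_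
    · intro l hl
      rw [mem_fam] at hl
      unfold CL at hl
      split_ifs at hl with h2
      · rw [← Finset.card_pos]
        omega
      · simp at hl
    · intro l hl
      rw [mem_fam] at hl ⊢
      unfold CL at hl ⊢
      split_ifs at hl ⊢ with h2
      · exact (Finset.mem_inter.mp hl).2
      · exact hl
  intro Q' hQ'
  have h2 := h1 Q' hQ'
  have h3 : ∀ l : Finset P × ℕ, Prod.fst l ⊆ Q' →
      (l ∈ fam (CL d lam C') ↔ l ∈ fam (CL d lam (fun T => C' T ∩ C T))) := by
    intro l hl
    rw [mem_fam, mem_fam]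
    unfold CL
    split_ifs with h4
    · have h5 := hC (l.1.image lam) (Finset.image_subset_image (hl.trans hQ'))
        (by rw [Finset.card_image_of_injOn h4.2, h4.1])
      simp only
      rw [Finset.inter_eq_left.mpr h5]
    · rfl
  rw [DD_box_congr (fun _ _ => rfl) h3, EE_box_congr (fun _ _ => rfl) h3]
  exact h2

end Pool.Agent.H21
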