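import Mathlib

/-!
A bound of Lovász type for families of monomials: if all the degree-`j` divisors of the monomials
of degree `j + 1` in `K` lie in `R` and `|R| ≤ x (x + 1) ⋯ (x + j - 1) / j!` then
`(j + 1) |K| ≤ (x + j) |R|`.
-/

set_option linter.unusedSectionVars false

namespace Pool.Agent.H21.Low

open Finset

/-- `x (x + 1) ⋯ (x + j - 1) / j!` -/
noncomputable def PP (j : ℕ) (x : ℝ) : ℝ := ∏ i ∈ range j, (x + i) / (i + 1)

lemma PP_zero (x : ℝ) : PP 0 x = 1 := by simp [PP]

lemma PP_succ (j : ℕ) (x : ℝ) : PP (j + 1) x = PP j x * ((x + j) / (j + 1)) := by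
  unfold PP
  rw [prod_range_succ]

lemma PP_shift (j : ℕ) (x : ℝ) : x * PP j (x + 1) = ((j : ℝ) + 1) * PP (j + 1) x := by
  induction j with
  | zero => simp [PP]
  | succ j ih =>
    rw [PP_succ j (x + 1), PP_succ (j + 1) x, ← mul_assoc, ih]
    have h1 : (j : ℝ) + 1 ≠ 0 := by positivity
    have h2 : (j : ℝ) + 1 + 1 ≠ 0 := by positivity
    push_cast
    field_simp
    ring

lemma PP_nonneg (j : ℕ) {x : ℝ} (hx : 0 ≤ x) : 0 ≤ PP j x := by
  unfold PP
  apply prod_nonneg
  intro i _
  positivity

section Split

variable {ι : Type} [Fintype ι] [DecidableEq ι]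

/-- Replace `v ^ e` by `v ^ (e - b - 1) z ^ b` for a new variable `z`. -/
def spl (v : ι) (m : ι → ℕ) (b : ℕ) : Option ι → ℕ
  | none => b
  | some i => if i = v then m i - (b + 1) else m i

lemma spl_inj (v : ι) {m m' : ι → ℕ} {b b' : ℕ} (hb : b < m v) (hb' : b' < m' v)
    (h : spl v m b = spl v m' b') : m = m' ∧ b = b' := by
  have h0 : b = b' := congrFun h none
  subst h0
  refine ⟨?_, rfl⟩
  funext i
  have h1 := congrFun h (some i)
  simp only [spl] at h1
  by_cases hi : i = v
  · rw [if_pos hi, if_pos hi] at h1
    subst hi
    omega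
  · rwa [if_neg hi, if_neg hi] at h1

lemma spl_sum (v : ι) (m : ι → ℕ) (b : ℕ) (hb : b < m v) :
    (∑ o, spl v m b o) + 1 = ∑ i, m i := by
  rw [Fintype.sum_option]
  simp only [spl]
  have h1 : ∀ i, m i = (if i = v then m i - (b + 1) else m i) + (if i = v then b + 1 else 0) := by
    intro i
    by_cases hi : i = v
    · rw [if_pos hi, if_pos hi]
      subst hi
      omega
    · rw [if_neg hi, if_neg hi, add_zero]
  have h2 : ∑ i, m i = ∑ i, ((if i = v then m i - (b + 1) else m i) +
      (if i = v then b + 1 else 0)) := sum_congr rfl fun i _ => h1 i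
  rw [h2, sum_add_distrib, sum_ite_eq' univ v, if_pos (mem_univ _)]
  omega

/-- The weighted link of `v`. -/
def lnk (v : ι) (R : Finset (ι → ℕ)) : Finset (Option ι → ℕ) :=
  (R.sigma fun m => range (m v)).image (fun p => spl v p.1 p.2)

lemma mem_lnk {v : ι} {R : Finset (ι → ℕ)} {w : Option ι → ℕ} :
    w ∈ lnk v R ↔ ∃ m ∈ R, ∃ b < m v, spl v m b = w := by
  unfold lnk
  rw [mem_image]
  constructor
  · rintro ⟨⟨m, b⟩, h, rfl⟩
    rw [mem_sigma, mem_range] at h
    exact ⟨m, h.1, b, h.2, rfl⟩
  · rintro ⟨m, hm, b, hb, rfl⟩
    exact ⟨⟨m, b⟩, by rw [mem_sigma, mem_range]; exact ⟨hm, hb⟩, rfl⟩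

lemma card_lnk (v : ι) (R : Finset (ι → ℕ)) : (lnk v R).card = ∑ m ∈ R, m v := by
  unfold lnk
  rw [card_image_of_injOn, card_sigma]
  · simp
  · rintro ⟨m, b⟩ h ⟨m', b'⟩ h' heq
    rw [mem_coe, mem_sigma, mem_range] at h h'
    obtain ⟨h1, h2⟩ := spl_inj v h.2 h'.2 heq
    simp only at h1 h2
    subst h1
    subst h2
    rfl

end Split

/-- The local bound. -/
lemma local_bound {ι : Type} [Fintype ι] [DecidableEq ι] (R K : Finset (ι → ℕ))
    (hcl : ∀ m ∈ K, ∀ i, 1 ≤ m i → (m - Pi.single i 1) ∈ R) (v : ι) :
    ∑ m ∈ K, m v ≤ R.card + ∑ m ∈ R, m v := by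
  have h1 : ∑ m ∈ K, m v = ∑ m ∈ K.filter (fun m => 1 ≤ m v), m v := by
    rw [sum_filter]
    refine sum_congr rfl fun m _ => ?_
    split_ifs with h
    · rfl
    · omega
  rw [h1]
  have h2 : ∑ m ∈ K.filter (fun m => 1 ≤ m v), m v =
      ∑ m ∈ (K.filter (fun m => 1 ≤ m v)).image (fun m => m - Pi.single v 1), (m v + 1) := by
    rw [sum_image]
    · refine sum_congr rfl fun m hm => ?_
      rw [mem_filter] at hm
      simp only [Pi.sub_apply, Pi.single_eq_same]
      omega
    · intro m hm m' hm' heq
      rw [mem_coe, mem_filter] at hm hm'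
      simp only at heq
      funext i
      have h3 := congrFun heq i
      simp only [Pi.sub_apply] at h3
      by_cases hi : i = v
      · subst hi
        rw [Pi.single_eq_same] at h3
        omega
      · rw [Pi.single_eq_of_ne hi] at h3
        omega
  rw [h2]
  have h3 : (K.filter (fun m => 1 ≤ m v)).image (fun m => m - Pi.single v 1) ⊆ R := by
    intro m hm
    rw [mem_image] at hm
    obtain ⟨m', hm', rfl⟩ := hm
    rw [mem_filter] at hm'
    exact hcl m' hm'.1 v hm'.2
  calc _ ≤ ∑ m ∈ R, (m v + 1) := sum_le_sum_of_subset h3
    _ = R.card + ∑ m ∈ R, m v := by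
        rw [sum_add_distrib, sum_const, smul_eq_mul, mul_one, add_comm]

/-- The bound of Lovász type for one step. -/
theorem lov : ∀ (j : ℕ), 1 ≤ j → ∀ (ι : Type) [Fintype ι] [DecidableEq ι]
    (R K : Finset (ι → ℕ)) (x : ℝ), 0 ≤ x → (∀ m ∈ R, ∑ i, m i = j) →
    (∀ m ∈ K, ∑ i, m i = j + 1) →
    (∀ m ∈ K, ∀ i, 1 ≤ m i → (m - Pi.single i 1) ∈ R) → (R.card : ℝ) ≤ PP j x →
    ((j : ℝ) + 1) * (K.card : ℝ) ≤ (x + j) * (R.card : ℝ) := by
  intro j
  induction j with
  | zero => intro h; omega
  | succ j ih =>
    intro _ ι _ _ R K x hx hR hK hcl hcard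
    -- the claim for one variable
    have hv : ∀ v : ι, ((j : ℝ) + 1) * (∑ m ∈ K, (m v : ℝ)) ≤
        (x + (j + 1)) * (∑ m ∈ R, (m v : ℝ)) := by
      intro v
      have hk1 : ((∑ m ∈ K, m v : ℕ) : ℝ) = ∑ m ∈ K, (m v : ℝ) := by push_cast; rfl
      have hd1 : ((∑ m ∈ R, m v : ℕ) : ℝ) = ∑ m ∈ R, (m v : ℝ) := by push_cast; rfl
      have hloc : ∑ m ∈ K, (m v : ℝ) ≤ (R.card : ℝ) + ∑ m ∈ R, (m v : ℝ) := by
        rw [← hk1, ← hd1]
        exact_mod_cast local_bound R K hcl v
      by_cases hcase : PP j (x + 1) ≤ ∑ m ∈ R, (m v : ℝ)
      · have h1 := PP_shift j x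
        have h2 : x * PP j (x + 1) ≤ x * ∑ m ∈ R, (m v : ℝ) :=
          mul_le_mul_of_nonneg_left hcase hx
        have h3 : (0 : ℝ) ≤ (j : ℝ) + 1 := by positivity
        have h4 := mul_le_mul_of_nonneg_left hcard h3
        have h5 := mul_le_mul_of_nonneg_left hloc h3
        linarith
      · push Not at hcase
        rcases Nat.eq_zero_or_pos j with hj | hj
        · subst hj
          rw [PP_zero] at hcase
          have h1 : ∑ m ∈ R, m v = 0 := by
            have h2 : ((∑ m ∈ R, m v : ℕ) : ℝ) < 1 := by rw [hd1]; exact hcase
            have h3 : (∑ m ∈ R, m v : ℕ) < 1 := by exact_mod_cast h2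
            omega
          have h2 : ∑ m ∈ K, m v = 0 := by
            rw [sum_eq_zero_iff]
            intro m hm
            by_contra hne
            have h3 : 1 ≤ m v := Nat.one_le_iff_ne_zero.mpr hne
            have h4 := hcl m hm v h3
            have h5 : ∑ i, (m - Pi.single v 1 : ι → ℕ) i = 0 + 1 := hR _ h4
            -- the other variable
            obtain ⟨w, hw⟩ : ∃ w, 1 ≤ (m - Pi.single v 1 : ι → ℕ) w := by
              by_contra hcon
              push Not at hcon
              have : ∑ i, (m - Pi.single v 1 : ι → ℕ) i = 0 := by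
                apply sum_eq_zero
                intro i _
                have := hcon i
                omega
              omega
            have h6 : 1 ≤ m w := by
              simp only [Pi.sub_apply] at hw
              omega
            by_cases hwv : w = v
            · subst hwv
              have h7 := (sum_eq_zero_iff.mp h1) _ h4
              simp only [Pi.sub_apply, Pi.single_eq_same] at h7 hw
              omega
            · have h7 := hcl m hm w h6
              have h8 := (sum_eq_zero_iff.mp h1) _ h7
              simp only [Pi.sub_apply] at h8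
              rw [Pi.single_eq_of_ne (Ne.symm hwv)] at h8
              omega
          rw [← hk1, ← hd1, h1, h2]
          simp
        · have h1 := ih hj (Option ι) (lnk v R) (lnk v K) (x + 1) (by linarith) ?_ ?_ ?_ ?_
          · rw [card_lnk, card_lnk, hk1, hd1] at h1
            calc ((j : ℝ) + 1) * (∑ m ∈ K, (m v : ℝ)) ≤ (x + 1 + j) * ∑ m ∈ R, (m v : ℝ) := h1
              _ = _ := by ring
          · intro w hw
            rw [mem_lnk] at hw
            obtain ⟨m, hm, b, hb, rfl⟩ := hw
            have h2 := spl_sum v m b hb
            rw [hR m hm] at h2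
            omega
          · intro w hw
            rw [mem_lnk] at hw
            obtain ⟨m, hm, b, hb, rfl⟩ := hw
            have h2 := spl_sum v m b hb
            rw [hK m hm] at h2
            omega
          · intro w hw o ho
            rw [mem_lnk] at hw
            obtain ⟨m, hm, b, hb, rfl⟩ := hw
            rw [mem_lnk]
            cases o with
            | none =>
              simp only [spl] at ho
              refine ⟨m - Pi.single v 1, hcl m hm v (by omega), b - 1, ?_, ?_⟩
              · simp only [Pi.sub_apply, Pi.single_eq_same]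
                omega
              · funext o'
                cases o' with
                | none => simp [spl]
                | some i =>
                  by_cases hi : i = v
                  · subst hi
                    simp only [spl, Pi.sub_apply, Pi.single_eq_same, if_true]
                    rw [Pi.single_eq_of_ne (by simp)]
                    omega
                  · simp only [spl, Pi.sub_apply, if_neg hi]
                    rw [Pi.single_eq_of_ne hi,
                      Pi.single_eq_of_ne (show (some i : Option ι) ≠ none by simp)]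
            | some i =>
              by_cases hi : i = v
              · subst hi
                simp only [spl, if_true] at ho
                refine ⟨m - Pi.single i 1, hcl m hm i (by omega), b, ?_, ?_⟩
                · simp only [Pi.sub_apply, Pi.single_eq_same]
                  omega
                · funext o'
                  cases o' with
                  | none =>
                    simp only [spl, Pi.sub_apply]
                    rw [Pi.single_eq_of_ne (by simp)]
                    omega
                  | some k =>
                    by_cases hk : k = i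
                    · subst hk
                      simp only [spl, Pi.sub_apply, Pi.single_eq_same, if_true]
                      omega
                    · simp only [spl, Pi.sub_apply, if_neg hk]
                      rw [Pi.single_eq_of_ne hk, Pi.single_eq_of_ne (by simpa using hk)]
              · simp only [spl, if_neg hi] at ho
                refine ⟨m - Pi.single i 1, hcl m hm i ho, b, ?_, ?_⟩
                · simp only [Pi.sub_apply]
                  rw [Pi.single_eq_of_ne (Ne.symm hi)]
                  omega
                · funext o'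
                  cases o' with
                  | none =>
                    simp only [spl, Pi.sub_apply]
                    rw [Pi.single_eq_of_ne (by simp)]
                    omega
                  | some k =>
                    by_cases hk : k = v
                    · subst hk
                      simp only [spl, Pi.sub_apply, if_true]
                      rw [Pi.single_eq_of_ne (Ne.symm hi),
                        Pi.single_eq_of_ne (by simpa using Ne.symm hi)]
                      omega
                    · simp only [spl, Pi.sub_apply, if_neg hk]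
                      by_cases hki : k = i
                      · subst hki
                        rw [Pi.single_eq_same, Pi.single_eq_same]
                      · rw [Pi.single_eq_of_ne hki, Pi.single_eq_of_ne (by simpa using hki)]
          · rw [card_lnk, hd1]
            exact hcase.le
    -- sum over the variables
    have h1 : ∑ v, (((j : ℝ) + 1) * (∑ m ∈ K, (m v : ℝ))) ≤
        ∑ v, ((x + (j + 1)) * (∑ m ∈ R, (m v : ℝ))) := sum_le_sum fun v _ => hv v
    rw [← mul_sum, ← mul_sum, sum_comm, sum_comm (t := R)] at h1
    have h2 : ∑ m ∈ K, ∑ v, (m v : ℝ) = ((j : ℝ) + 1 + 1) * (K.card : ℝ) := by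
      have : ∀ m ∈ K, ∑ v, (m v : ℝ) = (j : ℝ) + 1 + 1 := by
        intro m hm
        have := hK m hm
        exact_mod_cast this
      rw [sum_congr rfl this, sum_const, nsmul_eq_mul, mul_comm]
    have h3 : ∑ m ∈ R, ∑ v, (m v : ℝ) = ((j : ℝ) + 1) * (R.card : ℝ) := by
      have : ∀ m ∈ R, ∑ v, (m v : ℝ) = (j : ℝ) + 1 := by
        intro m hm
        have := hR m hm
        exact_mod_cast this
      rw [sum_congr rfl this, sum_const, nsmul_eq_mul, mul_comm]
    rw [h2, h3] at h1
    have h4 : (0 : ℝ) < (j : ℝ) + 1 := by positivity
    push_cast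
    have h5 : ((j : ℝ) + 1) * (((j : ℝ) + 1 + 1) * (K.card : ℝ)) ≤
        ((j : ℝ) + 1) * ((x + ((j : ℝ) + 1)) * (R.card : ℝ)) := by
      calc _ ≤ _ := h1
        _ = _ := by ring
    exact le_of_mul_le_mul_left h5 h4

end Pool.Agent.H21.Low
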