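import Mathlib

/-!
A counting argument over a finite field: generic maximal rank from a lower bound on the dimensions
of products with subspaces.
-/

set_option linter.unusedSectionVars false

namespace Pool.Agent.H21.Low

open Finset

section Count

variable {F : Type} [Field F] {A B C : Type} [AddCommGroup A] [Module F A]
  [AddCommGroup B] [Module F B] [AddCommGroup C] [Module F C]

/-- `a ↦ ∑ μ (g i) (a i)` -/
noncomputable def Phi {s : ℕ} (μ : A →ₗ[F] B →ₗ[F] C) (g : Fin s → A) : (Fin s → B) →ₗ[F] C :=
  ∑ i, (μ (g i)) ∘ₗ (LinearMap.proj i)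

lemma Phi_apply {s : ℕ} (μ : A →ₗ[F] B →ₗ[F] C) (g : Fin s → A) (a : Fin s → B) :
    Phi μ g a = ∑ i, μ (g i) (a i) := by
  unfold Phi
  simp

lemma Phi_flip {s : ℕ} (μ : A →ₗ[F] B →ₗ[F] C) (g : Fin s → A) (a : Fin s → B) :
    Phi μ g a = Phi μ.flip a g := by
  rw [Phi_apply, Phi_apply]
  rfl

/-- The index sets of bases among the members of a family. -/
def good {s : ℕ} (J : Finset (Fin s)) (a : Fin s → B) : Prop :=
  LinearIndependent F (fun i : J => a i) ∧ ∀ i, a i ∈ Submodule.span F (Set.range fun i : J => a i)

lemma exists_good_set {s : ℕ} (a : Fin s → B) : ∃ J : Finset (Fin s), good (F := F) J a := by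
  classical
  obtain ⟨b, _, _, h3, h4⟩ := exists_linearIndepOn_extension (K := F) (v := a)
    (linearIndepOn_empty F a) (Set.empty_subset (Set.univ : Set (Fin s)))
  refine ⟨b.toFinset, ?_, ?_⟩
  · have h5 : LinearIndepOn F a (↑b.toFinset : Set (Fin s)) := by
      rw [Set.coe_toFinset]
      exact h4
    exact h5
  · intro i
    have h5 := h3 ⟨i, Set.mem_univ i, rfl⟩
    have h6 : (Set.range fun i : b.toFinset => a i) = a '' b := by
      ext x
      constructor
      · rintro ⟨i, rfl⟩
        exact ⟨i, Set.mem_toFinset.mp i.2, rfl⟩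
      · rintro ⟨i, hi, rfl⟩
        exact ⟨⟨i, Set.mem_toFinset.mpr hi⟩, rfl⟩
    rw [h6]
    exact h5

open scoped Classical in
/-- The number of families with a given index set of a basis. -/
lemma card_good_le [Fintype F] [Fintype B] {s : ℕ} (J : Finset (Fin s)) :
    (univ.filter (fun a : Fin s → B => good (F := F) J a)).card ≤
      Fintype.card F ^ (J.card * (Module.finrank F B + s - J.card)) := by
  let Θ : (J → B) × ({i : Fin s // i ∉ J} → (J → F)) → (Fin s → B) := fun p i =>
    if h : i ∈ J then p.1 ⟨i, h⟩ else ∑ l : J, p.2 ⟨i, h⟩ l • p.1 l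
  have hsub : (univ.filter (fun a : Fin s → B => good (F := F) J a)) ⊆ univ.image Θ := by
    intro a ha
    rw [mem_filter] at ha
    obtain ⟨_, _, h2⟩ := ha
    rw [mem_image]
    have h3 : ∀ i, ∃ c : J → F, ∑ l, c l • a l = a i := by
      intro i
      exact (Submodule.mem_span_range_iff_exists_fun F).mp (h2 i)
    choose c hc using h3
    refine ⟨(fun l => a l, fun i => c i.1), mem_univ _, ?_⟩
    funext i
    simp only [Θ]
    split_ifs with h
    · rfl
    · exact hc i
  refine (card_le_card hsub).trans (card_image_le.trans ?_)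
  rw [card_univ, Fintype.card_prod, Fintype.card_fun, Fintype.card_fun, Fintype.card_fun,
    Fintype.card_coe, Fintype.card_subtype_compl, Fintype.card_fin, Fintype.card_coe,
    Module.card_eq_pow_finrank (K := F) (V := B), ← pow_mul, ← pow_mul, ← pow_add]
  apply Nat.pow_le_pow_right Fintype.card_pos
  have h1 : J.card ≤ s := by
    have := card_le_univ J
    rwa [Fintype.card_fin] at this
  have h2 : Module.finrank F B + s - J.card = Module.finrank F B + (s - J.card) := by omega
  rw [h2, mul_add, mul_comm (Module.finrank F B)]

theorem exists_good_tuple [Fintype F] [Module.Finite F A] [Module.Finite F B] [Module.Finite F C]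
    (s : ℕ) (μ : A →ₗ[F] B →ₗ[F] C) (hq : 2 ^ s < Fintype.card F)
    (hW : ∀ J : Finset (Fin s), ∀ b : J → B, LinearIndependent F b →
      J.card * (Module.finrank F B + s - J.card) ≤
        Module.finrank F (Submodule.span F {c : C | ∃ a : A, ∃ i, c = μ a (b i)}) +
          (s * Module.finrank F B - Module.finrank F C)) :
    ∃ g : Fin s → A, Module.finrank F (LinearMap.ker (Phi μ g)) ≤
      s * Module.finrank F B - Module.finrank F C := by
  classical
  by_contra hcon
  push Not at hcon
  have hfA : Finite A := Module.finite_of_finite F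
  have hfB : Finite B := Module.finite_of_finite F
  have hfC : Finite C := Module.finite_of_finite F
  letI := Fintype.ofFinite A
  letI := Fintype.ofFinite B
  letI := Fintype.ofFinite C
  set q := Fintype.card F with hqdef
  set α := Module.finrank F A with hα
  set β := Module.finrank F B with hβ
  set γ := Module.finrank F C with hγ
  set r := s * β - γ with hr
  have hq0 : 0 < q := Fintype.card_pos
  have hcardA : Fintype.card (Fin s → A) = q ^ (s * α) := by
    rw [Fintype.card_fun, Fintype.card_fin, Module.card_eq_pow_finrank (K := F) (V := A),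
      ← pow_mul, mul_comm]
  -- sizes of kernels
  have hker : ∀ g : Fin s → A, (univ.filter (fun a : Fin s → B => Phi μ g a = 0)).card =
      q ^ Module.finrank F (LinearMap.ker (Phi μ g)) := by
    intro g
    rw [← Module.card_eq_pow_finrank (K := F) (V := LinearMap.ker (Phi μ g)),
      ← Fintype.card_subtype]
    apply Fintype.card_congr
    exact Equiv.subtypeEquivRight fun a => by rw [LinearMap.mem_ker]
  have hker' : ∀ a : Fin s → B, (univ.filter (fun g : Fin s → A => Phi μ g a = 0)).card =
      q ^ Module.finrank F (LinearMap.ker (Phi μ.flip a)) := by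
    intro a
    rw [← Module.card_eq_pow_finrank (K := F) (V := LinearMap.ker (Phi μ.flip a)),
      ← Fintype.card_subtype]
    apply Fintype.card_congr
    exact Equiv.subtypeEquivRight fun g => by rw [LinearMap.mem_ker, Phi_flip]
  -- double counting
  have hdc : ∑ g : Fin s → A, (univ.filter (fun a : Fin s → B => Phi μ g a = 0)).card =
      ∑ a : Fin s → B, (univ.filter (fun g : Fin s → A => Phi μ g a = 0)).card := by
    simp only [card_filter]
    rw [sum_comm]
  -- lower bound
  have hlow : q ^ (s * α) * q ^ (r + 1) ≤
      ∑ g : Fin s → A, (univ.filter (fun a : Fin s → B => Phi μ g a = 0)).card := by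
    rw [← hcardA, ← card_univ, ← smul_eq_mul, ← sum_const]
    refine sum_le_sum fun g _ => ?_
    rw [hker g]
    exact Nat.pow_le_pow_right hq0 (hcon g)
  -- upper bound for one index set
  have hJ : ∀ J : Finset (Fin s),
      ∑ a ∈ univ.filter (fun a : Fin s → B => good (F := F) J a),
        q ^ Module.finrank F (LinearMap.ker (Phi μ.flip a)) ≤ q ^ (s * α + r) := by
    intro J
    set Q := q ^ (J.card * (β + s - J.card)) with hQ
    have hQ0 : 0 < Q := Nat.pow_pos hq0
    have h1 : ∀ a ∈ univ.filter (fun a : Fin s → B => good (F := F) J a),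
        q ^ Module.finrank F (LinearMap.ker (Phi μ.flip a)) * Q ≤ q ^ (s * α + r) := by
      intro a ha
      obtain ⟨h2, h3⟩ := (mem_filter.mp ha).2
      have h4 := hW J (fun i => a i) h2
      have h5 : Submodule.span F {c : C | ∃ x : A, ∃ i : J, c = μ x (a i)} ≤
          LinearMap.range (Phi μ.flip a) := by
        rw [Submodule.span_le]
        rintro _ ⟨x, i, rfl⟩
        refine ⟨Pi.single i.1 x, ?_⟩
        rw [Phi_apply, sum_eq_single i.1]
        · simp
        · intro k _ hk
          rw [Pi.single_eq_of_ne hk, map_zero]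
        · intro h
          exact absurd (mem_univ _) h
      have h6 := Submodule.finrank_mono h5
      have h7 := LinearMap.finrank_range_add_finrank_ker (Phi μ.flip a)
      have h8 : Module.finrank F (Fin s → A) = s * α := by
        rw [Module.finrank_pi_fintype]
        simp [hα]
      rw [h8] at h7
      rw [hQ, ← pow_add]
      apply Nat.pow_le_pow_right hq0
      omega
    have h2 : (∑ a ∈ univ.filter (fun a : Fin s → B => good (F := F) J a),
        q ^ Module.finrank F (LinearMap.ker (Phi μ.flip a))) * Q ≤ q ^ (s * α + r) * Q := by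
      rw [sum_mul]
      calc _ ≤ ∑ a ∈ univ.filter (fun a : Fin s → B => good (F := F) J a), q ^ (s * α + r) :=
            sum_le_sum h1
        _ = (univ.filter (fun a : Fin s → B => good (F := F) J a)).card * q ^ (s * α + r) := by
            rw [sum_const, smul_eq_mul]
        _ ≤ Q * q ^ (s * α + r) := Nat.mul_le_mul_right _ (card_good_le J)
        _ = _ := mul_comm _ _
    exact Nat.le_of_mul_le_mul_right h2 hQ0
  -- upper bound
  have hup : ∑ a : Fin s → B, (univ.filter (fun g : Fin s → A => Phi μ g a = 0)).card ≤
      2 ^ s * q ^ (s * α + r) := by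
    calc ∑ a : Fin s → B, (univ.filter (fun g : Fin s → A => Phi μ g a = 0)).card
        = ∑ a : Fin s → B, q ^ Module.finrank F (LinearMap.ker (Phi μ.flip a)) :=
          sum_congr rfl fun a _ => hker' a
      _ ≤ ∑ J : Finset (Fin s), ∑ a ∈ univ.filter (fun a : Fin s → B => good (F := F) J a),
            q ^ Module.finrank F (LinearMap.ker (Phi μ.flip a)) := by
          simp only [sum_filter]
          rw [sum_comm]
          refine sum_le_sum fun a _ => ?_
          obtain ⟨J, hJ⟩ := exists_good_set (F := F) a
          calc q ^ Module.finrank F (LinearMap.ker (Phi μ.flip a)) =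
              if good (F := F) J a then q ^ Module.finrank F (LinearMap.ker (Phi μ.flip a))
                else 0 := (if_pos hJ).symm
            _ ≤ _ := single_le_sum (f := fun J => if good (F := F) J a then
                q ^ Module.finrank F (LinearMap.ker (Phi μ.flip a)) else 0)
                (fun _ _ => Nat.zero_le _) (mem_univ J)
      _ ≤ ∑ J : Finset (Fin s), q ^ (s * α + r) := sum_le_sum fun J _ => hJ J
      _ = 2 ^ s * q ^ (s * α + r) := by
          rw [sum_const, smul_eq_mul, card_univ, Fintype.card_finset, Fintype.card_fin]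
  have h1 : q ^ (s * α) * q ^ (r + 1) ≤ 2 ^ s * q ^ (s * α + r) := by
    rw [hdc] at hlow
    exact hlow.trans hup
  have h2 : q ^ (s * α) * q ^ (r + 1) = q * q ^ (s * α + r) := by
    rw [← pow_add, ← add_assoc, pow_succ, mul_comm]
  rw [h2] at h1
  have h3 := Nat.le_of_mul_le_mul_right h1 (Nat.pow_pos hq0)
  omega

end Count

end Pool.Agent.H21.Low
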