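import Pool.Agent.H21.LowLift
import Pool.Agent.H21.Final

/-!
Fröberg's formula in degrees below `2 d`.
-/

set_option linter.unusedSectionVars false

namespace Pool.Agent.H21

open scoped Classical
open MvPolynomial Filter Topology

/-- `dim S_i`, as in the problem. -/
def dimS (n i : ℕ) : ℕ := (n - 1 + i).choose (n - 1)

lemma dimS_eq {n i : ℕ} (hn : 1 ≤ n) : dimS n i = (n + i - 1).choose i := by
  unfold dimS
  rw [show n + i - 1 = n - 1 + i by omega, Nat.choose_symm_add]

lemma dimS_finrank {n i : ℕ} (hn : 1 ≤ n) (K : Type) [Field K] :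
    Module.finrank K (homogeneousSubmodule (Fin n) K i) = dimS n i := by
  rw [finrank_forms, Fintype.card_fin, dimS_eq hn]

lemma dimS_PP {n i : ℕ} (hn : 1 ≤ n) : (dimS n i : ℝ) = Low.PP i (n : ℝ) := by
  rw [dimS_eq hn, Low.PP_nat i hn]

lemma dimS_pos {n i : ℕ} : 0 < dimS n i := Nat.choose_pos (by omega)

lemma GG_anti {a b d : ℕ} (hab : a ≤ b) {x : ℝ} (hx : 1 ≤ x) :
    Low.GG b d x ≤ Low.GG a d x := by
  unfold Low.GG
  apply Finset.prod_le_prod
  · intro i _
    positivity
  · intro i _
    rw [div_le_div_iff₀ (by positivity) (by positivity)]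
    have h1 : ((a + i : ℕ) : ℝ) ≤ ((b + i : ℕ) : ℝ) := by exact_mod_cast (by omega : a + i ≤ b + i)
    nlinarith

/-- The ratio `dim S_{e+d} / dim S_e` decreases. -/
lemma dimS_ratio {n a b d : ℕ} (hn : 1 ≤ n) (hab : a ≤ b) :
    dimS n (b + d) * dimS n a ≤ dimS n (a + d) * dimS n b := by
  have hnr : (1 : ℝ) ≤ (n : ℝ) := by exact_mod_cast hn
  have h1 : (dimS n (b + d) : ℝ) * (dimS n a : ℝ) ≤ (dimS n (a + d) : ℝ) * (dimS n b : ℝ) := by
    rw [dimS_PP hn, dimS_PP hn, dimS_PP hn, dimS_PP hn, ← Low.PP_mul_GG, ← Low.PP_mul_GG]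
    have h2 := GG_anti (d := d) hab hnr
    have h3 : 0 < Low.PP a (n : ℝ) := Low.PP_pos a (by linarith)
    have h4 : 0 < Low.PP b (n : ℝ) := Low.PP_pos b (by linarith)
    calc Low.PP b (n : ℝ) * Low.GG b d n * Low.PP a n =
        (Low.PP b (n : ℝ) * Low.PP a n) * Low.GG b d n := by ring
      _ ≤ (Low.PP b (n : ℝ) * Low.PP a n) * Low.GG a d n :=
          mul_le_mul_of_nonneg_left h2 (by positivity)
      _ = _ := by ring
  exact_mod_cast h1

lemma dimS_mono {n a b : ℕ} (hab : a ≤ b) : dimS n a ≤ dimS n b :=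
  Nat.choose_le_choose _ (by omega)

/-- The coefficients below degree `2 d`. -/
lemma ser_low {n d e : ℕ} (hd : 1 ≤ d) (he : e < d) (u : ℕ) :
    serCoeff n d u (e + d) = (dimS n (e + d) : ℤ) - (u : ℤ) * (dimS n e : ℤ) := by
  induction u with
  | zero =>
    rw [fc_zero]
    unfold dimS
    push_cast
    ring
  | succ u ih =>
    rw [fc_succ n d u (e + d) hd, if_pos (Nat.le_add_left d e), ih, Nat.add_sub_cancel,
      ser_small hd e he, fc_zero]
    unfold dimS
    push_cast
    ring

section

variable {K : Type} [Field K]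

/-- The trivial upper bound. -/
lemma finrank_prodSpan_mul_le {n d e u : ℕ} {V : Submodule K (MvPolynomial (Fin n) K)}
    (hV : V ≤ homogeneousSubmodule (Fin n) K d) (hu : Module.finrank K V = u) :
    Module.finrank K (prodSpan e V) ≤
      u * Module.finrank K (homogeneousSubmodule (Fin n) K e) := by
  have hfV : FiniteDimensional K V := Submodule.finiteDimensional_of_le hV
  let b := Module.finBasisOfFinrankEq K V hu
  let Ξ : (Fin u → homogeneousSubmodule (Fin n) K e) →ₗ[K] MvPolynomial (Fin n) K :=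
    { toFun := fun h => ∑ i, (h i).1 * (b i).1
      map_add' := fun h h' => by
        rw [← Finset.sum_add_distrib]
        exact Finset.sum_congr rfl fun i _ => add_mul _ _ _
      map_smul' := fun c h => by
        rw [RingHom.id_apply, Finset.smul_sum]
        exact Finset.sum_congr rfl fun i _ => smul_mul_assoc _ _ _ }
  have h1 : prodSpan e V ≤ LinearMap.range Ξ := by
    unfold prodSpan
    rw [Submodule.span_le]
    rintro _ ⟨f, hf, v, hv, rfl⟩
    have h2 := b.sum_repr ⟨v, hv⟩
    have h3 : ∑ i, (b.repr ⟨v, hv⟩ i) • (b i).1 = v := by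
      have h4 := congrArg Subtype.val h2
      rw [AddSubmonoidClass.coe_finsetSum] at h4
      exact h4
    refine ⟨fun i => (b.repr ⟨v, hv⟩ i) • ⟨f, hf⟩, ?_⟩
    change ∑ i, ((b.repr ⟨v, hv⟩ i) • f) * (b i).1 = f * v
    conv_rhs => rw [← h3, Finset.mul_sum]
    refine Finset.sum_congr rfl fun i _ => ?_
    rw [smul_mul_assoc, mul_smul_comm]
  have h2 := Submodule.finrank_mono h1
  have h3 := LinearMap.finrank_range_le Ξ
  rw [Module.finrank_pi_fintype] at h3
  simp only [Finset.sum_const, Finset.card_univ, Fintype.card_fin, smul_eq_mul] at h3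
  exact h2.trans h3

variable [CharZero K]

/-- Good forms over any field of characteristic `0`. -/
theorem exists_low {n d j u : ℕ} (hn : 1 ≤ n)
    (hβ : (dimS n j) ^ 2 ≤ dimS n (j + d))
    (hu : u ≤ Module.finrank K (homogeneousSubmodule (Fin n) K d)) :
    ∃ V : Submodule K (MvPolynomial (Fin n) K), V ≤ homogeneousSubmodule (Fin n) K d ∧
      Module.finrank K V = u ∧
      u * dimS n j - (u * dimS n j - dimS n (j + d)) ≤ Module.finrank K (prodSpan j V) := by
  rw [dimS_eq hn, dimS_eq hn] at hβ ⊢
  obtain ⟨V₀, hV1, hV2, hV3⟩ := Low.exists_rat (s := u) hn hβ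
  have hfV₀ : FiniteDimensional ℚ V₀ := Submodule.finiteDimensional_of_le hV1
  have h4 : Module.finrank K (bc (K := K) V₀) ≤ u := (finrank_bc_le V₀).trans hV2
  obtain ⟨V, hVV, hVd, hVu⟩ := exists_extend (homogeneousSubmodule (Fin n) K d) u hu
    (bc (K := K) V₀) (bc_le_homogeneous hV1) h4
  refine ⟨V, hVd, hVu, hV3.trans ?_⟩
  have hfin : FiniteDimensional K (prodSpan j V) :=
    Submodule.finiteDimensional_of_le (prodSpan_le hVd)
  exact (finrank_bc_ge (K := K) (prodSpan_le (e := j) hV1)).trans
    (Submodule.finrank_mono ((bc_prodSpan_le V₀).trans (prodSpan_mono hVV)))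

/-- Fröberg's formula in degree `d + j < 2 d` when `(dim S_j)^2 ≤ dim S_{d+j}`. -/
theorem froberg_low {n d j u : ℕ} (hn : 1 ≤ n) (hjd : j < d)
    (hβ : (dimS n j) ^ 2 ≤ dimS n (j + d))
    (hu : u ≤ Module.finrank K (homogeneousSubmodule (Fin n) K d)) : FrobergAt K n d u j := by
  have hd : 1 ≤ d := by omega
  have hser := ser_low (n := n) hd hjd u
  unfold FrobergAt
  rw [dimS_finrank hn]
  rcases Nat.lt_or_ge (dimS n (j + d)) (u * dimS n j) with hlt | hge
  · -- everything is generated
    have hc0 : truncCoeff n d u (j + d) = 0 := by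
      unfold truncCoeff
      rw [if_neg]
      intro h
      have h1 := h (j + d) le_rfl
      rw [hser] at h1
      have h2 : ((dimS n (j + d) : ℕ) : ℤ) < ((u * dimS n j : ℕ) : ℤ) := by exact_mod_cast hlt
      push_cast at h2
      linarith
    rw [hc0, sub_zero]
    constructor
    · intro V hV _
      have h1 := Submodule.finrank_mono (prodSpan_le (e := j) hV)
      rw [dimS_finrank hn] at h1
      exact_mod_cast h1
    · obtain ⟨V, hV1, hV2, hV3⟩ := exists_low (K := K) hn hβ hu
      refine ⟨V, hV1, hV2, ?_⟩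
      have h1 := Submodule.finrank_mono (prodSpan_le (e := j) hV1)
      rw [dimS_finrank hn] at h1
      have h2 : Module.finrank K (prodSpan j V) = dimS n (j + d) := by omega
      rw [h2]
  · -- no relations
    have hc : truncCoeff n d u (j + d) = (dimS n (j + d) : ℤ) - (u : ℤ) * (dimS n j : ℤ) := by
      unfold truncCoeff
      rw [if_pos, hser]
      intro m hm
      rcases Nat.lt_or_ge m d with hmd | hmd
      · rw [ser_small hd m hmd, fc_zero]
        exact Nat.cast_nonneg _
      · obtain ⟨e, rfl⟩ : ∃ e, m = e + d := ⟨m - d, by omega⟩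
        rw [ser_low hd (by omega)]
        have h1 := dimS_ratio (n := n) (d := d) hn (show e ≤ j by omega)
        have h2 : u * dimS n e ≤ dimS n (e + d) := by
          have h3 : (u * dimS n e) * dimS n j ≤ dimS n (e + d) * dimS n j := by
            calc (u * dimS n e) * dimS n j = (u * dimS n j) * dimS n e := by ring
              _ ≤ dimS n (j + d) * dimS n e := Nat.mul_le_mul_right _ hge
              _ ≤ _ := h1
          exact Nat.le_of_mul_le_mul_right h3 dimS_pos
        have h3 : ((u * dimS n e : ℕ) : ℤ) ≤ ((dimS n (e + d) : ℕ) : ℤ) := by exact_mod_cast h2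
        push_cast at h3
        linarith
    rw [hc]
    have hval : ((dimS n (j + d) : ℕ) : ℤ) - ((dimS n (j + d) : ℤ) - (u : ℤ) * (dimS n j : ℤ)) =
        ((u * dimS n j : ℕ) : ℤ) := by
      push_cast
      ring
    rw [hval]
    constructor
    · intro V hV hVu
      have h1 := finrank_prodSpan_mul_le (e := j) hV hVu
      rw [dimS_finrank hn] at h1
      exact_mod_cast h1
    · obtain ⟨V, hV1, hV2, hV3⟩ := exists_low (K := K) hn hβ hu
      refine ⟨V, hV1, hV2, ?_⟩
      have h1 := finrank_prodSpan_mul_le (e := j) hV1 hV2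
      rw [dimS_finrank hn] at h1
      have h2 : Module.finrank K (prodSpan j V) = u * dimS n j := by omega
      rw [h2]

end

/-- The condition passes to smaller `j`. -/
lemma cond_mono {n d j J : ℕ} (hn : 1 ≤ n) (hj : j ≤ J)
    (h : (dimS n J) ^ 2 ≤ dimS n (J + d)) : (dimS n j) ^ 2 ≤ dimS n (j + d) := by
  have h1 := dimS_ratio (n := n) (d := d) hn hj
  have h2 : dimS n j ≤ dimS n J := dimS_mono hj
  have h3 : (dimS n j) ^ 2 * dimS n J ≤ dimS n (j + d) * dimS n J := by
    calc (dimS n j) ^ 2 * dimS n J = dimS n j * (dimS n j * dimS n J) := by ring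
      _ ≤ dimS n j * (dimS n J * dimS n J) :=
          Nat.mul_le_mul_left _ (Nat.mul_le_mul_right _ h2)
      _ = (dimS n J) ^ 2 * dimS n j := by ring
      _ ≤ dimS n (J + d) * dimS n j := Nat.mul_le_mul_right _ h
      _ ≤ _ := h1
  exact Nat.le_of_mul_le_mul_right h3 dimS_pos

/-- All degrees at once above the ratio `dim S_{d+J} / dim S_J`. -/
theorem froberg_all_low {n d J u : ℕ} (hn : 1 ≤ n) (hJ : J < d)
    (h : (dimS n J) ^ 2 ≤ dimS n (J + d)) (hu : dimS n (J + d) < u * dimS n J) :
    FrobergAll n d u := by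
  intro K _ _ huK j
  rcases Nat.lt_or_ge j J with hj | hj
  · exact froberg_low hn (by omega) (cond_mono hn hj.le h) huK
  · have hc0 : truncCoeff n d u (j + d) = 0 := by
      unfold truncCoeff
      rw [if_neg]
      intro hall
      have h1 := hall (J + d) (by omega)
      rw [ser_low (by omega) hJ] at h1
      have h2 : ((dimS n (J + d) : ℕ) : ℤ) < ((u * dimS n J : ℕ) : ℤ) := by exact_mod_cast hu
      push_cast at h2
      linarith
    unfold FrobergAt
    rw [hc0, sub_zero]
    constructor
    · intro V hV _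
      exact_mod_cast Submodule.finrank_mono (prodSpan_le (e := j) hV)
    · obtain ⟨V, hV1, hV2, hV3⟩ := exists_low (K := K) hn h huK
      refine ⟨V, hV1, hV2, ?_⟩
      have h1 : prodSpan J V = homogeneousSubmodule (Fin n) K (J + d) := by
        apply Submodule.eq_of_le_of_finrank_le (prodSpan_le hV1)
        rw [dimS_finrank hn]
        omega
      have h2 := prodSpan_full (d := d) (D₁ := J + d) (D := j + d) (V := V) (by omega) (by omega)
        (by rw [Nat.add_sub_cancel, h1])
      rw [Nat.add_sub_cancel] at h2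
      have h3 : prodSpan j V = homogeneousSubmodule (Fin n) K (j + d) :=
        le_antisymm (prodSpan_le hV1) h2
      rw [h3]

end Pool.Agent.H21
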