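import Pool.Agent.H21.Lov

/-!
The iterated bound of Lovász type, and its linearised form.
-/

set_option linter.unusedSectionVars false

namespace Pool.Agent.H21.Low

open Finset

/-- `(x + j) ⋯ (x + j + d - 1) / ((j + 1) ⋯ (j + d))` -/
noncomputable def GG (j d : ℕ) (x : ℝ) : ℝ :=
  ∏ i ∈ range d, (x + ((j + i : ℕ) : ℝ)) / (((j + i : ℕ) : ℝ) + 1)

lemma GG_succ (j d : ℕ) (x : ℝ) :
    GG j (d + 1) x = GG j d x * ((x + ((j + d : ℕ) : ℝ)) / (((j + d : ℕ) : ℝ) + 1)) := by
  unfold GG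
  rw [prod_range_succ]

lemma PP_mul_GG (j d : ℕ) (x : ℝ) : PP j x * GG j d x = PP (j + d) x := by
  induction d with
  | zero => simp [GG]
  | succ d ih =>
    rw [GG_succ, ← mul_assoc, ih, ← add_assoc, PP_succ]

lemma GG_nonneg (j d : ℕ) {x : ℝ} (hx : 0 ≤ x) : 0 ≤ GG j d x := by
  unfold GG
  apply prod_nonneg
  intro i _
  positivity

theorem lov_iter {ι : Type} [Fintype ι] [DecidableEq ι] (j : ℕ) (hj : 1 ≤ j) (x : ℝ) (hx : 0 ≤ x)
    (R : Finset (ι → ℕ)) (hR : ∀ m ∈ R, ∑ i, m i = j) (hcard : (R.card : ℝ) ≤ PP j x) :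
    ∀ (d : ℕ) (N : Finset (ι → ℕ)), (∀ m ∈ N, ∑ i, m i = j + d) →
      (∀ m ∈ N, ∀ m' : ι → ℕ, m' ≤ m → ∑ i, m' i = j → m' ∈ R) →
      (N.card : ℝ) ≤ R.card * GG j d x := by
  intro d
  induction d with
  | zero =>
    intro N hN hcl
    have h1 : N ⊆ R := fun m hm => hcl m hm m le_rfl (hN m hm)
    have h2 : (N.card : ℝ) ≤ (R.card : ℝ) := by exact_mod_cast card_le_card h1
    simpa [GG] using h2
  | succ d ih =>
    intro N hN hcl
    set N' := N.biUnion fun m =>
      (univ.filter (fun i => 1 ≤ m i)).image (fun i => m - Pi.single i 1) with hN'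
    have hmem : ∀ w, w ∈ N' ↔ ∃ m ∈ N, ∃ i, 1 ≤ m i ∧ m - Pi.single i 1 = w := by
      intro w
      rw [hN']
      simp only [mem_biUnion, mem_image, mem_filter, mem_univ, true_and]
    have hsum : ∀ m : ι → ℕ, ∀ i, 1 ≤ m i → ∑ k, (m - Pi.single i 1 : ι → ℕ) k + 1 = ∑ k, m k := by
      intro m i hi
      have h1 : ∀ k, m k = (m - Pi.single i 1 : ι → ℕ) k + (if k = i then 1 else 0) := by
        intro k
        simp only [Pi.sub_apply]
        by_cases hk : k = i
        · subst hk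
          rw [Pi.single_eq_same, if_pos rfl]
          omega
        · rw [Pi.single_eq_of_ne hk, if_neg hk]
          omega
      have h2 : ∑ k, m k = ∑ k, ((m - Pi.single i 1 : ι → ℕ) k + (if k = i then 1 else 0)) :=
        sum_congr rfl fun k _ => h1 k
      rw [h2, sum_add_distrib, sum_ite_eq' univ i, if_pos (mem_univ _)]
    have h1 := ih N' ?_ ?_
    · have hPG := PP_mul_GG j d x
      have h2 : (N'.card : ℝ) ≤ PP (j + d) x := by
        rw [← hPG]
        exact h1.trans (mul_le_mul_of_nonneg_right hcard (GG_nonneg j d hx))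
      have h3 := lov (j + d) (by omega) ι N' N x hx ?_ ?_ ?_ h2
      · rw [GG_succ]
        have h4 : (0 : ℝ) < ((j + d : ℕ) : ℝ) + 1 := by positivity
        rw [← mul_assoc, ← mul_div_assoc, le_div_iff₀ h4]
        have h5 : (0 : ℝ) ≤ x + ((j + d : ℕ) : ℝ) := by positivity
        calc (N.card : ℝ) * (((j + d : ℕ) : ℝ) + 1) = (((j + d : ℕ) : ℝ) + 1) * N.card := mul_comm _ _
          _ ≤ (x + ((j + d : ℕ) : ℝ)) * N'.card := h3
          _ ≤ (x + ((j + d : ℕ) : ℝ)) * (R.card * GG j d x) := mul_le_mul_of_nonneg_left h1 h5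
          _ = _ := by ring
      · intro w hw
        obtain ⟨m, hm, i, hi, rfl⟩ := (hmem w).mp hw
        have h4 := hsum m i hi
        rw [hN m hm] at h4
        omega
      · intro m hm
        rw [hN m hm, add_assoc]
      · intro m hm i hi
        exact (hmem _).mpr ⟨m, hm, i, hi, rfl⟩
    · intro w hw
      obtain ⟨m, hm, i, hi, rfl⟩ := (hmem w).mp hw
      have h4 := hsum m i hi
      rw [hN m hm] at h4
      omega
    · intro w hw m' hm' hs
      obtain ⟨m, hm, i, hi, rfl⟩ := (hmem w).mp hw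
      refine hcl m hm m' (hm'.trans ?_) hs
      intro k
      simp only [Pi.sub_apply]
      omega

/-- The logarithm of the ratio, up to a constant. -/
noncomputable def LL (j d : ℕ) (x : ℝ) : ℝ :=
  ∑ i ∈ range d, Real.log (x + ((j + i : ℕ) : ℝ)) - ∑ i ∈ range j, Real.log (x + i)

/-- its derivative -/
noncomputable def ff (j d : ℕ) (x : ℝ) : ℝ :=
  ∑ i ∈ range d, 1 / (x + ((j + i : ℕ) : ℝ)) - ∑ i ∈ range j, 1 / (x + i)

lemma hasDerivAt_LL (j d : ℕ) {x : ℝ} (hx : 0 < x) : HasDerivAt (LL j d) (ff j d x) x := by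
  unfold LL ff
  apply HasDerivAt.fun_sub
  · apply HasDerivAt.fun_sum
    intro i _
    have h1 : x + ((j + i : ℕ) : ℝ) ≠ 0 := by positivity
    exact ((hasDerivAt_id x).add_const _).log h1
  · apply HasDerivAt.fun_sum
    intro i _
    have h1 : x + (i : ℝ) ≠ 0 := by positivity
    exact ((hasDerivAt_id x).add_const _).log h1

lemma ff_mono (j d : ℕ) {x y : ℝ} (hx : 0 < x) (hxy : x ≤ y) :
    (x + j) * ff j d x ≤ (y + j) * ff j d y := by
  unfold ff
  have hy : 0 < y := by linarith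
  rw [mul_sub, mul_sub, mul_sum, mul_sum, mul_sum, mul_sum]
  apply sub_le_sub
  · apply sum_le_sum
    intro i _
    have h1 : 0 < x + ((j + i : ℕ) : ℝ) := by positivity
    have h2 : 0 < y + ((j + i : ℕ) : ℝ) := by positivity
    rw [mul_one_div, mul_one_div, div_le_div_iff₀ h1 h2]
    push_cast
    have h3 : (0 : ℝ) ≤ (i : ℝ) := Nat.cast_nonneg i
    nlinarith
  · apply sum_le_sum
    intro i hi
    rw [mem_range] at hi
    have h1 : 0 < x + (i : ℝ) := by positivity
    have h2 : 0 < y + (i : ℝ) := by positivity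
    rw [mul_one_div, mul_one_div, div_le_div_iff₀ h2 h1]
    have h3 : (i : ℝ) ≤ (j : ℝ) := by exact_mod_cast hi.le
    nlinarith

lemma LL_quasi (j d : ℕ) {n x : ℝ} (hx : 1 ≤ x) (hxn : x ≤ n) (h : LL j d 1 ≤ LL j d n) :
    LL j d x ≤ LL j d n := by
  by_contra hcon
  push Not at hcon
  have hx1 : 1 < x := by
    rcases hx.lt_or_eq with h1 | h1
    · exact h1
    · exfalso
      rw [← h1] at hcon
      linarith
  have hxn' : x < n := by
    rcases hxn.lt_or_eq with h1 | h1
    · exact h1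
    · exfalso
      rw [h1] at hcon
      exact lt_irrefl _ hcon
  have hc : ∀ y : ℝ, 0 < y → ContinuousAt (LL j d) y := fun y hy =>
    (hasDerivAt_LL j d hy).continuousAt
  obtain ⟨c₁, hc₁, h1⟩ := exists_hasDerivAt_eq_slope (LL j d) (ff j d) hx1
    (fun y hy => (hc y (by linarith [hy.1])).continuousWithinAt)
    (fun y hy => hasDerivAt_LL j d (by linarith [hy.1]))
  obtain ⟨c₂, hc₂, h2⟩ := exists_hasDerivAt_eq_slope (LL j d) (ff j d) hxn'
    (fun y hy => (hc y (by linarith [hy.1])).continuousWithinAt)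
    (fun y hy => hasDerivAt_LL j d (by linarith [hy.1]))
  have h3 : 0 < ff j d c₁ := by
    rw [h1]
    apply div_pos <;> linarith
  have h4 : ff j d c₂ < 0 := by
    rw [h2]
    apply div_neg_of_neg_of_pos <;> linarith
  have h5 := ff_mono j d (x := c₁) (y := c₂) (by linarith [hc₁.1]) (by linarith [hc₁.2, hc₂.1])
  have h6 : 0 < (c₁ + j) * ff j d c₁ := by
    have : (0 : ℝ) < c₁ + j := by
      have := hc₁.1
      positivity
    positivity
  have h7 : (c₂ + j) * ff j d c₂ < 0 := by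
    have : (0 : ℝ) < c₂ + j := by
      have := hc₂.1
      have h8 : (0 : ℝ) ≤ (j : ℝ) := Nat.cast_nonneg j
      linarith
    exact mul_neg_of_pos_of_neg this h4
  linarith

lemma LL_eq (j d : ℕ) {x : ℝ} (hx : 0 < x) : LL j d x - LL j d 1 =
    Real.log (GG j d x) - Real.log (PP j x) := by
  unfold LL GG PP
  rw [Real.log_prod, Real.log_prod]
  · have h1 : ∀ i ∈ range d, Real.log ((x + ((j + i : ℕ) : ℝ)) / (((j + i : ℕ) : ℝ) + 1)) =
        Real.log (x + ((j + i : ℕ) : ℝ)) - Real.log (1 + ((j + i : ℕ) : ℝ)) := by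
      intro i _
      rw [Real.log_div (by positivity) (by positivity), add_comm (((j + i : ℕ) : ℝ)) 1]
    have h2 : ∀ i ∈ range j, Real.log ((x + (i : ℝ)) / ((i : ℝ) + 1)) =
        Real.log (x + (i : ℝ)) - Real.log (1 + (i : ℝ)) := by
      intro i _
      rw [Real.log_div (by positivity) (by positivity), add_comm (i : ℝ) 1]
    rw [sum_congr rfl h1, sum_congr rfl h2, sum_sub_distrib, sum_sub_distrib]
    ring
  · intro i _
    positivity
  · intro i _
    positivity

lemma PP_pos (j : ℕ) {x : ℝ} (hx : 0 < x) : 0 < PP j x := by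
  unfold PP
  apply prod_pos
  intro i _
  positivity

lemma GG_pos (j d : ℕ) {x : ℝ} (hx : 0 < x) : 0 < GG j d x := by
  unfold GG
  apply prod_pos
  intro i _
  positivity

lemma PP_mono (j : ℕ) {x y : ℝ} (hx : 0 ≤ x) (hxy : x ≤ y) : PP j x ≤ PP j y := by
  unfold PP
  apply prod_le_prod
  · intro i _
    positivity
  · intro i _
    apply div_le_div_of_nonneg_right _ (by positivity)
    linarith

lemma PP_one (j : ℕ) : PP j 1 = 1 := by
  unfold PP
  apply prod_eq_one
  intro i _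
  rw [add_comm]
  exact div_self (by positivity)

/-- The linearised inequality. -/
lemma lin_ineq (j d : ℕ) {n x : ℝ} (hx : 1 ≤ x) (hxn : x ≤ n) (h : PP j n ≤ GG j d n) :
    GG j d x - PP j x ≤ GG j d n - PP j n := by
  have hx0 : 0 < x := by linarith
  have hn0 : 0 < n := by linarith
  have hPx := PP_pos j hx0
  have hPn := PP_pos j hn0
  have hGx := GG_pos j d hx0
  have hGn := GG_pos j d hn0
  have h1 : LL j d 1 ≤ LL j d n := by
    have h2 := LL_eq j d hn0
    have h3 := Real.log_le_log hPn h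
    linarith
  have h2 := LL_quasi j d hx hxn h1
  have h3 := LL_eq j d hx0
  have h4 := LL_eq j d hn0
  have h5 : Real.log (GG j d x * PP j n) ≤ Real.log (GG j d n * PP j x) := by
    rw [Real.log_mul hGx.ne' hPn.ne', Real.log_mul hGn.ne' hPx.ne']
    linarith
  have h6 : GG j d x * PP j n ≤ GG j d n * PP j x :=
    (Real.log_le_log_iff (by positivity) (by positivity)).mp h5
  have h7 : PP j x ≤ PP j n := PP_mono j hx0.le hxn
  -- (GG n - GG x) PP n ≥ GG n (PP n - PP x) ≥ PP n (PP n - PP x)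
  have h8 : PP j n * (PP j n - PP j x) ≤ GG j d n * (PP j n - PP j x) :=
    mul_le_mul_of_nonneg_right h (by linarith)
  have h9 : PP j n * (PP j n - PP j x) ≤ PP j n * (GG j d n - GG j d x) := by nlinarith
  have h10 := le_of_mul_le_mul_left h9 hPn
  linarith

lemma continuous_PP (j : ℕ) : Continuous (PP j) := by
  unfold PP
  fun_prop

/-- The bound on the number of monomials all of whose degree-`j` divisors lie in `R`. -/
theorem key_bound {ι : Type} [Fintype ι] [DecidableEq ι] (j d : ℕ) (hj : 1 ≤ j) (n : ℝ)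
    (hn : 1 ≤ n) (h : PP j n ≤ GG j d n) (R : Finset (ι → ℕ)) (hR : ∀ m ∈ R, ∑ i, m i = j)
    (hcard : (R.card : ℝ) ≤ PP j n) (N : Finset (ι → ℕ)) (hN : ∀ m ∈ N, ∑ i, m i = j + d)
    (hcl : ∀ m ∈ N, ∀ m' : ι → ℕ, m' ≤ m → ∑ i, m' i = j → m' ∈ R) :
    (N.card : ℝ) ≤ R.card * (GG j d n - PP j n + R.card) := by
  rcases Nat.eq_zero_or_pos R.card with h0 | h0
  · have h1 := lov_iter j hj n (by linarith) R hR hcard d N hN hcl
    rw [h0] at h1 ⊢
    simpa using h1
  · obtain ⟨x, hx, hxR⟩ : ∃ x ∈ Set.Icc (1 : ℝ) n, PP j x = (R.card : ℝ) := by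
      have h1 := intermediate_value_Icc hn (continuous_PP j).continuousOn
      apply h1
      rw [PP_one]
      exact ⟨by exact_mod_cast h0, hcard⟩
    have h1 := lov_iter j hj x (by linarith [hx.1]) R hR hxR.ge d N hN hcl
    refine h1.trans ?_
    apply mul_le_mul_of_nonneg_left _ (Nat.cast_nonneg _)
    have h2 := lin_ineq j d hx.1 hx.2 h
    rw [hxR] at h2
    linarith

end Pool.Agent.H21.Low
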