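import Pool.Agent.H21.LowLead
import Pool.Agent.H21.LowCount

/-!
Good forms over a prime field, and their lifts to the rationals.
-/

set_option linter.unusedSectionVars false

namespace Pool.Agent.H21.Low

open Finset MvPolynomial
open scoped Classical

section Bilin

variable {K : Type} [Field K] {n : ℕ}

/-- multiplication of forms -/
noncomputable def mulForm (K : Type) [Field K] (n d j : ℕ) :
    homogeneousSubmodule (Fin n) K d →ₗ[K] homogeneousSubmodule (Fin n) K j →ₗ[K]
      homogeneousSubmodule (Fin n) K (j + d) :=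
  LinearMap.mk₂ K (fun a b => ⟨b.1 * a.1, by
      rw [mem_homogeneousSubmodule]
      exact ((mem_homogeneousSubmodule _ _).mp b.2).mul ((mem_homogeneousSubmodule _ _).mp a.2)⟩)
    (fun a a' b => Subtype.ext (mul_add b.1 a.1 a'.1))
    (fun c a b => Subtype.ext (by simp))
    (fun a b b' => Subtype.ext (add_mul b.1 b'.1 a.1))
    (fun c a b => Subtype.ext (by simp))

lemma mulForm_apply (d j : ℕ) (a : homogeneousSubmodule (Fin n) K d)
    (b : homogeneousSubmodule (Fin n) K j) : (mulForm K n d j a b).1 = b.1 * a.1 := rfl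

/-- The dimension bound, also for `j = 0`. -/
theorem dim_products' {j d : ℕ} (hn : 1 ≤ n)
    (W : Submodule K (MvPolynomial (Fin n) K)) (hW : W ≤ homogeneousSubmodule (Fin n) K j)
    (U : Submodule K (MvPolynomial (Fin n) K)) (hU : U ≤ homogeneousSubmodule (Fin n) K (j + d))
    (hprod : ∀ w ∈ W, ∀ f ∈ homogeneousSubmodule (Fin n) K d, w * f ∈ U)
    (hβ : (Module.finrank K (homogeneousSubmodule (Fin n) K j)) ^ 2 ≤
      Module.finrank K (homogeneousSubmodule (Fin n) K (j + d))) :
    Module.finrank K W * (Module.finrank K (homogeneousSubmodule (Fin n) K (j + d)) +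
      Module.finrank K (homogeneousSubmodule (Fin n) K j) *
        (Module.finrank K (homogeneousSubmodule (Fin n) K j) - Module.finrank K W)) ≤
      Module.finrank K (homogeneousSubmodule (Fin n) K j) * Module.finrank K U := by
  rcases Nat.eq_zero_or_pos j with hj | hj
  · subst hj
    have h1 : Module.finrank K (homogeneousSubmodule (Fin n) K 0) = 1 := by
      rw [finrank_forms]
      simp
    have hfU : FiniteDimensional K U := Submodule.finiteDimensional_of_le hU
    have h2 := Submodule.finrank_mono hW
    rw [h1] at h2 ⊢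
    rcases Nat.lt_or_ge (Module.finrank K W) 1 with h3 | h3
    · have h4 : Module.finrank K W = 0 := by omega
      rw [h4]
      simp
    · have h4 : Module.finrank K W = 1 := by omega
      have h5 : W = homogeneousSubmodule (Fin n) K 0 := by
        apply Submodule.eq_of_le_of_finrank_eq hW
        rw [h4, h1]
      have h6 : (1 : MvPolynomial (Fin n) K) ∈ W := by
        rw [h5, mem_homogeneousSubmodule]
        exact isHomogeneous_one _ _
      have h7 : homogeneousSubmodule (Fin n) K (0 + d) ≤ U := by
        intro f hf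
        rw [zero_add] at hf
        have := hprod 1 h6 f hf
        rwa [one_mul] at this
      have h8 := Submodule.finrank_mono h7
      rw [h4]
      simpa using h8
  · exact dim_products hn hj W hW U hU hprod hβ

/-- The condition of the counting argument. -/
lemma cond_of_dim {j d s : ℕ} (hn : 1 ≤ n)
    (hβ : (Module.finrank K (homogeneousSubmodule (Fin n) K j)) ^ 2 ≤
      Module.finrank K (homogeneousSubmodule (Fin n) K (j + d)))
    (J : Finset (Fin s)) (b : J → homogeneousSubmodule (Fin n) K j)
    (hb : LinearIndependent K b) :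
    J.card * (Module.finrank K (homogeneousSubmodule (Fin n) K j) + s - J.card) ≤
      Module.finrank K (Submodule.span K {c : homogeneousSubmodule (Fin n) K (j + d) |
        ∃ a : homogeneousSubmodule (Fin n) K d, ∃ i, c = mulForm K n d j a (b i)}) +
        (s * Module.finrank K (homogeneousSubmodule (Fin n) K j) -
          Module.finrank K (homogeneousSubmodule (Fin n) K (j + d))) := by
  set U' := Submodule.span K {c : homogeneousSubmodule (Fin n) K (j + d) |
        ∃ a : homogeneousSubmodule (Fin n) K d, ∃ i, c = mulForm K n d j a (b i)} with hU'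
  set U := U'.map (homogeneousSubmodule (Fin n) K (j + d)).subtype with hU
  set W := Submodule.span K (Set.range fun i => (b i).1) with hW
  have hUf : Module.finrank K U = Module.finrank K U' :=
    ((Submodule.equivMapOfInjective _ (Submodule.injective_subtype _) U').finrank_eq).symm
  have hWk : Module.finrank K W = J.card := by
    have h1 : LinearIndependent K (fun i => (b i).1) :=
      hb.map' (homogeneousSubmodule (Fin n) K j).subtype (Submodule.ker_subtype _)
    rw [hW, finrank_span_eq_card h1, Fintype.card_coe]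
  have hWj : W ≤ homogeneousSubmodule (Fin n) K j := by
    rw [hW, Submodule.span_le]
    rintro _ ⟨i, rfl⟩
    exact (b i).2
  have hUd : U ≤ homogeneousSubmodule (Fin n) K (j + d) := by
    rw [hU]
    exact Submodule.map_subtype_le _ _
  have hprod : ∀ w ∈ W, ∀ f ∈ homogeneousSubmodule (Fin n) K d, w * f ∈ U := by
    intro w hw f hf
    refine Submodule.span_induction ?_ ?_ ?_ ?_ hw
    · rintro _ ⟨i, rfl⟩
      exact ⟨mulForm K n d j ⟨f, hf⟩ (b i), Submodule.subset_span ⟨⟨f, hf⟩, i, rfl⟩, rfl⟩
    · rw [zero_mul]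
      exact U.zero_mem
    · intro x y _ _ hx hy
      rw [add_mul]
      exact U.add_mem hx hy
    · intro c x _ hx
      rw [smul_mul_assoc]
      exact U.smul_mem c hx
  have hmain := dim_products' hn W hWj U hUd hprod hβ
  rw [hWk, hUf] at hmain
  set β := Module.finrank K (homogeneousSubmodule (Fin n) K j) with hβd
  set γ := Module.finrank K (homogeneousSubmodule (Fin n) K (j + d)) with hγd
  set k := J.card with hk
  set w := Module.finrank K U' with hw
  have hks : k ≤ s := by
    have := card_le_univ J
    rwa [Fintype.card_fin] at this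
  have hkβ : k ≤ β := by
    rw [← hWk]
    exact Submodule.finrank_mono hWj
  have hβpos : 0 < β := by
    rw [hβd, finrank_forms, Fintype.card_fin]
    apply Nat.choose_pos
    omega
  -- arithmetic over the integers
  have h1 : (k : ℤ) * ((γ : ℤ) + (β : ℤ) * ((β : ℤ) - (k : ℤ))) ≤ (β : ℤ) * (w : ℤ) := by
    have h2 : ((k * (γ + β * (β - k)) : ℕ) : ℤ) ≤ ((β * w : ℕ) : ℤ) := by exact_mod_cast hmain
    push_cast at h2
    rw [Nat.cast_sub hkβ] at h2
    exact h2
  have h2 : (s : ℤ) * β - γ ≤ ((s * β - γ : ℕ) : ℤ) := by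
    rcases le_total γ (s * β) with h | h
    · rw [Nat.cast_sub h]
      push_cast
      exact le_rfl
    · rw [Nat.sub_eq_zero_of_le h]
      have h0 : ((s * β : ℕ) : ℤ) ≤ (γ : ℤ) := by exact_mod_cast h
      push_cast at h0 ⊢
      linarith
  have h3 : (k : ℤ) * ((s : ℤ) * β - γ) ≤ (β : ℤ) * ((s * β - γ : ℕ) : ℤ) := by
    have h4 : (0 : ℤ) ≤ ((s * β - γ : ℕ) : ℤ) := Nat.cast_nonneg _
    have h5 : (k : ℤ) ≤ β := by exact_mod_cast hkβ
    calc (k : ℤ) * ((s : ℤ) * β - γ) ≤ (k : ℤ) * ((s * β - γ : ℕ) : ℤ) :=
          mul_le_mul_of_nonneg_left h2 (Nat.cast_nonneg _)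
      _ ≤ (β : ℤ) * ((s * β - γ : ℕ) : ℤ) := mul_le_mul_of_nonneg_right h5 h4
  have h4 : (β : ℤ) * ((k : ℤ) * ((β : ℤ) + s - k)) ≤
      (β : ℤ) * ((w : ℤ) + ((s * β - γ : ℕ) : ℤ)) := by
    have h5 : (β : ℤ) * ((k : ℤ) * ((β : ℤ) + s - k)) =
        (k : ℤ) * ((γ : ℤ) + (β : ℤ) * ((β : ℤ) - (k : ℤ))) + (k : ℤ) * ((s : ℤ) * β - γ) := by
      ring
    rw [h5]
    calc _ ≤ (β : ℤ) * (w : ℤ) + (β : ℤ) * ((s * β - γ : ℕ) : ℤ) := add_le_add h1 h3
      _ = _ := by ring
  have h5 := le_of_mul_le_mul_left h4 (by exact_mod_cast hβpos)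
  have h6 : ((k * (β + s - k) : ℕ) : ℤ) ≤ ((w + (s * β - γ) : ℕ) : ℤ) := by
    push_cast
    rw [Nat.cast_sub (by omega)]
    push_cast
    exact h5
  exact_mod_cast h6

end Bilin

/-- Good forms over a large prime field. -/
theorem exists_mod_p {n d j s : ℕ} (hn : 1 ≤ n) (p : ℕ) [hp : Fact p.Prime] (hps : 2 ^ s < p)
    (hβ : ((n + j - 1).choose j) ^ 2 ≤ (n + (j + d) - 1).choose (j + d)) :
    ∃ g : Fin s → homogeneousSubmodule (Fin n) (ZMod p) d,
      s * (n + j - 1).choose j - (s * (n + j - 1).choose j - (n + (j + d) - 1).choose (j + d)) ≤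
        Module.finrank (ZMod p) (LinearMap.range (Phi (mulForm (ZMod p) n d j) g)) := by
  have hβ' : (Module.finrank (ZMod p) (homogeneousSubmodule (Fin n) (ZMod p) j)) ^ 2 ≤
      Module.finrank (ZMod p) (homogeneousSubmodule (Fin n) (ZMod p) (j + d)) := by
    rw [finrank_forms, finrank_forms, Fintype.card_fin]
    exact hβ
  obtain ⟨g, hg⟩ := exists_good_tuple (F := ZMod p) s (mulForm (ZMod p) n d j)
    (by rw [ZMod.card]; exact hps) (fun J b hb => cond_of_dim hn hβ' J b hb)
  refine ⟨g, ?_⟩
  have h1 := LinearMap.finrank_range_add_finrank_ker (Phi (mulForm (ZMod p) n d j) g)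
  rw [Module.finrank_pi_fintype] at h1
  simp only [sum_const, card_univ, Fintype.card_fin, smul_eq_mul] at h1
  rw [finrank_forms, finrank_forms, Fintype.card_fin] at hg
  rw [finrank_forms (e := j), Fintype.card_fin] at h1
  omega

section Lift

/-- An integral relation that reduces to a trivial one for independent reductions is trivial. -/
lemma int_relation {σ κ : Type} [Fintype κ] (p : ℕ) [hp : Fact p.Prime]
    (u : κ → MvPolynomial σ ℤ)
    (hu : LinearIndependent (ZMod p) (fun k => MvPolynomial.map (Int.castRingHom (ZMod p)) (u k))) :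
    ∀ (N : ℕ) (c : κ → ℤ), ∑ k, (c k).natAbs ≤ N → ∑ k, c k • u k = 0 → c = 0 := by
  intro N
  induction N using Nat.strong_induction_on with
  | _ N ih =>
    intro c hN hc
    have h1 : ∑ k, ((c k : ℤ) : ZMod p) • MvPolynomial.map (Int.castRingHom (ZMod p)) (u k) = 0 := by
      have h2 := congrArg (MvPolynomial.map (Int.castRingHom (ZMod p))) hc
      rw [map_sum, map_zero] at h2
      rw [← h2]
      refine sum_congr rfl fun k _ => ?_
      rw [MvPolynomial.smul_eq_C_mul, MvPolynomial.smul_eq_C_mul, map_mul, MvPolynomial.map_C]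
      rfl
    have h2 : ∀ k, (p : ℤ) ∣ c k := by
      intro k
      have := Fintype.linearIndependent_iff.mp hu _ h1 k
      exact (ZMod.intCast_zmod_eq_zero_iff_dvd _ _).mp this
    choose c' hc' using h2
    have hp0 : (p : ℤ) ≠ 0 := by exact_mod_cast hp.out.ne_zero
    have h3 : ∑ k, c' k • u k = 0 := by
      have h4 : (p : ℤ) • ∑ k, c' k • u k = 0 := by
        rw [smul_sum, ← hc]
        refine sum_congr rfl fun k _ => ?_
        rw [hc' k, mul_smul]
      rcases smul_eq_zero.mp h4 with h5 | h5
      · exact absurd h5 hp0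
      · exact h5
    by_contra hne
    have h4 : ∑ k, (c k).natAbs = p * ∑ k, (c' k).natAbs := by
      rw [mul_sum]
      refine sum_congr rfl fun k _ => ?_
      rw [hc' k, Int.natAbs_mul, Int.natAbs_natCast]
    have h5 : 0 < ∑ k, (c' k).natAbs := by
      by_contra h6
      push Not at h6
      apply hne
      funext k
      have h7 := (sum_eq_zero_iff.mp (Nat.le_zero.mp h6)) k (mem_univ k)
      rw [hc' k, Int.natAbs_eq_zero.mp h7, mul_zero]
      rfl
    have h6 : ∑ k, (c' k).natAbs < N := by
      have h7 := hp.out.two_le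
      nlinarith
    have h7 := ih _ h6 c' le_rfl h3
    rw [h7] at h5
    simp at h5

lemma indep_lift {σ κ : Type} [Fintype κ] (p : ℕ) [hp : Fact p.Prime]
    (u : κ → MvPolynomial σ ℤ)
    (hu : LinearIndependent (ZMod p) (fun k => MvPolynomial.map (Int.castRingHom (ZMod p)) (u k))) :
    LinearIndependent ℚ (fun k => MvPolynomial.map (Int.castRingHom ℚ) (u k)) := by
  rw [← LinearIndependent.iff_fractionRing ℤ ℚ, Fintype.linearIndependent_iff]
  intro c hc k
  have h1 : ∑ k, c k • u k = 0 := by
    apply MvPolynomial.map_injective (Int.castRingHom ℚ) Int.cast_injective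
    rw [map_sum, map_zero, ← hc]
    refine sum_congr rfl fun k _ => ?_
    rw [map_zsmul]
  have h2 := int_relation p u hu _ c le_rfl h1
  rw [h2]
  rfl

/-- The rank does not drop when lifting from a prime field to the rationals. -/
lemma finrank_lift {σ ι : Type} [Fintype ι] (p : ℕ) [hp : Fact p.Prime]
    (u : ι → MvPolynomial σ ℤ) :
    Module.finrank (ZMod p) (Submodule.span (ZMod p)
      (Set.range fun i => MvPolynomial.map (Int.castRingHom (ZMod p)) (u i))) ≤
    Module.finrank ℚ (Submodule.span ℚ
      (Set.range fun i => MvPolynomial.map (Int.castRingHom ℚ) (u i))) := by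
  obtain ⟨κ, a, ha, hspan, hli⟩ := exists_linearIndependent' (ZMod p)
    (fun i => MvPolynomial.map (Int.castRingHom (ZMod p)) (u i))
  have : Finite κ := Finite.of_injective a ha
  letI := Fintype.ofFinite κ
  rw [← hspan]
  have h1 : Module.finrank (ZMod p) (Submodule.span (ZMod p)
      (Set.range ((fun i => MvPolynomial.map (Int.castRingHom (ZMod p)) (u i)) ∘ a))) =
      Fintype.card κ := finrank_span_eq_card hli
  rw [h1]
  have h2 := indep_lift p (fun k => u (a k)) hli
  rw [← finrank_span_eq_card h2]
  have hfin : FiniteDimensional ℚ (Submodule.span ℚ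
      (Set.range fun i => MvPolynomial.map (Int.castRingHom ℚ) (u i))) :=
    FiniteDimensional.span_of_finite ℚ (Set.finite_range _)
  apply Submodule.finrank_mono
  apply Submodule.span_mono
  rintro _ ⟨k, rfl⟩
  exact ⟨a k, rfl⟩

/-- homogeneous lifts -/
lemma exists_lift {n d : ℕ} (p : ℕ) [hp : Fact p.Prime] (g : MvPolynomial (Fin n) (ZMod p))
    (hg : g.IsHomogeneous d) : ∃ f : MvPolynomial (Fin n) ℤ, f.IsHomogeneous d ∧
      MvPolynomial.map (Int.castRingHom (ZMod p)) f = g := by
  have h1 : ∀ x : ZMod p, ∃ y : ℤ, (y : ZMod p) = x := fun x => ZMod.intCast_surjective x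
  choose L hL using h1
  refine ⟨∑ t ∈ g.support, monomial t (L (coeff t g)), ?_, ?_⟩
  · apply IsHomogeneous.sum
    intro t ht
    apply isHomogeneous_monomial
    by_contra h2
    exact (mem_support_iff.mp ht) (hg.coeff_eq_zero h2)
  · rw [map_sum]
    conv_rhs => rw [g.as_sum]
    refine sum_congr rfl fun t _ => ?_
    rw [map_monomial]
    congr 1
    exact hL _

/-- Good forms over the rationals. -/
theorem exists_rat {n d j s : ℕ} (hn : 1 ≤ n)
    (hβ : ((n + j - 1).choose j) ^ 2 ≤ (n + (j + d) - 1).choose (j + d)) :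
    ∃ V : Submodule ℚ (MvPolynomial (Fin n) ℚ), V ≤ homogeneousSubmodule (Fin n) ℚ d ∧
      Module.finrank ℚ V ≤ s ∧
      s * (n + j - 1).choose j - (s * (n + j - 1).choose j - (n + (j + d) - 1).choose (j + d)) ≤
        Module.finrank ℚ (prodSpan j V) := by
  obtain ⟨p, hp1, hp2⟩ := Nat.exists_infinite_primes (2 ^ s + 1)
  haveI : Fact p.Prime := ⟨hp2⟩
  obtain ⟨g, hg⟩ := exists_mod_p (s := s) hn p (by omega) hβ
  choose f hf1 hf2 using fun i : Fin s => exists_lift p (g i).1
    ((mem_homogeneousSubmodule _ _).mp (g i).2)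
  set V := Submodule.span ℚ (Set.range fun i => MvPolynomial.map (Int.castRingHom ℚ) (f i)) with hV
  have hVd : V ≤ homogeneousSubmodule (Fin n) ℚ d := by
    rw [hV, Submodule.span_le]
    rintro _ ⟨i, rfl⟩
    rw [SetLike.mem_coe, mem_homogeneousSubmodule]
    exact (hf1 i).map _
  refine ⟨V, hVd, ?_, ?_⟩
  · have h1 := finrank_range_le_card (R := ℚ) (fun i => MvPolynomial.map (Int.castRingHom ℚ) (f i))
    rw [Fintype.card_fin] at h1
    exact h1
  · refine hg.trans ?_
    -- the products
    let u : Fin s × (TT n j) → MvPolynomial (Fin n) ℤ := fun x => monomial x.2.1 1 * f x.1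
    have hfin : FiniteDimensional ℚ (prodSpan j V) :=
      Submodule.finiteDimensional_of_le (prodSpan_le hVd)
    have h1 : Module.finrank (ZMod p) (LinearMap.range (Phi (mulForm (ZMod p) n d j) g)) ≤
        Module.finrank (ZMod p) (Submodule.span (ZMod p)
          (Set.range fun x => MvPolynomial.map (Int.castRingHom (ZMod p)) (u x))) := by
      have h2 := (Submodule.equivMapOfInjective
        (homogeneousSubmodule (Fin n) (ZMod p) (j + d)).subtype (Submodule.injective_subtype _)
        (LinearMap.range (Phi (mulForm (ZMod p) n d j) g))).finrank_eq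
      rw [h2]
      have hfin' : FiniteDimensional (ZMod p) (Submodule.span (ZMod p)
          (Set.range fun x => MvPolynomial.map (Int.castRingHom (ZMod p)) (u x))) :=
        FiniteDimensional.span_of_finite _ (Set.finite_range _)
      apply Submodule.finrank_mono
      rintro _ ⟨_, ⟨a, rfl⟩, rfl⟩
      rw [Submodule.subtype_apply, Phi_apply, AddSubmonoidClass.coe_finsetSum]
      apply Submodule.sum_mem
      intro i _
      rw [mulForm_apply, (a i).1.as_sum, sum_mul]
      apply Submodule.sum_mem
      intro t ht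
      have h3 : t ∈ TT n j := by
        rw [mem_TT, ← Finsupp.degree_eq_sum]
        by_contra h4
        exact (mem_support_iff.mp ht) (((mem_homogeneousSubmodule _ _).mp (a i).2).coeff_eq_zero h4)
      have h4 : monomial t (coeff t (a i).1) * (g i).1 = (coeff t (a i).1) •
          MvPolynomial.map (Int.castRingHom (ZMod p)) (u (i, ⟨t, h3⟩)) := by
        simp only [u]
        rw [map_mul, map_monomial, hf2 i, map_one, ← smul_mul_assoc, smul_monomial, smul_eq_mul,
          mul_one]
      rw [h4]
      exact Submodule.smul_mem _ _ (Submodule.subset_span ⟨_, rfl⟩)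
    refine h1.trans ((finrank_lift p u).trans ?_)
    apply Submodule.finrank_mono
    rw [Submodule.span_le]
    rintro _ ⟨x, rfl⟩
    simp only [u]
    rw [map_mul, map_monomial]
    apply mul_mem_prodSpan
    · rw [mem_homogeneousSubmodule]
      apply isHomogeneous_monomial
      rw [Finsupp.degree_eq_sum]
      exact mem_TT.mp x.2.2
    · exact Submodule.subset_span ⟨x.1, rfl⟩

end Lift

end Pool.Agent.H21.Low
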