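import Mathlib

/-!
The numbers `EE W Q = ∑ over set partitions of Q of ∏ W(part)`, defined by the recursion that
removes the part containing a chosen element.
-/

namespace Pool.Agent.H21

open scoped Classical

variable {P : Type*}

/-- The subsets of `Q` that contain `p`. -/
noncomputable def sub (Q : Finset P) (p : P) : Finset (Finset P) :=
  Q.powerset.filter (fun T => p ∈ T)

lemma mem_sub {Q : Finset P} {p : P} {T : Finset P} : T ∈ sub Q p ↔ T ⊆ Q ∧ p ∈ T := by
  unfold sub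
  rw [Finset.mem_filter, Finset.mem_powerset]

lemma card_sdiff_lt {Q T : Finset P} {p : P} (hT : T ⊆ Q) (hp : p ∈ T) :
    (Q \ T).card < Q.card :=
  Finset.card_lt_card (Finset.sdiff_ssubset hT ⟨p, hp⟩)

/-- Sum over set partitions, by the recursion on the part of a chosen element. -/
noncomputable def EE (W : Finset P → ℤ) (Q : Finset P) : ℤ :=
  if h : Q.Nonempty then
    ∑ T : {T : Finset P // T ∈ sub Q h.choose}, W T.1 * EE W (Q \ T.1)
  else 1
termination_by Q.card
decreasing_by exact card_sdiff_lt (mem_sub.mp T.2).1 (mem_sub.mp T.2).2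

lemma EE_empty (W : Finset P → ℤ) : EE W ∅ = 1 := by
  rw [EE]
  simp

lemma EE_choose (W : Finset P → ℤ) (Q : Finset P) (h : Q.Nonempty) :
    EE W Q = ∑ T ∈ sub Q h.choose, W T * EE W (Q \ T) := by
  rw [EE, dif_pos h]
  exact Finset.sum_coe_sort (sub Q h.choose) (fun T => W T * EE W (Q \ T))

/-- The recursion holds for every element. -/
lemma EE_rec (W : Finset P → ℤ) : ∀ (n : ℕ) (Q : Finset P), Q.card = n → ∀ p ∈ Q,
    EE W Q = ∑ T ∈ sub Q p, W T * EE W (Q \ T) := by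
  intro n
  induction n using Nat.strong_induction_on with
  | _ n ih =>
    intro Q hQ p hp
    have hne : Q.Nonempty := ⟨p, hp⟩
    rw [EE_choose W Q hne]
    set q := hne.choose with hq
    have hqQ : q ∈ Q := hne.choose_spec
    -- split both sums according to whether the other element is contained
    have key : ∀ a ∈ Q, ∀ b ∈ Q, ∑ T ∈ sub Q a, W T * EE W (Q \ T) =
        ∑ T ∈ (sub Q a).filter (fun T => b ∈ T), W T * EE W (Q \ T) +
        ∑ T ∈ (sub Q a).filter (fun T => b ∉ T), ∑ T' ∈ sub (Q \ T) b,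
          W T * (W T' * EE W ((Q \ T) \ T')) := by
      intro a ha b hb
      rw [← Finset.sum_filter_add_sum_filter_not (sub Q a) (fun T => b ∈ T)]
      congr 1
      refine Finset.sum_congr rfl fun T hT => ?_
      rw [Finset.mem_filter, mem_sub] at hT
      rw [ih _ (by rw [← hQ]; exact card_sdiff_lt hT.1.1 hT.1.2) (Q \ T) rfl b
        (Finset.mem_sdiff.mpr ⟨hb, hT.2⟩), Finset.mul_sum]
    rw [key q hqQ p hp, key p hp q hqQ]
    congr 1
    · refine Finset.sum_congr ?_ fun _ _ => rfl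
      ext T
      rw [Finset.mem_filter, Finset.mem_filter, mem_sub, mem_sub]
      tauto
    · -- swap the two parts
      rw [Finset.sum_sigma', Finset.sum_sigma']
      refine Finset.sum_nbij' (fun x => ⟨x.2, x.1⟩) (fun x => ⟨x.2, x.1⟩) ?_ ?_ ?_ ?_ ?_
      · rintro ⟨T, T'⟩ hx
        rw [Finset.mem_sigma, Finset.mem_filter, mem_sub, mem_sub] at hx
        obtain ⟨⟨⟨h1, h2⟩, h3⟩, h4, h5⟩ := hx
        simp only at h1 h2 h3 h4 h5
        rw [Finset.mem_sigma, Finset.mem_filter, mem_sub, mem_sub]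
        have hdisj : Disjoint T T' := by
          rw [Finset.disjoint_right]
          intro y hy hyT
          exact (Finset.mem_sdiff.mp (h4 hy)).2 hyT
        refine ⟨⟨⟨h4.trans Finset.sdiff_subset, h5⟩, ?_⟩, ?_, h2⟩
        · intro hqT'
          exact (Finset.disjoint_left.mp hdisj h2) hqT'
        · intro y hy
          exact Finset.mem_sdiff.mpr ⟨h1 hy, fun h => (Finset.disjoint_left.mp hdisj hy) h⟩
      · rintro ⟨T, T'⟩ hx
        rw [Finset.mem_sigma, Finset.mem_filter, mem_sub, mem_sub] at hx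
        obtain ⟨⟨⟨h1, h2⟩, h3⟩, h4, h5⟩ := hx
        simp only at h1 h2 h3 h4 h5
        rw [Finset.mem_sigma, Finset.mem_filter, mem_sub, mem_sub]
        have hdisj : Disjoint T T' := by
          rw [Finset.disjoint_right]
          intro y hy hyT
          exact (Finset.mem_sdiff.mp (h4 hy)).2 hyT
        refine ⟨⟨⟨h4.trans Finset.sdiff_subset, h5⟩, ?_⟩, ?_, h2⟩
        · intro hqT'
          exact (Finset.disjoint_left.mp hdisj h2) hqT'
        · intro y hy
          exact Finset.mem_sdiff.mpr ⟨h1 hy, fun h => (Finset.disjoint_left.mp hdisj hy) h⟩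
      · rintro ⟨T, T'⟩ _; rfl
      · rintro ⟨T, T'⟩ _; rfl
      · rintro ⟨T, T'⟩ _
        simp only
        rw [sdiff_sdiff_comm]
        ring

lemma EE_rec' (W : Finset P → ℤ) (Q : Finset P) (p : P) (hp : p ∈ Q) :
    EE W Q = ∑ T ∈ sub Q p, W T * EE W (Q \ T) :=
  EE_rec W _ Q rfl p hp

lemma EE_congr {W W' : Finset P → ℤ} : ∀ (n : ℕ) (Q : Finset P), Q.card = n →
    (∀ T ⊆ Q, W T = W' T) → EE W Q = EE W' Q := by
  intro n
  induction n using Nat.strong_induction_on with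
  | _ n ih =>
    intro Q hQ h
    by_cases hne : Q.Nonempty
    · obtain ⟨p, hp⟩ := hne
      rw [EE_rec' W Q p hp, EE_rec' W' Q p hp]
      refine Finset.sum_congr rfl fun T hT => ?_
      rw [mem_sub] at hT
      rw [h T hT.1, ih _ (by rw [← hQ]; exact card_sdiff_lt hT.1 hT.2) (Q \ T) rfl
        (fun T' hT' => h T' (hT'.trans Finset.sdiff_subset))]
    · rw [Finset.not_nonempty_iff_eq_empty] at hne
      rw [hne, EE_empty, EE_empty]

lemma EE_congr' {W W' : Finset P → ℤ} (Q : Finset P) (h : ∀ T ⊆ Q, W T = W' T) :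
    EE W Q = EE W' Q := EE_congr _ Q rfl h

/-- Additivity in the weights of the parts that contain `q`. -/
lemma EE_add {W W₁ W₂ : Finset P → ℤ} (Q : Finset P) (q : P) (hq : q ∈ Q)
    (h1 : ∀ T ⊆ Q, q ∈ T → W T = W₁ T + W₂ T) (h2 : ∀ T ⊆ Q, q ∉ T → W T = W₁ T)
    (h3 : ∀ T ⊆ Q, q ∉ T → W T = W₂ T) : EE W Q = EE W₁ Q + EE W₂ Q := by
  rw [EE_rec' W Q q hq, EE_rec' W₁ Q q hq, EE_rec' W₂ Q q hq, ← Finset.sum_add_distrib]
  refine Finset.sum_congr rfl fun T hT => ?_
  rw [mem_sub] at hT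
  have h4 : EE W (Q \ T) = EE W₁ (Q \ T) := EE_congr' _ fun T' hT' =>
    h2 T' (hT'.trans Finset.sdiff_subset) fun h => (Finset.mem_sdiff.mp (hT' h)).2 hT.2
  have h5 : EE W (Q \ T) = EE W₂ (Q \ T) := EE_congr' _ fun T' hT' =>
    h3 T' (hT'.trans Finset.sdiff_subset) fun h => (Finset.mem_sdiff.mp (hT' h)).2 hT.2
  rw [h1 T hT.1 hT.2, add_mul, ← h4, ← h5]

/-- Lowering the weight of one part by `1`. -/
lemma EE_sub_one {W W' : Finset P → ℤ} (Q T₀ : Finset P) (hT₀ : T₀.Nonempty) (hQ : T₀ ⊆ Q)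
    (h1 : W T₀ = W' T₀ - 1) (h2 : ∀ T, T ≠ T₀ → W T = W' T) :
    EE W Q = EE W' Q - EE W' (Q \ T₀) := by
  obtain ⟨p, hp⟩ := hT₀
  have hpQ := hQ hp
  have hsmall : ∀ T ∈ sub Q p, EE W (Q \ T) = EE W' (Q \ T) := by
    intro T hT
    rw [mem_sub] at hT
    apply EE_congr'
    intro T' hT'
    apply h2
    rintro rfl
    exact (Finset.mem_sdiff.mp (hT' hp)).2 hT.2
  have hT₀m : T₀ ∈ sub Q p := mem_sub.mpr ⟨hQ, hp⟩
  rw [EE_rec' W Q p hpQ, EE_rec' W' Q p hpQ]
  rw [← Finset.add_sum_erase _ _ hT₀m, ← Finset.add_sum_erase _ _ hT₀m]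
  have h3 : ∑ T ∈ (sub Q p).erase T₀, W T * EE W (Q \ T) =
      ∑ T ∈ (sub Q p).erase T₀, W' T * EE W' (Q \ T) := by
    refine Finset.sum_congr rfl fun T hT => ?_
    rw [Finset.mem_erase] at hT
    rw [hsmall T hT.2, h2 T hT.1]
  rw [h3, hsmall T₀ hT₀m, h1]
  ring

end Pool.Agent.H21
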