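import Pool.Agent.H21.Exact

/-!
Changing the box in one coordinate.
-/

set_option linter.unusedSectionVars false

namespace Pool.Agent.H21

open scoped Classical

variable {K : Type*} [Field K] {P : Type*} [Fintype P] {A : Type*} [Fintype A] [Nonempty A]

variable (K) in
/-- Functions that depend only on the coordinates in `T`. -/
def Dp (T : Finset P) : Submodule K ((P → A) → K) where
  carrier := {φ | ∀ x y, (∀ p ∈ T, x p = y p) → φ x = φ y}
  add_mem' := by
    intro f g hf hg x y h
    simp only [Pi.add_apply]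
    rw [hf x y h, hg x y h]
  zero_mem' := fun _ _ _ => rfl
  smul_mem' := by
    intro c f hf x y h
    simp only [Pi.smul_apply]
    rw [hf x y h]

lemma mem_Dp {T : Finset P} {φ : (P → A) → K} :
    φ ∈ Dp K T ↔ ∀ x y, (∀ p ∈ T, x p = y p) → φ x = φ y := Iff.rfl

variable (K) in
/-- The indicator of the box in the coordinates `T`. -/
noncomputable def bx (B : P → Finset A) (T : Finset P) : (P → A) → K :=
  fun x => if ∀ p ∈ T, x p ∈ B p then 1 else 0

lemma bx_mul_mem {B : P → Finset A} {T : Finset P} {φ : (P → A) → K} (hφ : φ ∈ Dp K T) :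
    bx K B T * φ ∈ MM K B T := by
  refine ⟨fun x y hxy => ?_, fun x hx => ?_⟩
  · simp only [Pi.mul_apply, bx]
    rw [hφ x y hxy]
    have : (∀ p ∈ T, x p ∈ B p) ↔ (∀ p ∈ T, y p ∈ B p) := by
      constructor
      · intro h p hp; rw [← hxy p hp]; exact h p hp
      · intro h p hp; rw [hxy p hp]; exact h p hp
    simp only [this]
  · simp only [Pi.mul_apply, bx]
    rw [if_neg, zero_mul]
    intro h
    obtain ⟨p, hp, hxp⟩ := hx
    exact hxp (h p hp)

lemma bx_congr {B B' : P → Finset A} {T : Finset P} (h : ∀ p ∈ T, B p = B' p) :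
    bx K B T = bx K B' T := by
  funext x
  simp only [bx]
  have : (∀ p ∈ T, x p ∈ B p) ↔ (∀ p ∈ T, x p ∈ B' p) := by
    constructor
    · intro h' p hp; rw [← h p hp]; exact h' p hp
    · intro h' p hp; rw [h p hp]; exact h' p hp
  simp only [this]

lemma MM_box_mono {B B' : P → Finset A} {Q : Finset P} (h : ∀ p ∈ Q, B p ⊆ B' p) :
    MM K B Q ≤ MM K B' Q := by
  intro φ hφ
  refine ⟨hφ.1, fun x hx => ?_⟩
  obtain ⟨p, hp, hxp⟩ := hx
  exact hφ.2 x ⟨p, hp, fun h' => hxp (h p hp h')⟩

/-- Comparison of the ideals of two families. -/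
lemma JJ_le_of {Λ Λ' : Type*} {B B' : P → Finset A} {supp : Λ → Finset P}
    {supp' : Λ' → Finset P} {h : Λ → ((P → A) → K)} {h' : Λ' → ((P → A) → K)} {S : Finset Λ}
    {S' : Finset Λ'} {Q : Finset P} (hB : ∀ p ∈ Q, B p = B' p)
    (hgen : ∀ l ∈ S, supp l ⊆ Q → ∃ l' ∈ S', supp' l' = supp l ∧ h' l' = h l) :
    JJ B supp h S Q ≤ JJ B' supp' h' S' Q := by
  apply Submodule.span_mono
  rintro _ ⟨l, hl, hQ, g, hg, rfl⟩
  obtain ⟨l', hl', hs, hh⟩ := hgen l hl hQ
  refine ⟨l', hl', hs ▸ hQ, g, ?_, by rw [hh]⟩
  rw [hs, ← MM_congr fun p hp => hB p (Finset.sdiff_subset hp)]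
  exact hg

section Family

variable {Λ : Type*} (supp : Λ → Finset P) (H : Λ → ((P → A) → K))

/-- The functions of a family, restricted to the box. -/
noncomputable def hb (B : P → Finset A) (l : Λ) : (P → A) → K := bx K B (supp l) * H l

variable {supp H}

lemma hb_mem (B : P → Finset A) {l : Λ} (hH : H l ∈ Dp K (supp l)) :
    hb supp H B l ∈ MM K B (supp l) := bx_mul_mem hH

lemma hb_congr {B B' : P → Finset A} {l : Λ} (h : ∀ p ∈ supp l, B p = B' p) :
    hb supp H B l = hb supp H B' l := by
  unfold hb
  rw [bx_congr h]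

variable (K) in
/-- Multiplication by the indicator of `x q ∈ Z`. -/
noncomputable def rs (q : P) (Z : Finset A) : ((P → A) → K) →ₗ[K] ((P → A) → K) where
  toFun φ := fun x => if x q ∈ Z then φ x else 0
  map_add' φ ψ := by
    funext x
    simp only [Pi.add_apply]
    split_ifs <;> simp
  map_smul' c φ := by
    funext x
    simp only [Pi.smul_apply, RingHom.id_apply]
    split_ifs <;> simp

lemma rs_apply (q : P) (Z : Finset A) (φ : (P → A) → K) (x : P → A) :
    rs K q Z φ x = if x q ∈ Z then φ x else 0 := rfl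

/-- Splitting the box in one coordinate. -/
lemma DD_merge {B : P → Finset A} {S SX SZ : Finset Λ} (hH : ∀ l ∈ S, H l ∈ Dp K (supp l))
    {q : P} {Q : Finset P} (hq : q ∈ Q) {X Z : Finset A} (hXZ : Disjoint X Z)
    (hB : B q = X ∪ Z) (hSX : SX ⊆ S) (hSZ : SZ ⊆ S)
    (hvan : ∀ l ∈ SX, q ∈ supp l → ∀ x, x q ∈ Z → H l x = 0) :
    DD B supp (hb supp H B) S Q ≤
      DD (Function.update B q X) supp (hb supp H (Function.update B q X)) SX Q +
      DD (Function.update B q Z) supp (hb supp H (Function.update B q Z)) SZ Q := by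
  set BX := Function.update B q X with hBX
  set BZ := Function.update B q Z with hBZ
  have hBXq : BX q = X := Function.update_self _ _ _
  have hBZq : BZ q = Z := Function.update_self _ _ _
  have hBXn : ∀ p, p ≠ q → BX p = B p := fun p hp => Function.update_of_ne hp _ _
  have hBZn : ∀ p, p ≠ q → BZ p = B p := fun p hp => Function.update_of_ne hp _ _
  have hBXle : ∀ p, BX p ⊆ B p := by
    intro p
    by_cases hp : p = q
    · subst hp
      rw [hBXq, hB]
      exact Finset.subset_union_left
    · rw [hBXn p hp]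
  have hBZle : ∀ p, BZ p ⊆ B p := by
    intro p
    by_cases hp : p = q
    · subst hp
      rw [hBZq, hB]
      exact Finset.subset_union_right
    · rw [hBZn p hp]
  have h1 := finrank_inf_ker_add_map (rs K q Z) (JJ B supp (hb supp H B) S Q)
  -- the part on X
  have h2 : JJ BX supp (hb supp H BX) SX Q ≤
      JJ B supp (hb supp H B) S Q ⊓ LinearMap.ker (rs K q Z) := by
    refine le_inf ?_ ?_
    · conv_lhs => unfold JJ
      rw [Submodule.span_le]
      rintro _ ⟨l, hl, hlQ, g, hg, rfl⟩
      have h3 : hb supp H BX l = hb supp H B l := by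
        by_cases hql : q ∈ supp l
        · funext x
          simp only [hb, Pi.mul_apply, bx]
          by_cases hxZ : x q ∈ Z
          · rw [hvan l hl hql x hxZ, mul_zero, mul_zero]
          · congr 1
            have : (∀ p ∈ supp l, x p ∈ BX p) ↔ (∀ p ∈ supp l, x p ∈ B p) := by
              constructor
              · intro h4 p hp
                exact hBXle p (h4 p hp)
              · intro h4 p hp
                by_cases hpq : p = q
                · subst hpq
                  have := h4 p hp
                  rw [hB, Finset.mem_union] at this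
                  rw [hBXq]
                  tauto
                · rw [hBXn p hpq]
                  exact h4 p hp
            simp only [this]
        · exact hb_congr fun p hp => hBXn p fun h4 => hql (h4 ▸ hp)
      rw [h3]
      exact mem_JJ (hSX hl) hlQ (MM_box_mono (fun p _ => hBXle p) hg)
    · intro φ hφ
      have h3 : φ ∈ MM K BX Q := JJ_le_MM (fun l hl => hb_mem BX (hH l (hSX hl))) Q hφ
      rw [LinearMap.mem_ker]
      funext x
      rw [rs_apply]
      by_cases hxZ : x q ∈ Z
      · rw [if_pos hxZ]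
        apply h3.2
        refine ⟨q, hq, ?_⟩
        rw [hBXq]
        exact Finset.disjoint_right.mp hXZ hxZ
      · rw [if_neg hxZ]
        rfl
  -- the part on Z
  have h4 : JJ BZ supp (hb supp H BZ) SZ Q ≤ (JJ B supp (hb supp H B) S Q).map (rs K q Z) := by
    conv_lhs => unfold JJ
    rw [Submodule.span_le]
    rintro _ ⟨l, hl, hlQ, g, hg, rfl⟩
    refine ⟨hb supp H B l * g, mem_JJ (hSZ hl) hlQ (MM_box_mono (fun p _ => hBZle p) hg), ?_⟩
    funext x
    rw [rs_apply]
    by_cases hxZ : x q ∈ Z
    · rw [if_pos hxZ]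
      simp only [hb, Pi.mul_apply, bx]
      congr 2
      have : (∀ p ∈ supp l, x p ∈ BZ p) ↔ (∀ p ∈ supp l, x p ∈ B p) := by
        constructor
        · intro h4 p hp
          exact hBZle p (h4 p hp)
        · intro h4 p hp
          by_cases hpq : p = q
          · subst hpq
            rw [hBZq]
            exact hxZ
          · rw [hBZn p hpq]
            exact h4 p hp
      simp only [this]
    · rw [if_neg hxZ]
      have h3 : hb supp H BZ l * g ∈ MM K BZ Q :=
        MM_mul (hb_mem BZ (hH l (hSZ hl))) hg (Finset.union_sdiff_of_subset hlQ)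
      rw [h3.2 x ⟨q, hq, by rwa [hBZq]⟩]
  have h5 := Submodule.finrank_mono h2
  have h6 := Submodule.finrank_mono h4
  have h7 : (∏ p ∈ Q, ((B p).card : ℤ)) =
      (∏ p ∈ Q, ((BX p).card : ℤ)) + ∏ p ∈ Q, ((BZ p).card : ℤ) := by
    rw [← Finset.mul_prod_erase Q _ hq, ← Finset.mul_prod_erase Q _ hq,
      ← Finset.mul_prod_erase Q _ hq]
    have h8 : ∏ p ∈ Q.erase q, ((BX p).card : ℤ) = ∏ p ∈ Q.erase q, ((B p).card : ℤ) :=
      Finset.prod_congr rfl fun p hp => by rw [hBXn p (Finset.mem_erase.mp hp).1]
    have h9 : ∏ p ∈ Q.erase q, ((BZ p).card : ℤ) = ∏ p ∈ Q.erase q, ((B p).card : ℤ) :=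
      Finset.prod_congr rfl fun p hp => by rw [hBZn p (Finset.mem_erase.mp hp).1]
    rw [h8, h9, hBXq, hBZq, hB, Finset.card_union_of_disjoint hXZ]
    push_cast
    ring
  unfold DD
  rw [h7]
  have h10 : Module.finrank K (JJ BX supp (hb supp H BX) SX Q) +
      Module.finrank K (JJ BZ supp (hb supp H BZ) SZ Q) ≤
      Module.finrank K (JJ B supp (hb supp H B) S Q) := by omega
  have h11 : (Module.finrank K (JJ BX supp (hb supp H BX) SX Q) : ℤ) +
      (Module.finrank K (JJ BZ supp (hb supp H BZ) SZ Q) : ℤ) ≤
      (Module.finrank K (JJ B supp (hb supp H B) S Q) : ℤ) := by exact_mod_cast h10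
  linarith

/-- Away from the changed coordinate nothing happens. -/
lemma DD_box_congr {B B' : P → Finset A} {S S' : Finset Λ} {Q : Finset P}
    (hB : ∀ p ∈ Q, B p = B' p) (hS : ∀ l, supp l ⊆ Q → (l ∈ S ↔ l ∈ S')) :
    DD B supp (hb supp H B) S Q = DD B' supp (hb supp H B') S' Q := by
  unfold DD
  have h1 : JJ B supp (hb supp H B) S Q = JJ B' supp (hb supp H B') S' Q := by
    apply le_antisymm
    · apply JJ_le_of hB
      intro l hl hlQ
      exact ⟨l, (hS l hlQ).mp hl, rfl, (hb_congr fun p hp => hB p (hlQ hp)).symm⟩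
    · apply JJ_le_of fun p hp => (hB p hp).symm
      intro l hl hlQ
      exact ⟨l, (hS l hlQ).mpr hl, rfl, hb_congr fun p hp => hB p (hlQ hp)⟩
  rw [h1, Finset.prod_congr rfl fun p hp => by rw [hB p hp]]

lemma EE_box_congr {B B' : P → Finset A} {S S' : Finset Λ} {Q : Finset P}
    (hB : ∀ p ∈ Q, B p = B' p) (hS : ∀ l, supp l ⊆ Q → (l ∈ S ↔ l ∈ S')) :
    EE (wt B supp S) Q = EE (wt B' supp S') Q := by
  apply EE_congr'
  intro T hT
  unfold wt
  have h1 : S.filter (fun l => supp l = T) = S'.filter (fun l => supp l = T) := by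
    ext l
    rw [Finset.mem_filter, Finset.mem_filter]
    constructor
    · rintro ⟨h2, h3⟩
      exact ⟨(hS l (h3 ▸ hT)).mp h2, h3⟩
    · rintro ⟨h2, h3⟩
      exact ⟨(hS l (h3 ▸ hT)).mpr h2, h3⟩
  rw [h1]
  have h2 : ∏ p ∈ T, ((B p).card : ℤ) = ∏ p ∈ T, ((B' p).card : ℤ) :=
    Finset.prod_congr rfl fun p hp => by rw [hB p (hT hp)]
  rw [h2]

lemma Ex.merge {B : P → Finset A} {S SX SZ : Finset Λ} (hH : ∀ l ∈ S, H l ∈ Dp K (supp l))
    {q : P} {Q : Finset P} {X Z : Finset A} (hXZ : Disjoint X Z)
    (hB : B q = X ∪ Z) (hSX : SX ⊆ S) (hSZ : SZ ⊆ S)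
    (hn : ∀ l ∈ S, q ∉ supp l → l ∈ SX ∧ l ∈ SZ)
    (hc : ∀ l ∈ S, q ∈ supp l → (l ∈ SX ↔ l ∉ SZ))
    (hvan : ∀ l ∈ SX, q ∈ supp l → ∀ x, x q ∈ Z → H l x = 0)
    (hEX : Ex (Function.update B q X) supp (hb supp H (Function.update B q X)) SX Q)
    (hEZ : Ex (Function.update B q Z) supp (hb supp H (Function.update B q Z)) SZ Q) :
    Ex B supp (hb supp H B) S Q := by
  intro Q' hQ'
  by_cases hq : q ∈ Q'
  · refine le_trans (DD_merge hH hq hXZ hB hSX hSZ hvan) ?_
    refine le_trans (add_le_add (hEX Q' hQ') (hEZ Q' hQ')) (le_of_eq ?_)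
    symm
    apply EE_add Q' q hq
    · intro T hT hqT
      unfold wt
      have h1 : ∏ p ∈ T, ((B p).card : ℤ) =
          (∏ p ∈ T, ((Function.update B q X p).card : ℤ)) +
          ∏ p ∈ T, ((Function.update B q Z p).card : ℤ) := by
        rw [← Finset.mul_prod_erase T _ hqT, ← Finset.mul_prod_erase T _ hqT,
          ← Finset.mul_prod_erase T _ hqT]
        have h8 : ∏ p ∈ T.erase q, ((Function.update B q X p).card : ℤ) =
            ∏ p ∈ T.erase q, ((B p).card : ℤ) :=
          Finset.prod_congr rfl fun p hp => by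
            rw [Function.update_of_ne (Finset.mem_erase.mp hp).1]
        have h9 : ∏ p ∈ T.erase q, ((Function.update B q Z p).card : ℤ) =
            ∏ p ∈ T.erase q, ((B p).card : ℤ) :=
          Finset.prod_congr rfl fun p hp => by
            rw [Function.update_of_ne (Finset.mem_erase.mp hp).1]
        rw [h8, h9, Function.update_self, Function.update_self, hB,
          Finset.card_union_of_disjoint hXZ]
        push_cast
        ring
      have h2 : (S.filter (fun l => supp l = T)).card =
          (SX.filter (fun l => supp l = T)).card + (SZ.filter (fun l => supp l = T)).card := by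
        rw [← Finset.card_union_of_disjoint]
        · congr 1
          ext l
          simp only [Finset.mem_filter, Finset.mem_union]
          constructor
          · rintro ⟨h3, h4⟩
            have h5 := hc l h3 (h4 ▸ hqT)
            by_cases h6 : l ∈ SZ
            · exact Or.inr ⟨h6, h4⟩
            · exact Or.inl ⟨h5.mpr h6, h4⟩
          · rintro (⟨h3, h4⟩ | ⟨h3, h4⟩)
            · exact ⟨hSX h3, h4⟩
            · exact ⟨hSZ h3, h4⟩
        · rw [Finset.disjoint_left]
          intro l h3 h4
          rw [Finset.mem_filter] at h3 h4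
          exact (hc l (hSX h3.1) (h3.2 ▸ hqT)).mp h3.1 h4.1
      rw [h1, h2]
      push_cast
      split_ifs <;> ring
    · intro T hT hqT
      unfold wt
      have h2 : S.filter (fun l => supp l = T) = SX.filter (fun l => supp l = T) := by
        ext l
        simp only [Finset.mem_filter]
        constructor
        · rintro ⟨h3, h4⟩
          exact ⟨(hn l h3 (h4 ▸ hqT)).1, h4⟩
        · rintro ⟨h3, h4⟩
          exact ⟨hSX h3, h4⟩
      have h8 : ∏ p ∈ T, ((Function.update B q X p).card : ℤ) =
          ∏ p ∈ T, ((B p).card : ℤ) :=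
        Finset.prod_congr rfl fun p hp => by
          rw [Function.update_of_ne (fun h : p = q => hqT (h ▸ hp))]
      rw [h2, h8]
    · intro T hT hqT
      unfold wt
      have h2 : S.filter (fun l => supp l = T) = SZ.filter (fun l => supp l = T) := by
        ext l
        simp only [Finset.mem_filter]
        constructor
        · rintro ⟨h3, h4⟩
          exact ⟨(hn l h3 (h4 ▸ hqT)).2, h4⟩
        · rintro ⟨h3, h4⟩
          exact ⟨hSZ h3, h4⟩
      have h8 : ∏ p ∈ T, ((Function.update B q Z p).card : ℤ) =
          ∏ p ∈ T, ((B p).card : ℤ) :=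
        Finset.prod_congr rfl fun p hp => by
          rw [Function.update_of_ne (fun h : p = q => hqT (h ▸ hp))]
      rw [h2, h8]
  · have hB' : ∀ p ∈ Q', B p = Function.update B q X p := fun p hp => by
      rw [Function.update_of_ne (fun h : p = q => hq (h ▸ hp))]
    have hS' : ∀ l, supp l ⊆ Q' → (l ∈ S ↔ l ∈ SX) := by
      intro l hl
      exact ⟨fun h1 => (hn l h1 fun h2 => hq (hl h2)).1, fun h1 => hSX h1⟩
    rw [DD_box_congr hB' hS', EE_box_congr hB' hS']
    exact hEX Q' hQ'

/-- Enlarging the box in one coordinate. -/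
lemma Ex.extend {B : P → Finset A} {S : Finset Λ} (hH : ∀ l ∈ S, H l ∈ Dp K (supp l))
    (hne : ∀ l ∈ S, (supp l).Nonempty)
    {q : P} {Q : Finset P} {X : Finset A} (hX : X ⊆ B q)
    (hE : Ex (Function.update B q X) supp (hb supp H (Function.update B q X)) S Q) :
    Ex B supp (hb supp H B) S Q := by
  intro Q' hQ'
  set BX := Function.update B q X with hBX
  have hBXq : BX q = X := Function.update_self _ _ _
  have hBXn : ∀ p, p ≠ q → BX p = B p := fun p hp => Function.update_of_ne hp _ _
  have haway : ∀ Q'' : Finset P, q ∉ Q'' → ∀ p ∈ Q'', B p = BX p := fun Q'' hq'' p hp =>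
    (hBXn p fun h => hq'' (h ▸ hp)).symm
  by_cases hq : q ∈ Q'
  · have hhB : ∀ l ∈ S, hb supp H B l ∈ MM K B (supp l) := fun l hl => hb_mem B (hH l hl)
    have hhX : ∀ l ∈ S, hb supp H BX l ∈ MM K BX (supp l) := fun l hl => hb_mem BX (hH l hl)
    apply DD_le_of_inj hhB hq
    · -- injectivity
      have hI := hE.inj hhX hne hQ' hq
      intro w hw hsum l hl
      have hl' := mem_Sp.mp hl
      have h1 : ∀ l ∈ Sp supp S Q' q, w l ∈ MM K BX (Q' \ supp l) := by
        intro l hl
        rw [← MM_congr (haway _ fun h => (Finset.mem_sdiff.mp h).2 (mem_Sp.mp hl).2.1)]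
        exact hw l hl
      have h2 : ∑ l ∈ Sp supp S Q' q, hb supp H BX l * w l ∈
          JJ BX supp (hb supp H BX) (Sn supp S q) Q' := by
        have h3 : ∑ l ∈ Sp supp S Q' q, hb supp H BX l * w l =
            rs K q X (∑ l ∈ Sp supp S Q' q, hb supp H B l * w l) := by
          rw [map_sum]
          refine Finset.sum_congr rfl fun l hl => ?_
          have hql := (mem_Sp.mp hl).2.1
          funext x
          rw [rs_apply]
          simp only [hb, Pi.mul_apply, bx]
          by_cases hx : x q ∈ X
          · rw [if_pos hx]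
            have : (∀ p ∈ supp l, x p ∈ BX p) ↔ (∀ p ∈ supp l, x p ∈ B p) := by
              constructor
              · intro h4 p hp
                by_cases hpq : p = q
                · subst hpq
                  exact hX hx
                · rw [← hBXn p hpq]
                  exact h4 p hp
              · intro h4 p hp
                by_cases hpq : p = q
                · subst hpq
                  rw [hBXq]
                  exact hx
                · rw [hBXn p hpq]
                  exact h4 p hp
            simp only [this]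
          · rw [if_neg hx, if_neg, zero_mul, zero_mul]
            intro h4
            have := h4 q hql
            rw [hBXq] at this
            exact hx this
        rw [h3]
        have h5 : (JJ B supp (hb supp H B) (Sn supp S q) Q').map (rs K q X) ≤
            JJ BX supp (hb supp H BX) (Sn supp S q) Q' := by
          conv_lhs => unfold JJ
          rw [Submodule.map_span, Submodule.span_le]
          rintro _ ⟨_, ⟨l, hl, hlQ, g, hg, rfl⟩, rfl⟩
          have hql := (mem_Sn.mp hl).2
          have h6 : rs K q X (hb supp H B l * g) = hb supp H BX l * rs K q X g := by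
            rw [hb_congr (haway _ hql)]
            funext x
            simp only [rs_apply, Pi.mul_apply]
            split_ifs <;> simp
          rw [h6]
          apply mem_JJ hl hlQ
          refine ⟨fun x y hxy => ?_, fun x hx => ?_⟩
          · rw [rs_apply, rs_apply]
            have h7 : x q = y q := hxy q (Finset.mem_sdiff.mpr ⟨hq, hql⟩)
            rw [h7, hg.1 x y hxy]
          · rw [rs_apply]
            obtain ⟨p, hp, hxp⟩ := hx
            by_cases hpq : p = q
            · subst hpq
              rw [hBXq] at hxp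
              rw [if_neg hxp]
            · rw [hBXn p hpq] at hxp
              rw [hg.2 x ⟨p, hp, hxp⟩]
              simp
        exact h5 ⟨_, hsum, rfl⟩
      have h3 := hI w h1 h2 l hl
      refine JJ_le_of (fun p hp => ?_) ?_ h3
      · exact (haway _ (fun h => (Finset.mem_sdiff.mp h).2 hl'.2.1) p hp).symm
      · intro l'' hl'' hs
        refine ⟨l'', hl'', rfl, hb_congr fun p hp => ?_⟩
        exact haway _ (fun h => (Finset.mem_sdiff.mp h).2 hl'.2.1) p (hs hp)
    · intro T hT
      rw [mem_sub] at hT
      have hqT : q ∉ Q' \ T := fun h => (Finset.mem_sdiff.mp h).2 hT.2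
      rw [DD_box_congr (haway _ hqT) (fun l _ => Iff.rfl),
        EE_box_congr (haway _ hqT) (fun l _ => Iff.rfl)]
      exact hE.eq' hhX hne (Finset.sdiff_subset.trans hQ')
  · rw [DD_box_congr (haway _ hq) (fun l _ => Iff.rfl),
      EE_box_congr (haway _ hq) (fun l _ => Iff.rfl)]
    exact hE Q' hQ'

end Family

end Pool.Agent.H21
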