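import Pool.Agent.H21.Uniform

/-!
A system of generic functions that is good for all `D`-subsets of the vertex set at once, and the
slicing lemma.
-/

set_option linter.unusedSectionVars false

namespace Pool.Agent.H21

open scoped Classical

variable {K : Type*} [Field K] [Infinite K]

/-- Index set for the generators `t T l * g` with `T ⊆ X`, `|T| = d`, `l < a`. -/
def GenIx (K : Type*) [Field K] {k : ℕ} (d a : ℕ) (X : Finset (Fin k)) : Type _ :=
  {s : Finset (Fin k) × ℕ × ((Fin k → ℕ) → K) //
    s.1 ⊆ X ∧ s.1.card = d ∧ s.2.1 < a ∧ s.2.2 ∈ dep K ((s.1 : Set (Fin k))ᶜ)}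

/-- The generator attached to an index. -/
def gen {k : ℕ} {d a : ℕ} {X : Finset (Fin k)} (t : Finset (Fin k) → ℕ → ((Fin k → ℕ) → K))
    (s : GenIx K d a X) : (Fin k → ℕ) → K := t s.1.1 s.1.2.1 * s.1.2.2

theorem exists_system (k d D : ℕ) (v q : ℚ) (hv : 0 ≤ v)
    (hR : ∀ X : Finset (Fin k), X.card = D → Reach K (wA d v X) q) :
    ∃ N : ℕ, 0 < N ∧ ∀ m : ℕ, N ∣ m →
      ∃ (a : ℕ) (t : Finset (Fin k) → ℕ → ((Fin k → ℕ) → K)),
        (∀ (T : Finset (Fin k)) (l : ℕ), t T l ∈ dep K (T : Set (Fin k))) ∧ ((a : ℚ) ≤ v * (m : ℚ) ^ d) ∧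
        ∀ X : Finset (Fin k), X.card = D →
          (1 - q) * (m : ℚ) ^ k ≤ (Module.finrank K (Submodule.span K (Set.range
            (fun s : GenIx K d a X => res K (fun _ => Finset.range m) (gen t s)))) : ℚ) := by
  have hR' : ∀ X : {X : Finset (Fin k) // X.card = D}, Reach K (wA d v X.1) q :=
    fun X => hR X.1 X.2
  unfold Reach at hR'
  choose N hN hRN using hR'
  refine ⟨∏ X : {X : Finset (Fin k) // X.card = D}, N X, Finset.prod_pos fun X _ => hN X,
    fun m hm => ?_⟩
  let B : Fin k → Finset ℕ := fun _ => Finset.range m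
  have hBc : ∀ i, (B i).card = m := fun i => Finset.card_range m
  have hdv : ∀ (X : {X : Finset (Fin k) // X.card = D}) (i : Fin k), N X ∣ (B i).card := by
    intro X i
    rw [hBc i]
    exact (Finset.dvd_prod_of_mem (fun X => N X) (Finset.mem_univ X)).trans hm
  have hG := fun X : {X : Finset (Fin k) // X.card = D} => hRN X B (hdv X)
  choose G hG1 hG2 hG3 using hG
  let a : ℕ := ⌊v * (m : ℚ) ^ d⌋₊
  have hvm : 0 ≤ v * (m : ℚ) ^ d := mul_nonneg hv (by positivity)
  have ha : (a : ℚ) ≤ v * (m : ℚ) ^ d := Nat.floor_le hvm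
  have hcard : ∀ X T, (G X T).card ≤ a := by
    intro X T
    have h := hG2 X T
    simp only [hBc, Finset.prod_const] at h
    apply Nat.le_floor
    by_cases hT : T.card = d ∧ T ⊆ X.1
    · rw [wA, if_pos hT, hT.1] at h
      exact h
    · rw [wA, if_neg hT, zero_mul] at h
      linarith
  have hempty : ∀ X T, ¬ (T.card = d ∧ T ⊆ X.1) → G X T = ∅ := by
    intro X T hT
    have h := hG2 X T
    rw [wA, if_neg hT, zero_mul] at h
    have : (G X T).card = 0 := by
      have h' : ((G X T).card : ℚ) = 0 := le_antisymm h (Nat.cast_nonneg _)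
      exact_mod_cast h'
    exact Finset.card_eq_zero.mp this
  let adm : Set (Finset (Fin k) → ℕ → ((Fin k → ℕ) → K)) :=
    {t | ∀ (T : Finset (Fin k)) (l : ℕ), t T l ∈ dep K (T : Set (Fin k))}
  obtain ⟨t, ht, htr⟩ := exists_simultaneous (K := K) adm (by
      intro t ht t' ht' c T l
      exact Submodule.add_mem _ (ht T l) (Submodule.smul_mem _ c
        (Submodule.sub_mem _ (ht' T l) (ht T l))))
    ⟨0, fun T l => Submodule.zero_mem _⟩
    (Finset.univ : Finset {X : Finset (Fin k) // X.card = D})
    (fun _ => (↥(Fintype.piFinset B) → K)) (fun X => GenIx K d a X.1)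
    (fun X t s => res K B (gen t s))
    (by
      intro X t t' c s
      funext x
      simp only [gen, res_apply, Pi.mul_apply, Pi.add_apply, Pi.smul_apply, Pi.sub_apply,
        smul_eq_mul]
      ring)
    (fun X => rk B (G X))
    (by
      intro X _
      let tX : Finset (Fin k) → ℕ → ((Fin k → ℕ) → K) := fun T l =>
        if h : l < (G X T).card then ((G X T).equivFin.symm ⟨l, h⟩).1 else 0
      refine ⟨tX, ?_, ?_⟩
      · intro T l
        by_cases h : l < (G X T).card
        · simp only [tX, dif_pos h]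
          exact hG1 X T _ ((G X T).equivFin.symm ⟨l, h⟩).2
        · simp only [tX, dif_neg h]
          exact Submodule.zero_mem _
      · unfold rk
        apply Submodule.finrank_mono
        rw [Submodule.map_span_le]
        rintro _ ⟨T, f, hf, g, hg, rfl⟩
        apply Submodule.subset_span
        have hT : T.card = d ∧ T ⊆ X.1 := by
          by_contra hT
          rw [hempty X T hT] at hf
          simp at hf
        let l := (G X T).equivFin ⟨f, hf⟩
        refine ⟨⟨(T, l.1, g), hT.2, hT.1, lt_of_lt_of_le l.2 (hcard X T), hg⟩, ?_⟩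
        simp only [gen, tX]
        rw [dif_pos l.2]
        simp [l])
  refine ⟨a, t, ht, ha, fun X hX => ?_⟩
  have h1 := htr ⟨X, hX⟩ (Finset.mem_univ _)
  have h2 := hG3 ⟨X, hX⟩
  simp only [hBc, Finset.prod_const, Finset.card_univ, Fintype.card_fin] at h2
  have h3 : (rk B (G ⟨X, hX⟩) : ℚ) ≤ (Module.finrank K (Submodule.span K (Set.range
      (fun s : GenIx K d a X => res K B (gen t s)))) : ℚ) := by
    exact_mod_cast h1
  refine le_trans ?_ h3
  linarith

/-- Points of the box supported on `X`. -/
def pts {k : ℕ} (m : ℕ) (X : Finset (Fin k)) : Finset (Fin k → ℕ) :=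
  Fintype.piFinset (fun i => if i ∈ X then Finset.range m else {0})

lemma mem_pts {k m : ℕ} {X : Finset (Fin k)} {z : Fin k → ℕ} :
    z ∈ pts m X ↔ (∀ i ∈ X, z i < m) ∧ (∀ i ∉ X, z i = 0) := by
  unfold pts
  rw [Fintype.mem_piFinset]
  constructor
  · intro h
    refine ⟨fun i hi => ?_, fun i hi => ?_⟩
    · have := h i
      rw [if_pos hi, Finset.mem_range] at this
      exact this
    · have := h i
      rw [if_neg hi, Finset.mem_singleton] at this
      exact this
  · rintro ⟨h1, h2⟩ i
    by_cases hi : i ∈ X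
    · rw [if_pos hi, Finset.mem_range]; exact h1 i hi
    · rw [if_neg hi, Finset.mem_singleton]; exact h2 i hi

lemma card_pts {k : ℕ} (m : ℕ) (X : Finset (Fin k)) : (pts m X).card = m ^ X.card := by
  unfold pts
  rw [Fintype.card_piFinset]
  have : ∀ i : Fin k, (if i ∈ X then Finset.range m else ({0} : Finset ℕ)).card
      = if i ∈ X then m else 1 := by
    intro i
    by_cases hi : i ∈ X
    · simp [hi]
    · simp [hi]
  rw [Finset.prod_congr rfl (fun i _ => this i), Finset.prod_ite_mem]
  simp

/-- Restriction to the points supported on `X`. -/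
def resP {k : ℕ} (m : ℕ) (X : Finset (Fin k)) :
    ((Fin k → ℕ) → K) →ₗ[K] (↥(pts m X) → K) where
  toFun f := fun x => f x.1
  map_add' _ _ := rfl
  map_smul' _ _ := rfl

/-- Slicing: the rank on the whole box is at most `m ^ (k - |X|)` times the rank on the points
supported on `X`. -/
theorem finrank_slice {k : ℕ} (m d a : ℕ) (X : Finset (Fin k))
    (t : Finset (Fin k) → ℕ → ((Fin k → ℕ) → K)) (ht : ∀ (T : Finset (Fin k)) (l : ℕ), t T l ∈ dep K (T : Set (Fin k))) :
    Module.finrank K (Submodule.span K (Set.range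
      (fun s : GenIx K d a X => res K (fun _ => Finset.range m) (gen t s)))) ≤
    m ^ (k - X.card) * Module.finrank K (Submodule.span K (Set.range
      (fun s : GenIx K d a X => resP (K := K) m X (gen t s)))) := by
  -- outer points
  let O := ↥(pts m (Xᶜ : Finset (Fin k)))
  let J := Submodule.span K (Set.range (fun s : GenIx K d a X => resP (K := K) m X (gen t s)))
  let J0 := Submodule.span K (Set.range
      (fun s : GenIx K d a X => res K (fun _ => Finset.range m) (gen t s)))
  have hpt : ∀ (z : ↥(pts m X)) (η : O), z.1 + η.1 ∈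
      Fintype.piFinset (fun _ : Fin k => Finset.range m) := by
    intro z η
    rw [Fintype.mem_piFinset]
    intro i
    have hz := mem_pts.mp z.2
    have hη := mem_pts.mp η.2
    rw [Finset.mem_range, Pi.add_apply]
    by_cases hi : i ∈ X
    · have h1 := hz.1 i hi
      have h2 := hη.2 i (by simp [hi])
      omega
    · have h1 := hz.2 i hi
      have h2 := hη.1 i (by simp [hi])
      omega
  -- the slicing map
  let Ψ0 : (↥(Fintype.piFinset (fun _ : Fin k => Finset.range m)) → K) →ₗ[K]
      (O → (↥(pts m X) → K)) :=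
    { toFun := fun f η z => f ⟨z.1 + η.1, hpt z η⟩
      map_add' := fun _ _ => rfl
      map_smul' := fun _ _ => rfl }
  have hmem : ∀ f ∈ J0, ∀ η, Ψ0 f η ∈ J := by
    intro f hf
    refine Submodule.span_induction ?_ ?_ ?_ ?_ hf
    · rintro _ ⟨s, rfl⟩ η
      obtain ⟨⟨T, l, g⟩, hTX, hTd, hl, hg⟩ := s
      -- modify g
      let g' : (Fin k → ℕ) → K := fun x => g (fun i => if i ∈ X then x i else η.1 i)
      have hg' : g' ∈ dep K ((T : Set (Fin k))ᶜ) := by
        intro x y hxy
        simp only [g']
        apply hg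
        intro i hi
        by_cases hiX : i ∈ X
        · rw [if_pos hiX, if_pos hiX]; exact hxy i hi
        · rw [if_neg hiX, if_neg hiX]
      apply Submodule.subset_span
      refine ⟨⟨(T, l, g'), hTX, hTd, hl, hg'⟩, ?_⟩
      funext z
      have hz := mem_pts.mp z.2
      have hη := mem_pts.mp η.2
      simp only [Ψ0, resP, gen, LinearMap.coe_mk, AddHom.coe_mk, res_apply, Pi.mul_apply, g']
      congr 1
      · apply ht
        intro i hi
        have hiX : i ∈ X := hTX hi
        rw [Pi.add_apply, hη.2 i (by simp [hiX]), add_zero]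
      · congr 1
        funext i
        by_cases hiX : i ∈ X
        · rw [if_pos hiX, Pi.add_apply, hη.2 i (by simp [hiX]), add_zero]
        · rw [if_neg hiX, Pi.add_apply, hz.2 i hiX, zero_add]
    · intro η
      rw [map_zero]
      exact Submodule.zero_mem _
    · intro f g _ _ hf hg η
      rw [map_add]
      exact Submodule.add_mem _ (hf η) (hg η)
    · intro c f _ hf η
      rw [map_smul]
      exact Submodule.smul_mem _ c (hf η)
  let Ψ : J0 →ₗ[K] (O → J) :=
    { toFun := fun f η => ⟨Ψ0 f.1 η, hmem f.1 f.2 η⟩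
      map_add' := fun f g => by
        funext η
        apply Subtype.ext
        simp only [Submodule.coe_add, map_add, Pi.add_apply]
      map_smul' := fun c f => by
        funext η
        apply Subtype.ext
        simp only [Submodule.coe_smul, map_smul, Pi.smul_apply, RingHom.id_apply] }
  have hinj : Function.Injective Ψ := by
    rw [← LinearMap.ker_eq_bot, LinearMap.ker_eq_bot']
    intro f hf
    apply Subtype.ext
    funext x
    -- decompose x
    have hx := Fintype.mem_piFinset.mp x.2
    let z : Fin k → ℕ := fun i => if i ∈ X then x.1 i else 0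
    let η : Fin k → ℕ := fun i => if i ∈ X then 0 else x.1 i
    have hz : z ∈ pts m X := by
      rw [mem_pts]
      refine ⟨fun i hi => ?_, fun i hi => ?_⟩
      · simp only [z, if_pos hi]; exact Finset.mem_range.mp (hx i)
      · simp only [z, if_neg hi]
    have hη : η ∈ pts m (Xᶜ : Finset (Fin k)) := by
      rw [mem_pts]
      refine ⟨fun i hi => ?_, fun i hi => ?_⟩
      · have hi' : i ∉ X := by simpa using hi
        simp only [η, if_neg hi']; exact Finset.mem_range.mp (hx i)
      · have hi' : i ∈ X := by simpa using hi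
        simp only [η, if_pos hi']
    have h1 := congrFun hf ⟨η, hη⟩
    have h2 := congrFun (congrArg Subtype.val h1) ⟨z, hz⟩
    have h3 : (⟨z + η, hpt ⟨z, hz⟩ ⟨η, hη⟩⟩ :
        ↥(Fintype.piFinset (fun _ : Fin k => Finset.range m))) = x := by
      apply Subtype.ext
      funext i
      by_cases hi : i ∈ X
      · simp [z, η, hi]
      · simp [z, η, hi]
    have h4 : f.1 ⟨z + η, hpt ⟨z, hz⟩ ⟨η, hη⟩⟩ = 0 := by
      simpa [Ψ, Ψ0] using h2
    rw [h3] at h4
    exact h4
  have h5 := LinearMap.finrank_le_finrank_of_injective hinj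
  rw [Module.finrank_pi_fintype, Finset.sum_const, Finset.card_univ, Fintype.card_coe, card_pts,
    Finset.card_compl, Fintype.card_fin, smul_eq_mul] at h5
  exact h5

end Pool.Agent.H21
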