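import Mathlib

/-!
Polarization and restitution of polynomials.
-/

set_option linter.unusedSectionVars false

namespace Pool.Agent.H21

open scoped Classical
open MvPolynomial

variable {K : Type} [Field K] {P : Type} [Fintype P] {A : Type} [Fintype A]

/-- The squarefree exponent with support `U`. -/
noncomputable def one (U : Finset P) : P →₀ ℕ :=
  Finsupp.equivFunOnFinite.symm (fun p => if p ∈ U then 1 else 0)

lemma one_apply (U : Finset P) (p : P) : one U p = if p ∈ U then 1 else 0 := rfl

lemma one_eq_zero_iff (U : Finset P) : (0 = one U) ↔ U = ∅ := by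
  constructor
  · intro h
    rw [Finset.eq_empty_iff_forall_notMem]
    intro p hp
    have := DFunLike.congr_fun h p
    rw [one_apply, if_pos hp] at this
    simp at this
  · rintro rfl
    ext p
    rw [one_apply]
    simp

lemma one_sub_single {U : Finset P} {p : P} (hp : p ∈ U) :
    one U - Finsupp.single p 1 = one (U.erase p) := by
  ext q
  rw [Finsupp.tsub_apply, one_apply, one_apply, Finsupp.single_apply]
  by_cases hq : p = q
  · subst hq
    simp [hp]
  · have : q ∈ U.erase p ↔ q ∈ U := by
      rw [Finset.mem_erase]
      exact ⟨fun h => h.2, fun h => ⟨fun h' => hq h'.symm, h⟩⟩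
    simp only [this, if_neg hq, Nat.sub_zero]

lemma degree_one (U : Finset P) : (one U).degree = U.card := by
  rw [Finsupp.degree_eq_sum]
  simp only [one_apply]
  rw [Finset.sum_ite_mem, Finset.univ_inter, Finset.sum_const, smul_eq_mul, mul_one]

variable (K) in
/-- Substitute for each variable the sum of the formal variables of the positions it occupies. -/
noncomputable def phi (y : P → A) : MvPolynomial A K →ₐ[K] MvPolynomial P K :=
  aeval (fun a => ∑ p ∈ Finset.univ.filter (fun p => y p = a), X p)

/-- Polarization: the coefficient of the product of the variables of the positions in `U`. -/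
noncomputable def pol (U : Finset P) (w : MvPolynomial A K) (y : P → A) : K :=
  coeff (one U) (phi K y w)

lemma pol_add (U : Finset P) (w w' : MvPolynomial A K) (y : P → A) :
    pol U (w + w') y = pol U w y + pol U w' y := by
  unfold pol
  rw [map_add, coeff_add]

lemma pol_zero (U : Finset P) (y : P → A) : pol U (0 : MvPolynomial A K) y = 0 := by
  unfold pol
  rw [map_zero, coeff_zero]

lemma pol_sum {ι : Type*} (s : Finset ι) (U : Finset P) (w : ι → MvPolynomial A K) (y : P → A) :
    pol U (∑ i ∈ s, w i) y = ∑ i ∈ s, pol U (w i) y := by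
  unfold pol
  rw [map_sum, coeff_sum]

lemma pol_C (U : Finset P) (c : K) (y : P → A) :
    pol U (C c : MvPolynomial A K) y = if U = ∅ then c else 0 := by
  unfold pol phi
  rw [algHom_C, algebraMap_eq, coeff_C]
  simp only [one_eq_zero_iff]

lemma pol_C_mul (U : Finset P) (c : K) (w : MvPolynomial A K) (y : P → A) :
    pol U (C c * w) y = c * pol U w y := by
  unfold pol
  rw [map_mul]
  have : phi K y (C c) = C c := by
    unfold phi
    rw [algHom_C, algebraMap_eq]
  rw [this, coeff_C_mul]

lemma pol_mul_X (U : Finset P) (w : MvPolynomial A K) (a : A) (y : P → A) :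
    pol U (w * X a) y = ∑ p ∈ U.filter (fun p => y p = a), pol (U.erase p) w y := by
  unfold pol
  rw [map_mul]
  have h1 : phi K y (X a) = ∑ p ∈ Finset.univ.filter (fun p => y p = a), X p := by
    unfold phi
    rw [aeval_X]
  rw [h1, Finset.mul_sum, coeff_sum]
  simp only [coeff_mul_X']
  have h2 : ∀ p, p ∈ (one U).support ↔ p ∈ U := by
    intro p
    rw [Finsupp.mem_support_iff, one_apply]
    by_cases hp : p ∈ U <;> simp [hp]
  simp only [h2]
  rw [← Finset.sum_filter]
  have h3 : (Finset.univ.filter (fun p => y p = a)).filter (fun p => p ∈ U) =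
      U.filter (fun p => y p = a) := by
    ext p
    simp only [Finset.mem_filter, Finset.mem_univ, true_and]
    tauto
  rw [h3]
  refine Finset.sum_congr rfl fun p hp => ?_
  rw [one_sub_single (Finset.mem_filter.mp hp).1]

/-- Polarization only depends on the coordinates in `U`. -/
lemma pol_congr (w : MvPolynomial A K) : ∀ (U : Finset P) (y y' : P → A),
    (∀ p ∈ U, y p = y' p) → pol U w y = pol U w y' := by
  induction w using MvPolynomial.induction_on with
  | C c =>
    intro U y y' _
    rw [pol_C, pol_C]
  | add p q hp hq =>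
    intro U y y' h
    rw [pol_add, pol_add, hp U y y' h, hq U y y' h]
  | mul_X p a hp =>
    intro U y y' h
    rw [pol_mul_X, pol_mul_X]
    have h1 : U.filter (fun p => y p = a) = U.filter (fun p => y' p = a) := by
      apply Finset.filter_congr
      intro q hq
      rw [h q hq]
    rw [h1]
    refine Finset.sum_congr rfl fun q hq => ?_
    exact hp (U.erase q) y y' fun r hr => h r (Finset.mem_of_mem_erase hr)

/-- Product rule. -/
lemma pol_mul (U : Finset P) (w f : MvPolynomial A K) (y : P → A) :
    pol U (w * f) y = ∑ V ∈ U.powerset, pol V w y * pol (U \ V) f y := by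
  unfold pol
  rw [map_mul, coeff_mul]
  symm
  refine Finset.sum_nbij' (fun V => (one V, one (U \ V))) (fun x => x.1.support) ?_ ?_ ?_ ?_ ?_
  · intro V hV
    rw [Finset.mem_powerset] at hV
    rw [Finset.HasAntidiagonal.mem_antidiagonal]
    ext p
    simp only [Finsupp.add_apply, one_apply, Finset.mem_sdiff]
    by_cases h1 : p ∈ V
    · simp [h1, hV h1]
    · by_cases h2 : p ∈ U <;> simp [h1, h2]
  · rintro ⟨a, b⟩ hab
    rw [Finset.HasAntidiagonal.mem_antidiagonal] at hab
    simp only at hab ⊢
    rw [Finset.mem_powerset]
    intro p hp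
    rw [Finsupp.mem_support_iff] at hp
    have h1 := DFunLike.congr_fun hab p
    rw [Finsupp.add_apply, one_apply] at h1
    by_contra h2
    rw [if_neg h2] at h1
    omega
  · intro V _
    ext p
    rw [Finsupp.mem_support_iff, one_apply]
    by_cases h1 : p ∈ V <;> simp [h1]
  · rintro ⟨a, b⟩ hab
    rw [Finset.HasAntidiagonal.mem_antidiagonal] at hab
    simp only at hab ⊢
    have h1 : ∀ p, a p + b p = if p ∈ U then 1 else 0 := by
      intro p
      have := DFunLike.congr_fun hab p
      rwa [Finsupp.add_apply, one_apply] at this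
    rw [Prod.mk.injEq]
    constructor
    · ext p
      have h2 := h1 p
      rw [one_apply]
      by_cases h3 : a p = 0
      · rw [if_neg (by rw [Finsupp.mem_support_iff]; simpa using h3)]
        exact h3.symm
      · rw [if_pos (by rw [Finsupp.mem_support_iff]; exact h3)]
        split_ifs at h2 <;> omega
    · ext p
      have h2 := h1 p
      rw [one_apply]
      by_cases h3 : p ∈ U \ a.support
      · rw [if_pos h3]
        rw [Finset.mem_sdiff, Finsupp.mem_support_iff, not_not] at h3
        rw [if_pos h3.1, h3.2] at h2
        omega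
      · rw [if_neg h3]
        rw [Finset.mem_sdiff, Finsupp.mem_support_iff] at h3
        by_cases h4 : p ∈ U
        · rw [if_pos h4] at h2
          have h5 : a p ≠ 0 := by tauto
          omega
        · rw [if_neg h4] at h2
          omega
  · intro V _
    rfl

/-- Homogeneity. -/
lemma pol_eq_zero_of_card {e : ℕ} {w : MvPolynomial A K} (hw : w.IsHomogeneous e)
    (U : Finset P) (hU : U.card ≠ e) (y : P → A) : pol U w y = 0 := by
  unfold pol phi
  have h1 := hw.aeval (τ := P) (n := 1) (fun a => ∑ p ∈ Finset.univ.filter (fun p => y p = a), X p)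
    (fun a => IsHomogeneous.sum _ _ _ fun p _ => isHomogeneous_X K p)
  rw [one_mul] at h1
  exact h1.coeff_eq_zero (by rw [degree_one]; exact hU)

/-- Polarization of a derivative. -/
lemma pol_pderiv (a : A) (w : MvPolynomial A K) : ∀ (U : Finset P) (p : P), p ∉ U →
    ∀ y : P → A, pol U (pderiv a w) y = pol (insert p U) w (Function.update y p a) := by
  induction w using MvPolynomial.induction_on with
  | C c =>
    intro U p _ y
    rw [pderiv_C, pol_zero, pol_C, if_neg (Finset.insert_ne_empty _ _)]
  | add f g hf hg =>
    intro U p hp y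
    rw [map_add, pol_add, pol_add, hf U p hp y, hg U p hp y]
  | mul_X f b hf =>
    intro U p hp y
    have hcongr : ∀ V : Finset P, p ∉ V → ∀ g : MvPolynomial A K,
        pol V g (Function.update y p a) = pol V g y := by
      intro V hV g
      apply pol_congr
      intro q hq
      rw [Function.update_of_ne (fun h : q = p => hV (h ▸ hq))]
    rw [pderiv_mul, pol_add, pol_mul_X, pol_mul_X]
    have h1 : ∀ q ∈ U, (Function.update y p a q = b ↔ y q = b) := by
      intro q hq
      rw [Function.update_of_ne (fun h : q = p => hp (h ▸ hq))]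
    rw [Finset.filter_insert, Function.update_self, Finset.filter_congr h1]
    have h2 : ∑ q ∈ U.filter (fun q => y q = b), pol (U.erase q) (pderiv a f) y =
        ∑ q ∈ U.filter (fun q => y q = b),
          pol ((insert p U).erase q) f (Function.update y p a) := by
      refine Finset.sum_congr rfl fun q hq => ?_
      have hqU := (Finset.mem_filter.mp hq).1
      have hqp : q ≠ p := fun h => hp (h ▸ hqU)
      rw [hf (U.erase q) p (fun h => hp (Finset.mem_of_mem_erase h)) y,
        Finset.erase_insert_of_ne hqp.symm]
    rw [h2]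
    by_cases hab : a = b
    · subst hab
      rw [if_pos rfl, pderiv_X_self, mul_one, Finset.sum_insert, Finset.erase_insert hp,
        hcongr U hp, add_comm]
      intro h
      exact hp (Finset.mem_filter.mp h).1
    · rw [if_neg hab, pderiv_X_of_ne (fun h => hab h.symm), mul_zero, pol_zero, add_zero]

variable (K) in
/-- Restitution. -/
noncomputable def rho (U : Finset P) : ((P → A) → K) →ₗ[K] MvPolynomial A K where
  toFun φ := ∑ y : P → A, φ y • ∏ p ∈ U, X (y p)
  map_add' φ ψ := by
    simp only [Pi.add_apply, add_smul, Finset.sum_add_distrib]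
  map_smul' c φ := by
    simp only [Pi.smul_apply, smul_eq_mul, mul_smul, Finset.smul_sum, RingHom.id_apply]

lemma rho_apply (U : Finset P) (φ : (P → A) → K) :
    rho K U φ = ∑ y : P → A, φ y • ∏ p ∈ U, (X (y p) : MvPolynomial A K) := rfl

lemma sum_update {M : Type*} [AddCommMonoid M] (p : P) (F : (P → A) → M) :
    ∑ a : A, ∑ y : P → A, F (Function.update y p a) = Fintype.card A • ∑ y : P → A, F y := by
  rw [← Finset.sum_product', ← Finset.card_univ, ← Finset.sum_const, ← Finset.sum_product']
  refine Finset.sum_nbij' (fun x => (x.2 p, Function.update x.2 p x.1))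
    (fun x => (x.2 p, Function.update x.2 p x.1)) ?_ ?_ ?_ ?_ ?_
  · intro x _; simp
  · intro x _; simp
  · rintro ⟨a, y⟩ _
    simp
  · rintro ⟨a, y⟩ _
    simp
  · rintro ⟨a, y⟩ _
    rfl

/-- Restitution of a polarization. -/
lemma rho_pol (U : Finset P) : ∀ w : MvPolynomial A K, w.IsHomogeneous U.card →
    Fintype.card A ^ U.card • rho K U (pol U w) =
      (Fintype.card A ^ Fintype.card P * U.card.factorial) • w := by
  induction U using Finset.induction_on with
  | empty =>
    intro w hw
    rw [Finset.card_empty, ← totalDegree_zero_iff_isHomogeneous,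
      totalDegree_eq_zero_iff_eq_C] at hw
    rw [hw, rho_apply]
    simp only [pol_C, if_true, Finset.prod_empty, Finset.card_empty, pow_zero, one_smul,
      Finset.sum_const, Finset.card_univ, Fintype.card_fun, Nat.factorial_zero, mul_one]
    rw [smul_eq_C_mul, mul_one]
  | insert p U hp ih =>
    intro w hw
    rw [Finset.card_insert_of_notMem hp] at hw ⊢
    have hEuler := hw.sum_X_mul_pderiv
    have h1 : Fintype.card A • rho K (insert p U) (pol (insert p U) w) =
        ∑ a : A, X a * rho K U (pol U (pderiv a w)) := by
      rw [rho_apply, ← sum_update p]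
      refine Finset.sum_congr rfl fun a _ => ?_
      rw [rho_apply, Finset.mul_sum]
      refine Finset.sum_congr rfl fun y _ => ?_
      rw [pol_pderiv a w U p hp y, Finset.prod_insert hp, Function.update_self, mul_smul_comm]
      congr 2
      refine Finset.prod_congr rfl fun q hq => ?_
      rw [Function.update_of_ne (fun h : q = p => hp (h ▸ hq))]
    rw [pow_succ, mul_smul, h1, Finset.smul_sum]
    have h2 : ∀ a : A, Fintype.card A ^ U.card • (X a * rho K U (pol U (pderiv a w))) =
        (Fintype.card A ^ Fintype.card P * U.card.factorial) • (X a * pderiv a w) := by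
      intro a
      rw [← mul_smul_comm, ih (pderiv a w) (by
        have := hw.pderiv (i := a)
        simpa using this), mul_smul_comm]
    rw [Finset.sum_congr rfl fun a _ => h2 a, ← Finset.smul_sum, hEuler, smul_smul,
      Nat.factorial_succ]
    congr 1
    ring

/-- Restitution of a product. -/
lemma rho_mul (U V : Finset P) (hVU : V ⊆ U) (φ ψ : (P → A) → K)
    (hφ : ∀ x y, (∀ p ∈ V, x p = y p) → φ x = φ y)
    (hψ : ∀ x y, (∀ p ∈ U \ V, x p = y p) → ψ x = ψ y) :
    Fintype.card (P → A) • rho K U (φ * ψ) = rho K V φ * rho K (U \ V) ψ := by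
  rw [rho_apply, rho_apply, rho_apply, Finset.sum_mul_sum, ← Finset.card_univ,
    ← Finset.sum_const, ← Finset.sum_product', ← Finset.sum_product']
  let mix : (P → A) → (P → A) → (P → A) := fun y y' p => if p ∈ V then y p else y' p
  refine Finset.sum_nbij' (fun x => (mix x.2 x.1, mix x.1 x.2))
    (fun x => (mix x.2 x.1, mix x.1 x.2)) ?_ ?_ ?_ ?_ ?_
  · intro x _; simp
  · intro x _; simp
  · rintro ⟨y, y'⟩ _
    simp only [Prod.mk.injEq]
    constructor <;>
    · funext p
      simp only [mix]
      by_cases hp : p ∈ V <;> simp [hp]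
  · rintro ⟨y, y'⟩ _
    simp only [Prod.mk.injEq]
    constructor <;>
    · funext p
      simp only [mix]
      by_cases hp : p ∈ V <;> simp [hp]
  · rintro ⟨y, y'⟩ _
    simp only
    have h1 : φ (mix y' y) = φ y' := hφ _ _ fun p hp => by simp [mix, hp]
    have h2 : ψ (mix y y') = ψ y' := hψ _ _ fun p hp => by
      simp [mix, (Finset.mem_sdiff.mp hp).2]
    have h3 : ∏ p ∈ V, (X (mix y' y p) : MvPolynomial A K) = ∏ p ∈ V, X (y' p) :=
      Finset.prod_congr rfl fun p hp => by simp [mix, hp]
    have h4 : ∏ p ∈ U \ V, (X (mix y y' p) : MvPolynomial A K) = ∏ p ∈ U \ V, X (y' p) :=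
      Finset.prod_congr rfl fun p hp => by simp [mix, (Finset.mem_sdiff.mp hp).2]
    rw [h1, h2, h3, h4, smul_mul_smul_comm, Pi.mul_apply]
    congr 1
    rw [mul_comm]
    exact (Finset.prod_sdiff hVU).symm

end Pool.Agent.H21
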