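import Pool.Agent.H21.Pol
import Pool.Agent.H21.ClaimAll

/-!
The polynomial system attached to a labelled system, and its derivative property.
-/

set_option linter.unusedSectionVars false

namespace Pool.Agent.H21

open scoped Classical
open MvPolynomial

variable {K : Type} [Field K] {P : Type} [Fintype P] {A : Type} [Fintype A] [Nonempty A]

/-- The variables in block `i`. -/
noncomputable def BB (blk : A → ℕ) (i : ℕ) : Finset A := Finset.univ.filter (fun a => blk a = i)

lemma mem_BB {blk : A → ℕ} {i : ℕ} {a : A} : a ∈ BB blk i ↔ blk a = i := by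
  unfold BB
  rw [Finset.mem_filter]
  exact ⟨fun h => h.2, fun h => ⟨Finset.mem_univ _, h⟩⟩

/-- Extend a point with coordinates in `T`. -/
noncomputable def extl (T : Finset ℕ) (z : ↥T → A) : ℕ → A :=
  fun i => if h : i ∈ T then z ⟨i, h⟩ else Classical.arbitrary A

lemma extl_apply (T : Finset ℕ) (z : ↥T → A) (i : ↥T) : extl T z i.1 = z i := by
  unfold extl
  rw [dif_pos i.2]

/-- The polynomial attached to a function of labelled variables. -/
noncomputable def fpol (blk : A → ℕ) (t : Sys K A) (T : Finset ℕ) (l : ℕ) : MvPolynomial A K :=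
  ∑ z : ↥T → A, (if ∀ i : ↥T, blk (z i) = i.1 then t T l (extl T z) else 0) • ∏ i : ↥T, X (z i)

lemma prod_X_homogeneous {ι : Type*} (s : Finset ι) (z : ι → A) :
    (∏ i ∈ s, (X (z i) : MvPolynomial A K)).IsHomogeneous s.card := by
  have h := IsHomogeneous.prod s (fun i => (X (z i) : MvPolynomial A K)) (fun _ => 1)
    (fun i _ => isHomogeneous_X K (z i))
  simpa using h

lemma fpol_homogeneous (blk : A → ℕ) (t : Sys K A) (T : Finset ℕ) (l : ℕ) :
    (fpol blk t T l).IsHomogeneous T.card := by
  unfold fpol
  apply IsHomogeneous.sum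
  intro z _
  have h := prod_X_homogeneous (K := K) (Finset.univ : Finset ↥T) z
  rw [Finset.card_univ, Fintype.card_coe] at h
  rw [smul_eq_C_mul]
  exact h.C_mul _

/-- Polarization of a monomial with one variable in each block of `T`. -/
lemma pol_prod_X (blk : A → ℕ) (z : ℕ → A) (T : Finset ℕ) : (∀ i ∈ T, blk (z i) = i) →
    ∀ (V : Finset P) (y : P → A), pol V (∏ i ∈ T, (X (z i) : MvPolynomial A K)) y =
      if Set.InjOn (fun p => blk (y p)) V ∧ V.image (fun p => blk (y p)) = T ∧
        ∀ p ∈ V, z (blk (y p)) = y p then 1 else 0 := by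
  induction T using Finset.induction_on with
  | empty =>
    intro _ V y
    rw [Finset.prod_empty, ← C_1, pol_C]
    by_cases hV : V = ∅
    · subst hV
      simp
    · rw [if_neg hV, if_neg]
      rintro ⟨_, h, _⟩
      exact hV (Finset.image_eq_empty.mp h)
  | insert i T hi ih =>
    intro hz V y
    rw [Finset.prod_insert hi, mul_comm, pol_mul_X]
    have hz' : ∀ j ∈ T, blk (z j) = j := fun j hj => hz j (Finset.mem_insert_of_mem hj)
    have hzi : blk (z i) = i := hz i (Finset.mem_insert_self _ _)
    rw [Finset.sum_congr rfl fun p _ => ih hz' (V.erase p) y]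
    by_cases hc : Set.InjOn (fun p => blk (y p)) V ∧ V.image (fun p => blk (y p)) = insert i T ∧
        ∀ p ∈ V, z (blk (y p)) = y p
    · rw [if_pos hc]
      obtain ⟨hinj, himg, hall⟩ := hc
      obtain ⟨p₀, hp₀, hp₀i⟩ : ∃ p₀ ∈ V, blk (y p₀) = i := by
        have : i ∈ V.image (fun p => blk (y p)) := by
          rw [himg]
          exact Finset.mem_insert_self _ _
        obtain ⟨p₀, hp₀, h⟩ := Finset.mem_image.mp this
        exact ⟨p₀, hp₀, h⟩
      have hyp₀ : y p₀ = z i := by
        rw [← hall p₀ hp₀, hp₀i]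
      rw [Finset.sum_eq_single p₀]
      · rw [if_pos]
        refine ⟨hinj.mono (by exact_mod_cast Finset.erase_subset _ _), ?_, ?_⟩
        · ext j
          rw [Finset.mem_image]
          constructor
          · rintro ⟨p, hp, rfl⟩
            rw [Finset.mem_erase] at hp
            have h1 : blk (y p) ∈ insert i T := by
              rw [← himg]
              exact Finset.mem_image.mpr ⟨p, hp.2, rfl⟩
            rcases Finset.mem_insert.mp h1 with h2 | h2
            · exact absurd (hinj hp.2 hp₀ (by simp only; rw [h2, hp₀i])) hp.1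
            · exact h2
          · intro hj
            have h1 : j ∈ V.image (fun p => blk (y p)) := by
              rw [himg]
              exact Finset.mem_insert_of_mem hj
            obtain ⟨p, hp, hpj⟩ := Finset.mem_image.mp h1
            refine ⟨p, Finset.mem_erase.mpr ⟨fun h => hi ?_, hp⟩, hpj⟩
            rw [← hp₀i, ← h, hpj]
            exact hj
        · intro p hp
          exact hall p (Finset.mem_of_mem_erase hp)
      · intro p hp hpp₀
        rw [Finset.mem_filter] at hp
        exfalso
        apply hpp₀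
        apply hinj hp.1 hp₀
        simp only
        rw [hp.2, hyp₀]
      · intro h
        exact absurd (Finset.mem_filter.mpr ⟨hp₀, hyp₀⟩) h
    · rw [if_neg hc]
      apply Finset.sum_eq_zero
      intro p hp
      rw [Finset.mem_filter] at hp
      rw [if_neg]
      rintro ⟨hinj, himg, hall⟩
      apply hc
      have hpi : blk (y p) = i := by rw [hp.2, hzi]
      refine ⟨?_, ?_, ?_⟩
      · intro q hq q' hq' hqq'
        simp only at hqq'
        by_cases h1 : q = p
        · by_cases h2 : q' = p
          · rw [h1, h2]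
          · exfalso
            apply hi
            rw [← himg, Finset.mem_image]
            exact ⟨q', Finset.mem_erase.mpr ⟨h2, hq'⟩, by rw [← hqq', h1, hpi]⟩
        · by_cases h2 : q' = p
          · exfalso
            apply hi
            rw [← himg, Finset.mem_image]
            exact ⟨q, Finset.mem_erase.mpr ⟨h1, hq⟩, by rw [hqq', h2, hpi]⟩
          · exact hinj (Finset.mem_coe.mpr (Finset.mem_erase.mpr ⟨h1, hq⟩))
              (Finset.mem_coe.mpr (Finset.mem_erase.mpr ⟨h2, hq'⟩)) hqq'
      · have h1 := Finset.image_insert (fun p => blk (y p)) p (V.erase p)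
        rw [Finset.insert_erase hp.1] at h1
        simp only [himg, hpi] at h1
        exact h1
      · intro q hq
        by_cases h1 : q = p
        · rw [h1, hpi, hp.2]
        · exact hall q (Finset.mem_erase.mpr ⟨h1, hq⟩)

/-- Polarization of the polynomial of a function. -/
lemma pol_fpol (blk : A → ℕ) {t : Sys K A} (ht : t ∈ adm K A) (T : Finset ℕ) (l : ℕ)
    (lam : P → ℕ) (V : Finset P) (y : P → A) (hy : ∀ p ∈ V, blk (y p) = lam p) :
    pol V (fpol blk t T l) y =
      if Set.InjOn lam V ∧ V.image lam = T then t T l (liftx lam V y) else 0 := by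
  unfold fpol
  rw [pol_sum]
  have hterm : ∀ z : ↥T → A,
      pol V ((if ∀ i : ↥T, blk (z i) = i.1 then t T l (extl T z) else 0) •
        ∏ i : ↥T, (X (z i) : MvPolynomial A K)) y =
      if (∀ i : ↥T, blk (z i) = i.1) ∧ (Set.InjOn lam V ∧ V.image lam = T) ∧
        ∀ p ∈ V, extl T z (lam p) = y p then t T l (extl T z) else 0 := by
    intro z
    rw [smul_eq_C_mul, pol_C_mul]
    by_cases hz : ∀ i : ↥T, blk (z i) = i.1
    · rw [if_pos hz]
      have h1 : ∏ i : ↥T, (X (z i) : MvPolynomial A K) = ∏ i ∈ T, X (extl T z i) := by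
        rw [← Finset.prod_coe_sort T (fun i => (X (extl T z i) : MvPolynomial A K))]
        exact Finset.prod_congr rfl fun i _ => by rw [extl_apply]
      rw [h1, pol_prod_X blk (extl T z) T (fun i hi => by
        have := hz ⟨i, hi⟩
        rw [← extl_apply T z ⟨i, hi⟩] at this
        exact this) V y]
      have h2 : Set.InjOn (fun p => blk (y p)) V ↔ Set.InjOn lam V := by
        constructor
        · intro h p hp q hq hpq
          exact h hp hq (by simp only; rw [hy p hp, hy q hq, hpq])
        · intro h p hp q hq hpq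
          simp only at hpq
          rw [hy p hp, hy q hq] at hpq
          exact h hp hq hpq
      have h3 : V.image (fun p => blk (y p)) = V.image lam :=
        Finset.image_congr fun p hp => hy p hp
      have h4 : (∀ p ∈ V, extl T z (blk (y p)) = y p) ↔ ∀ p ∈ V, extl T z (lam p) = y p := by
        constructor
        · intro h p hp
          rw [← hy p hp]
          exact h p hp
        · intro h p hp
          rw [hy p hp]
          exact h p hp
      rw [h3]
      simp only [h2, h4]
      by_cases hc : Set.InjOn lam V ∧ V.image lam = T ∧ ∀ p ∈ V, extl T z (lam p) = y p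
      · rw [if_pos hc, if_pos ⟨hz, ⟨hc.1, hc.2.1⟩, hc.2.2⟩, mul_one]
      · rw [if_neg hc, if_neg (fun h => hc ⟨h.2.1.1, h.2.1.2, h.2.2⟩), mul_zero]
    · rw [if_neg hz, zero_mul, if_neg (fun h => hz h.1)]
  rw [Finset.sum_congr rfl fun z _ => hterm z]
  by_cases hc : Set.InjOn lam V ∧ V.image lam = T
  · rw [if_pos hc]
    obtain ⟨hinj, himg⟩ := hc
    set z₀ : ↥T → A := fun i => liftx lam V y i.1 with hz₀
    have hlab : ∀ i : ↥T, ∃ p ∈ V, lam p = i.1 := by
      rintro ⟨i, hi⟩
      rw [← himg] at hi
      obtain ⟨p, hp, h⟩ := Finset.mem_image.mp hi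
      exact ⟨p, hp, h⟩
    have hmemT : ∀ p ∈ V, lam p ∈ T := fun p hp => by
      rw [← himg]
      exact Finset.mem_image_of_mem lam hp
    have hext : ∀ i ∈ T, extl T z₀ i = liftx lam V y i := by
      intro i hi
      rw [extl_apply T z₀ ⟨i, hi⟩]
    rw [Finset.sum_eq_single z₀]
    · rw [if_pos]
      · exact ht T l _ _ hext
      · refine ⟨?_, ⟨hinj, himg⟩, ?_⟩
        · intro i
          obtain ⟨p, hp, hpi⟩ := hlab i
          simp only [hz₀]
          rw [← hpi, liftx_apply hinj y hp, hy p hp]
        · intro p hp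
          rw [hext _ (hmemT p hp), liftx_apply hinj y hp]
    · intro z _ hzz
      rw [if_neg]
      rintro ⟨_, _, h⟩
      apply hzz
      funext i
      obtain ⟨p, hp, hpi⟩ := hlab i
      have h1 := h p hp
      rw [hpi, extl_apply] at h1
      simp only [hz₀]
      rw [h1, ← hpi, liftx_apply hinj y hp]
    · intro h
      exact absurd (Finset.mem_univ _) h
  · rw [if_neg hc]
    apply Finset.sum_eq_zero
    intro z _
    rw [if_neg (fun h => hc h.2.1)]

/-- Restitution of a generator. -/
lemma rho_gen (blk : A → ℕ) {t : Sys K A} (ht : t ∈ adm K A) (lam : P → ℕ) (V : Finset P)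
    (hinj : Set.InjOn lam V) (l : ℕ) :
    ∃ c : ℕ, rho K V (hb Prod.fst (HL lam t) (fun p => BB blk (lam p)) (V, l)) =
      c • fpol blk t (V.image lam) l := by
  set T := V.image lam with hT
  let eT : {p // p ∈ V} ≃ ↥T := Equiv.ofBijective
    (fun p => ⟨lam p.1, Finset.mem_image_of_mem lam p.2⟩) (by
      constructor
      · intro p q hpq
        apply Subtype.ext
        exact hinj p.2 q.2 (congrArg Subtype.val hpq)
      · intro i
        obtain ⟨p, hp, hpi⟩ := Finset.mem_image.mp i.2
        exact ⟨⟨p, hp⟩, Subtype.ext hpi⟩)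
  have heT : ∀ p, (eT p).1 = lam p.1 := fun p => rfl
  let G : ({p // p ∈ V} → A) → MvPolynomial A K := fun u =>
    (if ∀ p : {p // p ∈ V}, blk (u p) = lam p.1 then
      t T l (extl T (fun i => u (eT.symm i))) else 0) • ∏ p : {p // p ∈ V}, X (u p)
  refine ⟨Fintype.card ({p // ¬ p ∈ V} → A), ?_⟩
  have h1 : rho K V (hb Prod.fst (HL lam t) (fun p => BB blk (lam p)) (V, l)) =
      ∑ y : P → A, G (fun p => y p.1) := by
    rw [rho_apply]
    refine Finset.sum_congr rfl fun y _ => ?_
    have h2 : ∏ p : {p // p ∈ V}, (X (y p.1) : MvPolynomial A K) = ∏ p ∈ V, X (y p) :=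
      Finset.prod_coe_sort V (fun p => (X (y p) : MvPolynomial A K))
    simp only [G]
    rw [h2]
    congr 1
    simp only [hb, bx, HL, Pi.mul_apply]
    by_cases hc : ∀ p ∈ V, y p ∈ BB blk (lam p)
    · rw [if_pos hc, one_mul, if_pos]
      · apply ht
        intro i hi
        obtain ⟨p, hp, hpi⟩ := Finset.mem_image.mp hi
        rw [← hpi, liftx_apply hinj y hp]
        have h3 : extl T (fun i => y (eT.symm i).1) (lam p) = y p := by
          rw [extl_apply T _ ⟨lam p, Finset.mem_image_of_mem lam hp⟩]
          have h4 : eT.symm ⟨lam p, Finset.mem_image_of_mem lam hp⟩ = ⟨p, hp⟩ := by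
            rw [Equiv.symm_apply_eq]
            rfl
          rw [h4]
        exact h3.symm
      · intro p
        exact mem_BB.mp (hc p.1 p.2)
    · rw [if_neg hc, zero_mul, if_neg]
      intro h
      apply hc
      intro p hp
      exact mem_BB.mpr (h ⟨p, hp⟩)
  rw [h1]
  have h2 : ∑ y : P → A, G (fun p => y p.1) =
      Fintype.card ({p // ¬ p ∈ V} → A) • ∑ u : {p // p ∈ V} → A, G u := by
    rw [← Equiv.sum_comp (Equiv.piEquivPiSubtypeProd (fun p => p ∈ V) (fun _ => A)).symm]
    rw [Fintype.sum_prod_type, Finset.smul_sum]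
    refine Finset.sum_congr rfl fun u _ => ?_
    rw [← Finset.card_univ, ← Finset.sum_const]
    refine Finset.sum_congr rfl fun v _ => ?_
    congr 1
    funext p
    simp [Equiv.piEquivPiSubtypeProd]
  rw [h2]
  congr 1
  unfold fpol
  rw [← Equiv.sum_comp (Equiv.arrowCongr eT (Equiv.refl A)).symm]
  refine Finset.sum_congr rfl fun z _ => ?_
  have h3 : ((Equiv.arrowCongr eT (Equiv.refl A)).symm z) = fun p => z (eT p) := by
    funext p
    rfl
  rw [h3]
  simp only [G]
  have h4 : ∏ p : {p // p ∈ V}, (X (z (eT p)) : MvPolynomial A K) = ∏ i : ↥T, X (z i) :=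
    Equiv.prod_comp eT (fun i => (X (z i) : MvPolynomial A K))
  rw [h4]
  congr 1
  have h5 : (∀ p : {p // p ∈ V}, blk (z (eT p)) = lam p.1) ↔ ∀ i : ↥T, blk (z i) = i.1 := by
    constructor
    · intro h i
      have := h (eT.symm i)
      rw [Equiv.apply_symm_apply, ← heT, Equiv.apply_symm_apply] at this
      exact this
    · intro h p
      rw [h (eT p), heT]
  have h6 : (fun i => z (eT (eT.symm i))) = z := by
    funext i
    rw [Equiv.apply_symm_apply]
  simp only [h5, h6]

end Pool.Agent.H21
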