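import Pool.Agent.H21.Pol2

/-!
The derivative property of the polynomial system.
-/

set_option linter.unusedSectionVars false

namespace Pool.Agent.H21

open scoped Classical
open MvPolynomial

variable {K : Type} [Field K] {P : Type} [Fintype P] {A : Type} [Fintype A] [Nonempty A]

/-- The ideal of the polynomial system. -/
noncomputable def fI (blk : A → ℕ) (t : Sys K A) (GI : Finset (Finset ℕ × ℕ)) :
    Ideal (MvPolynomial A K) :=
  Ideal.span ((fun x : Finset ℕ × ℕ => fpol blk t x.1 x.2) '' (GI : Set (Finset ℕ × ℕ)))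

lemma fpol_mem_fI {blk : A → ℕ} {t : Sys K A} {GI : Finset (Finset ℕ × ℕ)} {x : Finset ℕ × ℕ}
    (hx : x ∈ GI) : fpol blk t x.1 x.2 ∈ fI blk t GI :=
  Ideal.subset_span ⟨x, by exact_mod_cast hx, rfl⟩

lemma bx_mul_pol_mem (B : P → Finset A) (V : Finset P) (w : MvPolynomial A K) :
    (bx K B V * pol V w) ∈ MM K B V :=
  bx_mul_mem fun x y hxy => pol_congr w V x y hxy

/-- Polarizations of elements of the ideal. -/
lemma pol_mem_JJ {blk : A → ℕ} {t : Sys K A} (ht : t ∈ adm K A) {GI : Finset (Finset ℕ × ℕ)}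
    {d : ℕ} {C : Finset ℕ → Finset ℕ} (hGI : ∀ x ∈ GI, x.1.card = d ∧ x.2 ∈ C x.1)
    (lam : P → ℕ) {g : MvPolynomial A K} (hg : g ∈ fI blk t GI) :
    ∀ U : Finset P, (bx K (fun p => BB blk (lam p)) U * pol U g) ∈
      JJ (fun p => BB blk (lam p)) Prod.fst (hb Prod.fst (HL lam t) (fun p => BB blk (lam p)))
        (fam (CL d lam C)) U := by
  unfold fI at hg
  refine Submodule.span_induction ?_ ?_ ?_ ?_ hg
  · rintro _ ⟨⟨T, l⟩, hx, rfl⟩ U
    obtain ⟨hTd, hlC⟩ := hGI (T, l) (by exact_mod_cast hx)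
    simp only at hTd hlC ⊢
    by_cases hc : Set.InjOn lam (U : Set P) ∧ U.image lam = T
    · have hmem : (U, l) ∈ fam (CL d lam C) := by
        rw [mem_fam]
        unfold CL
        simp only
        rw [if_pos, hc.2]
        · exact hlC
        · refine ⟨?_, hc.1⟩
          rw [← hTd, ← hc.2, Finset.card_image_of_injOn hc.1]
      have h1 : (1 : (P → A) → K) ∈ MM K (fun p => BB blk (lam p)) (U \ U) := by
        rw [Finset.sdiff_self]
        refine ⟨fun _ _ _ => rfl, fun x hx => ?_⟩
        obtain ⟨p, hp, _⟩ := hx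
        simp at hp
      have h2 := mem_JJ (h := hb Prod.fst (HL lam t) (fun p => BB blk (lam p)))
        (supp := Prod.fst) hmem (Finset.Subset.refl U) h1
      rw [mul_one] at h2
      convert h2 using 1
      funext y
      simp only [hb, HL, bx, Pi.mul_apply]
      by_cases hy : ∀ p ∈ U, y p ∈ BB blk (lam p)
      · rw [if_pos hy, one_mul, one_mul,
          pol_fpol blk ht T l lam U y (fun p hp => mem_BB.mp (hy p hp)), if_pos hc, hc.2]
      · rw [if_neg hy, zero_mul, zero_mul]
    · have h1 : bx K (fun p => BB blk (lam p)) U * pol U (fpol blk t T l) = 0 := by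
        funext y
        simp only [bx, Pi.mul_apply]
        by_cases hy : ∀ p ∈ U, y p ∈ BB blk (lam p)
        · rw [if_pos hy, one_mul,
            pol_fpol blk ht T l lam U y (fun p hp => mem_BB.mp (hy p hp)), if_neg hc]
          rfl
        · rw [if_neg hy, zero_mul]
          rfl
      rw [h1]
      exact Submodule.zero_mem _
  · intro U
    have : (bx K (fun p => BB blk (lam p)) U * pol U (0 : MvPolynomial A K)) = 0 := by
      funext y
      simp only [Pi.mul_apply, pol_zero, mul_zero]
      rfl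
    rw [this]
    exact Submodule.zero_mem _
  · intro f g _ _ hf hg U
    have : (bx K (fun p => BB blk (lam p)) U * pol U (f + g)) =
        bx K (fun p => BB blk (lam p)) U * pol U f +
        bx K (fun p => BB blk (lam p)) U * pol U g := by
      funext y
      simp only [Pi.mul_apply, Pi.add_apply, pol_add, mul_add]
    rw [this]
    exact Submodule.add_mem _ (hf U) (hg U)
  · intro r g _ hg U
    rw [smul_eq_mul]
    have : (bx K (fun p => BB blk (lam p)) U * pol U (r * g)) =
        ∑ V ∈ U.powerset, (bx K (fun p => BB blk (lam p)) (U \ V) * pol (U \ V) g) *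
          (bx K (fun p => BB blk (lam p)) V * pol V r) := by
      funext y
      rw [Finset.sum_apply]
      simp only [Pi.mul_apply]
      rw [pol_mul, Finset.mul_sum]
      refine Finset.sum_congr rfl fun V hV => ?_
      rw [Finset.mem_powerset] at hV
      have h3 : bx K (fun p => BB blk (lam p)) U y =
          bx K (fun p => BB blk (lam p)) (U \ V) y * bx K (fun p => BB blk (lam p)) V y := by
        simp only [bx]
        by_cases h4 : ∀ p ∈ U, y p ∈ BB blk (lam p)
        · rw [if_pos h4, if_pos fun p hp => h4 p (Finset.mem_sdiff.mp hp).1,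
            if_pos fun p hp => h4 p (hV hp), one_mul]
        · rw [if_neg h4]
          by_cases h5 : ∀ p ∈ V, y p ∈ BB blk (lam p)
          · rw [if_neg, zero_mul]
            intro h6
            apply h4
            intro p hp
            by_cases hpV : p ∈ V
            · exact h5 p hpV
            · exact h6 p (Finset.mem_sdiff.mpr ⟨hp, hpV⟩)
          · rw [if_neg h5, mul_zero]
      rw [h3]
      ring
    rw [this]
    refine Submodule.sum_mem _ fun V hV => ?_
    rw [Finset.mem_powerset] at hV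
    apply JJ_mul Finset.sdiff_subset (hg (U \ V))
    rw [Finset.sdiff_sdiff_eq_self hV]
    exact bx_mul_pol_mem _ V r

/-- A scalar multiple in the ideal. -/
lemma mem_of_nsmul_mem [CharZero K] {I : Ideal (MvPolynomial A K)} {n : ℕ} (hn : n ≠ 0)
    {g : MvPolynomial A K} (h : n • g ∈ I) : g ∈ I := by
  have h1 : g = C ((n : K)⁻¹) * (n • g) := by
    rw [nsmul_eq_mul, ← mul_assoc, ← map_natCast (C : K →+* MvPolynomial A K), ← C_mul,
      inv_mul_cancel₀ (by exact_mod_cast hn), C_1, one_mul]
  rw [h1]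
  exact I.mul_mem_left _ h

/-- Restitution of elements of the multilinear ideal. -/
lemma rho_mem_fI [CharZero K] {blk : A → ℕ} {t : Sys K A} (ht : t ∈ adm K A)
    {GI : Finset (Finset ℕ × ℕ)} {d : ℕ} {C : Finset ℕ → Finset ℕ} (lam : P → ℕ) (U : Finset P)
    (hGI : ∀ T ⊆ U.image lam, ∀ l, T.card = d → l ∈ C T → (T, l) ∈ GI)
    {φ : (P → A) → K}
    (hφ : φ ∈ JJ (fun p => BB blk (lam p)) Prod.fst
      (hb Prod.fst (HL lam t) (fun p => BB blk (lam p))) (fam (CL d lam C)) U) :
    rho K U φ ∈ fI blk t GI := by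
  unfold JJ at hφ
  refine Submodule.span_induction ?_ ?_ ?_ ?_ hφ
  · rintro _ ⟨⟨V, l⟩, hl, hVU, g, hg, rfl⟩
    rw [mem_fam] at hl
    unfold CL at hl
    simp only at hl hVU hg
    split_ifs at hl with hc
    · have h1 := rho_mul (K := K) U V hVU
        (hb Prod.fst (HL lam t) (fun p => BB blk (lam p)) (V, l)) g
        (hb_mem (fun p => BB blk (lam p)) (HL_mem lam t (V, l))).1 hg.1
      obtain ⟨c, hc'⟩ := rho_gen blk ht lam V hc.2 l
      have h2 : (V.image lam, l) ∈ GI := hGI _ (Finset.image_subset_image hVU) l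
        (by rw [Finset.card_image_of_injOn hc.2, hc.1]) hl
      have h3 : fpol blk t (V.image lam) l ∈ fI blk t GI :=
        fpol_mem_fI (x := (V.image lam, l)) h2
      have h4 : c • fpol blk t (V.image lam) l ∈ fI blk t GI := by
        rw [nsmul_eq_mul]
        exact Ideal.mul_mem_left _ _ h3
      have h5 : rho K V (hb Prod.fst (HL lam t) (fun p => BB blk (lam p)) (V, l)) *
          rho K (U \ V) g ∈ fI blk t GI := by
        rw [hc']
        exact Ideal.mul_mem_right _ _ h4
      rw [← h1] at h5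
      have h6 : Fintype.card (P → A) ≠ 0 := Fintype.card_ne_zero
      exact mem_of_nsmul_mem h6 h5
    · simp at hl
  · rw [map_zero]
    exact Ideal.zero_mem _
  · intro x y _ _ hx hy
    rw [map_add]
    exact Ideal.add_mem _ hx hy
  · intro c x _ hx
    rw [map_smul, smul_eq_C_mul]
    exact Ideal.mul_mem_left _ _ hx

/-- The derivative property, polarized. -/
lemma ds_inj {blk : A → ℕ} {t : Sys K A} (ht : t ∈ adm K A) {GI : Finset (Finset ℕ × ℕ)}
    {d : ℕ} (hd : 1 ≤ d) {C : Finset ℕ → Finset ℕ}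
    (hGI : ∀ x, x ∈ GI ↔ x.1.card = d ∧ x.2 ∈ C x.1) (lam : P → ℕ)
    (hE : LEx d lam (BB blk) C Finset.univ t) (p : P)
    (w : Finset ℕ × ℕ → MvPolynomial A K)
    (hsum : ∀ a, ∑ x ∈ GI, w x * pderiv a (fpol blk t x.1 x.2) ∈ fI blk t GI)
    (T : Finset P) (hpT : p ∈ T) (hTd : T.card = d) (hinj : Set.InjOn lam T) (l : ℕ)
    (hl : l ∈ C (T.image lam)) :
    (bx K (fun p => BB blk (lam p)) (Finset.univ \ T) *
        pol (Finset.univ \ T) (w (T.image lam, l))) ∈
      JJ (fun p => BB blk (lam p)) Prod.fst (hb Prod.fst (HL lam t) (fun p => BB blk (lam p)))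
        (fam (CL d lam C)) (Finset.univ \ T) := by
  set Bp : P → Finset A := fun p => BB blk (lam p) with hBp
  have hne : ∀ l ∈ fam (CL d lam C), (Prod.fst l : Finset P).Nonempty := by
    intro l hl
    rw [mem_fam] at hl
    unfold CL at hl
    split_ifs at hl with h2
    · rw [← Finset.card_pos]
      omega
    · simp at hl
  have hhb : ∀ l ∈ fam (CL d lam C), hb Prod.fst (HL lam t) Bp l ∈ MM K Bp (Prod.fst l) :=
    fun l _ => hb_mem _ (HL_mem lam t l)
  have hInj := Ex.inj hhb hne hE (Finset.Subset.refl _) (Finset.mem_univ p)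
  set W : Finset P × ℕ → ((P → A) → K) := fun l' =>
    bx K Bp (Finset.univ \ l'.1) * pol (Finset.univ \ l'.1) (w (l'.1.image lam, l'.2)) with hW
  have hWm : ∀ l' : Finset P × ℕ, W l' ∈ MM K Bp (Finset.univ \ l'.1) :=
    fun l' => bx_mul_pol_mem _ _ _
  have hSpmem : ∀ l' : Finset P × ℕ, l' ∈ Sp Prod.fst (fam (CL d lam C)) Finset.univ p ↔
      (l'.1.card = d ∧ Set.InjOn lam (l'.1 : Set P)) ∧ l'.2 ∈ C (l'.1.image lam) ∧ p ∈ l'.1 := by
    intro l'
    rw [mem_Sp, mem_fam]
    unfold CL
    constructor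
    · rintro ⟨h1, h2, _⟩
      split_ifs at h1 with h3
      · exact ⟨h3, h1, h2⟩
      · simp at h1
    · rintro ⟨h1, h2, h3⟩
      rw [if_pos h1]
      exact ⟨h2, h3, Finset.subset_univ _⟩
  have hTl : (T, l) ∈ Sp Prod.fst (fam (CL d lam C)) Finset.univ p :=
    (hSpmem (T, l)).mpr ⟨⟨hTd, hinj⟩, hl, hpT⟩
  refine hInj W (fun l' _ => hWm l') ?_ (T, l) hTl
  have hφ : ∑ l' ∈ Sp Prod.fst (fam (CL d lam C)) Finset.univ p,
      hb Prod.fst (HL lam t) Bp l' * W l' ∈ MM K Bp Finset.univ := by
    refine Submodule.sum_mem _ fun l' hl' => ?_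
    refine MM_mul (hhb l' (mem_Sp.mp hl').1) (hWm l') ?_
    exact Finset.union_sdiff_of_subset (Finset.subset_univ _)
  refine mem_JJ_Sn_of_slices (Finset.mem_univ p) hφ ?_
  intro b hb'
  have hkey : sl K p b (∑ l' ∈ Sp Prod.fst (fam (CL d lam C)) Finset.univ p,
      hb Prod.fst (HL lam t) Bp l' * W l') =
      bx K Bp (Finset.univ.erase p) * pol (Finset.univ.erase p)
        (∑ x ∈ GI, w x * pderiv b (fpol blk t x.1 x.2)) := by
    funext y
    rw [sl_apply]
    set y' := Function.update y p b with hy'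
    by_cases hbox : ∀ q ∈ Finset.univ.erase p, y q ∈ Bp q
    · have hbox' : ∀ q, y' q ∈ Bp q := by
        intro q
        by_cases hqp : q = p
        · rw [hqp, hy', Function.update_self]
          exact hb'
        · rw [hy', Function.update_of_ne hqp]
          exact hbox q (Finset.mem_erase.mpr ⟨hqp, Finset.mem_univ q⟩)
      have hblk : ∀ q, blk (y' q) = lam q := fun q => mem_BB.mp (hbox' q)
      rw [Finset.sum_apply, Pi.mul_apply]
      have h1 : bx K Bp (Finset.univ.erase p) y = 1 := by
        simp only [bx]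
        rw [if_pos hbox]
      rw [h1, one_mul, pol_sum]
      -- expand the right-hand side
      have h2 : ∀ x ∈ GI, pol (Finset.univ.erase p) (w x * pderiv b (fpol blk t x.1 x.2)) y =
          ∑ V ∈ (Finset.univ.erase p).powerset, pol V (w x) y' *
            (if Set.InjOn lam ((Finset.univ \ V : Finset P) : Set P) ∧
              (Finset.univ \ V).image lam = x.1 then
              t x.1 x.2 (liftx lam (Finset.univ \ V) y') else 0) := by
        intro x _
        rw [pol_mul]
        refine Finset.sum_congr rfl fun V hV => ?_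
        rw [Finset.mem_powerset] at hV
        have hpV : p ∉ V := fun h => (Finset.mem_erase.mp (hV h)).1 rfl
        have h3 : pol V (w x) y = pol V (w x) y' := by
          apply pol_congr
          intro q hq
          rw [hy', Function.update_of_ne (fun h : q = p => hpV (h ▸ hq))]
        have h4 : pol ((Finset.univ.erase p) \ V) (pderiv b (fpol blk t x.1 x.2)) y =
            pol (Finset.univ \ V) (fpol blk t x.1 x.2) y' := by
          rw [pol_pderiv b _ _ p (fun h => (Finset.mem_erase.mp (Finset.mem_sdiff.mp h).1).1 rfl)]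
          congr 1
          ext q
          simp only [Finset.mem_insert, Finset.mem_sdiff, Finset.mem_erase, Finset.mem_univ,
            and_true, true_and]
          by_cases hqp : q = p
          · subst hqp
            simp [hpV]
          · simp [hqp]
        rw [h3, h4, pol_fpol blk ht x.1 x.2 lam (Finset.univ \ V) y' (fun q _ => hblk q)]
      rw [Finset.sum_congr rfl h2, ← Finset.sum_product']
      -- match the two sums
      have h5 : ∀ l' ∈ Sp Prod.fst (fam (CL d lam C)) Finset.univ p,
          (hb Prod.fst (HL lam t) Bp l' * W l') y' =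
          pol (Finset.univ \ l'.1) (w (l'.1.image lam, l'.2)) y' *
            t (l'.1.image lam) l'.2 (liftx lam l'.1 y') := by
        intro l' _
        simp only [hW, hb, HL, bx, Pi.mul_apply]
        rw [if_pos fun q _ => hbox' q, if_pos fun q _ => hbox' q]
        ring
      rw [Finset.sum_congr rfl h5]
      rw [← Finset.sum_filter_add_sum_filter_not (GI ×ˢ (Finset.univ.erase p).powerset)
        (fun z => Set.InjOn lam ((Finset.univ \ z.2 : Finset P) : Set P) ∧
              (Finset.univ \ z.2).image lam = z.1.1)]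
      have h6 : ∑ z ∈ (GI ×ˢ (Finset.univ.erase p).powerset).filter
          (fun z => ¬ (Set.InjOn lam ((Finset.univ \ z.2 : Finset P) : Set P) ∧
              (Finset.univ \ z.2).image lam = z.1.1)), pol z.2 (w z.1) y' *
            (if Set.InjOn lam ((Finset.univ \ z.2 : Finset P) : Set P) ∧
              (Finset.univ \ z.2).image lam = z.1.1 then
              t z.1.1 z.1.2 (liftx lam (Finset.univ \ z.2) y') else 0) = 0 := by
        apply Finset.sum_eq_zero
        intro z hz
        rw [if_neg (Finset.mem_filter.mp hz).2, mul_zero]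
      rw [h6, add_zero]
      refine Finset.sum_nbij' (fun l' => ((l'.1.image lam, l'.2), Finset.univ \ l'.1))
        (fun z => (Finset.univ \ z.2, z.1.2)) ?_ ?_ ?_ ?_ ?_
      · intro l' hl'
        rw [hSpmem] at hl'
        obtain ⟨⟨h7, h8⟩, h9, h10⟩ := hl'
        rw [Finset.mem_filter, Finset.mem_product, Finset.mem_powerset, hGI]
        simp only
        rw [Finset.sdiff_sdiff_eq_self (Finset.subset_univ _)]
        refine ⟨⟨⟨by rw [Finset.card_image_of_injOn h8, h7], h9⟩, ?_⟩, h8, rfl⟩
        intro q hq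
        rw [Finset.mem_sdiff] at hq
        exact Finset.mem_erase.mpr ⟨fun h => hq.2 (h ▸ h10), hq.1⟩
      · rintro ⟨⟨T', l'⟩, V⟩ hz
        rw [Finset.mem_filter, Finset.mem_product, Finset.mem_powerset, hGI] at hz
        simp only at hz
        obtain ⟨⟨⟨h7, h8⟩, h9⟩, h10, h11⟩ := hz
        rw [hSpmem]
        simp only
        refine ⟨⟨?_, h10⟩, by rw [h11]; exact h8, ?_⟩
        · rw [← h7, ← h11, Finset.card_image_of_injOn h10]
        · rw [Finset.mem_sdiff]
          exact ⟨Finset.mem_univ _, fun h => (Finset.mem_erase.mp (h9 h)).1 rfl⟩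
      · intro l' hl'
        simp only
        rw [Finset.sdiff_sdiff_eq_self (Finset.subset_univ _)]
      · rintro ⟨⟨T', l'⟩, V⟩ hz
        rw [Finset.mem_filter] at hz
        simp only at hz ⊢
        rw [hz.2.2, Finset.sdiff_sdiff_eq_self (Finset.subset_univ _)]
      · intro l' hl'
        rw [hSpmem] at hl'
        simp only
        rw [Finset.sdiff_sdiff_eq_self (Finset.subset_univ _), if_pos ⟨hl'.1.2, rfl⟩]
    · have h1 : bx K Bp (Finset.univ.erase p) y = 0 := by
        simp only [bx]
        rw [if_neg hbox]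
      rw [Pi.mul_apply, h1, zero_mul]
      apply hφ.2
      push Not at hbox
      obtain ⟨q, hq, hyq⟩ := hbox
      refine ⟨q, Finset.mem_univ q, ?_⟩
      rw [hy', Function.update_of_ne (Finset.mem_erase.mp hq).1]
      exact hyq
  rw [hkey]
  exact pol_mem_JJ ht (fun x hx => (hGI x).mp hx) lam (hsum b) _

/-- The derivative property. -/
theorem ds_main [CharZero K] {blk : A → ℕ} {t : Sys K A} (ht : t ∈ adm K A)
    {GI : Finset (Finset ℕ × ℕ)} {d : ℕ} (hd : 1 ≤ d) {C : Finset ℕ → Finset ℕ}
    (hGI : ∀ x, x ∈ GI ↔ x.1.card = d ∧ x.2 ∈ C x.1) {k : ℕ} (hblk : ∀ a, blk a < k)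
    (hGk : ∀ x ∈ GI, ∀ i ∈ x.1, i < k)
    (hE : ∀ lam : P → ℕ, (∀ p, lam p < k) → LEx d lam (BB blk) C Finset.univ t) {e : ℕ}
    (hP : Fintype.card P = e + d)
    (w : Finset ℕ × ℕ → MvPolynomial A K) (hw : ∀ x ∈ GI, (w x).IsHomogeneous e)
    (hsum : ∀ a, ∑ x ∈ GI, w x * pderiv a (fpol blk t x.1 x.2) ∈ fI blk t GI) :
    ∀ x ∈ GI, w x ∈ fI blk t GI := by
  rintro ⟨T₀, l₀⟩ hx
  obtain ⟨hT₀d, hl₀⟩ := (hGI (T₀, l₀)).mp hx
  simp only at hT₀d hl₀
  -- positions of the generator
  obtain ⟨T, _, hT⟩ := Finset.exists_subset_card_eq (s := (Finset.univ : Finset P)) (n := d)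
    (by rw [Finset.card_univ, hP]; omega)
  set U := Finset.univ \ T with hU
  have hUc : U.card = e := by
    rw [hU, Finset.card_sdiff_of_subset (Finset.subset_univ _), Finset.card_univ, hP, hT]
    omega
  obtain ⟨p, hpT⟩ : T.Nonempty := by
    rw [← Finset.card_pos]
    omega
  -- labels of these positions
  have heq : T.card = T₀.card := by rw [hT, hT₀d]
  let eT := Finset.equivOfCardEq heq
  let lam₀ : P → ℕ := fun q => if h : q ∈ T then (eT ⟨q, h⟩).1 else 0
  have hlam₀ : ∀ q (h : q ∈ T), lam₀ q = (eT ⟨q, h⟩).1 := fun q h => by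
    simp only [lam₀]
    rw [dif_pos h]
  let lamy : (P → A) → (P → ℕ) := fun y q => if q ∈ U then blk (y q) else lam₀ q
  have hUT : ∀ q, q ∈ U ↔ q ∉ T := by
    intro q
    rw [hU, Finset.mem_sdiff]
    exact ⟨fun h => h.2, fun h => ⟨Finset.mem_univ _, h⟩⟩
  have hlamyT : ∀ y, ∀ q (h : q ∈ T), lamy y q = (eT ⟨q, h⟩).1 := by
    intro y q h
    simp only [lamy]
    rw [if_neg (fun h' => ((hUT q).mp h') h), hlam₀ q h]
  have hlamyk : ∀ y q, lamy y q < k := by
    intro y q
    by_cases h : q ∈ T
    · rw [hlamyT y q h]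
      exact hGk _ hx _ (eT ⟨q, h⟩).2
    · simp only [lamy]
      rw [if_pos ((hUT q).mpr h)]
      exact hblk _
  have hlamyinj : ∀ y, Set.InjOn (lamy y) (T : Set P) := by
    intro y q hq q' hq' hqq'
    rw [hlamyT y q hq, hlamyT y q' hq'] at hqq'
    have := eT.injective (Subtype.ext hqq')
    exact congrArg Subtype.val this
  have hlamyimg : ∀ y, T.image (lamy y) = T₀ := by
    intro y
    ext i
    rw [Finset.mem_image]
    constructor
    · rintro ⟨q, hq, rfl⟩
      rw [hlamyT y q hq]
      exact (eT ⟨q, hq⟩).2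
    · intro hi
      refine ⟨(eT.symm ⟨i, hi⟩).1, (eT.symm ⟨i, hi⟩).2, ?_⟩
      rw [hlamyT y _ (eT.symm ⟨i, hi⟩).2]
      have : eT ⟨(eT.symm ⟨i, hi⟩).1, (eT.symm ⟨i, hi⟩).2⟩ = ⟨i, hi⟩ := by
        rw [Subtype.coe_eta, Equiv.apply_symm_apply]
      rw [this]
  -- the pieces of the polarization
  have hpiece : ∀ y, rho K U (bx K (fun q => BB blk (lamy y q)) U *
      pol U (w (T₀, l₀))) ∈ fI blk t GI := by
    intro y
    have h1 := ds_inj ht hd hGI (lamy y) (hE (lamy y) (hlamyk y)) p w hsum T hpT hT (hlamyinj y)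
      l₀ (by rw [hlamyimg y]; exact hl₀)
    rw [hlamyimg y] at h1
    exact rho_mem_fI ht (lamy y) U (fun T' _ l' h2 h3 => (hGI (T', l')).mpr ⟨h2, h3⟩) h1
  -- the sum of the pieces
  have hsumpieces : pol U (w (T₀, l₀)) = ∑ lam ∈ Finset.univ.image lamy,
      bx K (fun q => BB blk (lam q)) U * pol U (w (T₀, l₀)) := by
    funext y
    rw [Finset.sum_apply, Finset.sum_eq_single (lamy y)]
    · simp only [Pi.mul_apply, bx]
      rw [if_pos, one_mul]
      intro q hq
      rw [mem_BB]
      simp only [lamy]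
      rw [if_pos hq]
    · intro lam hlam hne
      obtain ⟨y', _, hy'⟩ := Finset.mem_image.mp hlam
      simp only [Pi.mul_apply, bx]
      rw [if_neg, zero_mul]
      intro h
      apply hne
      funext q
      by_cases hq : q ∈ U
      · have h2 := mem_BB.mp (h q hq)
        rw [← h2]
        simp only [lamy]
        rw [if_pos hq]
      · have hqT : q ∈ T := by
          by_contra h3
          exact hq ((hUT q).mpr h3)
        rw [← hy', hlamyT y' q hqT, hlamyT y q hqT]
    · intro h
      exact absurd (Finset.mem_image_of_mem _ (Finset.mem_univ y)) h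
  have hrho : rho K U (pol U (w (T₀, l₀))) ∈ fI blk t GI := by
    rw [hsumpieces, map_sum]
    refine Ideal.sum_mem _ fun lam hlam => ?_
    obtain ⟨y, _, rfl⟩ := Finset.mem_image.mp hlam
    exact hpiece y
  have hfin := rho_pol U (w (T₀, l₀)) (by rw [hUc]; exact hw _ hx)
  have hApos : 0 < Fintype.card A := Fintype.card_pos
  apply mem_of_nsmul_mem (n := Fintype.card A ^ Fintype.card P * U.card.factorial)
  · positivity
  · rw [← hfin, nsmul_eq_mul]
    exact Ideal.mul_mem_left _ _ hrho

end Pool.Agent.H21
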