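import Mathlib

/-!
From the derivative property to the Hilbert function of the ideal.
-/

set_option linter.unusedSectionVars false

namespace Pool.Agent.H21

open scoped Classical
open MvPolynomial

section Chain

variable {K : Type} [Field K] {A : Type} [Fintype A] {ι : Type} [Fintype ι]

/-- Differentiate the coefficients. -/
noncomputable def dcoef (a : A) (F : MvPolynomial ι (MvPolynomial A K)) :
    MvPolynomial ι (MvPolynomial A K) :=
  ∑ m ∈ F.support, monomial m (pderiv a (coeff m F))

lemma coeff_dcoef (a : A) (F : MvPolynomial ι (MvPolynomial A K)) (m : ι →₀ ℕ) :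
    coeff m (dcoef a F) = pderiv a (coeff m F) := by
  unfold dcoef
  rw [coeff_sum]
  simp only [coeff_monomial]
  rw [Finset.sum_ite_eq' F.support m]
  split_ifs with h
  · rfl
  · rw [notMem_support_iff.mp h, map_zero]

lemma dcoef_homogeneous (a : A) {F : MvPolynomial ι (MvPolynomial A K)} {r : ℕ}
    (hF : F.IsHomogeneous r) : (dcoef a F).IsHomogeneous r := by
  unfold dcoef
  apply IsHomogeneous.sum
  intro m hm
  apply isHomogeneous_monomial
  by_contra h
  exact (mem_support_iff.mp hm) (hF.coeff_eq_zero h)

/-- The chain rule. -/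
lemma pderiv_eval (a : A) (f : ι → MvPolynomial A K) (F : MvPolynomial ι (MvPolynomial A K)) :
    pderiv a (eval f F) = eval f (dcoef a F) + ∑ l, eval f (pderiv l F) * pderiv a (f l) := by
  induction F using MvPolynomial.induction_on with
  | C c =>
    have h1 : dcoef a (C c : MvPolynomial ι (MvPolynomial A K)) = C (pderiv a c) := by
      ext1 m
      rw [coeff_dcoef, coeff_C, coeff_C]
      split_ifs
      · rfl
      · rw [map_zero]
    rw [h1, eval_C, eval_C]
    simp
  | add F G hF hG =>
    have h1 : dcoef a (F + G) = dcoef a F + dcoef a G := by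
      ext1 m
      rw [coeff_add, coeff_dcoef, coeff_dcoef, coeff_dcoef, coeff_add, map_add]
    rw [h1]
    simp only [map_add, add_mul, Finset.sum_add_distrib, hF, hG]
    ring
  | mul_X F l hF =>
    have h1 : dcoef a (F * X l) = dcoef a F * X l := by
      ext1 m
      rw [coeff_dcoef, coeff_mul_X', coeff_mul_X']
      split_ifs
      · rw [coeff_dcoef]
      · rw [map_zero]
    rw [h1, map_mul, eval_X, pderiv_mul, hF, map_mul, eval_X]
    have h2 : ∀ l', eval f (pderiv l' (F * X l)) * pderiv a (f l') =
        eval f (pderiv l' F) * f l * pderiv a (f l') +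
        (if l' = l then eval f F * pderiv a (f l) else 0) := by
      intro l'
      rw [pderiv_mul, map_add, map_mul, map_mul, eval_X]
      by_cases h : l' = l
      · subst h
        rw [pderiv_X_self, map_one, if_pos rfl]
        ring
      · rw [pderiv_X_of_ne (fun h' => h h'.symm), map_zero, if_neg h]
        ring
    rw [Finset.sum_congr rfl fun l' _ => h2 l', Finset.sum_add_distrib, Finset.sum_ite_eq',
      if_pos (Finset.mem_univ l), add_mul, Finset.sum_mul]
    have h3 : ∑ i, eval f (pderiv i F) * pderiv a (f i) * f l =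
        ∑ i, eval f (pderiv i F) * f l * pderiv a (f i) :=
      Finset.sum_congr rfl fun i _ => by ring
    rw [h3]
    ring

variable {f : ι → MvPolynomial A K}

lemma eval_mem_pow {F : MvPolynomial ι (MvPolynomial A K)} {r : ℕ} (hF : F.IsHomogeneous r) :
    eval f F ∈ (Ideal.span (Set.range f)) ^ r :=
  (Ideal.mem_span_pow_iff_exists_isHomogeneous f _).mpr ⟨F, hF, rfl⟩

lemma pderiv_mem_pow (a : A) {r : ℕ} {g : MvPolynomial A K}
    (hg : g ∈ (Ideal.span (Set.range f)) ^ (r + 1)) :
    pderiv a g ∈ (Ideal.span (Set.range f)) ^ r := by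
  obtain ⟨F, hF, rfl⟩ := (Ideal.mem_span_pow_iff_exists_isHomogeneous f _).mp hg
  rw [pderiv_eval]
  apply Ideal.add_mem
  · exact Ideal.pow_le_pow_right (Nat.le_succ r) (eval_mem_pow (dcoef_homogeneous a hF))
  · refine Ideal.sum_mem _ fun l _ => Ideal.mul_mem_right _ _ ?_
    have := hF.pderiv (i := l)
    exact eval_mem_pow (by simpa using this)

lemma mem_of_nat_mul_mem [CharZero K] {I : Ideal (MvPolynomial A K)} {n : ℕ}
    {g : MvPolynomial A K} (h : g * ((n : MvPolynomial A K) + 1) ∈ I) : g ∈ I := by
  have hn : ((n : K) + 1) ≠ 0 := by exact_mod_cast Nat.succ_ne_zero n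
  have h1 : g = C (((n : K) + 1)⁻¹) * (g * ((n : MvPolynomial A K) + 1)) := by
    have h2 : ((n : MvPolynomial A K) + 1) = C ((n : K) + 1) := by
      rw [C_add, C_1, map_natCast]
    rw [h2, mul_comm g, ← mul_assoc, ← C_mul, inv_mul_cancel₀ hn, C_1, one_mul]
  rw [h1]
  exact I.mul_mem_left _ h

/-- Quasi-regularity from the derivative property. -/
theorem quasi_regular [CharZero K] (f : ι → MvPolynomial A K) (d D : ℕ) (hd : 1 ≤ d)
    (hf : ∀ l, (f l).IsHomogeneous d)
    (hDS : ∀ e, e + d ≤ D → ∀ w : ι → MvPolynomial A K, (∀ l, (w l).IsHomogeneous e) →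
      (∀ a, ∑ l, w l * pderiv a (f l) ∈ Ideal.span (Set.range f)) →
      ∀ l, w l ∈ Ideal.span (Set.range f)) :
    ∀ (r e : ℕ), e + r * d ≤ D → ∀ F : MvPolynomial ι (MvPolynomial A K), F.IsHomogeneous r →
      (∀ m, (coeff m F).IsHomogeneous e) →
      eval f F ∈ (Ideal.span (Set.range f)) ^ (r + 1) →
      ∀ m, coeff m F ∈ Ideal.span (Set.range f) := by
  intro r
  induction r with
  | zero =>
    intro e _ F hF _ hmem m
    rw [← totalDegree_zero_iff_isHomogeneous, totalDegree_eq_zero_iff_eq_C] at hF
    rw [hF, eval_C, zero_add, pow_one] at hmem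
    rw [hF, coeff_C]
    split_ifs
    · exact hmem
    · exact Ideal.zero_mem _
  | succ r ih =>
    intro e he F hF hFc hmem m
    -- the coefficients of the derivative
    have hG : ∀ a, ∀ m, coeff m (∑ l, pderiv l F * C (pderiv a (f l))) =
        ∑ l, (coeff (m + Finsupp.single l 1) F * ((m l : MvPolynomial A K) + 1)) *
          pderiv a (f l) := by
      intro a m
      rw [coeff_sum]
      refine Finset.sum_congr rfl fun l _ => ?_
      rw [mul_comm, coeff_C_mul, coeff_pderiv]
      ring
    have hstep : ∀ a, ∀ m, coeff m (∑ l, pderiv l F * C (pderiv a (f l))) ∈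
        Ideal.span (Set.range f) := by
      intro a
      apply ih (e + (d - 1)) (by
        have : (r + 1) * d = r * d + d := by ring
        omega)
      · apply IsHomogeneous.sum
        intro l _
        have h1 := hF.pderiv (i := l)
        rw [Nat.add_sub_cancel] at h1
        have h2 := h1.mul (isHomogeneous_C ι (pderiv a (f l)))
        simpa using h2
      · intro m
        rw [hG]
        apply IsHomogeneous.sum
        intro l _
        apply IsHomogeneous.mul
        · have h2 : ((m l : MvPolynomial A K) + 1) = C ((m l : K) + 1) := by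
            rw [C_add, C_1, map_natCast]
          rw [h2, mul_comm]
          exact (hFc _).C_mul _
        · exact (hf l).pderiv
      · have h1 := pderiv_mem_pow a hmem
        rw [pderiv_eval] at h1
        have h2 := eval_mem_pow (f := f) (dcoef_homogeneous a hF)
        have h3 := Ideal.sub_mem _ h1 h2
        rw [add_sub_cancel_left] at h3
        rw [map_sum]
        convert h3 using 1
        refine Finset.sum_congr rfl fun l _ => ?_
        rw [map_mul, eval_C]
    by_cases hm : m = 0
    · subst hm
      have : coeff 0 F = 0 := hF.coeff_eq_zero (by simp)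
      rw [this]
      exact Ideal.zero_mem _
    · obtain ⟨l₀, hl₀⟩ : ∃ l, m l ≠ 0 := by
        by_contra hcon
        push Not at hcon
        exact hm (Finsupp.ext hcon)
      set m' := m - Finsupp.single l₀ 1 with hm'
      have hmm : m' + Finsupp.single l₀ 1 = m := by
        rw [hm']
        apply tsub_add_cancel_of_le
        rw [Finsupp.single_le_iff]
        omega
      have h1 := hDS e (by
        have : (r + 1) * d = r * d + d := by ring
        omega) (fun l => coeff (m' + Finsupp.single l 1) F * ((m' l : MvPolynomial A K) + 1))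
        (fun l => by
          have h2 : ((m' l : MvPolynomial A K) + 1) = C ((m' l : K) + 1) := by
            rw [C_add, C_1, map_natCast]
          rw [h2, mul_comm]
          exact (hFc _).C_mul _)
        (fun a => by
          have := hstep a m'
          rw [hG] at this
          exact this) l₀
      have h2 := mem_of_nat_mul_mem h1
      rwa [hmm] at h2

end Chain

section Dim

variable {K : Type} [Field K] {A : Type} [Fintype A] {ι : Type} [Fintype ι]

/-- The space of forms has the expected dimension. -/
lemma finrank_forms (e : ℕ) : Module.finrank K (homogeneousSubmodule A K e) =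
    (Fintype.card A + e - 1).choose e := by
  have e1 : homogeneousSubmodule A K e ≃ₗ[K]
      (↥(Finset.finsuppAntidiag (Finset.univ : Finset A) e) → K) :=
    { toFun := fun p m => coeff m.1 p.1
      map_add' := fun _ _ => rfl
      map_smul' := fun _ _ => rfl
      invFun := fun c => ⟨∑ m : ↥(Finset.finsuppAntidiag (Finset.univ : Finset A) e),
        monomial m.1 (c m), by
        rw [mem_homogeneousSubmodule]
        apply IsHomogeneous.sum
        intro m _
        apply isHomogeneous_monomial
        have := (Finset.mem_finsuppAntidiag.mp m.2).1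
        rw [Finsupp.degree_eq_sum]
        exact this⟩
      left_inv := by
        intro p
        apply Subtype.ext
        simp only
        ext1 m
        rw [coeff_sum]
        simp only [coeff_monomial]
        by_cases hm : m ∈ Finset.finsuppAntidiag (Finset.univ : Finset A) e
        · rw [Finset.sum_eq_single ⟨m, hm⟩]
          · rw [if_pos rfl]
          · intro m' _ hne
            rw [if_neg fun h => hne (Subtype.ext h)]
          · intro h
            exact absurd (Finset.mem_univ _) h
        · rw [Finset.sum_eq_zero]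
          · symm
            have hp := p.2
            rw [mem_homogeneousSubmodule] at hp
            apply hp.coeff_eq_zero
            intro h
            apply hm
            rw [Finset.mem_finsuppAntidiag]
            rw [Finsupp.degree_eq_sum] at h
            exact ⟨h, Finset.subset_univ _⟩
          · intro m' _
            rw [if_neg fun h => hm (by rw [← h]; exact m'.2)]
      right_inv := by
        intro c
        funext m
        simp only
        rw [coeff_sum]
        simp only [coeff_monomial]
        rw [Finset.sum_eq_single m]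
        · rw [if_pos rfl]
        · intro m' _ hne
          rw [if_neg fun h => hne (Subtype.ext h)]
        · intro h
          exact absurd (Finset.mem_univ _) h }
  rw [e1.finrank_eq, Module.finrank_fintype_fun_eq_card, Fintype.card_coe,
    Finset.card_finsuppAntidiag_nat_eq_choose, Finset.card_univ]

instance finite_forms (e : ℕ) : Module.Finite K (homogeneousSubmodule A K e) :=
  Module.Finite.of_fg (homogeneousSubmodule_fg A K e)

lemma hc_mul (p : MvPolynomial A K) {q : MvPolynomial A K} {k : ℕ} (hq : q.IsHomogeneous k)
    (e : ℕ) : homogeneousComponent (e + k) (p * q) = homogeneousComponent e p * q := by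
  conv_lhs => rw [← sum_homogeneousComponent p]
  rw [Finset.sum_mul, map_sum]
  have h1 : ∀ i, homogeneousComponent (e + k) (homogeneousComponent i p * q) =
      if i = e then homogeneousComponent e p * q else 0 := by
    intro i
    have h2 : (homogeneousComponent i p * q) ∈ homogeneousSubmodule A K (i + k) := by
      rw [mem_homogeneousSubmodule]
      exact (homogeneousComponent_isHomogeneous i p).mul hq
    rw [homogeneousComponent_of_mem h2]
    by_cases hi : i = e
    · subst hi
      rw [if_pos rfl, if_pos rfl]
    · rw [if_neg hi, if_neg]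
      omega
  rw [Finset.sum_congr rfl fun i _ => h1 i, Finset.sum_ite_eq']
  split_ifs with h
  · rfl
  · rw [homogeneousComponent_eq_zero]
    · rw [zero_mul]
    · rw [Finset.mem_range] at h
      omega

lemma hc_mul_zero (p : MvPolynomial A K) {q : MvPolynomial A K} {k : ℕ}
    (hq : q.IsHomogeneous k) (E : ℕ) (hE : E < k) : homogeneousComponent E (p * q) = 0 := by
  conv_lhs => rw [← sum_homogeneousComponent p]
  rw [Finset.sum_mul, map_sum]
  apply Finset.sum_eq_zero
  intro i _
  have h2 : (homogeneousComponent i p * q) ∈ homogeneousSubmodule A K (i + k) := by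
    rw [mem_homogeneousSubmodule]
    exact (homogeneousComponent_isHomogeneous i p).mul hq
  rw [homogeneousComponent_of_mem h2, if_neg]
  omega

/-- The degree `E` part of the `r`-th power of the ideal. -/
noncomputable def Jr (f : ι → MvPolynomial A K) (r E : ℕ) : Submodule K (MvPolynomial A K) :=
  (Submodule.restrictScalars K ((Ideal.span (Set.range f)) ^ r)) ⊓ homogeneousSubmodule A K E

variable {f : ι → MvPolynomial A K} {d : ℕ}

lemma mem_Jr {r E : ℕ} {g : MvPolynomial A K} :
    g ∈ Jr f r E ↔ g ∈ (Ideal.span (Set.range f)) ^ r ∧ g.IsHomogeneous E := by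
  unfold Jr
  rw [Submodule.mem_inf, Submodule.restrictScalars_mem, mem_homogeneousSubmodule]

/-- The product of generators with exponent `m`. -/
noncomputable def fm (f : ι → MvPolynomial A K) (m : ι →₀ ℕ) : MvPolynomial A K :=
  ∏ l, f l ^ m l

lemma fm_homogeneous (hf : ∀ l, (f l).IsHomogeneous d) (m : ι →₀ ℕ) :
    (fm f m).IsHomogeneous (m.degree * d) := by
  unfold fm
  have h := IsHomogeneous.prod Finset.univ (fun l => f l ^ m l) (fun l => d * m l)
    (fun l _ => (hf l).pow (m l))
  convert h using 1
  rw [Finsupp.degree_eq_sum, ← Finset.mul_sum, mul_comm]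

lemma eval_monomial_eq (m : ι →₀ ℕ) (c : MvPolynomial A K) :
    eval f (monomial m c) = c * fm f m := by
  rw [eval_monomial, Finsupp.prod_fintype _ _ (fun i => pow_zero _)]
  rfl

lemma eval_eq_sum {F : MvPolynomial ι (MvPolynomial A K)} {r : ℕ} (hF : F.IsHomogeneous r) :
    eval f F = ∑ m ∈ Finset.finsuppAntidiag (Finset.univ : Finset ι) r,
      coeff m F * fm f m := by
  conv_lhs => rw [F.as_sum]
  rw [map_sum]
  have hsub : F.support ⊆ Finset.finsuppAntidiag (Finset.univ : Finset ι) r := by
    intro m hm
    rw [Finset.mem_finsuppAntidiag]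
    refine ⟨?_, Finset.subset_univ _⟩
    rw [← Finsupp.degree_eq_sum]
    by_contra h
    exact (mem_support_iff.mp hm) (hF.coeff_eq_zero h)
  rw [← Finset.sum_subset hsub]
  · exact Finset.sum_congr rfl fun m _ => eval_monomial_eq m _
  · intro m _ hm
    rw [notMem_support_iff.mp hm, zero_mul]

lemma Jr_eq_bot (hf : ∀ l, (f l).IsHomogeneous d) {r E : ℕ} (h : E < r * d) :
    Jr f r E = ⊥ := by
  rw [eq_bot_iff]
  intro g hg
  rw [mem_Jr] at hg
  obtain ⟨F, hF, hFg⟩ := (Ideal.mem_span_pow_iff_exists_isHomogeneous f g).mp hg.1
  rw [eval_eq_sum hF] at hFg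
  have h1 : homogeneousComponent E g = g := by
    rw [homogeneousComponent_of_mem (m := E) (n := E)
      ((mem_homogeneousSubmodule _ _).mpr hg.2), if_pos rfl]
  rw [Submodule.mem_bot, ← h1, ← hFg, map_sum]
  apply Finset.sum_eq_zero
  intro m hm
  apply hc_mul_zero _ (fm_homogeneous hf m)
  rw [Finset.mem_finsuppAntidiag] at hm
  rw [Finsupp.degree_eq_sum, hm.1]
  exact h

/-- Rank-nullity for the restriction of a linear map to a subspace. -/
lemma finrank_map_add_ker {V W : Type*} [AddCommGroup V] [Module K V]
    [AddCommGroup W] [Module K W] (g : V →ₗ[K] W) (J : Submodule K V) [FiniteDimensional K J] :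
    Module.finrank K (↥(J ⊓ LinearMap.ker g)) + Module.finrank K (↥(J.map g)) =
      Module.finrank K J := by
  have h1 := LinearMap.finrank_range_add_finrank_ker (g.domRestrict J)
  rw [LinearMap.range_domRestrict, LinearMap.ker_domRestrict] at h1
  have h2 := (Submodule.equivMapOfInjective J.subtype (Submodule.injective_subtype J)
    (Submodule.comap J.subtype (LinearMap.ker g))).finrank_eq
  rw [Submodule.map_comap_subtype] at h2
  rw [← h2]
  omega

lemma Jr_le (r E : ℕ) : Jr f r E ≤ homogeneousSubmodule A K E := inf_le_right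

instance finite_Jr (r E : ℕ) : Module.Finite K (Jr f r E) :=
  Submodule.finiteDimensional_of_le (Jr_le r E)

/-- The dimensions of the graded pieces of the powers of the ideal. -/
theorem dim_step (hf : ∀ l, (f l).IsHomogeneous d) (r e : ℕ)
    (hQR : ∀ F : MvPolynomial ι (MvPolynomial A K), F.IsHomogeneous r →
      (∀ m, (coeff m F).IsHomogeneous e) →
      eval f F ∈ (Ideal.span (Set.range f)) ^ (r + 1) →
      ∀ m, coeff m F ∈ Ideal.span (Set.range f)) :
    Module.finrank K (Jr f r (e + r * d)) +
        (Fintype.card ι + r - 1).choose r * Module.finrank K (Jr f 1 e) =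
      Module.finrank K (Jr f (r + 1) (e + r * d)) +
        (Fintype.card ι + r - 1).choose r * Module.finrank K (homogeneousSubmodule A K e) := by
  set E := e + r * d with hE
  set Mr := Finset.finsuppAntidiag (Finset.univ : Finset ι) r with hMr
  have hMrd : ∀ m ∈ Mr, m.degree = r := by
    intro m hm
    rw [hMr, Finset.mem_finsuppAntidiag] at hm
    rw [Finsupp.degree_eq_sum]
    exact hm.1
  have hMrcard : Mr.card = (Fintype.card ι + r - 1).choose r := by
    rw [hMr, Finset.card_finsuppAntidiag_nat_eq_choose, Finset.card_univ]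
  let Φ : (↥Mr → ↥(homogeneousSubmodule A K e)) →ₗ[K] MvPolynomial A K :=
    { toFun := fun w => ∑ m : ↥Mr, (w m).1 * fm f m.1
      map_add' := by
        intro w w'
        simp only [Pi.add_apply, Submodule.coe_add, add_mul, Finset.sum_add_distrib]
      map_smul' := by
        intro c w
        simp only [Pi.smul_apply, Submodule.coe_smul, smul_mul_assoc, RingHom.id_apply,
          Finset.smul_sum] }
  have hΦ : ∀ w, Φ w = ∑ m : ↥Mr, (w m).1 * fm f m.1 := fun _ => rfl
  -- the polynomial of a tuple
  have hpoly : ∀ w : ↥Mr → ↥(homogeneousSubmodule A K e),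
      ∃ F : MvPolynomial ι (MvPolynomial A K), F.IsHomogeneous r ∧
        (∀ m, (coeff m F).IsHomogeneous e) ∧ eval f F = Φ w ∧ ∀ m : ↥Mr, coeff m.1 F = (w m).1 := by
    intro w
    have hc : ∀ m, coeff m (∑ m' : ↥Mr, monomial m'.1 (w m').1) =
        if h : m ∈ Mr then (w ⟨m, h⟩).1 else 0 := by
      intro m
      rw [coeff_sum]
      simp only [coeff_monomial]
      split_ifs with h
      · rw [Finset.sum_eq_single ⟨m, h⟩]
        · rw [if_pos rfl]
        · intro m' _ hne
          rw [if_neg fun h' => hne (Subtype.ext h')]
        · intro h'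
          exact absurd (Finset.mem_univ _) h'
      · apply Finset.sum_eq_zero
        intro m' _
        rw [if_neg fun h' => h (by rw [← h']; exact m'.2)]
    refine ⟨∑ m' : ↥Mr, monomial m'.1 (w m').1, ?_, ?_, ?_, ?_⟩
    · apply IsHomogeneous.sum
      intro m _
      exact isHomogeneous_monomial _ (hMrd m.1 m.2)
    · intro m
      rw [hc]
      split_ifs with h
      · exact (mem_homogeneousSubmodule _ _).mp (w ⟨m, h⟩).2
      · exact isHomogeneous_zero _ _ _
    · rw [map_sum, hΦ]
      exact Finset.sum_congr rfl fun m _ => eval_monomial_eq m.1 _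
    · intro m
      rw [hc, dif_pos m.2]
  -- the range
  have hrange : LinearMap.range Φ = Jr f r E := by
    apply le_antisymm
    · rintro _ ⟨w, rfl⟩
      rw [mem_Jr]
      constructor
      · obtain ⟨F, hF, _, hFe, _⟩ := hpoly w
        rw [← hFe]
        exact eval_mem_pow hF
      · rw [hΦ]
        apply IsHomogeneous.sum
        intro m _
        have h1 := ((mem_homogeneousSubmodule _ _).mp (w m).2).mul (fm_homogeneous hf m.1)
        rwa [hMrd m.1 m.2] at h1
    · intro g hg
      rw [mem_Jr] at hg
      obtain ⟨F, hF, hFg⟩ := (Ideal.mem_span_pow_iff_exists_isHomogeneous f g).mp hg.1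
      rw [eval_eq_sum hF] at hFg
      refine ⟨fun m => ⟨homogeneousComponent e (coeff m.1 F), ?_⟩, ?_⟩
      · exact homogeneousComponent_mem e _
      · rw [hΦ]
        have h1 : homogeneousComponent E g = g := by
          rw [homogeneousComponent_of_mem (m := E) (n := E)
            ((mem_homogeneousSubmodule _ _).mpr hg.2), if_pos rfl]
        rw [← h1, ← hFg, map_sum]
        rw [Finset.sum_coe_sort Mr (fun m => homogeneousComponent e (coeff m F) * fm f m)]
        refine Finset.sum_congr rfl fun m hm => ?_
        have h2 := fm_homogeneous hf m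
        rw [hMrd m hm] at h2
        rw [hE, hc_mul _ h2]
  have hle : Jr f (r + 1) E ≤ Jr f r E := by
    intro g hg
    rw [mem_Jr] at hg ⊢
    exact ⟨Ideal.pow_le_pow_right (Nat.le_succ r) hg.1, hg.2⟩
  set ρ := (Jr f (r + 1) E).mkQ ∘ₗ Φ with hρ
  have h1 := LinearMap.finrank_range_add_finrank_ker ρ
  have h2 : Module.finrank K (↥Mr → ↥(homogeneousSubmodule A K e)) =
      (Fintype.card ι + r - 1).choose r * Module.finrank K (homogeneousSubmodule A K e) := by
    rw [Module.finrank_pi_fintype, Finset.sum_const, Finset.card_univ, Fintype.card_coe, hMrcard,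
      smul_eq_mul]
  have h3 : LinearMap.range ρ = (Jr f r E).map (Jr f (r + 1) E).mkQ := by
    rw [hρ, LinearMap.range_comp, hrange]
  have h4 : Module.finrank K (Jr f (r + 1) E) + Module.finrank K (LinearMap.range ρ) =
      Module.finrank K (Jr f r E) := by
    rw [h3]
    have h5 := finrank_map_add_ker (Jr f (r + 1) E).mkQ (Jr f r E)
    rwa [Submodule.ker_mkQ, inf_eq_right.mpr hle] at h5
  let κ : (↥Mr → ↥(Jr f 1 e)) →ₗ[K] (↥Mr → ↥(homogeneousSubmodule A K e)) :=
    { toFun := fun w m => ⟨(w m).1, Jr_le 1 e (w m).2⟩
      map_add' := fun _ _ => rfl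
      map_smul' := fun _ _ => rfl }
  have hκ : Function.Injective κ := by
    intro w w' hww
    funext m
    apply Subtype.ext
    have h8 := congrArg Subtype.val (congrFun hww m)
    exact h8
  have h5 : LinearMap.range κ = LinearMap.ker ρ := by
    apply le_antisymm
    · rintro _ ⟨w, rfl⟩
      rw [LinearMap.mem_ker, hρ, LinearMap.comp_apply, Submodule.mkQ_apply,
        Submodule.Quotient.mk_eq_zero, mem_Jr]
      constructor
      · rw [hΦ]
        refine Ideal.sum_mem _ fun m _ => ?_
        have h6 : (w m).1 ∈ Ideal.span (Set.range f) := by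
          have := (mem_Jr.mp (w m).2).1
          rwa [pow_one] at this
        have h7 : fm f m.1 ∈ (Ideal.span (Set.range f)) ^ r := by
          have h8 := eval_mem_pow (f := f) (isHomogeneous_monomial (1 : MvPolynomial A K)
            (hMrd m.1 m.2))
          rwa [eval_monomial_eq, one_mul] at h8
        rw [pow_succ, mul_comm (κ w m).1]
        exact Ideal.mul_mem_mul h7 h6
      · have h6 : Φ (κ w) ∈ Jr f r E := by
          rw [← hrange]
          exact ⟨_, rfl⟩
        exact (mem_Jr.mp h6).2
    · intro w hw
      rw [LinearMap.mem_ker, hρ, LinearMap.comp_apply, Submodule.mkQ_apply,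
        Submodule.Quotient.mk_eq_zero, mem_Jr] at hw
      obtain ⟨F, hF, hFc, hFe, hFm⟩ := hpoly w
      have h6 := hQR F hF hFc (by rw [hFe]; exact hw.1)
      refine ⟨fun m => ⟨(w m).1, ?_⟩, rfl⟩
      rw [mem_Jr, pow_one, ← hFm m]
      exact ⟨h6 _, hFc _⟩
  have h6 : Module.finrank K (LinearMap.range κ) =
      (Fintype.card ι + r - 1).choose r * Module.finrank K (Jr f 1 e) := by
    rw [LinearMap.finrank_range_of_inj hκ, Module.finrank_pi_fintype, Finset.sum_const,
      Finset.card_univ, Fintype.card_coe, hMrcard, smul_eq_mul]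
  rw [h5] at h6
  omega

/-- Codimension of the ideal in degree `E`. -/
noncomputable def Hc (f : ι → MvPolynomial A K) (E : ℕ) : ℤ :=
  (Module.finrank K (homogeneousSubmodule A K E) : ℤ) - (Module.finrank K (Jr f 1 E) : ℤ)

/-- The generating identity. -/
theorem sum_Hc (hf : ∀ l, (f l).IsHomogeneous d) (hd : 1 ≤ d) (D : ℕ)
    (hQR : ∀ r e, e + r * d ≤ D → ∀ F : MvPolynomial ι (MvPolynomial A K), F.IsHomogeneous r →
      (∀ m, (coeff m F).IsHomogeneous e) →
      eval f F ∈ (Ideal.span (Set.range f)) ^ (r + 1) →
      ∀ m, coeff m F ∈ Ideal.span (Set.range f)) (E : ℕ) (hE : E ≤ D) :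
    (Module.finrank K (homogeneousSubmodule A K E) : ℤ) =
      ∑ r ∈ Finset.range (E + 1), if r * d ≤ E then
        ((Fintype.card ι + r - 1).choose r : ℤ) * Hc f (E - r * d) else 0 := by
  have key : ∀ R : ℕ, (Module.finrank K (Jr f 0 E) : ℤ) =
      (Module.finrank K (Jr f R E) : ℤ) + ∑ r ∈ Finset.range R, if r * d ≤ E then
        ((Fintype.card ι + r - 1).choose r : ℤ) * Hc f (E - r * d) else 0 := by
    intro R
    induction R with
    | zero => simp
    | succ R ih =>
      rw [ih, Finset.sum_range_succ]
      by_cases hR : R * d ≤ E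
      · rw [if_pos hR]
        have h1 := dim_step hf R (E - R * d) (hQR R (E - R * d) (by omega))
        rw [Nat.sub_add_cancel hR] at h1
        unfold Hc
        have h2 : (Module.finrank K (Jr f R E) : ℤ) +
            ((Fintype.card ι + R - 1).choose R : ℤ) *
              (Module.finrank K (Jr f 1 (E - R * d)) : ℤ) =
            (Module.finrank K (Jr f (R + 1) E) : ℤ) +
            ((Fintype.card ι + R - 1).choose R : ℤ) *
              (Module.finrank K (homogeneousSubmodule A K (E - R * d)) : ℤ) := by
          exact_mod_cast h1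
        linarith
      · rw [if_neg hR]
        push Not at hR
        have h3 : E < (R + 1) * d := by
          have : (R + 1) * d = R * d + d := by ring
          omega
        rw [Jr_eq_bot hf hR, Jr_eq_bot hf h3]
        simp
  have h0 : Jr f 0 E = homogeneousSubmodule A K E := by
    unfold Jr
    rw [pow_zero, Ideal.one_eq_top, Submodule.restrictScalars_top, top_inf_eq]
  have h1 := key (E + 1)
  have h2 : E < (E + 1) * d := by nlinarith
  rw [h0, Jr_eq_bot hf h2] at h1
  rw [h1]
  simp

end Dim

end Pool.Agent.H21
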