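import Pool.Agent.H21.Generic

/-!
Block systems: functions on `I → ℕ`, boxes `∏ B i`, and the reachability predicate.
-/

set_option linter.unusedSectionVars false

namespace Pool.Agent.H21

open scoped Classical

variable (K : Type*) [Field K] {I : Type*} [Fintype I] [DecidableEq I]

/-- Functions on `I → ℕ` that depend only on the coordinates in `T`. -/
def dep (T : Set I) : Submodule K ((I → ℕ) → K) where
  carrier := {f | ∀ x y : I → ℕ, (∀ i ∈ T, x i = y i) → f x = f y}
  add_mem' := by
    intro f g hf hg x y h
    simp only [Pi.add_apply]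
    rw [hf x y h, hg x y h]
  zero_mem' := by
    intro x y _
    rfl
  smul_mem' := by
    intro c f hf x y h
    simp only [Pi.smul_apply]
    rw [hf x y h]

variable {K}

lemma mem_dep {T : Set I} {f : (I → ℕ) → K} :
    f ∈ dep K T ↔ ∀ x y : I → ℕ, (∀ i ∈ T, x i = y i) → f x = f y := Iff.rfl

lemma mul_mem_dep {T : Set I} {f g : (I → ℕ) → K} (hf : f ∈ dep K T) (hg : g ∈ dep K T) :
    f * g ∈ dep K T := by
  intro x y h
  simp only [Pi.mul_apply]
  rw [hf x y h, hg x y h]

lemma dep_mono {T T' : Set I} (h : T ⊆ T') : dep K T ≤ dep K T' :=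
  fun _ hf x y hxy => hf x y (fun i hi => hxy i (h hi))

/-- The indicator function of `x y ∈ C`. -/
noncomputable def ind (y : I) (C : Finset ℕ) : (I → ℕ) → K := fun x => if x y ∈ C then 1 else 0

lemma ind_mem_dep {y : I} {C : Finset ℕ} {T : Set I} (hy : y ∈ T) :
    (ind y C : (I → ℕ) → K) ∈ dep K T := by
  intro a b h
  simp only [ind]
  rw [h y hy]

variable (K)

/-- Restriction of functions to the box `∏ B i`. -/
def res (B : I → Finset ℕ) : ((I → ℕ) → K) →ₗ[K] (↥(Fintype.piFinset B) → K) where
  toFun f := fun x => f x.1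
  map_add' _ _ := rfl
  map_smul' _ _ := rfl

variable {K}

@[simp] lemma res_apply (B : I → Finset ℕ) (f : (I → ℕ) → K) (x : ↥(Fintype.piFinset B)) :
    res K B f x = f x.1 := rfl

/-- The products generating the multilinear ideal in the top multidegree. -/
def prods (G : Finset I → Finset ((I → ℕ) → K)) : Set ((I → ℕ) → K) :=
  {h | ∃ T : Finset I, ∃ f ∈ G T, ∃ g ∈ dep K ((T : Set I)ᶜ), h = f * g}

/-- The rank of the multilinear ideal on the box `∏ B i`. -/
noncomputable def rk (B : I → Finset ℕ) (G : Finset I → Finset ((I → ℕ) → K)) : ℕ :=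
  Module.finrank K (Submodule.map (res K B) (Submodule.span K (prods G)))

variable (K)

/-- `Reach K w q`: for all boxes with side lengths divisible by some fixed `N`, one can choose
at most `w T * ∏_{i ∈ T} |B i|` functions depending only on the coordinates in `T`, for each `T`,
such that the multilinear ideal they generate has codimension at most `q * ∏ |B i|`. -/
def Reach (w : Finset I → ℚ) (q : ℚ) : Prop :=
  ∃ N : ℕ, 0 < N ∧ ∀ B : I → Finset ℕ, (∀ i, N ∣ (B i).card) →
    ∃ G : Finset I → Finset ((I → ℕ) → K),
      (∀ T, ∀ f ∈ G T, f ∈ dep K (T : Set I)) ∧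
      (∀ T, ((G T).card : ℚ) ≤ w T * ∏ i ∈ T, ((B i).card : ℚ)) ∧
      (∏ i, ((B i).card : ℚ)) - (rk B G : ℚ) ≤ q * ∏ i, ((B i).card : ℚ)

variable {K}

lemma Reach.mono {w w' : Finset I → ℚ} {q q' : ℚ} (h : Reach K w q) (hw : ∀ T, w T ≤ w' T)
    (hq : q ≤ q') : Reach K w' q' := by
  obtain ⟨N, hN, hR⟩ := h
  refine ⟨N, hN, fun B hB => ?_⟩
  obtain ⟨G, h1, h2, h3⟩ := hR B hB
  refine ⟨G, h1, fun T => (h2 T).trans ?_, h3.trans ?_⟩
  · exact mul_le_mul_of_nonneg_right (hw T) (Finset.prod_nonneg fun i _ => Nat.cast_nonneg _)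
  · exact mul_le_mul_of_nonneg_right hq (Finset.prod_nonneg fun i _ => Nat.cast_nonneg _)

lemma reach_zero : Reach K (fun _ : Finset I => (0 : ℚ)) 1 := by
  refine ⟨1, one_pos, fun B _ => ⟨fun _ => ∅, ?_, ?_, ?_⟩⟩
  · simp
  · simp
  · rw [one_mul]
    have : (0 : ℚ) ≤ (rk B (fun _ => ∅ : Finset I → Finset ((I → ℕ) → K)) : ℚ) :=
      Nat.cast_nonneg _
    linarith

/-- The indicator of agreeing with `b` on `T`. -/
noncomputable def indPt (T : Set I) (b : I → ℕ) : (I → ℕ) → K :=
  fun x => if ∀ i ∈ T, x i = b i then 1 else 0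

lemma indPt_mem_dep (T : Set I) (b : I → ℕ) : (indPt T b : (I → ℕ) → K) ∈ dep K T := by
  intro x y h
  simp only [indPt]
  have : (∀ i ∈ T, x i = b i) ↔ (∀ i ∈ T, y i = b i) := by
    constructor
    · intro h' i hi; rw [← h i hi]; exact h' i hi
    · intro h' i hi; rw [h i hi]; exact h' i hi
  simp only [this]

lemma reach_full (w : Finset I → ℚ) (hw0 : ∀ T, 0 ≤ w T) (T : Finset I) (hw : 1 ≤ w T) :
    Reach K w 0 := by
  refine ⟨1, one_pos, fun B _ => ?_⟩
  -- extend a partial point by 0
  let ext0 : (∀ i ∈ T, ℕ) → (I → ℕ) := fun b i => if h : i ∈ T then b i h else 0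
  let G : Finset I → Finset ((I → ℕ) → K) := fun T' =>
    if T' = T then (T.pi B).image (fun b => indPt (T : Set I) (ext0 b)) else ∅
  refine ⟨G, ?_, ?_, ?_⟩
  · intro T' f hf
    by_cases hT : T' = T
    · subst hT
      simp only [G, if_true, Finset.mem_image] at hf
      obtain ⟨b, _, rfl⟩ := hf
      exact indPt_mem_dep _ _
    · simp only [G, if_neg hT] at hf
      simp at hf
  · intro T'
    by_cases hT : T' = T
    · subst hT
      simp only [G, if_true]
      have h1 : ((T'.pi B).image (fun b => (indPt (T' : Set I) (ext0 b) : (I → ℕ) → K))).card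
          ≤ ∏ i ∈ T', (B i).card := by
        refine Finset.card_image_le.trans ?_
        rw [Finset.card_pi]
      have h2 : (((T'.pi B).image (fun b => (indPt (T' : Set I) (ext0 b) : (I → ℕ) → K))).card : ℚ)
          ≤ ∏ i ∈ T', ((B i).card : ℚ) := by
        exact_mod_cast h1
      have h3 : (0 : ℚ) ≤ ∏ i ∈ T', ((B i).card : ℚ) :=
        Finset.prod_nonneg fun i _ => Nat.cast_nonneg _
      nlinarith
    · simp only [G, if_neg hT]
      simp only [Finset.card_empty, Nat.cast_zero]
      exact mul_nonneg (hw0 T') (Finset.prod_nonneg fun i _ => Nat.cast_nonneg _)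
  · -- the rank is full
    have htop : Submodule.map (res K B) (Submodule.span K (prods G)) = ⊤ := by
      rw [eq_top_iff]
      intro f _
      -- f is a combination of point indicators
      have hf : f = ∑ x : ↥(Fintype.piFinset B), f x • (res K B (indPt Set.univ x.1)) := by
        funext y
        rw [Finset.sum_apply]
        rw [Finset.sum_eq_single y]
        · simp [indPt]
        · intro x _ hxy
          simp only [Pi.smul_apply, res_apply, indPt, Set.mem_univ, true_imp_iff, smul_eq_mul]
          rw [if_neg, mul_zero]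
          intro h
          exact hxy (Subtype.ext (funext h)).symm
        · intro h; exact absurd (Finset.mem_univ _) h
      rw [hf]
      refine Submodule.sum_mem _ fun x _ => Submodule.smul_mem _ _ ?_
      refine Submodule.mem_map_of_mem (Submodule.subset_span ?_)
      refine ⟨T, indPt (T : Set I) x.1, ?_, indPt ((T : Set I)ᶜ) x.1, indPt_mem_dep _ _, ?_⟩
      · simp only [G, if_true, Finset.mem_image]
        refine ⟨fun i _ => x.1 i, ?_, ?_⟩
        · rw [Finset.mem_pi]
          intro i _
          exact Fintype.mem_piFinset.mp x.2 i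
        · funext z
          simp only [indPt]
          congr 1
          simp only [Finset.mem_coe, eq_iff_iff]
          constructor
          · intro h i hi
            have := h i hi
            simpa [ext0, hi] using this
          · intro h i hi
            simpa [ext0, hi] using h i hi
      · funext z
        simp only [indPt, Pi.mul_apply]
        by_cases h1 : ∀ i ∈ (T : Set I), z i = x.1 i
        · by_cases h2 : ∀ i ∈ ((T : Set I)ᶜ), z i = x.1 i
          · rw [if_pos h1, if_pos h2, if_pos]
            · simp
            · intro i _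
              by_cases hi : i ∈ (T : Set I)
              · exact h1 i hi
              · exact h2 i hi
          · rw [if_pos h1, if_neg h2, if_neg]
            · simp
            · intro h; exact h2 fun i _ => h i (Set.mem_univ i)
        · rw [if_neg h1, if_neg]
          · simp
          · intro h; exact h1 fun i _ => h i (Set.mem_univ i)
    have hrk : rk B G = ∏ i, (B i).card := by
      unfold rk
      rw [htop, finrank_top, Module.finrank_fintype_fun_eq_card]
      simp [Fintype.card_piFinset]
    rw [hrk]
    simp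

end Pool.Agent.H21
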