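import Pool.Agent.H21.Reach

/-!
The splitting lemma for `Reach`: a block `y` is cut into pieces.
-/

set_option linter.unusedSectionVars false

namespace Pool.Agent.H21

open scoped Classical

variable {K : Type*} [Field K] {I : Type*} [Fintype I] [DecidableEq I]

/-- Disjoint subsets of prescribed sizes. -/
lemma exists_disjoint_family {ι : Type*} (S : Finset ι) (A : Finset ℕ) (n : ι → ℕ)
    (h : ∑ p ∈ S, n p ≤ A.card) :
    ∃ C : ι → Finset ℕ, (∀ p ∈ S, C p ⊆ A ∧ (C p).card = n p) ∧
      (∀ p ∈ S, ∀ q ∈ S, p ≠ q → Disjoint (C p) (C q)) := by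
  induction S using Finset.induction_on generalizing A with
  | empty => exact ⟨fun _ => ∅, by simp, by simp⟩
  | insert p S hp ih =>
    rw [Finset.sum_insert hp] at h
    obtain ⟨Cp, hCp, hCpc⟩ := Finset.exists_subset_card_eq (s := A) (n := n p) (by omega)
    have h2 : ∑ q ∈ S, n q ≤ (A \ Cp).card := by
      rw [Finset.card_sdiff_of_subset hCp]; omega
    obtain ⟨C, hC1, hC2⟩ := ih (A \ Cp) h2
    refine ⟨fun q => if q = p then Cp else C q, ?_, ?_⟩
    · intro q hq
      by_cases hqp : q = p
      · subst hqp; simp [hCp, hCpc]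
      · have hqS : q ∈ S := by
          rcases Finset.mem_insert.mp hq with h | h
          · exact absurd h hqp
          · exact h
        simp only [if_neg hqp]
        exact ⟨(hC1 q hqS).1.trans Finset.sdiff_subset, (hC1 q hqS).2⟩
    · intro q hq q' hq' hne
      have key : ∀ q ∈ S, Disjoint Cp (C q) := by
        intro q hq
        have := (hC1 q hq).1
        exact Finset.disjoint_left.mpr fun a ha hb => (Finset.mem_sdiff.mp (this hb)).2 ha
      by_cases hqp : q = p
      · subst hqp
        have hq'S : q' ∈ S := by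
          rcases Finset.mem_insert.mp hq' with h | h
          · exact absurd h.symm hne
          · exact h
        simp only [if_true, if_neg (Ne.symm hne)]
        exact key q' hq'S
      · have hqS : q ∈ S := by
          rcases Finset.mem_insert.mp hq with h | h
          · exact absurd h hqp
          · exact h
        by_cases hq'p : q' = p
        · subst hq'p
          simp only [if_true, if_neg hqp]
          exact (key q hqS).symm
        · have hq'S : q' ∈ S := by
            rcases Finset.mem_insert.mp hq' with h | h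
            · exact absurd h hq'p
            · exact h
          simp only [if_neg hqp, if_neg hq'p]
          exact hC2 q hqS q' hq'S hne

/-- Extension by zero from a smaller box. -/
noncomputable def extz (B B' : I → Finset ℕ) :
    (↥(Fintype.piFinset B') → K) →ₗ[K] (↥(Fintype.piFinset B) → K) where
  toFun f := fun x => if h : x.1 ∈ Fintype.piFinset B' then f ⟨x.1, h⟩ else 0
  map_add' f g := by
    funext x
    by_cases h : x.1 ∈ Fintype.piFinset B'
    · simp only [dif_pos h, Pi.add_apply]
    · simp only [dif_neg h, Pi.add_apply, add_zero]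
  map_smul' c f := by
    funext x
    by_cases h : x.1 ∈ Fintype.piFinset B'
    · simp only [dif_pos h, Pi.smul_apply, RingHom.id_apply]
    · simp only [dif_neg h, Pi.smul_apply, RingHom.id_apply, smul_zero]

lemma extz_res (B : I → Finset ℕ) (y : I) (C : Finset ℕ) (hC : C ⊆ B y) (f : (I → ℕ) → K) :
    extz B (Function.update B y C) (res K (Function.update B y C) f)
      = res K B (ind y C * f) := by
  funext x
  have hx : ∀ i, x.1 i ∈ B i := fun i => Fintype.mem_piFinset.mp x.2 i
  have hiff : x.1 ∈ Fintype.piFinset (Function.update B y C) ↔ x.1 y ∈ C := by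
    rw [Fintype.mem_piFinset]
    constructor
    · intro h
      have := h y
      simpa using this
    · intro h i
      by_cases hi : i = y
      · subst hi; simpa using h
      · rw [Function.update_of_ne hi]; exact hx i
  simp only [extz, LinearMap.coe_mk, AddHom.coe_mk, res_apply, Pi.mul_apply, ind]
  by_cases h : x.1 y ∈ C
  · rw [dif_pos (hiff.mpr h), if_pos h, one_mul]
  · rw [dif_neg (fun h' => h (hiff.mp h')), if_neg h, zero_mul]

/-- Additivity of the rank over disjoint sub-boxes. -/
lemma sum_finrank_le (B : I → Finset ℕ) (y : I) {ι : Type*} (S : Finset ι) (C : ι → Finset ℕ)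
    (hC : ∀ p ∈ S, C p ⊆ B y) (hdis : ∀ p ∈ S, ∀ q ∈ S, p ≠ q → Disjoint (C p) (C q))
    (J : Submodule K (↥(Fintype.piFinset B) → K))
    (Jp : ∀ p, Submodule K (↥(Fintype.piFinset (Function.update B y (C p))) → K))
    (hJ : ∀ p ∈ S, Submodule.map (extz B (Function.update B y (C p))) (Jp p) ≤ J) :
    ∑ p ∈ S, Module.finrank K (Jp p) ≤ Module.finrank K J := by
  -- linear injection from the product
  let Ψ0 : (∀ p : S, Jp p.1) →ₗ[K] (↥(Fintype.piFinset B) → K) :=
    ∑ p : S, (extz B (Function.update B y (C p.1))) ∘ₗ (Jp p.1).subtype ∘ₗ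
      (LinearMap.proj p : (∀ p : S, Jp p.1) →ₗ[K] Jp p.1)
  have hΨ0 : ∀ f, Ψ0 f = ∑ p : S, extz B (Function.update B y (C p.1)) ((f p : _) ) := by
    intro f
    simp [Ψ0, LinearMap.sum_apply]
  have hmem : ∀ f, Ψ0 f ∈ J := by
    intro f
    rw [hΨ0]
    refine Submodule.sum_mem _ fun p _ => ?_
    exact hJ p.1 p.2 (Submodule.mem_map_of_mem (f p).2)
  let Ψ : (∀ p : S, Jp p.1) →ₗ[K] J := Ψ0.codRestrict J hmem
  have hinj : Function.Injective Ψ := by
    rw [← LinearMap.ker_eq_bot, LinearMap.ker_eq_bot']
    intro f hf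
    have hf0 : Ψ0 f = 0 := by
      have := congrArg Subtype.val hf
      simpa [Ψ] using this
    funext p
    apply Subtype.ext
    funext x
    have hxB : x.1 ∈ Fintype.piFinset B := by
      rw [Fintype.mem_piFinset]
      intro i
      have h := Fintype.mem_piFinset.mp x.2 i
      by_cases hi : i = y
      · subst hi
        rw [Function.update_self] at h
        exact hC p.1 p.2 h
      · rwa [Function.update_of_ne hi] at h
    have hxy : x.1 y ∈ C p.1 := by
      have h := Fintype.mem_piFinset.mp x.2 y
      rwa [Function.update_self] at h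
    have h1 := congrFun hf0 ⟨x.1, hxB⟩
    rw [hΨ0, Finset.sum_apply] at h1
    rw [Finset.sum_eq_single p] at h1
    · have h2 : extz B (Function.update B y (C p.1)) (f p : _) ⟨x.1, hxB⟩
          = (f p : ↥(Fintype.piFinset (Function.update B y (C p.1))) → K) x := by
        simp only [extz, LinearMap.coe_mk, AddHom.coe_mk]
        rw [dif_pos x.2]
      rw [h2] at h1
      simpa using h1
    · intro q _ hqp
      simp only [extz, LinearMap.coe_mk, AddHom.coe_mk]
      rw [dif_neg]
      intro hmem'
      have h3 := Fintype.mem_piFinset.mp hmem' y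
      rw [Function.update_self] at h3
      have hne : q.1 ≠ p.1 := fun h => hqp (Subtype.ext h)
      exact (Finset.disjoint_left.mp (hdis q.1 q.2 p.1 p.2 hne)) h3 hxy
    · intro h; exact absurd (Finset.mem_univ _) h
  have h4 := LinearMap.finrank_le_finrank_of_injective hinj
  rw [Module.finrank_pi_fintype] at h4
  rw [← Finset.sum_coe_sort S (fun p => Module.finrank K (Jp p))]
  exact h4


lemma prod_update_card_of_mem (B : I → Finset ℕ) (y : I) (C : Finset ℕ) (T : Finset I)
    (hy : y ∈ T) (x : ℚ) (hx : (C.card : ℚ) = x * (B y).card) :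
    ∏ i ∈ T, ((Function.update B y C i).card : ℚ) = x * ∏ i ∈ T, ((B i).card : ℚ) := by
  rw [← Finset.mul_prod_erase T _ hy, ← Finset.mul_prod_erase T (fun i => ((B i).card : ℚ)) hy]
  rw [Function.update_self, hx, mul_assoc]
  congr 2
  refine Finset.prod_congr rfl fun i hi => ?_
  rw [Function.update_of_ne (Finset.ne_of_mem_erase hi)]

lemma prod_update_card_of_notMem (B : I → Finset ℕ) (y : I) (C : Finset ℕ) (T : Finset I)
    (hy : y ∉ T) :
    ∏ i ∈ T, ((Function.update B y C i).card : ℚ) = ∏ i ∈ T, ((B i).card : ℚ) := by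
  refine Finset.prod_congr rfl fun i hi => ?_
  have hne : i ≠ y := by
    intro h
    subst h
    exact hy hi
  rw [Function.update_of_ne hne]

theorem Reach.split [Infinite K] {ι : Type*} (S : Finset ι) (y : I)
    (w' : ι → Finset I → ℚ) (q' lam : ι → ℚ)
    (hlam : ∀ p ∈ S, 0 ≤ lam p) (hsum : ∑ p ∈ S, lam p = 1)
    (hR : ∀ p ∈ S, Reach K (w' p) (q' p)) (w : Finset I → ℚ)
    (hw0 : ∀ T, 0 ≤ w T)
    (hw1 : ∀ T, y ∉ T → ∀ p ∈ S, w' p T ≤ w T)
    (hw2 : ∀ T, y ∈ T → ∑ p ∈ S, lam p * w' p T ≤ w T) :
    Reach K w (∑ p ∈ S, lam p * q' p) := by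
  have hR' : ∀ p : S, Reach K (w' p) (q' p) := fun p => hR p.1 p.2
  unfold Reach at hR'
  choose N hN hRN using hR'
  have hden : ∀ p : S, 0 < (lam p).den := fun p => (lam p).den_pos
  refine ⟨∏ p : S, (N p * (lam p).den), Finset.prod_pos fun p _ => Nat.mul_pos (hN p) (hden p),
    fun B hB => ?_⟩
  -- sizes of the pieces
  have hdvd : ∀ p : S, N p * (lam p).den ∣ (B y).card := fun p =>
    (Finset.dvd_prod_of_mem (fun p : S => N p * (lam p).den) (Finset.mem_univ p)).trans (hB y)
  have hn : ∀ p : S, ∃ n : ℕ, (n : ℚ) = lam p * (B y).card ∧ N p ∣ n := by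
    intro p
    obtain ⟨b, hb⟩ := hdvd p
    refine ⟨(lam p).num.toNat * (N p * b), ?_, ⟨(lam p).num.toNat * b, by ring⟩⟩
    have h0 : 0 ≤ (lam p).num := Rat.num_nonneg.mpr (hlam p.1 p.2)
    have h1 : (((lam p).num.toNat : ℕ) : ℚ) = ((lam p).num : ℚ) := by
      have : (((lam p).num.toNat : ℕ) : ℤ) = (lam p).num := Int.toNat_of_nonneg h0
      exact_mod_cast this
    rw [hb]
    push_cast
    rw [h1]
    have h2 : (lam p : ℚ) * ((lam p).den : ℚ) = (lam p).num := Rat.mul_den_eq_num _
    calc ((lam p).num : ℚ) * ((N p : ℚ) * b) = (lam p * ((lam p).den : ℚ)) * ((N p : ℚ) * b) := by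
          rw [h2]
      _ = _ := by ring
  choose n hnq hnd using hn
  have hsumS : ∑ p : S, lam p.1 = 1 := by
    rw [Finset.sum_coe_sort S lam]; exact hsum
  have hsumn : ∑ p : S, n p = (B y).card := by
    have : ((∑ p : S, n p : ℕ) : ℚ) = ((B y).card : ℚ) := by
      push_cast
      rw [Finset.sum_congr rfl (fun p _ => hnq p), ← Finset.sum_mul, hsumS, one_mul]
    exact_mod_cast this
  obtain ⟨C, hC, hCdis⟩ := exists_disjoint_family (Finset.univ : Finset S) (B y) n hsumn.le
  have hC1 : ∀ p : S, C p ⊆ B y := fun p => (hC p (Finset.mem_univ p)).1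
  have hC2 : ∀ p : S, ((C p).card : ℚ) = lam p * (B y).card := fun p => by
    rw [(hC p (Finset.mem_univ p)).2]; exact hnq p
  have hBp : ∀ p : S, ∀ i, N p ∣ (Function.update B y (C p) i).card := by
    intro p i
    by_cases hi : i = y
    · subst hi
      rw [Function.update_self, (hC p (Finset.mem_univ p)).2]
      exact hnd p
    · rw [Function.update_of_ne hi]
      exact (Dvd.intro _ rfl : N p ∣ N p * (lam p).den).trans
        ((Finset.dvd_prod_of_mem (fun p : S => N p * (lam p).den) (Finset.mem_univ p)).trans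
          (hB i))
  have hG := fun p : S => hRN p (Function.update B y (C p)) (hBp p)
  choose G hG1 hG2 hG3 using hG
  -- numbers of generators
  let a : Finset I → ℕ := fun T => Finset.univ.sup fun p : S => (G p T).card
  have ha : ∀ (p : S) T, (G p T).card ≤ a T := fun p T =>
    Finset.le_sup (f := fun p : S => (G p T).card) (Finset.mem_univ p)
  -- parameters
  let adm : Set (Finset I → ℕ → ((I → ℕ) → K)) := {t | ∀ (T : Finset I) (l : ℕ), t T l ∈ dep K (T : Set I)}
  let σ : S → Type _ := fun p =>
    {s : Finset I × ℕ × ((I → ℕ) → K) // y ∉ s.1 ∧ s.2.1 < a s.1 ∧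
      s.2.2 ∈ dep K ((s.1 : Set I)ᶜ)} ⊕
    {s : Finset I × ((I → ℕ) → K) × ((I → ℕ) → K) // y ∈ s.1 ∧ s.2.1 ∈ G p s.1 ∧
      s.2.2 ∈ dep K ((s.1 : Set I)ᶜ)}
  let v : ∀ p : S, (Finset I → ℕ → ((I → ℕ) → K)) → σ p →
      (↥(Fintype.piFinset (Function.update B y (C p))) → K) := fun p t s =>
    match s with
    | Sum.inl s => res K (Function.update B y (C p)) (t s.1.1 s.1.2.1 * s.1.2.2)
    | Sum.inr s => res K (Function.update B y (C p)) (s.1.2.1 * s.1.2.2)
  obtain ⟨t, ht, htr⟩ := exists_simultaneous (K := K) adm (by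
      intro t ht t' ht' c T l
      exact Submodule.add_mem _ (ht T l) (Submodule.smul_mem _ c
        (Submodule.sub_mem _ (ht' T l) (ht T l))))
    ⟨0, fun T l => Submodule.zero_mem _⟩ (Finset.univ : Finset S)
    (fun p => (↥(Fintype.piFinset (Function.update B y (C p))) → K)) σ v
    (by
      intro p t t' c s
      rcases s with s | s
      · funext x
        simp only [v, res_apply, Pi.mul_apply, Pi.add_apply, Pi.smul_apply, Pi.sub_apply,
          smul_eq_mul]
        ring
      · simp only [v, sub_self, smul_zero, add_zero])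
    (fun p => rk (Function.update B y (C p)) (G p))
    (by
      intro p _
      let tp : Finset I → ℕ → ((I → ℕ) → K) := fun T l =>
        if h : l < (G p T).card then ((G p T).equivFin.symm ⟨l, h⟩).1 else 0
      refine ⟨tp, ?_, ?_⟩
      · intro T l
        by_cases h : l < (G p T).card
        · simp only [tp, dif_pos h]
          exact hG1 p T _ ((G p T).equivFin.symm ⟨l, h⟩).2
        · simp only [tp, dif_neg h]
          exact Submodule.zero_mem _
      · unfold rk
        apply Submodule.finrank_mono
        rw [Submodule.map_span_le]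
        rintro _ ⟨T, f, hf, g, hg, rfl⟩
        apply Submodule.subset_span
        by_cases hy : y ∈ T
        · exact ⟨Sum.inr ⟨(T, f, g), hy, hf, hg⟩, rfl⟩
        · let l := (G p T).equivFin ⟨f, hf⟩
          refine ⟨Sum.inl ⟨(T, l.1, g), hy, lt_of_lt_of_le l.2 (ha p T), hg⟩, ?_⟩
          simp only [v, tp]
          rw [dif_pos l.2]
          simp [l])
  -- the combined system
  let Gt : Finset I → Finset ((I → ℕ) → K) := fun T =>
    if y ∈ T then (Finset.univ : Finset S).biUnion fun p => (G p T).image fun f => ind y (C p) * f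
    else (Finset.range (a T)).image (t T)
  refine ⟨Gt, ?_, ?_, ?_⟩
  · intro T f hf
    by_cases hy : y ∈ T
    · simp only [Gt, if_pos hy, Finset.mem_biUnion, Finset.mem_image] at hf
      obtain ⟨p, _, f', hf', rfl⟩ := hf
      exact mul_mem_dep (ind_mem_dep (Finset.mem_coe.mpr hy)) (hG1 p T f' hf')
    · simp only [Gt, if_neg hy, Finset.mem_image] at hf
      obtain ⟨l, _, rfl⟩ := hf
      exact ht T l
  · intro T
    by_cases hy : y ∈ T
    · have hcard : (Gt T).card ≤ ∑ p : S, (G p T).card := by
        simp only [Gt, if_pos hy]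
        refine Finset.card_biUnion_le.trans ?_
        exact Finset.sum_le_sum fun p _ => Finset.card_image_le
      have hcardq : ((Gt T).card : ℚ) ≤ ∑ p : S, ((G p T).card : ℚ) := by exact_mod_cast hcard
      refine hcardq.trans ?_
      have h1 : ∀ p : S, ((G p T).card : ℚ) ≤ (lam p * w' p T) * ∏ i ∈ T, ((B i).card : ℚ) := by
        intro p
        refine (hG2 p T).trans (le_of_eq ?_)
        rw [prod_update_card_of_mem B y (C p) T hy (lam p) (hC2 p)]
        ring
      refine (Finset.sum_le_sum fun p _ => h1 p).trans ?_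
      rw [← Finset.sum_mul, Finset.sum_coe_sort S (fun p => lam p * w' p T)]
      exact mul_le_mul_of_nonneg_right (hw2 T hy) (Finset.prod_nonneg fun i _ => Nat.cast_nonneg _)
    · have hcard : (Gt T).card ≤ a T := by
        simp only [Gt, if_neg hy]
        refine Finset.card_image_le.trans ?_
        simp
      have haT : (a T : ℚ) ≤ w T * ∏ i ∈ T, ((B i).card : ℚ) := by
        refine Finset.sup_induction (p := fun n : ℕ => (n : ℚ) ≤ w T * ∏ i ∈ T, ((B i).card : ℚ))
          ?_ ?_ ?_
        · simp only [Nat.bot_eq_zero, Nat.cast_zero]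
          exact mul_nonneg (hw0 T) (Finset.prod_nonneg fun i _ => Nat.cast_nonneg _)
        · intro n hn' m hm'
          rcases le_total n m with h | h
          · rw [sup_eq_right.mpr h]; exact hm'
          · rw [sup_eq_left.mpr h]; exact hn'
        · intro p _
          refine (hG2 p T).trans ?_
          rw [prod_update_card_of_notMem B y (C p) T hy]
          exact mul_le_mul_of_nonneg_right (hw1 T hy p.1 p.2)
            (Finset.prod_nonneg fun i _ => Nat.cast_nonneg _)
      have : ((Gt T).card : ℚ) ≤ (a T : ℚ) := by exact_mod_cast hcard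
      exact this.trans haT
  · -- rank
    have hle := sum_finrank_le (K := K) B y (Finset.univ : Finset S) C (fun p _ => hC1 p)
      (fun p hp q hq => hCdis p hp q hq) (Submodule.map (res K B) (Submodule.span K (prods Gt)))
      (fun p => Submodule.span K (Set.range (v p t))) (by
        intro p _
        rw [Submodule.map_span_le]
        rintro _ ⟨s, rfl⟩
        rcases s with ⟨⟨T, l, g⟩, hy, hl, hg⟩ | ⟨⟨T, f, g⟩, hy, hf, hg⟩
        · simp only [v]
          rw [extz_res B y (C p) (hC1 p)]
          refine Submodule.mem_map_of_mem (Submodule.subset_span ⟨T, t T l, ?_,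
            ind y (C p) * g, mul_mem_dep (ind_mem_dep ?_) hg, ?_⟩)
          · simp only [Gt, if_neg hy, Finset.mem_image, Finset.mem_range]
            exact ⟨l, hl, rfl⟩
          · simpa using hy
          · funext x
            simp only [Pi.mul_apply]
            ring
        · simp only [v]
          rw [extz_res B y (C p) (hC1 p)]
          refine Submodule.mem_map_of_mem (Submodule.subset_span ⟨T, ind y (C p) * f, ?_,
            g, hg, ?_⟩)
          · simp only [Gt, if_pos hy, Finset.mem_biUnion, Finset.mem_image]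
            exact ⟨p, Finset.mem_univ p, f, hf, rfl⟩
          · rw [mul_assoc])
    have h1 : ∑ p : S, rk (Function.update B y (C p)) (G p) ≤ rk B Gt :=
      (Finset.sum_le_sum fun p hp => htr p hp).trans hle
    have h1q : ∑ p : S, (rk (Function.update B y (C p)) (G p) : ℚ) ≤ (rk B Gt : ℚ) := by
      exact_mod_cast h1
    have h2 : ∀ p : S, lam p * (∏ i, ((B i).card : ℚ)) -
        (rk (Function.update B y (C p)) (G p) : ℚ) ≤ (lam p * q' p) * ∏ i, ((B i).card : ℚ) := by
      intro p
      have h3 := hG3 p
      rw [prod_update_card_of_mem B y (C p) Finset.univ (Finset.mem_univ y) (lam p) (hC2 p)] at h3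
      linarith
    have h4 := Finset.sum_le_sum fun (p : S) (_ : p ∈ Finset.univ) => h2 p
    rw [Finset.sum_sub_distrib, ← Finset.sum_mul, ← Finset.sum_mul, hsumS,
      Finset.sum_coe_sort S (fun p => lam p * q' p), one_mul] at h4
    linarith

end Pool.Agent.H21
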