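import Pool.Agent.H21.Base

/-!
Exactness for repeated labels: the states of a split block.
-/

set_option linter.unusedSectionVars false

namespace Pool.Agent.H21

open scoped Classical

variable {K : Type} [Field K] {P : Type} [Fintype P] {A : Type} [Fintype A] [Nonempty A]

lemma Ex.congr {Λ : Type*} {B B' : P → Finset A} {supp : Λ → Finset P}
    {h h' : Λ → ((P → A) → K)} {S S' : Finset Λ} {Q : Finset P}
    (hE : Ex B supp h S Q) (hB : ∀ p ∈ Q, B p = B' p)
    (hS : ∀ l, supp l ⊆ Q → (l ∈ S ↔ l ∈ S')) (hh : ∀ l ∈ S, supp l ⊆ Q → h l = h' l) :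
    Ex B' supp h' S' Q := by
  intro Q' hQ'
  have h1 := hE Q' hQ'
  have hB' : ∀ p ∈ Q', B p = B' p := fun p hp => hB p (hQ' hp)
  have hS' : ∀ l, supp l ⊆ Q' → (l ∈ S ↔ l ∈ S') := fun l hl => hS l (hl.trans hQ')
  rw [EE_box_congr hB' hS'] at h1
  refine le_trans (le_of_eq ?_) h1
  unfold DD
  have h2 : JJ B' supp h' S' Q' = JJ B supp h S Q' := by
    apply le_antisymm
    · apply JJ_le_of fun p hp => (hB' p hp).symm
      intro l hl hlQ
      have hl' := (hS' l hlQ).mpr hl
      exact ⟨l, hl', rfl, hh l hl' (hlQ.trans hQ')⟩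
    · apply JJ_le_of hB'
      intro l hl hlQ
      exact ⟨l, (hS' l hlQ).mp hl, rfl, (hh l hl (hlQ.trans hQ')).symm⟩
  rw [h2, Finset.prod_congr rfl fun p hp => by rw [← hB' p hp]]

/-- Exactness from injectivity. -/
lemma Ex_of_inj {Λ : Type*} {B : P → Finset A} {supp : Λ → Finset P}
    {h : Λ → ((P → A) → K)} {S : Finset Λ} {Q : Finset P}
    (hh : ∀ l ∈ S, h l ∈ MM K B (supp l)) (hne : ∀ l ∈ S, (supp l).Nonempty)
    (hI : ∀ Q' ⊆ Q, Q'.Nonempty → ∃ p ∈ Q', Inj B supp h S Q' p) : Ex B supp h S Q := by
  have key : ∀ (n : ℕ) (Q' : Finset P), Q'.card = n → Q' ⊆ Q →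
      DD B supp h S Q' = EE (wt B supp S) Q' := by
    intro n
    induction n using Nat.strong_induction_on with
    | _ n ih =>
      intro Q' hn hQ'
      by_cases hem : Q'.Nonempty
      · obtain ⟨p, hp, hIp⟩ := hI Q' hQ' hem
        have hsm : ∀ T ∈ sub Q' p, DD B supp h S (Q' \ T) = EE (wt B supp S) (Q' \ T) := by
          intro T hT
          rw [mem_sub] at hT
          exact ih _ (by rw [← hn]; exact card_sdiff_lt hT.1 hT.2) _ rfl
            (Finset.sdiff_subset.trans hQ')
        refine le_antisymm (DD_le_of_inj hh hp hIp hsm) ?_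
        rw [EE_rec' _ Q' p hp]
        refine le_trans (le_of_eq ?_) (DD_iff hh hp).1
        exact Finset.sum_congr rfl fun T hT => by rw [hsm T hT]
      · rw [Finset.not_nonempty_iff_eq_empty] at hem
        rw [hem, DD_empty hne, EE_empty]
  exact fun Q' hQ' => (key _ Q' rfl hQ').le

section Defs

variable (lam : P → ℕ) (i z : ℕ) (X Z : Finset A) (B : ℕ → Finset A)
  (C Old New : Finset ℕ → Finset ℕ) (t : Sys K A) (Zs Ys R : Finset P) (d : ℕ)

/-- Relabel the positions in `Zs` by `z`. -/
noncomputable def lamZ (q : P) : ℕ := if q ∈ Zs then z else lam q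

/-- Boxes after splitting. -/
noncomputable def Bm : ℕ → Finset A := Function.update (Function.update B i X) z Z

/-- Index sets after splitting. -/
noncomputable def Cm (W : Finset ℕ → Finset ℕ) (T : Finset ℕ) : Finset ℕ :=
  if z ∈ T then (if i ∈ T then ∅ else New (insert i (T.erase z))) else W T

/-- The system on the union of the two parts. -/
noncomputable def Fsys : Sys K A := fun T l x =>
  if i ∈ T then
    (if x i ∈ X then t T l x else 0) +
    (if x i ∈ Z ∧ l ∈ New T then t (insert z (T.erase i)) l (Function.update x z (x i)) else 0)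
  else t T l x

/-- Boxes of a state. -/
noncomputable def Bst (q : P) : Finset A :=
  if q ∈ Zs then Z else if q ∈ Ys then X ∪ Z else if q ∈ R then X else B (lam q)

/-- Index sets of a state. -/
noncomputable def Cst (T : Finset P) : Finset ℕ :=
  if T.card = d ∧ Set.InjOn lam T then
    (if ∃ q ∈ T, q ∈ Zs then New (T.image lam)
    else if ∃ q ∈ T, q ∈ Ys then C (T.image lam) else Old (T.image lam))
  else ∅

end Defs

variable {lam : P → ℕ} {i z : ℕ} {X Z : Finset A} {B : ℕ → Finset A}
  {C Old New : Finset ℕ → Finset ℕ} {t : Sys K A} {Q R : Finset P} {d : ℕ}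

lemma Fsys_adm (ht : t ∈ adm K A) : Fsys i z X Z New t ∈ adm K A := by
  intro T l x y hxy
  unfold Fsys
  by_cases hi : i ∈ T
  · rw [if_pos hi, if_pos hi, hxy i hi, ht T l x y hxy]
    congr 1
    have : t (insert z (T.erase i)) l (Function.update x z (y i)) =
        t (insert z (T.erase i)) l (Function.update y z (y i)) := by
      apply ht
      intro j hj
      by_cases hjz : j = z
      · subst hjz
        rw [Function.update_self, Function.update_self]
      · rw [Function.update_of_ne hjz, Function.update_of_ne hjz]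
        rcases Finset.mem_insert.mp hj with h | h
        · exact absurd h hjz
        · exact hxy j (Finset.mem_of_mem_erase h)
    rw [this]
  · rw [if_neg hi, if_neg hi]
    exact ht T l x y hxy

/-- Facts about label-injective sets of positions. -/
lemma image_lamZ_of_disjoint {Zs T : Finset P} (h : ¬ ∃ q ∈ T, q ∈ Zs) :
    T.image (lamZ lam z Zs) = T.image lam := by
  apply Finset.image_congr
  intro q hq
  unfold lamZ
  rw [if_neg fun h' => h ⟨q, hq, h'⟩]

lemma image_lamZ_of_mem {Zs T : Finset P} (hinj : Set.InjOn lam T) (hZs : ∀ q ∈ Zs, lam q = i)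
    {q : P} (hq : q ∈ T) (hqZ : q ∈ Zs) :
    T.image (lamZ lam z Zs) = insert z ((T.image lam).erase i) := by
  ext j
  simp only [Finset.mem_image, Finset.mem_insert, Finset.mem_erase]
  constructor
  · rintro ⟨p, hp, rfl⟩
    unfold lamZ
    by_cases hpZ : p ∈ Zs
    · rw [if_pos hpZ]
      exact Or.inl rfl
    · rw [if_neg hpZ]
      refine Or.inr ⟨fun h => ?_, p, hp, rfl⟩
      have : p = q := hinj hp hq (by rw [h, hZs q hqZ])
      exact hpZ (this ▸ hqZ)
  · rintro (h | ⟨h1, p, hp, rfl⟩)
    · refine ⟨q, hq, ?_⟩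
      unfold lamZ
      rw [if_pos hqZ, h]
    · refine ⟨p, hp, ?_⟩
      unfold lamZ
      rw [if_neg fun h => h1 (hZs p h)]

lemma injOn_lamZ {Zs T : Finset P} (hinj : Set.InjOn lam T) (hZs : ∀ q ∈ Zs, lam q = i)
    (hz : z ∉ T.image lam) : Set.InjOn (lamZ lam z Zs) T := by
  intro p hp q hq hpq
  unfold lamZ at hpq
  by_cases h1 : p ∈ Zs
  · by_cases h2 : q ∈ Zs
    · exact hinj hp hq (by rw [hZs p h1, hZs q h2])
    · rw [if_pos h1, if_neg h2] at hpq
      exact absurd (Finset.mem_image.mpr ⟨q, hq, hpq.symm⟩) hz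
  · by_cases h2 : q ∈ Zs
    · rw [if_neg h1, if_pos h2] at hpq
      exact absurd (Finset.mem_image.mpr ⟨p, hp, hpq⟩) hz
    · rw [if_neg h1, if_neg h2] at hpq
      exact hinj hp hq hpq

/-- The index sets of a split labelled system. -/
lemma CL_lamZ {Zs T : Finset P} (W : Finset ℕ → Finset ℕ) (hZs : ∀ q ∈ Zs, lam q = i)
    (hiz : i ≠ z) (hz : z ∉ T.image lam) :
    CL d (lamZ lam z Zs) (Cm i z New W) T =
      if T.card = d ∧ Set.InjOn lam T then
        (if ∃ q ∈ T, q ∈ Zs then New (T.image lam) else W (T.image lam)) else ∅ := by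
  unfold CL
  by_cases hd : T.card = d
  · by_cases hinj : Set.InjOn lam T
    · rw [if_pos ⟨hd, injOn_lamZ hinj hZs hz⟩, if_pos ⟨hd, hinj⟩]
      by_cases hex : ∃ q ∈ T, q ∈ Zs
      · rw [if_pos hex]
        obtain ⟨q, hq, hqZ⟩ := hex
        rw [image_lamZ_of_mem hinj hZs hq hqZ]
        unfold Cm
        rw [if_pos (Finset.mem_insert_self _ _), if_neg]
        · congr 1
          have h1 : i ∈ T.image lam := Finset.mem_image.mpr ⟨q, hq, hZs q hqZ⟩
          rw [Finset.erase_insert, Finset.insert_erase h1]
          intro h2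
          exact hz (Finset.mem_of_mem_erase h2)
        · intro h1
          rcases Finset.mem_insert.mp h1 with h2 | h2
          · exact hiz h2
          · exact (Finset.mem_erase.mp h2).1 rfl
      · rw [if_neg hex, image_lamZ_of_disjoint hex]
        unfold Cm
        rw [if_neg hz]
    · rw [if_neg (c := T.card = d ∧ Set.InjOn lam T) fun h => hinj h.2]
      by_cases hinj' : Set.InjOn (lamZ lam z Zs) T
      · rw [if_pos ⟨hd, hinj'⟩]
        -- both i and z occur
        have h1 : ∃ p ∈ T, ∃ q ∈ T, lam p = lam q ∧ p ≠ q := by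
          by_contra hcon
          push Not at hcon
          exact hinj fun p hp q hq hpq => hcon p hp q hq hpq
        obtain ⟨p, hp, q, hq, hpq, hne⟩ := h1
        have h2 : ∃ a ∈ T, ∃ b ∈ T, a ∈ Zs ∧ b ∉ Zs ∧ lam a = lam b := by
          by_cases hpZ : p ∈ Zs
          · by_cases hqZ : q ∈ Zs
            · exfalso
              apply hne
              apply hinj' hp hq
              unfold lamZ
              rw [if_pos hpZ, if_pos hqZ]
            · exact ⟨p, hp, q, hq, hpZ, hqZ, hpq⟩
          · by_cases hqZ : q ∈ Zs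
            · exact ⟨q, hq, p, hp, hqZ, hpZ, hpq.symm⟩
            · exfalso
              apply hne
              apply hinj' hp hq
              unfold lamZ
              rw [if_neg hpZ, if_neg hqZ, hpq]
        obtain ⟨a, ha, b, hb, haZ, hbZ, hab⟩ := h2
        unfold Cm
        rw [if_pos, if_pos]
        · refine Finset.mem_image.mpr ⟨b, hb, ?_⟩
          unfold lamZ
          rw [if_neg hbZ, ← hab, hZs a haZ]
        · refine Finset.mem_image.mpr ⟨a, ha, ?_⟩
          unfold lamZ
          rw [if_pos haZ]
      · rw [if_neg fun h => hinj' h.2]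
  · rw [if_neg fun h => hd h.1, if_neg fun h => hd h.1]

/-- The functions of a split labelled system. -/
lemma hb_lamZ (ht : t ∈ adm K A) {Zs T : Finset P} (hinj : Set.InjOn lam T)
    (hZs : ∀ q ∈ Zs, lam q = i) (hiz : i ≠ z) (hz : z ∉ T.image lam) (hXZ : Disjoint X Z)
    (Bp : P → Finset A) (hBp : ∀ q ∈ T, Bp q = Bm i z X Z B (lamZ lam z Zs q))
    (l : ℕ) (hl : (∃ q ∈ T, q ∈ Zs) → l ∈ New (T.image lam)) :
    hb Prod.fst (HL (lamZ lam z Zs) t) Bp (T, l) =
      hb Prod.fst (HL lam (Fsys i z X Z New t)) Bp (T, l) := by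
  funext x
  simp only [hb, bx, Pi.mul_apply]
  by_cases hx : ∀ p ∈ T, x p ∈ Bp p
  · rw [if_pos hx, one_mul, one_mul]
    unfold HL
    simp only
    have hinj' := injOn_lamZ hinj hZs hz
    by_cases hex : ∃ q ∈ T, q ∈ Zs
    · have hlN := hl hex
      obtain ⟨q, hq, hqZ⟩ := hex
      have hqi := hZs q hqZ
      have hiT : i ∈ T.image lam := Finset.mem_image.mpr ⟨q, hq, hqi⟩
      have hxq : x q ∈ Z := by
        have h1 := hx q hq
        rw [hBp q hq] at h1
        have h2 : lamZ lam z Zs q = z := by
          unfold lamZ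
          rw [if_pos hqZ]
        rw [h2] at h1
        unfold Bm at h1
        rwa [Function.update_self] at h1
      have hlift : liftx lam T x i = x q := by
        rw [← hqi]
        exact liftx_apply hinj x hq
      rw [image_lamZ_of_mem hinj hZs hq hqZ]
      unfold Fsys
      rw [if_pos hiT, hlift, if_neg (Finset.disjoint_right.mp hXZ hxq), zero_add,
        if_pos ⟨hxq, hlN⟩]
      apply ht
      intro j hj
      rcases Finset.mem_insert.mp hj with h3 | h3
      · rw [h3, Function.update_self]
        have h2 : lamZ lam z Zs q = z := by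
          unfold lamZ
          rw [if_pos hqZ]
        have h8 := liftx_apply hinj' x hq
        rw [h2] at h8
        exact h8
      · obtain ⟨h4, h5⟩ := Finset.mem_erase.mp h3
        obtain ⟨p, hp, hpj⟩ := Finset.mem_image.mp h5
        have hjz : j ≠ z := fun h => hz (h ▸ h5)
        rw [Function.update_of_ne hjz]
        have h6 : lamZ lam z Zs p = j := by
          unfold lamZ
          rw [if_neg, hpj]
          intro h7
          exact h4 (by rw [← hpj]; exact hZs p h7)
        conv_lhs => rw [← h6, liftx_apply hinj' x hp]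
        rw [← hpj, liftx_apply hinj x hp]
    · rw [image_lamZ_of_disjoint hex]
      have hliftEq : ∀ j ∈ T.image lam, liftx (lamZ lam z Zs) T x j = liftx lam T x j := by
        intro j hj
        obtain ⟨p, hp, hpj⟩ := Finset.mem_image.mp hj
        have h6 : lamZ lam z Zs p = j := by
          unfold lamZ
          rw [if_neg fun h7 => hex ⟨p, hp, h7⟩, hpj]
        conv_lhs => rw [← h6, liftx_apply hinj' x hp]
        rw [← hpj, liftx_apply hinj x hp]
      unfold Fsys
      by_cases hiT : i ∈ T.image lam
      · obtain ⟨q, hq, hqi⟩ := Finset.mem_image.mp hiT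
        have hlift : liftx lam T x i = x q := by
          rw [← hqi]
          exact liftx_apply hinj x hq
        have hxq : x q ∈ X := by
          have h1 := hx q hq
          rw [hBp q hq] at h1
          have h2 : lamZ lam z Zs q = i := by
            unfold lamZ
            rw [if_neg fun h7 => hex ⟨q, hq, h7⟩, hqi]
          rw [h2] at h1
          unfold Bm at h1
          rwa [Function.update_of_ne hiz, Function.update_self] at h1
        rw [if_pos hiT, hlift, if_pos hxq,
          if_neg (fun h => Finset.disjoint_left.mp hXZ hxq h.1), add_zero]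
        exact ht _ _ _ _ hliftEq
      · rw [if_neg hiT]
        exact ht _ _ _ _ hliftEq
  · rw [if_neg hx, zero_mul, zero_mul]

/-- All states of a split block are exact, hence so is the labelled system. -/
theorem state_ex (hd : 1 ≤ d) (ht : t ∈ adm K A) (hR : R = Q.filter (fun q => lam q = i))
    (hz : z ∉ Q.image lam) (hiz : i ≠ z) (hXZ : Disjoint X Z) (hB : B i = X ∪ Z)
    (hON : ∀ T, Old T ∪ New T = C T) (hdisj : ∀ T, Disjoint (Old T) (New T))
    (hnew : ∀ T, i ∉ T → New T = ∅) (p : P) (hp : p ∈ R)
    (h1 : LEx d lam (Function.update B i X) Old Q t)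
    (h2 : ∀ Zs ⊆ R, Zs.Nonempty → Zs ≠ R →
      LEx d (lamZ lam z Zs) (Bm i z X Z B) (Cm i z New Old) Q t)
    (h3 : LEx d (lamZ lam z (R.erase p)) (Bm i z X Z B) (Cm i z New C) Q t) :
    LEx d lam B C Q (Fsys i z X Z New t) := by
  have hRi : ∀ q ∈ R, lam q = i := fun q hq => by
    rw [hR] at hq
    exact (Finset.mem_filter.mp hq).2
  have hRmem : ∀ q, q ∈ Q → lam q = i → q ∈ R := fun q hq hqi => by
    rw [hR]
    exact Finset.mem_filter.mpr ⟨hq, hqi⟩
  have hzT : ∀ T : Finset P, T ⊆ Q → z ∉ T.image lam := fun T hT h =>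
    hz (Finset.image_subset_image hT h)
  -- boxes of states without Y
  have hBst0 : ∀ Zs ⊆ R, ∀ q ∈ Q, Bst lam X Z B Zs ∅ R q = Bm i z X Z B (lamZ lam z Zs q) := by
    intro Zs hZs q hq
    unfold Bst lamZ Bm
    by_cases hqZ : q ∈ Zs
    · rw [if_pos hqZ, if_pos hqZ, Function.update_self]
    · rw [if_neg hqZ, if_neg hqZ, if_neg (Finset.notMem_empty q)]
      have hqz : lam q ≠ z := fun h => hz (Finset.mem_image.mpr ⟨q, hq, h⟩)
      by_cases hqR : q ∈ R
      · rw [if_pos hqR, hRi q hqR, Function.update_of_ne hiz, Function.update_self]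
      · rw [if_neg hqR, Function.update_of_ne hqz, Function.update_of_ne]
        intro h
        exact hqR (hRmem q hq h)
  -- states without Y
  have hst0 : ∀ Zs ⊆ R, Zs ≠ R → Ex (Bst lam X Z B Zs ∅ R) Prod.fst
      (hb Prod.fst (HL lam (Fsys i z X Z New t)) (Bst lam X Z B Zs ∅ R))
      (fam (Cst lam C Old New Zs ∅ d)) Q := by
    intro Zs hZs hZsR
    have hZsi : ∀ q ∈ Zs, lam q = i := fun q hq => hRi q (hZs hq)
    have hCst : ∀ T ⊆ Q, Cst lam C Old New Zs ∅ d T =
        CL d (lamZ lam z Zs) (Cm i z New Old) T := by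
      intro T hT
      rw [CL_lamZ Old hZsi hiz (hzT T hT)]
      unfold Cst
      split_ifs <;> first | rfl | (exfalso; simp_all)
    by_cases hem : Zs.Nonempty
    · refine (h2 Zs hZs hem hZsR).congr (fun q hq => (hBst0 Zs hZs q hq).symm) ?_ ?_
      · intro l hl
        rw [mem_fam, mem_fam, hCst l.1 hl]
      · rintro ⟨T, l⟩ hl hT
        rw [mem_fam] at hl
        simp only at hl hT
        have hT' := hl
        rw [CL_lamZ Old hZsi hiz (hzT T hT)] at hT'
        have hinj : Set.InjOn lam T := by
          by_contra hcon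
          rw [if_neg fun h => hcon h.2] at hT'
          simp at hT'
        have hTd : T.card = d := by
          by_contra hcon
          rw [if_neg fun h => hcon h.1] at hT'
          simp at hT'
        rw [if_pos ⟨hTd, hinj⟩] at hT'
        have h5 := hb_lamZ (New := New) ht hinj hZsi hiz (hzT T hT) hXZ
          (fun q => Bm i z X Z B (lamZ lam z Zs q)) (fun q _ => rfl) l (fun hex => by
            rw [if_pos hex] at hT'
            exact hT')
        rw [h5]
        exact hb_congr fun q hq => (hBst0 Zs hZs q (hT hq)).symm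
    · rw [Finset.not_nonempty_iff_eq_empty] at hem
      subst hem
      have hlamZ : lamZ lam z (∅ : Finset P) = lam := by
        funext q
        unfold lamZ
        rw [if_neg (Finset.notMem_empty q)]
      refine h1.congr ?_ ?_ ?_
      · intro q hq
        rw [hBst0 ∅ (Finset.empty_subset _) q hq, hlamZ]
        unfold Bm
        exact (Function.update_of_ne
          (fun h => hz (Finset.mem_image.mpr ⟨q, hq, h⟩)) _ _).symm
      · intro l hl
        rw [mem_fam, mem_fam]
        unfold CL Cst
        split_ifs <;> first | rfl | (exfalso; simp_all)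
      · rintro ⟨T, l⟩ hl hT
        rw [mem_fam] at hl
        simp only at hl hT
        unfold CL at hl
        have hinj : Set.InjOn lam T := by
          by_contra hcon
          rw [if_neg fun h => hcon h.2] at hl
          simp at hl
        have h5 := hb_lamZ (New := New) (Zs := ∅) ht hinj (by simp) hiz (hzT T hT) hXZ
          (fun q => Bm i z X Z B (lamZ lam z ∅ q)) (fun q _ => rfl) l (by simp)
        have h6 : hb Prod.fst (HL lam t) (fun p => Function.update B i X (lam p)) (T, l) =
            hb Prod.fst (HL (lamZ lam z ∅) t)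
              (fun q => Bm i z X Z B (lamZ lam z ∅ q)) (T, l) := by
          rw [hlamZ]
          refine hb_congr fun q hq => ?_
          unfold Bm
          rw [Function.update_of_ne (a := lam q) (a' := z)]
          exact fun h => hz (Finset.mem_image.mpr ⟨q, hT hq, h⟩)
        rw [h6, h5]
        exact hb_congr fun q hq => (hBst0 ∅ (Finset.empty_subset _) q (hT hq)).symm
  -- functions vanish on Z for the old index set
  have hH : ∀ l : Finset P × ℕ, HL lam (Fsys i z X Z New t) l ∈ Dp (A := A) K (Prod.fst l) :=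
    fun l => HL_mem lam _ l
  have hfamne : ∀ Zs Ys : Finset P, ∀ l ∈ fam (Cst lam C Old New Zs Ys d),
      l.1.card = d ∧ Set.InjOn lam (l.1 : Set P) := by
    intro Zs Ys l hl
    rw [mem_fam] at hl
    unfold Cst at hl
    split_ifs at hl with h4 <;> first | exact h4 | (simp at hl)
  -- merging at a position in state Y
  have hmerge : ∀ Zs Ys : Finset P, Zs ⊆ R → Ys ⊆ R → Disjoint Zs Ys → ∀ q ∈ Ys,
      Ex (Bst lam X Z B Zs (Ys.erase q) R) Prod.fst
        (hb Prod.fst (HL lam (Fsys i z X Z New t)) (Bst lam X Z B Zs (Ys.erase q) R))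
        (fam (Cst lam C Old New Zs (Ys.erase q) d)) Q →
      Ex (Bst lam X Z B (insert q Zs) (Ys.erase q) R) Prod.fst
        (hb Prod.fst (HL lam (Fsys i z X Z New t)) (Bst lam X Z B (insert q Zs) (Ys.erase q) R))
        (fam (Cst lam C Old New (insert q Zs) (Ys.erase q) d)) Q →
      Ex (Bst lam X Z B Zs Ys R) Prod.fst
        (hb Prod.fst (HL lam (Fsys i z X Z New t)) (Bst lam X Z B Zs Ys R))
        (fam (Cst lam C Old New Zs Ys d)) Q := by
    intro Zs Ys hZs hYs hdis q hq hEX hEZ
    have hqR : q ∈ R := hYs hq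
    have hqZ : q ∉ Zs := Finset.disjoint_right.mp hdis hq
    have hBX : Function.update (Bst lam X Z B Zs Ys R) q X = Bst lam X Z B Zs (Ys.erase q) R := by
      funext p'
      by_cases hp' : p' = q
      · subst hp'
        rw [Function.update_self]
        unfold Bst
        rw [if_neg hqZ, if_neg (Finset.notMem_erase _ _), if_pos hqR]
      · rw [Function.update_of_ne hp']
        unfold Bst
        have : p' ∈ Ys.erase q ↔ p' ∈ Ys := by
          rw [Finset.mem_erase]
          exact ⟨fun h => h.2, fun h => ⟨hp', h⟩⟩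
        simp only [this]
    have hBZ : Function.update (Bst lam X Z B Zs Ys R) q Z =
        Bst lam X Z B (insert q Zs) (Ys.erase q) R := by
      funext p'
      by_cases hp' : p' = q
      · subst hp'
        rw [Function.update_self]
        unfold Bst
        rw [if_pos (Finset.mem_insert_self _ _)]
      · rw [Function.update_of_ne hp']
        unfold Bst
        have h4 : p' ∈ Ys.erase q ↔ p' ∈ Ys := by
          rw [Finset.mem_erase]
          exact ⟨fun h => h.2, fun h => ⟨hp', h⟩⟩
        have h5 : p' ∈ insert q Zs ↔ p' ∈ Zs := by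
          rw [Finset.mem_insert]
          exact ⟨fun h => h.resolve_left hp', fun h => Or.inr h⟩
        simp only [h4, h5]
    -- only q among the positions of R
    have honly : ∀ T : Finset P, Set.InjOn lam (T : Set P) → q ∈ T → ∀ q' ∈ T, q' ∈ R → q' = q := by
      intro T hinj hqT q' hq' hq'R
      exact hinj hq' hqT (by rw [hRi q' hq'R, hRi q hqR])
    have hCq : ∀ T : Finset P, T.card = d → Set.InjOn lam (T : Set P) → q ∈ T →
        Cst lam C Old New Zs Ys d T = C (T.image lam) ∧
        Cst lam C Old New Zs (Ys.erase q) d T = Old (T.image lam) ∧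
        Cst lam C Old New (insert q Zs) (Ys.erase q) d T = New (T.image lam) := by
      intro T hTd hinj hqT
      have h4 : ¬ ∃ q' ∈ T, q' ∈ Zs := by
        rintro ⟨q', hq', hq'Z⟩
        rw [honly T hinj hqT q' hq' (hZs hq'Z)] at hq'Z
        exact hqZ hq'Z
      have h5 : ¬ ∃ q' ∈ T, q' ∈ Ys.erase q := by
        rintro ⟨q', hq', hq'Z⟩
        rw [Finset.mem_erase] at hq'Z
        exact hq'Z.1 (honly T hinj hqT q' hq' (hYs hq'Z.2))
      refine ⟨?_, ?_, ?_⟩
      · unfold Cst
        rw [if_pos ⟨hTd, hinj⟩, if_neg h4, if_pos ⟨q, hqT, hq⟩]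
      · unfold Cst
        rw [if_pos ⟨hTd, hinj⟩, if_neg h4, if_neg h5]
      · unfold Cst
        rw [if_pos ⟨hTd, hinj⟩, if_pos ⟨q, hqT, Finset.mem_insert_self _ _⟩]
    have hCn : ∀ T : Finset P, q ∉ T →
        Cst lam C Old New Zs (Ys.erase q) d T = Cst lam C Old New Zs Ys d T ∧
        Cst lam C Old New (insert q Zs) (Ys.erase q) d T = Cst lam C Old New Zs Ys d T := by
      intro T hqT
      have h4 : (∃ q' ∈ T, q' ∈ Ys.erase q) ↔ ∃ q' ∈ T, q' ∈ Ys := by
        constructor
        · rintro ⟨q', hq', h⟩
          exact ⟨q', hq', Finset.mem_of_mem_erase h⟩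
        · rintro ⟨q', hq', h⟩
          exact ⟨q', hq', Finset.mem_erase.mpr ⟨fun h5 => hqT (h5 ▸ hq'), h⟩⟩
      have h5 : (∃ q' ∈ T, q' ∈ insert q Zs) ↔ ∃ q' ∈ T, q' ∈ Zs := by
        constructor
        · rintro ⟨q', hq', h⟩
          rcases Finset.mem_insert.mp h with h6 | h6
          · exact absurd (h6 ▸ hq') hqT
          · exact ⟨q', hq', h6⟩
        · rintro ⟨q', hq', h⟩
          exact ⟨q', hq', Finset.mem_insert_of_mem h⟩
      unfold Cst
      simp only [h4, h5, and_self]
    refine Ex.merge (q := q) (X := X) (Z := Z) (SX := fam (Cst lam C Old New Zs (Ys.erase q) d))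
      (SZ := fam (Cst lam C Old New (insert q Zs) (Ys.erase q) d))
      (fun l _ => hH l) hXZ ?_ ?_ ?_ ?_ ?_ ?_ (by rw [hBX]; exact hEX) (by rw [hBZ]; exact hEZ)
    · unfold Bst
      rw [if_neg hqZ, if_pos hq]
    · rintro ⟨T, l⟩ hl
      obtain ⟨hTd, hinj⟩ := hfamne _ _ _ hl
      rw [mem_fam] at hl ⊢
      simp only at hl hTd hinj ⊢
      by_cases hqT : q ∈ T
      · rw [(hCq T hTd hinj hqT).2.1] at hl
        rw [(hCq T hTd hinj hqT).1, ← hON]
        exact Finset.mem_union_left _ hl
      · rwa [(hCn T hqT).1] at hl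
    · rintro ⟨T, l⟩ hl
      obtain ⟨hTd, hinj⟩ := hfamne _ _ _ hl
      rw [mem_fam] at hl ⊢
      simp only at hl hTd hinj ⊢
      by_cases hqT : q ∈ T
      · rw [(hCq T hTd hinj hqT).2.2] at hl
        rw [(hCq T hTd hinj hqT).1, ← hON]
        exact Finset.mem_union_right _ hl
      · rwa [(hCn T hqT).2] at hl
    · rintro ⟨T, l⟩ hl hqT
      rw [mem_fam] at hl
      rw [mem_fam, mem_fam]
      simp only at hl hqT ⊢
      rw [(hCn T hqT).1, (hCn T hqT).2]
      exact ⟨hl, hl⟩
    · rintro ⟨T, l⟩ hl hqT
      obtain ⟨hTd, hinj⟩ := hfamne _ _ _ hl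
      rw [mem_fam] at hl
      rw [mem_fam, mem_fam]
      simp only at hl hqT hTd hinj ⊢
      rw [(hCq T hTd hinj hqT).1, ← hON, Finset.mem_union] at hl
      rw [(hCq T hTd hinj hqT).2.1, (hCq T hTd hinj hqT).2.2]
      constructor
      · intro h4 h5
        exact Finset.disjoint_left.mp (hdisj _) h4 h5
      · intro h4
        exact hl.resolve_right h4
    · rintro ⟨T, l⟩ hl hqT x hxZ
      obtain ⟨hTd, hinj⟩ := hfamne _ _ _ hl
      rw [mem_fam] at hl
      simp only at hl hqT hTd hinj
      rw [(hCq T hTd hinj hqT).2.1] at hl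
      have hiT : i ∈ T.image lam := Finset.mem_image.mpr ⟨q, hqT, hRi q hqR⟩
      have hlift : liftx lam T x i = x q := by
        rw [← hRi q hqR]
        exact liftx_apply hinj x hqT
      unfold HL Fsys
      simp only
      rw [if_pos hiT, hlift, if_neg (Finset.disjoint_right.mp hXZ hxZ), if_neg, add_zero]
      rintro ⟨_, h5⟩
      exact Finset.disjoint_left.mp (hdisj _) hl h5
  -- the last state
  have hlast : Ex (Bst lam X Z B (R.erase p) {p} R) Prod.fst
      (hb Prod.fst (HL lam (Fsys i z X Z New t)) (Bst lam X Z B (R.erase p) {p} R))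
      (fam (Cst lam C Old New (R.erase p) {p} d)) Q := by
    have hpZ : p ∉ R.erase p := Finset.notMem_erase _ _
    have hZsi : ∀ q ∈ R.erase p, lam q = i := fun q hq => hRi q (Finset.mem_of_mem_erase hq)
    have hBX : Function.update (Bst lam X Z B (R.erase p) {p} R) p X =
        Bst lam X Z B (R.erase p) ∅ R := by
      funext p'
      by_cases hp' : p' = p
      · subst hp'
        rw [Function.update_self]
        unfold Bst
        rw [if_neg hpZ, if_neg (Finset.notMem_empty _), if_pos hp]
      · rw [Function.update_of_ne hp']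
        unfold Bst
        have : p' ∈ ({p} : Finset P) ↔ p' ∈ (∅ : Finset P) := by
          simp [hp']
        simp only [this]
    have hCst : ∀ T ⊆ Q, Cst lam C Old New (R.erase p) {p} d T =
        CL d (lamZ lam z (R.erase p)) (Cm i z New C) T := by
      intro T hT
      rw [CL_lamZ C hZsi hiz (hzT T hT)]
      unfold Cst
      by_cases h4 : T.card = d ∧ Set.InjOn lam (T : Set P)
      · rw [if_pos h4, if_pos h4]
        by_cases h5 : ∃ q ∈ T, q ∈ R.erase p
        · rw [if_pos h5, if_pos h5]
        · rw [if_neg h5, if_neg h5]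
          by_cases h6 : ∃ q ∈ T, q ∈ ({p} : Finset P)
          · rw [if_pos h6]
          · rw [if_neg h6]
            have h7 : i ∉ T.image lam := by
              intro h8
              obtain ⟨q, hq, hqi⟩ := Finset.mem_image.mp h8
              have hqR := hRmem q (hT hq) hqi
              by_cases hqp : q = p
              · exact h6 ⟨q, hq, Finset.mem_singleton.mpr hqp⟩
              · exact h5 ⟨q, hq, Finset.mem_erase.mpr ⟨hqp, hqR⟩⟩
            rw [← hON (T.image lam), hnew _ h7, Finset.union_empty]
      · rw [if_neg h4, if_neg h4]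
    refine Ex.extend (q := p) (X := X) (fun l _ => hH l) ?_ ?_ ?_
    · intro l hl
      rw [← Finset.card_pos]
      have := (hfamne _ _ l hl).1
      omega
    · unfold Bst
      rw [if_neg hpZ, if_pos (Finset.mem_singleton_self p)]
      exact Finset.subset_union_left
    · rw [hBX]
      refine h3.congr (fun q hq => (hBst0 _ (Finset.erase_subset _ _) q hq).symm) ?_ ?_
      · intro l hl
        rw [mem_fam, mem_fam, hCst l.1 hl]
      · rintro ⟨T, l⟩ hl hT
        rw [mem_fam] at hl
        simp only at hl hT
        have hT' := hl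
        rw [CL_lamZ C hZsi hiz (hzT T hT)] at hT'
        have hinj : Set.InjOn lam T := by
          by_contra hcon
          rw [if_neg fun h => hcon h.2] at hT'
          simp at hT'
        have hTd : T.card = d := by
          by_contra hcon
          rw [if_neg fun h => hcon h.1] at hT'
          simp at hT'
        rw [if_pos ⟨hTd, hinj⟩] at hT'
        have h5 := hb_lamZ (New := New) ht hinj hZsi hiz (hzT T hT) hXZ
          (fun q => Bm i z X Z B (lamZ lam z (R.erase p) q)) (fun q _ => rfl) l (fun hex => by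
            rw [if_pos hex] at hT'
            exact hT')
        rw [h5]
        exact hb_congr fun q hq => (hBst0 _ (Finset.erase_subset _ _) q (hT hq)).symm
  -- all states with p not in Z
  have hall : ∀ (n : ℕ) (Zs Ys : Finset P), Ys.card = n → Zs ⊆ R → Ys ⊆ R → Disjoint Zs Ys →
      p ∉ Zs → Ex (Bst lam X Z B Zs Ys R) Prod.fst
        (hb Prod.fst (HL lam (Fsys i z X Z New t)) (Bst lam X Z B Zs Ys R))
        (fam (Cst lam C Old New Zs Ys d)) Q := by
    intro n
    induction n with
    | zero =>
      intro Zs Ys hn hZs _ _ hpZ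
      rw [Finset.card_eq_zero] at hn
      subst hn
      exact hst0 Zs hZs fun h => hpZ (h ▸ hp)
    | succ n ih =>
      intro Zs Ys hn hZs hYs hdis hpZ
      by_cases hex : ∃ q ∈ Ys, q ≠ p
      · obtain ⟨q, hq, hqp⟩ := hex
        refine hmerge Zs Ys hZs hYs hdis q hq ?_ ?_
        · exact ih Zs (Ys.erase q) (by rw [Finset.card_erase_of_mem hq, hn]; rfl) hZs
            ((Finset.erase_subset _ _).trans hYs) (hdis.mono_right (Finset.erase_subset _ _)) hpZ
        · refine ih (insert q Zs) (Ys.erase q) (by rw [Finset.card_erase_of_mem hq, hn]; rfl)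
            (Finset.insert_subset (hYs hq) hZs) ((Finset.erase_subset _ _).trans hYs) ?_ ?_
          · rw [Finset.disjoint_insert_left]
            exact ⟨Finset.notMem_erase _ _, hdis.mono_right (Finset.erase_subset _ _)⟩
          · rw [Finset.mem_insert]
            rintro (h | h)
            · exact hqp h.symm
            · exact hpZ h
      · push Not at hex
        have hYp : Ys = {p} := by
          apply Finset.Subset.antisymm
          · intro q hq
            exact Finset.mem_singleton.mpr (hex q hq)
          · rw [Finset.singleton_subset_iff]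
            obtain ⟨q, hq⟩ : Ys.Nonempty := by
              rw [← Finset.card_pos]
              omega
            rw [← hex q hq]
            exact hq
        subst hYp
        by_cases hZR : Zs = R.erase p
        · rw [hZR]
          exact hlast
        · have he : ({p} : Finset P).erase p = ∅ := by simp
          refine hmerge Zs {p} hZs hYs hdis p (Finset.mem_singleton_self p) ?_ ?_
          · rw [he]
            exact hst0 Zs hZs fun h => hpZ (h ▸ hp)
          · rw [he]
            refine hst0 _ (Finset.insert_subset hp hZs) fun h => hZR ?_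
            rw [← h, Finset.erase_insert hpZ]
  -- the full state
  refine (hall _ ∅ R rfl (Finset.empty_subset _) (Finset.Subset.refl _)
    (Finset.disjoint_empty_left _) (Finset.notMem_empty _)).congr ?_ ?_ ?_
  · intro q hq
    unfold Bst
    rw [if_neg (Finset.notMem_empty _)]
    by_cases hqR : q ∈ R
    · rw [if_pos hqR, hRi q hqR, hB]
    · rw [if_neg hqR, if_neg hqR]
  · intro l hl
    rw [mem_fam, mem_fam]
    unfold CL Cst
    by_cases h4 : l.1.card = d ∧ Set.InjOn lam (l.1 : Set P)
    · rw [if_pos h4, if_pos h4, if_neg (by simp)]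
      by_cases h6 : ∃ q ∈ l.1, q ∈ R
      · rw [if_pos h6]
      · rw [if_neg h6]
        have h7 : i ∉ l.1.image lam := by
          intro h8
          obtain ⟨q, hq, hqi⟩ := Finset.mem_image.mp h8
          exact h6 ⟨q, hq, hRmem q (hl hq) hqi⟩
        rw [← hON (l.1.image lam), hnew _ h7, Finset.union_empty]
    · rw [if_neg h4, if_neg h4]
  · intro l _ hl
    apply hb_congr
    intro q hq
    unfold Bst
    rw [if_neg (Finset.notMem_empty _)]
    by_cases hqR : q ∈ R
    · rw [if_pos hqR, hRi q hqR, hB]
    · rw [if_neg hqR, if_neg hqR]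

end Pool.Agent.H21
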