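import Pool.Agent.H21.Asym
import Pool.Agent.H21.Numeric

/-!
The supercritical range: forms of degree `d` generating everything in degree `D`.
-/

set_option linter.unusedSectionVars false

namespace Pool.Agent.H21

open scoped Classical
open MvPolynomial Filter Topology

section General

variable {K : Type*} [Field K]

lemma mul_prodSpan {n a b : ℕ} {V : Submodule K (MvPolynomial (Fin n) K)}
    {f g : MvPolynomial (Fin n) K} (hf : f ∈ homogeneousSubmodule (Fin n) K a)
    (hg : g ∈ prodSpan b V) : f * g ∈ prodSpan (a + b) V := by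
  unfold prodSpan at hg
  refine Submodule.span_induction ?_ ?_ ?_ ?_ hg
  · rintro _ ⟨x, hx, y, hy, rfl⟩
    rw [← mul_assoc]
    apply mul_mem_prodSpan _ hy
    rw [SetLike.mem_coe, mem_homogeneousSubmodule] at hx
    rw [mem_homogeneousSubmodule] at hf ⊢
    exact hf.mul hx
  · rw [mul_zero]
    exact Submodule.zero_mem _
  · intro x y _ _ hx hy
    rw [mul_add]
    exact Submodule.add_mem _ hx hy
  · intro c x _ hx
    rw [mul_smul_comm]
    exact Submodule.smul_mem _ c hx

/-- words split into a product of two shorter words -/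
lemma word_split {n a b : ℕ} (q : Fin (a + b) → Fin n) :
    ∏ j, (X (q j) : MvPolynomial (Fin n) K) =
      (∏ j : Fin a, X (q (Fin.castAdd b j))) * ∏ j : Fin b, X (q (Fin.natAdd a j)) :=
  Fin.prod_univ_add _

lemma word_mem {n e : ℕ} (q : Fin e → Fin n) :
    ∏ j, (X (q j) : MvPolynomial (Fin n) K) ∈ homogeneousSubmodule (Fin n) K e :=
  prod_mem_homogeneous (K := K) (Finset.univ : Finset (Fin e)) q e (by simp)

lemma prodSpan_full {n d D₁ D : ℕ} {V : Submodule K (MvPolynomial (Fin n) K)}
    (h1 : d ≤ D₁) (h2 : D₁ ≤ D)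
    (h : homogeneousSubmodule (Fin n) K D₁ ≤ prodSpan (D₁ - d) V) :
    homogeneousSubmodule (Fin n) K D ≤ prodSpan (D - d) V := by
  obtain ⟨c, rfl⟩ : ∃ c, D = c + D₁ := ⟨D - D₁, by omega⟩
  refine (homogeneousSubmodule_le_span_words n (c + D₁)).trans ?_
  rw [Submodule.span_le]
  rintro _ ⟨q, rfl⟩
  rw [SetLike.mem_coe]
  simp only
  rw [word_split]
  have h3 : c + D₁ - d = c + (D₁ - d) := by omega
  rw [h3]
  exact mul_prodSpan (word_mem _) (h (word_mem _))

/-- A subspace can be enlarged to any intermediate dimension. -/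
lemma exists_extend {M : Type*} [AddCommGroup M] [Module K M] (S : Submodule K M)
    [FiniteDimensional K S] (u : ℕ) (hu : u ≤ Module.finrank K S) (V : Submodule K M)
    (hV : V ≤ S) (hVu : Module.finrank K V ≤ u) :
    ∃ V' : Submodule K M, V ≤ V' ∧ V' ≤ S ∧ Module.finrank K V' = u := by
  obtain ⟨r, hr⟩ : ∃ r, u = Module.finrank K V + r := ⟨u - Module.finrank K V, by omega⟩
  induction r generalizing V with
  | zero => exact ⟨V, le_rfl, hV, by omega⟩
  | succ r ih =>
    have hne : ¬ S ≤ V := by
      intro h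
      have : S = V := le_antisymm h hV
      rw [this] at hu
      omega
    obtain ⟨x, hxS, hxV⟩ := SetLike.not_le_iff_exists.mp hne
    have hVfd : FiniteDimensional K V := Submodule.finiteDimensional_of_le hV
    have h1 : V ⊔ Submodule.span K {x} ≤ S := by
      refine sup_le hV ?_
      rw [Submodule.span_singleton_le_iff_mem]
      exact hxS
    have hx0 : x ≠ 0 := fun h => hxV (h ▸ V.zero_mem)
    have h2 : Module.finrank K (V ⊔ Submodule.span K {x} : Submodule K M) =
        Module.finrank K V + 1 := by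
      have h3 := Submodule.finrank_sup_add_finrank_inf_eq V (Submodule.span K {x})
      have h4 : V ⊓ Submodule.span K {x} = ⊥ := by
        rw [← disjoint_iff, Submodule.disjoint_span_singleton' hx0]
        exact hxV
      rw [h4, finrank_bot, finrank_span_singleton hx0] at h3
      omega
    obtain ⟨V', h5, h6, h7⟩ := ih (V ⊔ Submodule.span K {x}) h1 (by omega) (by omega)
    exact ⟨V', le_sup_left.trans h5, h6, h7⟩

end General

section BaseChange

variable {K : Type*} [Field K] [CharZero K]

/-- extension of scalars from the rationals -/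
noncomputable def bc {n : ℕ} (W : Submodule ℚ (MvPolynomial (Fin n) ℚ)) :
    Submodule K (MvPolynomial (Fin n) K) :=
  Submodule.span K ((MvPolynomial.map (algebraMap ℚ K)) '' (W : Set (MvPolynomial (Fin n) ℚ)))

lemma map_smul_rat {n : ℕ} (c : ℚ) (f : MvPolynomial (Fin n) ℚ) :
    MvPolynomial.map (algebraMap ℚ K) (c • f) =
      (algebraMap ℚ K c) • MvPolynomial.map (algebraMap ℚ K) f := by
  rw [MvPolynomial.smul_eq_C_mul, map_mul, map_C, MvPolynomial.smul_eq_C_mul]

lemma bc_span_le {n : ℕ} {s : Set (MvPolynomial (Fin n) ℚ)} :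
    bc (K := K) (Submodule.span ℚ s) ≤
      Submodule.span K ((MvPolynomial.map (algebraMap ℚ K)) '' s) := by
  unfold bc
  rw [Submodule.span_le]
  rintro _ ⟨f, hf, rfl⟩
  rw [SetLike.mem_coe]
  rw [SetLike.mem_coe] at hf
  refine Submodule.span_induction ?_ ?_ ?_ ?_ hf
  · intro x hx
    exact Submodule.subset_span ⟨x, hx, rfl⟩
  · rw [map_zero]
    exact Submodule.zero_mem _
  · intro x y _ _ hx hy
    rw [map_add]
    exact Submodule.add_mem _ hx hy
  · intro c x _ hx
    rw [map_smul_rat]
    exact Submodule.smul_mem _ _ hx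

lemma finrank_bc_le {n : ℕ} (W : Submodule ℚ (MvPolynomial (Fin n) ℚ)) [FiniteDimensional ℚ W] :
    Module.finrank K (bc (K := K) W) ≤ Module.finrank ℚ W := by
  let b := Module.finBasis ℚ W
  have h1 : W = Submodule.span ℚ (Set.range fun i => (b i : MvPolynomial (Fin n) ℚ)) := by
    have h2 := b.span_eq
    have h3 := congrArg (Submodule.map W.subtype) h2
    rw [Submodule.map_span, Submodule.map_top, Submodule.range_subtype, ← Set.range_comp] at h3
    exact h3.symm
  have h4 : bc (K := K) W ≤ Submodule.span K (Set.range fun i =>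
      MvPolynomial.map (algebraMap ℚ K) (b i : MvPolynomial (Fin n) ℚ)) := by
    conv_lhs => rw [h1]
    refine bc_span_le.trans ?_
    rw [← Set.range_comp]
    rfl
  have hfd : FiniteDimensional K (Submodule.span K (Set.range fun i =>
      MvPolynomial.map (algebraMap ℚ K) (b i : MvPolynomial (Fin n) ℚ))) :=
    FiniteDimensional.span_of_finite K (Set.finite_range _)
  refine (Submodule.finrank_mono h4).trans ?_
  refine (finrank_range_le_card _).trans ?_
  simp

lemma bc_le_homogeneous {n e : ℕ} {W : Submodule ℚ (MvPolynomial (Fin n) ℚ)}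
    (hW : W ≤ homogeneousSubmodule (Fin n) ℚ e) :
    bc (K := K) W ≤ homogeneousSubmodule (Fin n) K e := by
  unfold bc
  rw [Submodule.span_le]
  rintro _ ⟨f, hf, rfl⟩
  have h1 := hW hf
  rw [mem_homogeneousSubmodule] at h1
  rw [SetLike.mem_coe, mem_homogeneousSubmodule]
  exact h1.map _

lemma homogeneous_le_bc (n e : ℕ) :
    homogeneousSubmodule (Fin n) K e ≤ bc (K := K) (homogeneousSubmodule (Fin n) ℚ e) := by
  refine (homogeneousSubmodule_le_span_words n e).trans ?_
  rw [Submodule.span_le]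
  rintro _ ⟨q, rfl⟩
  apply Submodule.subset_span
  refine ⟨∏ j, X (q j), word_mem q, ?_⟩
  rw [map_prod]
  simp

lemma bc_mono {n : ℕ} {W W' : Submodule ℚ (MvPolynomial (Fin n) ℚ)} (h : W ≤ W') :
    bc (K := K) W ≤ bc (K := K) W' :=
  Submodule.span_mono (Set.image_mono h)

lemma bc_sup_le {n : ℕ} (W W' : Submodule ℚ (MvPolynomial (Fin n) ℚ)) :
    bc (K := K) (W ⊔ W') ≤ bc (K := K) W ⊔ bc (K := K) W' := by
  unfold bc
  rw [Submodule.span_le]
  rintro _ ⟨f, hf, rfl⟩
  obtain ⟨x, hx, y, hy, rfl⟩ := Submodule.mem_sup.mp hf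
  rw [map_add]
  exact Submodule.add_mem_sup (Submodule.subset_span ⟨x, hx, rfl⟩)
    (Submodule.subset_span ⟨y, hy, rfl⟩)

lemma bc_prodSpan_le {n e : ℕ} (W : Submodule ℚ (MvPolynomial (Fin n) ℚ)) :
    bc (K := K) (prodSpan e W) ≤ prodSpan e (bc (K := K) W) := by
  unfold prodSpan
  refine bc_span_le.trans ?_
  rw [Submodule.span_le]
  rintro _ ⟨_, ⟨x, hx, y, hy, rfl⟩, rfl⟩
  rw [SetLike.mem_coe]
  simp only
  rw [map_mul]
  apply mul_mem_prodSpan
  · rw [mem_homogeneousSubmodule]
    exact IsHomogeneous.map ((mem_homogeneousSubmodule _ _).mp hx) _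
  · exact Submodule.subset_span ⟨y, hy, rfl⟩

end BaseChange

end Pool.Agent.H21
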