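import Pool.Agent.H21.SubFinal

/-!
The thresholds of the asymptotic theorem.
-/

set_option linter.unusedSectionVars false

namespace Pool.Agent.H21

open scoped Classical
open Filter Topology

lemma expCoeff_small (d i : ℕ) (hi : i < d) (c : ℝ) : expCoeff d i c = 1 / (i.factorial : ℝ) := by
  unfold expCoeff
  rw [Nat.div_eq_of_lt hi]
  simp

lemma hasDerivAt_expCoeff (d i : ℕ) (hd : 1 ≤ d) (hi : d ≤ i) (x : ℝ) :
    HasDerivAt (fun x : ℝ => expCoeff d i x) (-expCoeff d (i - d) x) x := by
  unfold expCoeff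
  have hterm : ∀ k ∈ Finset.range (i / d + 1), HasDerivAt
      (fun x : ℝ => (-x) ^ k / ((k.factorial : ℝ) * ((i - d * k).factorial : ℝ)))
      (((k : ℝ) * (-x) ^ (k - 1) * (-1)) / ((k.factorial : ℝ) * ((i - d * k).factorial : ℝ))) x := by
    intro k _
    exact ((hasDerivAt_neg x).pow k).div_const _
  have h1 := HasDerivAt.fun_sum hterm
  refine h1.congr_deriv ?_
  have hdiv : i / d = (i - d) / d + 1 := by
    rw [← Nat.add_div_right _ (by omega : 0 < d), Nat.sub_add_cancel hi]
  rw [hdiv, Finset.sum_range_succ']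
  have h0 : ((0 : ℕ) : ℝ) * (-x) ^ (0 - 1) * (-1) /
      (((0 : ℕ).factorial : ℝ) * ((i - d * 0).factorial : ℝ)) = 0 := by simp
  rw [h0, add_zero, ← Finset.sum_neg_distrib]
  refine Finset.sum_congr rfl fun k _ => ?_
  have h2 : i - d * (k + 1) = i - d - d * k := by
    rw [mul_add, mul_one]
    omega
  rw [h2, Nat.factorial_succ, Nat.add_sub_cancel]
  have h3 : (k.factorial : ℝ) ≠ 0 := by exact_mod_cast k.factorial_ne_zero
  have h4 : ((i - d - d * k).factorial : ℝ) ≠ 0 := by
    exact_mod_cast (i - d - d * k).factorial_ne_zero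
  have h5 : ((k : ℝ) + 1) ≠ 0 := by positivity
  push_cast
  field_simp

lemma nonneg_below (d D : ℕ) (hd : 1 ≤ d) (c : ℝ) (h : ∀ i ≤ D, 0 ≤ expCoeff d i c) :
    ∀ i ≤ D, ∀ x, 0 ≤ x → x ≤ c → 0 ≤ expCoeff d i x := by
  intro i
  induction i using Nat.strong_induction_on with
  | _ i ih =>
    intro hi x hx hxc
    by_cases hid : i < d
    · rw [expCoeff_small d i hid]
      positivity
    · push Not at hid
      have hanti : AntitoneOn (fun y : ℝ => expCoeff d i y) (Set.Icc 0 c) := by
        apply antitoneOn_of_deriv_nonpos (convex_Icc 0 c) (continuous_hh d i).continuousOn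
        · intro y _
          exact (hasDerivAt_expCoeff d i hd hid y).differentiableAt.differentiableWithinAt
        · intro y hy
          rw [interior_Icc] at hy
          rw [(hasDerivAt_expCoeff d i hd hid y).deriv]
          have := ih (i - d) (by omega) (by omega) y hy.1.le hy.2.le
          linarith
      have h1 := hanti ⟨hx, hxc⟩ ⟨hx.trans hxc, le_rfl⟩ hxc
      exact (h i hi).trans h1

lemma neg_above (d D : ℕ) (hd : 1 ≤ d) (c c' : ℝ) (hcc : c ≤ c')
    (h : ∃ i ≤ D, expCoeff d i c < 0) : ∃ i ≤ D, expCoeff d i c' < 0 := by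
  by_contra hcon
  push Not at hcon
  obtain ⟨i, hi, hneg⟩ := h
  have h1 := nonneg_below d D hd c' hcon i hi c (pos_of_hh_neg hneg).le hcc
  linarith

lemma pos_below (d D : ℕ) (hd : 1 ≤ d) (c : ℝ)
    (h : ∀ i ≤ D, ∀ x, 0 ≤ x → x < c → 0 ≤ expCoeff d i x) :
    ∀ i ≤ D, ∀ x, 0 ≤ x → x < c → 0 < expCoeff d i x := by
  intro i
  induction i using Nat.strong_induction_on with
  | _ i ih =>
    intro hi x hx hxc
    by_cases hid : i < d
    · rw [expCoeff_small d i hid]
      positivity
    · push Not at hid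
      obtain ⟨y, hxy, hyc⟩ := exists_between hxc
      have hanti : StrictAntiOn (fun y : ℝ => expCoeff d i y) (Set.Icc x y) := by
        apply strictAntiOn_of_deriv_neg (convex_Icc x y) (continuous_hh d i).continuousOn
        intro z hz
        rw [interior_Icc] at hz
        rw [(hasDerivAt_expCoeff d i hd hid z).deriv]
        have := ih (i - d) (by omega) (by omega) z (hx.trans hz.1.le) (hz.2.trans hyc)
        linarith
      have h1 := hanti ⟨le_rfl, hxy.le⟩ ⟨hxy.le, le_rfl⟩ hxy
      have h2 := h i hi y (hx.trans hxy.le) hyc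
      simp only at h1
      linarith

/-- Every `c > 0` has a negative coefficient. -/
lemma exists_neg (d : ℕ) (hd : 2 ≤ d) (c : ℝ) (hc : 0 < c) : ∃ i, expCoeff d i c < 0 := by
  by_contra hcon
  push Not at hcon
  set h : ℕ → ℝ := fun i => expCoeff d i c with hh
  have hrec : ∀ i : ℕ, ((i : ℝ) + 1) * h (i + 1) =
      h i - c * (d : ℝ) * (if d ≤ i + 1 then h (i + 1 - d) else 0) := by
    intro i
    have := hh_succ d i (by omega) c
    push_cast at this
    exact this
  have hdec1 : ∀ i : ℕ, ((i : ℝ) + 1) * h (i + 1) ≤ h i := by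
    intro i
    rw [hrec i]
    have h1 : 0 ≤ (if d ≤ i + 1 then h (i + 1 - d) else 0) := by
      split_ifs
      · exact hcon _
      · exact le_rfl
    have h2 : 0 ≤ c * (d : ℝ) := by positivity
    nlinarith
  have hdec : ∀ i, h (i + 1) ≤ h i := by
    intro i
    have h1 := hdec1 i
    have h2 : 0 ≤ h (i + 1) := hcon _
    have h3 : (0 : ℝ) ≤ (i : ℝ) := Nat.cast_nonneg i
    nlinarith
  have hanti : Antitone h := antitone_nat_of_succ_le hdec
  -- the recursion solved for the early term
  have hearly : ∀ m : ℕ, c * (d : ℝ) * h m = h (m + d - 1) - ((m : ℝ) + d) * h (m + d) := by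
    intro m
    have h1 := hrec (m + d - 1)
    have h2 : m + d - 1 + 1 = m + d := by omega
    rw [h2, if_pos (Nat.le_add_left d m), Nat.add_sub_cancel] at h1
    have h3 : (((m + d - 1 : ℕ) : ℝ) + 1) = (m : ℝ) + d := by
      have : ((m + d - 1 : ℕ) : ℝ) + 1 = ((m + d - 1 + 1 : ℕ) : ℝ) := by push_cast; ring
      rw [this, h2]
      push_cast
      ring
    rw [h3] at h1
    linarith
  obtain ⟨M, hM⟩ := exists_nat_gt (1 / (c * d))
  have hcd : 0 < c * (d : ℝ) := by
    have : (0 : ℝ) < (d : ℝ) := by exact_mod_cast (by omega : 0 < d)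
    positivity
  have hzero : ∀ m, M ≤ m → h m = 0 := by
    intro m hm
    have h1 := hearly m
    have h2 : 0 ≤ h (m + d) := hcon _
    have h3 : h (m + d - 1) ≤ h (m + 1) := hanti (by omega)
    have h4 := hdec1 m
    have h5 : 0 ≤ h m := hcon _
    have h6 : (M : ℝ) ≤ (m : ℝ) := by exact_mod_cast hm
    rw [div_lt_iff₀ hcd] at hM
    have h7 : 1 < ((m : ℝ) + 1) * (c * d) := by nlinarith
    have h8 : c * d * h m ≤ h (m + 1) := by
      have h9 : 0 ≤ ((m : ℝ) + d) * h (m + d) := by positivity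
      linarith
    have h9 : ((m : ℝ) + 1) * (c * d * h m) ≤ h m := by
      have h10 : (0 : ℝ) ≤ (m : ℝ) + 1 := by positivity
      calc ((m : ℝ) + 1) * (c * d * h m) ≤ ((m : ℝ) + 1) * h (m + 1) :=
            mul_le_mul_of_nonneg_left h8 h10
        _ ≤ h m := h4
    by_contra hne
    have h10 : 0 < h m := lt_of_le_of_ne h5 (Ne.symm hne)
    nlinarith
  have hdown : ∀ k m, M ≤ m + k → h m = 0 := by
    intro k
    induction k with
    | zero => intro m hm; exact hzero m hm
    | succ k ih =>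
      intro m hm
      have h1 := hearly m
      rw [ih (m + d - 1) (by omega), ih (m + d) (by omega), mul_zero, sub_zero] at h1
      rcases mul_eq_zero.mp h1 with h2 | h2
      · linarith
      · exact h2
  have h0 := hdown M 0 (by omega)
  have h1 : h 0 = 1 := by
    rw [hh]
    exact hh_zero d c
  linarith

/-- The threshold: the infimum of the `γ` for which some coefficient of `exp (z - γ z^d)` in degree
at most `D` is negative. -/
noncomputable def asymThreshold (d D : ℕ) : ℝ := sInf {γ : ℝ | ∃ i ≤ D, expCoeff d i γ < 0}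

lemma thr_bddBelow (d D : ℕ) : BddBelow {γ : ℝ | ∃ i ≤ D, expCoeff d i γ < 0} :=
  ⟨0, fun _ ⟨_, _, h⟩ => (pos_of_hh_neg h).le⟩

lemma thr_nonempty (d D : ℕ) (hd : 2 ≤ d) (hD : d ≤ D) :
    {γ : ℝ | ∃ i ≤ D, expCoeff d i γ < 0}.Nonempty := by
  refine ⟨1, d, hD, ?_⟩
  have h1 : expCoeff d d (1 : ℝ) = 1 / (d.factorial : ℝ) - 1 := by
    unfold expCoeff
    rw [Nat.div_self (by omega), Finset.sum_range_succ, Finset.sum_range_one]
    simp
    ring
  rw [h1]
  have h2 : (1 : ℝ) < (d.factorial : ℝ) := by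
    have : 1 < d.factorial := by
      have h3 := Nat.self_le_factorial d
      omega
    exact_mod_cast this
  have h3 : 1 / (d.factorial : ℝ) < 1 := by
    rw [div_lt_one (by linarith)]
    exact h2
  linarith

lemma neg_of_thr_lt (d D : ℕ) (hd : 2 ≤ d) (hD : d ≤ D) (c : ℝ) (h : asymThreshold d D < c) :
    ∃ i ≤ D, expCoeff d i c < 0 := by
  obtain ⟨c', hc', hlt⟩ := exists_lt_of_csInf_lt (thr_nonempty d D hd hD) h
  exact neg_above d D (by omega) c' c hlt.le hc'

lemma pos_of_lt_thr (d D : ℕ) (hd : 1 ≤ d) (c : ℝ) (hc : 0 ≤ c) (h : c < asymThreshold d D) :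
    ∀ i ≤ D, 0 < expCoeff d i c := by
  intro i hi
  refine pos_below d D hd (asymThreshold d D) ?_ i hi c hc h
  intro i hi x _ hxc
  by_contra hcon
  push Not at hcon
  have : asymThreshold d D ≤ x := csInf_le (thr_bddBelow d D) ⟨i, hi, hcon⟩
  linarith

lemma thr_pos (d D : ℕ) (hd : 2 ≤ d) (hD : d ≤ D) : 0 < asymThreshold d D := by
  have h1 : ∀ᶠ x in 𝓝 (0 : ℝ), ∀ i ∈ Finset.range (D + 1), 0 < expCoeff d i x := by
    rw [Filter.eventually_all_finset]
    intro i _
    apply continuousAt_const.eventually_lt (continuous_hh d i).continuousAt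
    unfold expCoeff
    rw [Finset.sum_range_succ']
    simp only [neg_zero]
    have : ∑ k ∈ Finset.range (i / d), (0 : ℝ) ^ (k + 1) /
        (((k + 1).factorial : ℝ) * ((i - d * (k + 1)).factorial : ℝ)) = 0 := by
      apply Finset.sum_eq_zero
      intro k _
      simp
    rw [this]
    positivity
  obtain ⟨δ, hδ, h2⟩ := Metric.eventually_nhds_iff.mp h1
  have h3 : δ ≤ asymThreshold d D := by
    apply le_csInf (thr_nonempty d D hd hD)
    rintro x ⟨i, hi, hneg⟩
    by_contra hlt
    push Not at hlt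
    have hx := pos_of_hh_neg hneg
    have h4 := h2 (y := x) (by rw [Real.dist_eq, abs_lt]; constructor <;> linarith) i
      (Finset.mem_range.mpr (by omega))
    linarith
  linarith

/-- The thresholds tend to `0`. -/
lemma thr_small (d : ℕ) (hd : 2 ≤ d) (a : ℝ) (ha : 0 < a) :
    ∃ D, d ≤ D ∧ asymThreshold d D < a := by
  obtain ⟨i, hi⟩ := exists_neg d hd (a / 2) (by linarith)
  refine ⟨max d i, le_max_left _ _, ?_⟩
  have h1 : asymThreshold d (max d i) ≤ a / 2 :=
    csInf_le (thr_bddBelow d _) ⟨i, le_max_right _ _, hi⟩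
  linarith

lemma thr_anti (d : ℕ) (hd : 2 ≤ d) {D D' : ℕ} (hD : d ≤ D) (h : D ≤ D') :
    asymThreshold d D' ≤ asymThreshold d D := by
  apply csInf_le_csInf (thr_bddBelow d D') (thr_nonempty d D hd hD)
  rintro x ⟨i, hi, hneg⟩
  exact ⟨i, hi.trans h, hneg⟩

end Pool.Agent.H21
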