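import Pool.Agent.H21.Super
import Pool.Agent.H21.QR

/-!
The upper bound for the dimension of `S_e V`, for all `V`.
-/

set_option linter.unusedSectionVars false

namespace Pool.Agent.H21

open scoped Classical
open MvPolynomial

section General

variable {K : Type} [Field K] {n d : ℕ}

/-- The graded pieces of the ideal. -/
lemma Jr_eq_prodSpan {ι : Type} [Fintype ι] {f : ι → MvPolynomial (Fin n) K}
    (hf : ∀ l, (f l).IsHomogeneous d) (e : ℕ) :
    Jr f 1 (e + d) = prodSpan e (Submodule.span K (Set.range f)) := by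
  apply le_antisymm
  · intro g hg
    rw [mem_Jr, pow_one] at hg
    obtain ⟨c, hc⟩ := Ideal.mem_span_range_iff_exists_fun.mp hg.1
    have h1 : homogeneousComponent (e + d) g = g := by
      rw [homogeneousComponent_of_mem (m := e + d) (n := e + d)
        ((mem_homogeneousSubmodule _ _).mpr hg.2), if_pos rfl]
    rw [← h1, ← hc, map_sum]
    refine Submodule.sum_mem _ fun l _ => ?_
    rw [hc_mul _ (hf l)]
    exact mul_mem_prodSpan (homogeneousComponent_mem e _)
      (Submodule.subset_span (Set.mem_range_self l))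
  · unfold prodSpan
    rw [Submodule.span_le]
    rintro _ ⟨s, hs, v, hv, rfl⟩
    rw [SetLike.mem_coe, mem_Jr, pow_one]
    rw [SetLike.mem_coe] at hs hv
    have h2 : v ∈ (Submodule.restrictScalars K (Ideal.span (Set.range f))) ⊓
        homogeneousSubmodule (Fin n) K d := by
      refine (Submodule.span_le.mpr ?_) hv
      rintro _ ⟨l, rfl⟩
      exact ⟨Ideal.subset_span (Set.mem_range_self l), (mem_homogeneousSubmodule _ _).mpr (hf l)⟩
    rw [Submodule.mem_inf, Submodule.restrictScalars_mem, mem_homogeneousSubmodule] at h2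
    exact ⟨Ideal.mul_mem_left _ _ h2.1, ((mem_homogeneousSubmodule _ _).mp hs).mul h2.2⟩

variable {u : ℕ}

/-- Forms of degree `d`. -/
abbrev Fd (K : Type) [Field K] (n d : ℕ) : Type := ↥(homogeneousSubmodule (Fin n) K d)

/-- The part of degree `e + d` of the ideal generated by the first `k` forms. -/
noncomputable def PS (t : Fin u → Fd K n d) (k e : ℕ) : Submodule K (Fd K n (e + d)) :=
  Submodule.span K (Set.range fun x : {i : Fin u // i.1 < k} × Fd K n e =>
    (⟨x.2.1 * (t x.1.1).1, by
      rw [mem_homogeneousSubmodule]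
      exact ((mem_homogeneousSubmodule _ _).mp x.2.2).mul
        ((mem_homogeneousSubmodule _ _).mp (t x.1.1).2)⟩ : Fd K n (e + d)))

lemma map_PS (t : Fin u → Fd K n d) (k e : ℕ) :
    (PS t k e).map (homogeneousSubmodule (Fin n) K (e + d)).subtype =
      prodSpan e (Submodule.span K ((fun i => (t i).1) '' {i | i.1 < k})) := by
  unfold PS
  rw [Submodule.map_span]
  apply le_antisymm
  · rw [Submodule.span_le]
    rintro _ ⟨_, ⟨x, rfl⟩, rfl⟩
    exact mul_mem_prodSpan x.2.2 (Submodule.subset_span ⟨x.1.1, x.1.2, rfl⟩)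
  · unfold prodSpan
    rw [Submodule.span_le]
    rintro _ ⟨s, hs, v, hv, rfl⟩
    rw [SetLike.mem_coe] at hs hv ⊢
    simp only
    refine Submodule.span_induction ?_ ?_ ?_ ?_ hv
    · rintro _ ⟨i, hi, rfl⟩
      apply Submodule.subset_span
      exact ⟨_, ⟨(⟨i, hi⟩, ⟨s, hs⟩), rfl⟩, rfl⟩
    · rw [mul_zero]
      exact Submodule.zero_mem _
    · intro x y _ _ hx hy
      rw [mul_add]
      exact Submodule.add_mem _ hx hy
    · intro c x _ hx
      rw [mul_smul_comm]
      exact Submodule.smul_mem _ c hx

lemma finrank_PS (t : Fin u → Fd K n d) (k e : ℕ) :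
    Module.finrank K (PS t k e) = Module.finrank K
      (prodSpan e (Submodule.span K ((fun i => (t i).1) '' {i | i.1 < k}))) := by
  rw [← map_PS]
  exact (Submodule.equivMapOfInjective _ (Submodule.injective_subtype _) _).finrank_eq

/-- Codimension in degree `E` of the ideal generated by the first `k` forms. -/
noncomputable def cd (t : Fin u → Fd K n d) (k E : ℕ) : ℤ :=
  (Module.finrank K (Fd K n E) : ℤ) -
    (if d ≤ E then (Module.finrank K (prodSpan (E - d)
      (Submodule.span K ((fun i => (t i).1) '' {i | i.1 < k}))) : ℤ) else 0)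

lemma cd_step (t : Fin u → Fd K n d) (k : ℕ) (hk : k < u) (e : ℕ) :
    cd t k (e + d) - cd t k e ≤ cd t (k + 1) (e + d) := by
  set Vk := Submodule.span K ((fun i => (t i).1) '' {i : Fin u | i.1 < k}) with hVk
  set Vk1 := Submodule.span K ((fun i => (t i).1) '' {i : Fin u | i.1 < k + 1}) with hVk1
  set g := (t ⟨k, hk⟩).1 with hg
  have hgd : g.IsHomogeneous d := (mem_homogeneousSubmodule _ _).mp (t ⟨k, hk⟩).2
  have hVkd : Vk ≤ homogeneousSubmodule (Fin n) K d := by
    rw [hVk, Submodule.span_le]
    rintro _ ⟨i, _, rfl⟩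
    exact (t i).2
  let μ : MvPolynomial (Fin n) K →ₗ[K] MvPolynomial (Fin n) K := LinearMap.mulRight K g
  have hμ : ∀ s, μ s = s * g := fun s => rfl
  set J0 := prodSpan e Vk with hJ0
  have hfin0 : FiniteDimensional K J0 := Submodule.finiteDimensional_of_le (prodSpan_le hVkd)
  -- the elements of degree e already in the ideal
  set J' : Submodule K (MvPolynomial (Fin n) K) :=
    if d ≤ e then prodSpan (e - d) Vk else ⊥ with hJ'
  have hJ'le : J' ≤ homogeneousSubmodule (Fin n) K e := by
    rw [hJ']
    split_ifs with h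
    · have := prodSpan_le (e := e - d) hVkd
      rwa [Nat.sub_add_cancel h] at this
    · exact bot_le
  have hJ'map : J'.map μ ≤ J0 := by
    rw [hJ']
    split_ifs with h
    · rw [Submodule.map_le_iff_le_comap]
      conv_lhs => unfold prodSpan
      rw [Submodule.span_le]
      rintro _ ⟨s, hs, v, hv, rfl⟩
      rw [SetLike.mem_coe] at hs hv
      rw [SetLike.mem_coe, Submodule.mem_comap, hμ]
      have h1 : s * v * g = (s * g) * v := by ring
      simp only
      rw [h1]
      apply mul_mem_prodSpan _ hv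
      rw [mem_homogeneousSubmodule]
      have h2 := ((mem_homogeneousSubmodule _ _).mp hs).mul hgd
      rwa [Nat.sub_add_cancel h] at h2
    · rw [Submodule.map_bot]
      exact bot_le
  have hle : prodSpan e Vk1 ≤ J0 ⊔ (homogeneousSubmodule (Fin n) K e).map μ := by
    conv_lhs => unfold prodSpan
    rw [Submodule.span_le]
    rintro _ ⟨s, hs, v, hv, rfl⟩
    rw [SetLike.mem_coe] at hs hv ⊢
    simp only
    refine Submodule.span_induction ?_ ?_ ?_ ?_ hv
    · rintro _ ⟨i, hi, rfl⟩
      change i.1 < k + 1 at hi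
      by_cases hik : i.1 < k
      · exact Submodule.mem_sup_left (mul_mem_prodSpan hs (Submodule.subset_span ⟨i, hik, rfl⟩))
      · have hi' : i = ⟨k, hk⟩ := Fin.ext (by simp only; omega)
        rw [hi']
        exact Submodule.mem_sup_right ⟨s, hs, rfl⟩
    · rw [mul_zero]
      exact Submodule.zero_mem _
    · intro x y _ _ hx hy
      rw [mul_add]
      exact Submodule.add_mem _ hx hy
    · intro c x _ hx
      rw [mul_smul_comm]
      exact Submodule.smul_mem _ c hx
  -- dimension count
  have hfinS : FiniteDimensional K ↥((homogeneousSubmodule (Fin n) K e).map μ) := inferInstance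
  have h3 : Module.finrank K (prodSpan e Vk1) + Module.finrank K J' ≤
      Module.finrank K J0 + Module.finrank K (homogeneousSubmodule (Fin n) K e) := by
    have h4 := Submodule.finrank_mono hle
    have h5 := finrank_map_add_ker J0.mkQ (J0 ⊔ (homogeneousSubmodule (Fin n) K e).map μ)
    rw [Submodule.ker_mkQ, inf_eq_right.mpr le_sup_left, Submodule.map_sup,
      Submodule.mkQ_map_self, bot_sup_eq, ← Submodule.map_comp] at h5
    have h6 := finrank_map_add_ker (J0.mkQ ∘ₗ μ) (homogeneousSubmodule (Fin n) K e)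
    have h7 : J' ≤ homogeneousSubmodule (Fin n) K e ⊓ LinearMap.ker (J0.mkQ ∘ₗ μ) := by
      refine le_inf hJ'le ?_
      intro φ hφ
      rw [LinearMap.mem_ker, LinearMap.comp_apply, Submodule.mkQ_apply,
        Submodule.Quotient.mk_eq_zero]
      exact hJ'map ⟨φ, hφ, rfl⟩
    have hfin7 : FiniteDimensional K
        ↥(homogeneousSubmodule (Fin n) K e ⊓ LinearMap.ker (J0.mkQ ∘ₗ μ)) :=
      Submodule.finiteDimensional_of_le inf_le_left
    have h8 := Submodule.finrank_mono h7
    omega
  have h9 : (if d ≤ e then (Module.finrank K (prodSpan (e - d) Vk) : ℤ) else 0) =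
      (Module.finrank K J' : ℤ) := by
    by_cases h : d ≤ e
    · have h10 : J' = prodSpan (e - d) Vk := by rw [hJ', if_pos h]
      rw [if_pos h, h10]
    · have h10 : J' = ⊥ := by rw [hJ', if_neg h]
      rw [if_neg h, h10]
      simp
  unfold cd
  rw [← hVk, ← hVk1, if_pos (Nat.le_add_left d e), if_pos (Nat.le_add_left d e),
    Nat.add_sub_cancel, h9]
  have h10 : (Module.finrank K (prodSpan e Vk1) : ℤ) + (Module.finrank K J' : ℤ) ≤
      (Module.finrank K J0 : ℤ) + (Module.finrank K (homogeneousSubmodule (Fin n) K e) : ℤ) := by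
    exact_mod_cast h3
  linarith

lemma cd_small (t : Fin u → Fd K n d) (k E : ℕ) (hE : E < d) :
    cd t k E = (Module.finrank K (Fd K n E) : ℤ) := by
  unfold cd
  rw [if_neg (by omega), sub_zero]

lemma cd_zero (t : Fin u → Fd K n d) (E : ℕ) :
    cd t 0 E = (Module.finrank K (Fd K n E) : ℤ) := by
  unfold cd
  have h1 : (fun i => (t i).1) '' {i : Fin u | i.1 < 0} = ∅ := by
    rw [Set.image_eq_empty]
    ext i
    simp
  have h2 : prodSpan (E - d) (Submodule.span K (∅ : Set (MvPolynomial (Fin n) K))) = ⊥ := by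
    unfold prodSpan
    rw [Submodule.span_empty, Submodule.span_eq_bot]
    rintro _ ⟨s, _, v, hv, rfl⟩
    rw [SetLike.mem_coe, Submodule.mem_bot] at hv
    simp only
    rw [hv, mul_zero]
  rw [h1, h2]
  simp

lemma finrank_Fd (hn : 0 < n) (E : ℕ) :
    (Module.finrank K (Fd K n E) : ℤ) = serCoeff n d 0 E := by
  rw [finrank_forms, fc_zero, Fintype.card_fin]
  have h4 : (n + E - 1) = n - 1 + E := by omega
  rw [h4]
  have h5 := Nat.choose_symm_add (a := n - 1) (b := E)
  rw [h5]

lemma ser_small (hd : 1 ≤ d) (E : ℕ) (hE : E < d) : ∀ k, serCoeff n d k E = serCoeff n d 0 E := by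
  intro k
  induction k with
  | zero => rfl
  | succ k ih => rw [fc_succ n d k E hd, if_neg (by omega), ih, sub_zero]

/-- If every prefix is at least as good as predicted then it is exactly as predicted. -/
lemma cd_eq (hn : 0 < n) (hd : 1 ≤ d) (D : ℕ) (t : Fin u → Fd K n d)
    (h : ∀ k ≤ u, ∀ e, e + d ≤ D → cd t k (e + d) ≤ serCoeff n d k (e + d)) :
    ∀ k ≤ u, ∀ E ≤ D, cd t k E = serCoeff n d k E := by
  intro k
  induction k with
  | zero =>
    intro _ E _
    rw [cd_zero, finrank_Fd hn]
  | succ k ih =>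
    intro hk E hE
    by_cases hEd : E < d
    · rw [cd_small _ _ _ hEd, ser_small hd E hEd, finrank_Fd hn]
    · push Not at hEd
      obtain ⟨e, rfl⟩ : ∃ e, E = e + d := ⟨E - d, by omega⟩
      refine le_antisymm (h (k + 1) hk e hE) ?_
      have h1 := cd_step t k (by omega) e
      rw [ih (by omega) _ hE, ih (by omega) e (by omega)] at h1
      rw [fc_succ n d k _ hd, if_pos (Nat.le_add_left d e), Nat.add_sub_cancel]
      exact h1

/-- The upper bound. -/
theorem upper_bound [Infinite K] (hn : 0 < n) (hd : 1 ≤ d) (D : ℕ)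
    (hex : ∀ k ≤ u, ∃ f : Fin k → Fd K n d, ∀ e, e + d ≤ D →
      cd f k (e + d) ≤ serCoeff n d k (e + d)) (g : Fin u → Fd K n d) (e₀ : ℕ)
    (he₀ : e₀ + d ≤ D) :
    serCoeff n d u (e₀ + d) ≤ cd g u (e₀ + d) ∧ ∀ E ≤ D, 0 ≤ serCoeff n d u E := by
  let r : ℕ → ℕ → ℕ := fun k e =>
    ((Module.finrank K (Fd K n (e + d)) : ℤ) - serCoeff n d k (e + d)).toNat
  -- the list of conditions
  let S : Finset (ℕ × ℕ × ℕ) :=
    insert (u, e₀, Module.finrank K (PS g u e₀))
      (((Finset.range (u + 1)) ×ˢ (Finset.range (D + 1))).image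
        (fun x => (x.1, x.2, if x.2 + d ≤ D then r x.1 x.2 else 0)))
  obtain ⟨h, _, hS⟩ := exists_simultaneous (K := K) (P := Fin u → Fd K n d) Set.univ
    (fun _ _ _ _ _ => Set.mem_univ _) Set.univ_nonempty S
    (fun p => Fd K n (p.2.1 + d)) (fun p => {i : Fin u // i.1 < p.1} × Fd K n p.2.1)
    (fun p t x => (⟨x.2.1 * (t x.1.1).1, by
      rw [mem_homogeneousSubmodule]
      exact ((mem_homogeneousSubmodule _ _).mp x.2.2).mul
        ((mem_homogeneousSubmodule _ _).mp (t x.1.1).2)⟩ : Fd K n (p.2.1 + d)))
    (by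
      intro p t t' c x
      apply Subtype.ext
      simp only [Pi.add_apply, Pi.smul_apply, Pi.sub_apply, Submodule.coe_add,
        Submodule.coe_smul, Submodule.coe_sub, mul_add, mul_smul_comm, mul_sub])
    (fun p => p.2.2)
    (by
      intro p hp
      rw [Finset.mem_insert, Finset.mem_image] at hp
      rcases hp with rfl | ⟨⟨k, e⟩, hke, rfl⟩
      · exact ⟨g, Set.mem_univ _, le_rfl⟩
      · rw [Finset.mem_product, Finset.mem_range, Finset.mem_range] at hke
        simp only at hke ⊢
        by_cases he : e + d ≤ D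
        · rw [if_pos he]
          obtain ⟨f, hf⟩ := hex k (by omega)
          have h1 := hf e he
          refine ⟨fun i => if hi : i.1 < k then f ⟨i.1, hi⟩ else 0, Set.mem_univ _, ?_⟩
          simp only [r]
          rw [Int.toNat_le]
          unfold cd at h1
          rw [if_pos (Nat.le_add_left d e), Nat.add_sub_cancel] at h1
          have h2 := finrank_PS (fun i : Fin u => if hi : i.1 < k then f ⟨i.1, hi⟩ else 0) k e
          unfold PS at h2
          rw [h2]
          have h3 : (fun i : Fin u => (if hi : i.1 < k then f ⟨i.1, hi⟩ else 0 :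
              Fd K n d).1) '' {i : Fin u | i.1 < k} = (fun i => (f i).1) '' {i : Fin k | i.1 < k} := by
            ext q
            constructor
            · rintro ⟨i, hi, rfl⟩
              change i.1 < k at hi
              refine ⟨⟨i.1, hi⟩, hi, ?_⟩
              simp only
              rw [dif_pos hi]
            · rintro ⟨i, hi, rfl⟩
              change i.1 < k at hi
              refine ⟨⟨i.1, by omega⟩, hi, ?_⟩
              simp only
              rw [dif_pos hi]
          rw [h3]
          linarith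
        · rw [if_neg he]
          exact ⟨g, Set.mem_univ _, Nat.zero_le _⟩)
  -- consequences
  have hcond : ∀ k ≤ u, ∀ e, e + d ≤ D → cd h k (e + d) ≤ serCoeff n d k (e + d) := by
    intro k hk e he
    have h1 := hS (k, e, if e + d ≤ D then r k e else 0) (Finset.mem_insert_of_mem
      (Finset.mem_image.mpr ⟨(k, e), Finset.mem_product.mpr
        ⟨Finset.mem_range.mpr (by simp only; omega), Finset.mem_range.mpr (by simp only; omega)⟩,
        rfl⟩))
    simp only at h1
    rw [if_pos he] at h1
    have h2 := finrank_PS h k e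
    unfold PS at h2
    rw [h2] at h1
    simp only [r] at h1
    rw [Int.toNat_le] at h1
    unfold cd
    rw [if_pos (Nat.le_add_left d e), Nat.add_sub_cancel]
    linarith
  have heq := cd_eq hn hd D h hcond
  have hge : Module.finrank K (PS g u e₀) ≤ Module.finrank K (PS h u e₀) :=
    hS (u, e₀, Module.finrank K (PS g u e₀)) (Finset.mem_insert_self _ _)
  constructor
  · rw [← heq u le_rfl _ he₀]
    unfold cd
    rw [if_pos (Nat.le_add_left d e₀), if_pos (Nat.le_add_left d e₀), Nat.add_sub_cancel,
      ← finrank_PS, ← finrank_PS]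
    have : (Module.finrank K (PS g u e₀) : ℤ) ≤ (Module.finrank K (PS h u e₀) : ℤ) := by
      exact_mod_cast hge
    linarith
  · intro E hE
    rw [← heq u le_rfl E hE]
    by_cases hEd : E < d
    · rw [cd_small _ _ _ hEd]
      positivity
    · push Not at hEd
      obtain ⟨e, rfl⟩ : ∃ e, E = e + d := ⟨E - d, by omega⟩
      unfold cd
      rw [if_pos (Nat.le_add_left d e), Nat.add_sub_cancel, ← finrank_PS]
      have h1 : Module.finrank K (PS h u e) ≤ Module.finrank K (Fd K n (e + d)) :=
        Submodule.finrank_le _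
      have h2 : (Module.finrank K (PS h u e) : ℤ) ≤ (Module.finrank K (Fd K n (e + d)) : ℤ) := by
        exact_mod_cast h1
      linarith

end General

end Pool.Agent.H21
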